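import Pool.Agent.Lib.MP_dec75e_mp.U.Df
import Pool.Agent.Lib.MP_dec75e_mp.L.Abs

/-! Consequences of the canonical commutation relations. -/

open MeasureTheory Finset Function
open scoped Real

noncomputable section

namespace Pool.Agent.BoseLHY

open Pool.Agent.BoseTail

variable {V : Type} [AddCommGroup V] [Module ℝ V] {κ : Type} [DecidableEq κ]
  {β : V →ₗ[ℝ] V →ₗ[ℝ] ℝ} {c cd : κ → Module.End ℝ V} {s : Finset κ}

omit [DecidableEq κ] in
theorem lin_apply_ccrau (d : κ → Module.End ℝ V) (u : κ → ℝ) (f : V) :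
    lin d s u f = ∑ m ∈ s, u m • d m f := by
  simp only [lin, LinearMap.sum_apply, LinearMap.smul_apply]

theorem c_lin_ccrau (h : CCR β c cd s) {m : κ} (hm : m ∈ s) (u : κ → ℝ) (f : V) :
    c m (lin cd s u f) = lin cd s u (c m f) + u m • f := by
  have e : ∀ k ∈ s, c m (u k • cd k f) = u k • cd k (c m f) + if m = k then u k • f else 0 := by
    intro k hk
    rw [map_smul, h.ccr m hm k hk, smul_add]
    split_ifs <;> simp
  rw [lin_apply_ccrau, lin_apply_ccrau, map_sum, sum_congr rfl e, sum_add_distrib, sum_ite_eq s m,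
    if_pos hm]

theorem deg_pair_ccrau (h : CCR β c cd s) {r : ℝ} {f : V} (hf : Deg c cd s r f) (g : V) :
    ∑ m ∈ s, β (c m f) (c m g) = r * β f g := by
  have e : β (∑ m ∈ s, cd m (c m f)) g = β (r • f) g := by rw [hf]
  simp only [map_sum, LinearMap.sum_apply, map_smul, LinearMap.smul_apply, smul_eq_mul] at e
  rw [← e]
  exact sum_congr rfl fun m hm => (h.adj m hm _ _).symm

theorem CCR.lin_adj (h : CCR β c cd s) (u : κ → ℝ) (f g : V) :
    β (lin cd s u f) g = β f (lin c s u g) := by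
  simp only [lin_apply_ccrau, map_sum, LinearMap.sum_apply, map_smul, LinearMap.smul_apply]
  exact sum_congr rfl fun m hm => by rw [h.adj m hm]

theorem CCR.lin_ccr (h : CCR β c cd s) (u u' : κ → ℝ) (f : V) :
    lin c s u (lin cd s u' f) = lin cd s u' (lin c s u f) + (∑ m ∈ s, u m * u' m) • f := by
  rw [lin_apply_ccrau c, lin_apply_ccrau c, map_sum, sum_smul, ← sum_add_distrib]
  refine sum_congr rfl fun m hm => ?_
  rw [c_lin_ccrau h hm, map_smul, smul_add, smul_smul]

theorem CCR.c_lin (h : CCR β c cd s) {m : κ} (hm : m ∈ s) (u : κ → ℝ) (f : V) :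
    c m (lin cd s u f) = lin cd s u (c m f) + u m • f := by
  exact c_lin_ccrau h hm u f

omit [DecidableEq κ] in
theorem lin_add (d : κ → Module.End ℝ V) (u u' : κ → ℝ) :
    lin d s (fun m => u m + u' m) = lin d s u + lin d s u' := by
  simp only [lin, add_smul, sum_add_distrib]

omit [DecidableEq κ] in
theorem lin_smul (d : κ → Module.End ℝ V) (t : ℝ) (u : κ → ℝ) :
    lin d s (fun m => t * u m) = t • lin d s u := by
  simp only [lin, smul_sum, smul_smul]

omit [DecidableEq κ] in
theorem lin_dop (γ σ u : κ → ℝ) :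
    lin (dop c cd γ σ) s u = lin c s (fun m => γ m * u m) + lin cd s fun m => σ m * u m := by
  simp only [lin, dop, smul_add, smul_smul, sum_add_distrib, mul_comm]

omit [DecidableEq κ] in
theorem Vac.lin {Ξ : V} (h : Vac c s Ξ) (u : κ → ℝ) : lin c s u Ξ = 0 := by
  rw [lin_apply_ccrau]
  exact sum_eq_zero fun m hm => by rw [h m hm, smul_zero]

omit [DecidableEq κ] in
theorem Vac.deg {Ξ : V} (h : Vac c s Ξ) : Deg c cd s 0 Ξ := by
  rw [Deg, zero_smul]
  exact sum_eq_zero fun m hm => by rw [h m hm, map_zero]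

omit [DecidableEq κ] in
theorem Deg.add {r : ℝ} {f g : V} (hf : Deg c cd s r f) (hg : Deg c cd s r g) :
    Deg c cd s r (f + g) := by
  unfold Deg at *
  simp only [map_add, sum_add_distrib, hf, hg, smul_add]

omit [DecidableEq κ] in
theorem Deg.smul {r : ℝ} {f : V} (hf : Deg c cd s r f) (t : ℝ) : Deg c cd s r (t • f) := by
  unfold Deg at *
  simp only [map_smul, ← smul_sum, hf]
  exact smul_comm _ _ _

omit [DecidableEq κ] in
theorem Deg.sum {ι : Type} {t : Finset ι} {r : ℝ} {f : ι → V} (hf : ∀ i ∈ t, Deg c cd s r (f i)) :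
    Deg c cd s r (∑ i ∈ t, f i) := by
  unfold Deg at *
  simp only [map_sum]
  rw [sum_comm, smul_sum]
  exact sum_congr rfl hf

theorem Deg.raise (h : CCR β c cd s) {r : ℝ} {f : V} (hf : Deg c cd s r f) {m : κ} (hm : m ∈ s) :
    Deg c cd s (r + 1) (cd m f) := by
  unfold Deg at *
  have e : ∀ k ∈ s, cd k (c k (cd m f)) = cd m (cd k (c k f)) + if k = m then cd k f else 0 := by
    intro k hk
    rw [h.ccr k hk m hm, map_add, h.dd k hk m hm]
    split_ifs <;> simp
  rw [sum_congr rfl e, sum_add_distrib, ← map_sum, hf, sum_ite_eq' s m, if_pos hm, map_smul,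
    add_smul, one_smul]

theorem Deg.lower (h : CCR β c cd s) {r : ℝ} {f : V} (hf : Deg c cd s r f) {m : κ} (hm : m ∈ s) :
    Deg c cd s (r - 1) (c m f) := by
  unfold Deg at *
  have e : ∀ k ∈ s, cd k (c k (c m f)) = c m (cd k (c k f)) - if m = k then c k f else 0 := by
    intro k hk
    rw [h.ccr m hm k hk, h.cc k hk m hm, add_sub_cancel_right]
  rw [sum_congr rfl e, sum_sub_distrib, ← map_sum, hf, sum_ite_eq s m, if_pos hm, map_smul,
    sub_smul, one_smul]

theorem Deg.lin_cd (h : CCR β c cd s) {r : ℝ} {f : V} (hf : Deg c cd s r f) (u : κ → ℝ) :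
    Deg c cd s (r + 1) (lin cd s u f) := by
  rw [lin_apply_ccrau]
  exact Deg.sum fun m hm => (hf.raise h hm).smul _

theorem Deg.lin_c (h : CCR β c cd s) {r : ℝ} {f : V} (hf : Deg c cd s r f) (u : κ → ℝ) :
    Deg c cd s (r - 1) (lin c s u f) := by
  rw [lin_apply_ccrau]
  exact Deg.sum fun m hm => (hf.lower h hm).smul _

theorem Deg.orth (h : CCR β c cd s) {r r' : ℝ} {f g : V} (hf : Deg c cd s r f)
    (hg : Deg c cd s r' g) (hr : r ≠ r') : β f g = 0 := by
  have h1 := deg_pair_ccrau h hf g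
  have h2 := deg_pair_ccrau h hg f
  have h3 : ∑ m ∈ s, β (c m g) (c m f) = ∑ m ∈ s, β (c m f) (c m g) :=
    sum_congr rfl fun m _ => h.psd.symm _ _
  rw [h3, h1, h.psd.symm g f] at h2
  exact (mul_eq_zero.1 (show (r - r') * β f g = 0 by linarith)).resolve_left (sub_ne_zero.2 hr)

theorem Deg.sum_nq (h : CCR β c cd s) {r : ℝ} {f : V} (hf : Deg c cd s r f) :
    ∑ m ∈ s, nq β (c m f) = r * nq β f := by
  exact deg_pair_ccrau h hf f

omit [DecidableEq κ] in
/-- Cauchy-Schwarz: expand and use `PSD.cs`, or pair with the sum and use `PSD.cs_sum`. -/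
theorem PSD.nq_lin_le (h : PSD β) (d : κ → Module.End ℝ V) (u : κ → ℝ) (f : V) :
    nq β (lin d s u f) ≤ n2 s u * ∑ m ∈ s, nq β (d m f) := by
  have h0 := h.nq_nonneg (lin d s u f)
  have hA : 0 ≤ ∑ m ∈ s, nq β (d m f) := sum_nonneg fun m _ => h.nq_nonneg _
  have hn : 0 ≤ n2 s u := sum_nonneg fun m _ => sq_nonneg _
  have h1 := h.cs_sum s (fun m => d m f) fun m => u m • lin d s u f
  have h2 : nq β (lin d s u f) = ∑ m ∈ s, β (d m f) (u m • lin d s u f) := by
    conv_lhs => rw [nq, h.symm]; arg 2; rw [lin_apply_ccrau]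
    simp only [map_sum, map_smul]
    exact sum_congr rfl fun m _ => by rw [h.symm]
  have h3 : ∑ m ∈ s, nq β (u m • lin d s u f) = n2 s u * nq β (lin d s u f) := by
    simp only [nq_smul, n2, sum_mul]
  rw [h3, ← Real.sqrt_mul hA] at h1
  have h4 : nq β (lin d s u f) ≤ √((∑ m ∈ s, nq β (d m f)) * (n2 s u * nq β (lin d s u f))) :=
    h2.le.trans ((sum_le_sum fun m _ => le_abs_self _).trans h1)
  have h5 := pow_le_pow_left₀ h0 h4 2
  rw [Real.sq_sqrt (by positivity)] at h5
  rcases h0.eq_or_lt with h6 | h6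
  · rw [← h6]; positivity
  · refine le_of_mul_le_mul_right ?_ h6
    linarith

theorem Deg.nq_lin_c (h : CCR β c cd s) {r : ℝ} {f : V} (hf : Deg c cd s r f) (u : κ → ℝ) :
    nq β (lin c s u f) ≤ n2 s u * (r * nq β f) := by
  rw [← hf.sum_nq h]
  exact h.psd.nq_lin_le c u f

theorem CCR.nq_lin_cd (h : CCR β c cd s) (u : κ → ℝ) (f : V) :
    nq β (lin cd s u f) = n2 s u * nq β f + nq β (lin c s u f) := by
  rw [nq, h.lin_adj, h.lin_ccr, map_add, map_smul, h.psd.symm f, h.lin_adj, smul_eq_mul, add_comm]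
  simp only [nq, n2, sq]

theorem CCR.nq_cd (h : CCR β c cd s) {m : κ} (hm : m ∈ s) (f : V) :
    nq β (cd m f) = nq β f + nq β (c m f) := by
  rw [nq, h.adj m hm, h.ccr m hm m hm, if_pos rfl, map_add, h.psd.symm f, h.adj m hm, add_comm]
  rfl

theorem Deg.nq_lin_cd (h : CCR β c cd s) {r : ℝ} {f : V} (hf : Deg c cd s r f) (u : κ → ℝ) :
    nq β (lin cd s u f) ≤ n2 s u * ((r + 1) * nq β f) := by
  rw [h.nq_lin_cd]
  linarith [hf.nq_lin_c h u]

/-- Shifts by constants preserve the commutation relations. -/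
theorem CCR.shift (h : CCR β c cd s) (t : κ → ℝ) :
    CCR β (fun m => c m - t m • 1) (fun m => cd m - t m • 1) s := by
  refine ⟨h.psd, fun m hm f g => ?_, fun m hm m' hm' f => ?_, fun m hm m' hm' f => ?_,
    fun m hm m' hm' f => ?_⟩ <;>
    simp only [LinearMap.sub_apply, LinearMap.smul_apply, Module.End.one_apply, map_sub, map_smul]
  · rw [h.adj m hm]
  · rw [h.ccr m hm m' hm']
    module
  · rw [h.cc m hm m' hm']
    module
  · rw [h.dd m hm m' hm']
    module

/-- Bogolyubov transformations preserve the commutation relations. -/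
theorem CCR.bog (h : CCR β c cd s) {γ σ : κ → ℝ} (hy : ∀ m, γ m ^ 2 = 1 + σ m ^ 2) :
    CCR β (fun m => γ m • c m - σ m • cd m) (fun m => γ m • cd m - σ m • c m) s := by
  refine ⟨h.psd, fun m hm f g => ?_, fun m hm m' hm' f => ?_, fun m hm m' hm' f => ?_,
    fun m hm m' hm' f => ?_⟩ <;>
    simp only [LinearMap.sub_apply, LinearMap.smul_apply, map_sub, map_smul]
  · rw [h.adj m hm f g, h.psd.symm (c m f) g, ← h.adj m hm g f, h.psd.symm (cd m g) f]
  · rw [h.ccr m hm m' hm', h.ccr m' hm' m hm, h.cc m hm m' hm', h.dd m hm m' hm']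
    by_cases e : m = m'
    · subst e
      simp only [if_true]
      linear_combination (norm := module) (hy m) • f
    · simp only [if_neg e, if_neg (Ne.symm e)]
      module
  · rw [h.ccr m hm m' hm', h.ccr m' hm' m hm, h.cc m hm m' hm', h.dd m hm m' hm']
    by_cases e : m = m'
    · subst e
      rfl
    · simp only [if_neg e, if_neg (Ne.symm e)]
      module
  · rw [h.ccr m hm m' hm', h.ccr m' hm' m hm, h.cc m hm m' hm', h.dd m hm m' hm']
    by_cases e : m = m'
    · subst e
      rfl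
    · simp only [if_neg e, if_neg (Ne.symm e)]
      module

omit [DecidableEq κ] in
theorem dop_bog {γ σ : κ → ℝ} (hy : ∀ m, γ m ^ 2 = 1 + σ m ^ 2) :
    dop (fun m => γ m • c m - σ m • cd m) (fun m => γ m • cd m - σ m • c m) γ σ = c := by
  funext m
  unfold dop
  linear_combination (norm := module) (hy m) • c m

end Pool.Agent.BoseLHY
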