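import Pool.Agent.Lib.MP_dec75e_mp.U.Sin3
import Pool.Agent.Lib.MP_dec75e_mp.L.Lift

/-! Orthogonality of the modes of all boxes. -/

open MeasureTheory Finset Function
open scoped Real

noncomputable section

namespace Pool.Agent.BoseLHY

open Pool.Agent.BoseTail

variable {L : ℝ} [Fact (0 < L)] {C : Type} {Q : C → Box}

theorem ext0_apply_orthgu (B : Box) (h : BF R3) (x : R3) :
    (ext0 B h).1 x = (√B.vol)⁻¹ * (B.set.indicator (fun _ => (1 : ℝ)) x * h.1 x) := rfl

theorem ext0_of_mem (B : Box) (h : BF R3) {x : R3} (hx : x ∈ B.set) :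
    (ext0 B h).1 x = (√B.vol)⁻¹ * h.1 x := by
  rw [ext0_apply_orthgu, Set.indicator_of_mem hx, one_mul]

theorem ext0_of_notMem (B : Box) (h : BF R3) {x : R3} (hx : x ∉ B.set) : (ext0 B h).1 x = 0 := by
  rw [ext0_apply_orthgu, Set.indicator_of_notMem hx, zero_mul, mul_zero]

theorem Ins.subset (h : Ins L Q) (k : C) : (Q k).set ⊆ (big L).set := by
  intro x hx c _
  have h1 := hx c (Set.mem_univ c)
  have h2 := h.lo k c
  have h3 := h.hi k c
  refine ⟨?_, ?_⟩
  · change (0 : ℝ) ≤ x c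
    linarith [h1.1]
  · change x c < (0 : ℝ) + L
    linarith [h1.2]

theorem big_vol_orthgu : (big L).vol = L ^ 3 := big_cube.vol

theorem Ins.integral_ind (h : Ins L Q) (k : C) (f : R3 → ℝ) :
    L ^ 3 * ∫ x, (Q k).set.indicator f x ∂((big L).μ : Measure R3) =
      (Q k).vol * ∫ x, f x ∂((Q k).μ : Measure R3) := by
  rw [(big L).integral_mu, (Q k).integral_mu, setIntegral_indicator (Q k).measurableSet_set,
    Set.inter_eq_self_of_subset_right (h.subset k), big_vol_orthgu]
  have h1 := (Q k).vol_pos.ne'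
  have h2 : L ≠ 0 := (Fact.out : 0 < L).ne'
  field_simp

theorem Ins.integral_ind2 (h : Ins L Q) (k : C) (f : R3 → R3 → ℝ) :
    (L ^ 3) ^ 2 * (big L).ii (fun x y => ((Q k).set ×ˢ (Q k).set).indicator (uncurry f) (x, y)) =
      (Q k).vol ^ 2 * (Q k).ii f := by
  have h1 : ∀ x, L ^ 3 * ∫ y, ((Q k).set ×ˢ (Q k).set).indicator (uncurry f) (x, y)
      ∂((big L).μ : Measure R3) =
      (Q k).set.indicator (fun x => (Q k).vol * ∫ y, f x y ∂((Q k).μ : Measure R3)) x := by
    intro x
    by_cases hx : x ∈ (Q k).set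
    · rw [Set.indicator_of_mem hx, ← h.integral_ind k (f x)]
      congr 2
      funext y
      by_cases hy : y ∈ (Q k).set
      · rw [Set.indicator_of_mem hy, Set.indicator_of_mem (Set.mk_mem_prod hx hy)]
        rfl
      · rw [Set.indicator_of_notMem hy, Set.indicator_of_notMem fun hz => hy hz.2]
    · rw [Set.indicator_of_notMem hx]
      have : ∀ y, ((Q k).set ×ˢ (Q k).set).indicator (uncurry f) (x, y) = 0 := fun y =>
        Set.indicator_of_notMem (fun hz => hx hz.1) _
      simp only [this, integral_zero, mul_zero]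
  unfold Box.ii
  rw [sq, mul_assoc, ← integral_const_mul]
  simp only [h1]
  rw [h.integral_ind k, integral_const_mul]
  ring

/-- The volume outside the boxes. -/
theorem Ins.integral_out [Fintype C] (h : Ins L Q) :
    L ^ 3 * ∫ x, (⋃ k, (Q k).set)ᶜ.indicator (fun _ => (1 : ℝ)) x ∂((big L).μ : Measure R3) =
      L ^ 3 - ∑ k, (Q k).vol := by
  classical
  have h1 : ∀ x, (⋃ k, (Q k).set)ᶜ.indicator (fun _ => (1 : ℝ)) x =
      1 - ∑ k, (Q k).set.indicator (fun _ => (1 : ℝ)) x := by
    intro x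
    by_cases hx : x ∈ ⋃ k, (Q k).set
    · rw [Set.indicator_of_notMem (by simpa using hx)]
      obtain ⟨k, hk⟩ := Set.mem_iUnion.1 hx
      rw [Finset.sum_eq_single k, Set.indicator_of_mem hk, sub_self]
      · intro k' _ hk'
        exact Set.indicator_of_notMem (fun hx' => hk' (h.disj k' k x hx' hk)) _
      · intro hk'
        exact absurd (mem_univ k) hk'
    · rw [Set.indicator_of_mem (by simpa using hx), Finset.sum_eq_zero, sub_zero]
      intro k _
      exact Set.indicator_of_notMem (fun hx' => hx (Set.mem_iUnion.2 ⟨k, hx'⟩)) _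
  have hi : ∀ k, Integrable (fun x => (Q k).set.indicator (fun _ => (1 : ℝ)) x)
      ((big L).μ : Measure R3) := fun k =>
    (integrable_const (1 : ℝ)).indicator (Q k).measurableSet_set
  simp only [h1]
  rw [integral_sub (integrable_const _) (integrable_finsetSum _ fun k _ => hi k),
    integral_finsetSum _ fun k _ => hi k, mul_sub, Finset.mul_sum]
  simp only [h.integral_ind]
  simp

theorem Ins.integral_ext0_orthgu [DecidableEq C] (h : Ins L Q) (k k' : C) (f g : BF R3) :
    L ^ 3 * ∫ x, (ext0 (Q k) f).1 x * (ext0 (Q k') g).1 x ∂((big L).μ : Measure R3) =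
      if k = k' then ∫ x, f.1 x * g.1 x ∂((Q k).μ : Measure R3) else 0 := by
  split_ifs with hk
  · subst hk
    have hv := (Q k).vol_pos
    have h1 : ∀ x, (ext0 (Q k) f).1 x * (ext0 (Q k) g).1 x =
        (Q k).set.indicator (fun x => (Q k).vol⁻¹ * (f.1 x * g.1 x)) x := by
      intro x
      by_cases hx : x ∈ (Q k).set
      · rw [Set.indicator_of_mem hx, ext0_of_mem _ _ hx, ext0_of_mem _ _ hx]
        have h2 : (Q k).vol⁻¹ = (√(Q k).vol)⁻¹ * (√(Q k).vol)⁻¹ := by
          rw [← mul_inv, Real.mul_self_sqrt hv.le]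
        rw [h2]
        ring
      · rw [Set.indicator_of_notMem hx, ext0_of_notMem _ _ hx, zero_mul]
    simp only [h1]
    rw [h.integral_ind k, integral_const_mul, ← mul_assoc, mul_inv_cancel₀ hv.ne', one_mul]
  · have h1 : ∀ x, (ext0 (Q k) f).1 x * (ext0 (Q k') g).1 x = 0 := by
      intro x
      by_cases hx : x ∈ (Q k).set
      · rw [ext0_of_notMem _ g fun hx' => hk (h.disj k k' x hx hx'), mul_zero]
      · rw [ext0_of_notMem _ f hx, zero_mul]
    simp only [h1, integral_zero, mul_zero]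

variable [Fintype C] [DecidableEq C] {s : Finset M3}

theorem Ins.orth (h : Ins L Q) (hs : ∀ m ∈ s, Bulk 0 m) :
    Orth (big L).μ (L ^ 3) (univ ×ˢ s) (eG Q) := by
  rintro ⟨k, m⟩ hm ⟨k', m'⟩ _
  unfold eG
  rw [h.integral_ext0_orthgu]
  by_cases hk : k = k'
  · subst hk
    rw [if_pos rfl, (Q k).es_orth (hs m (mem_product.1 hm).2) m']
    simp
  · rw [if_neg hk, if_neg fun h' => hk (congrArg Prod.fst h')]

theorem Ins.orth' (h : Ins L Q) (hs : ∀ m ∈ s, Bulk 0 m) (j : Fin 3) :
    ∀ km ∈ univ ×ˢ s, ∀ km' ∈ univ ×ˢ s,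
      L ^ 3 * ∫ x, (eG' Q j km).1 x * (eG' Q j km').1 x ∂((big L).μ : Measure R3) =
        if km = km' then (Q km.1).p km.2 j ^ 2 else 0 := by
  rintro ⟨k, m⟩ hm ⟨k', m'⟩ _
  unfold eG'
  rw [h.integral_ext0_orthgu]
  by_cases hk : k = k'
  · subst hk
    rw [if_pos rfl]
    have h1 : ∀ x, ((Q k).p m j • (Q k).mx j m).1 x * ((Q k).p m' j • (Q k).mx j m').1 x =
        ((Q k).p m j * (Q k).p m' j) * (((Q k).mx j m).1 x * ((Q k).mx j m').1 x) := by
      intro x
      change ((Q k).p m j * ((Q k).mx j m).1 x) * ((Q k).p m' j * ((Q k).mx j m').1 x) = _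
      ring
    simp only [h1]
    rw [integral_const_mul, (Q k).mx_orth j (hs m (mem_product.1 hm).2) m']
    by_cases hm' : m = m'
    · subst hm'
      simp [sq]
    · rw [if_neg hm', mul_zero, if_neg fun h' => hm' (congrArg Prod.snd h')]
  · rw [if_neg hk, if_neg fun h' => hk (congrArg Prod.fst h')]

end Pool.Agent.BoseLHY
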