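import Pool.Agent.Lib.MP_dec75e_mp.U.Df2
import Pool.Agent.Lib.MP_dec75e_mp.U.CcrA

/-! Commutation relations in the Fock space. -/

open MeasureTheory Finset Function
open scoped Real

noncomputable section

namespace Pool.Agent.BoseLHY

open Pool.Agent.BoseTail

variable {α : Type} [MeasurableSpace α]

section
variable {ν : ProbabilityMeasure α} {z : ℝ} {hz : 0 < z}

theorem hasSum_fip (Ψ Φ : FK ν z hz) : HasSum (wt2 ν z Ψ.1 Φ.1) (fip ν z hz Ψ Φ) := by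
  exact ((goodOf Ψ).summable hz (goodOf Φ)).hasSum

theorem psd_fip : PSD (fip ν z hz) := by
  refine ⟨fun Ψ Φ => ?_, fun Ψ => ?_⟩
  · exact (hasSum_fip Ψ Φ).unique
      (by rw [funext (wt2_comm (ν := ν) (z := z) (Ψ := Ψ.1) (Φ := Φ.1))]; exact hasSum_fip Φ Ψ)
  · exact (hasSum_fip Ψ Ψ).nonneg (wt2_nonneg hz)

theorem fip_cre (h : BF α) (Ψ Φ : FK ν z hz) :
    fip ν z hz (cre h Ψ) Φ = fip ν z hz Ψ (ann h Φ) := by
  have h1 := (hasSum_nat_add_iff' 1).2 (hasSum_fip (cre h Ψ) Φ)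
  have h2 : wt2 ν z (cre h Ψ).1 Φ.1 0 = 0 := by
    rw [wt2_zero]
    change creF h.1 Ψ.1 0 * _ = 0
    rw [creF_zero, zero_mul]
  rw [Finset.sum_range_one, h2, sub_zero] at h1
  refine h1.unique ?_
  have h3 : (fun n => wt2 ν z (cre h Ψ).1 Φ.1 (n + 1)) = wt2 ν z Ψ.1 (ann h Φ).1 :=
    funext fun n => wt2_creF (goodOf Ψ).1 (goodOf Φ).1 (bmOf h) n
  rw [h3]
  exact hasSum_fip Ψ (ann h Φ)

/-- By `creF_cons`; write `t = ms X` to exchange the sum over the particles and the integral. -/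
theorem ann_cre (h h' : BF α) (Ψ : FK ν z hz) :
    ann h (cre h' Ψ) = cre h' (ann h Ψ) + (z * ∫ x, h.1 x * h'.1 x ∂(ν : Measure α)) • Ψ := by
  refine Subtype.ext (funext fun t => ?_)
  obtain ⟨X, hX⟩ := exists_ms t
  change z * ∫ x, h.1 x * creF h'.1 Ψ.1 (x ::ₘ t) ∂(ν : Measure α) =
    creF h'.1 (annF ν z h.1 Ψ.1) t + (z * ∫ x, h.1 x * h'.1 x ∂(ν : Measure α)) * Ψ.1 t
  have e : ∀ x, h.1 x * creF h'.1 Ψ.1 (x ::ₘ t) =
      (∑ i, h'.1 (X i) * (h.1 x * Ψ.1 (x ::ₘ er X i))) + h.1 x * h'.1 x * Ψ.1 t := fun x => by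
    rw [creF_cons]
    have := creF_ms h'.1 (fun u => Ψ.1 (x ::ₘ u)) X
    rw [hX] at this
    rw [this, mul_add, Finset.mul_sum, add_comm, mul_assoc]
    congr 1
    exact Finset.sum_congr rfl fun i _ => by ring
  have e2 := creF_ms h'.1 (annF ν z h.1 Ψ.1) X
  rw [hX] at e2
  have b : ∀ i, BM fun x => h'.1 (X i) * (h.1 x * Ψ.1 (x ::ₘ er X i)) := fun i =>
    (BM.const _).mul ((bmOf h).mul (bm_cons (goodOf Ψ).1 _))
  simp only [e]
  rw [e2, integral_add (BM.sum fun i _ => b i).integrable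
    (((bmOf h).mul (bmOf h')).mul (BM.const _)).integrable,
    integral_finsetSum _ fun i _ => (b i).integrable, integral_mul_const, mul_add, Finset.mul_sum,
    mul_assoc]
  congr 1
  refine Finset.sum_congr rfl fun i _ => ?_
  rw [integral_const_mul, annF]
  ring

theorem ann_ann (h h' : BF α) (Ψ : FK ν z hz) : ann h (ann h' Ψ) = ann h' (ann h Ψ) := by
  refine Subtype.ext (funext fun t => ?_)
  change z * ∫ x, h.1 x * (z * ∫ y, h'.1 y * Ψ.1 (y ::ₘ x ::ₘ t) ∂(ν : Measure α)) ∂(ν : Measure α) =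
    z * ∫ y, h'.1 y * (z * ∫ x, h.1 x * Ψ.1 (x ::ₘ y ::ₘ t) ∂(ν : Measure α)) ∂(ν : Measure α)
  congr 1
  simp only [← integral_const_mul]
  have b : BM (uncurry fun x y => h.1 x * (z * (h'.1 y * Ψ.1 (x ::ₘ y ::ₘ t)))) :=
    ((bmOf h).comp measurable_fst).mul ((BM.const z).mul
      (((bmOf h').comp measurable_snd).mul (bm_cons_cons (goodOf Ψ).1 t)))
  have := b.swap (μ := (ν : Measure α)) (ν := (ν : Measure α))
  calc _ = ∫ x, ∫ y, h.1 x * (z * (h'.1 y * Ψ.1 (x ::ₘ y ::ₘ t))) ∂(ν : Measure α)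
        ∂(ν : Measure α) := by simp only [Multiset.cons_swap]
    _ = _ := by
      rw [this]
      refine integral_congr_ae (Filter.Eventually.of_forall fun y =>
        integral_congr_ae (Filter.Eventually.of_forall fun x => ?_))
      ring

theorem cre_cre (h h' : BF α) (Ψ : FK ν z hz) : cre h (cre h' Ψ) = cre h' (cre h Ψ) := by
  exact Subtype.ext (creF_comm h.1 h'.1 Ψ.1)

end

namespace Fs
variable {κ : Type} [DecidableEq κ] (F : Fs α κ)

theorem dA_eq_fkbu (m : κ) (Ψ : F.V) : F.dA m Ψ = ann (F.e m) Ψ - F.ov m • Ψ := rfl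

theorem fl_eq_fkbu (x : α) (Ψ : F.V) :
    F.fl x Ψ = F.r • Ψ + ∑ m ∈ F.s, (F.e m).1 x • F.dA m Ψ := by
  simp only [fl, fld, lin, val, LinearMap.add_apply, LinearMap.smul_apply, Module.End.one_apply,
    LinearMap.sum_apply]

theorem ccr0 : CCR F.β (fun m => ann (F.e m)) (fun m => cre (F.e m)) F.s := by
  refine ⟨psd_fip, fun m _ f g => fip_cre _ f g, fun m hm m' hm' f => ?_,
    fun m _ m' _ f => ann_ann _ _ f, fun m _ m' _ f => cre_cre _ _ f⟩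
  rw [ann_cre, F.orth m hm m' hm']
  split_ifs
  · rw [one_smul]
  · rw [zero_smul]

theorem ccrA : CCR F.β F.dA F.dC F.s := by
  exact F.ccr0.shift F.ov

theorem ccrO : CCR F.β F.cO F.cD F.s := by
  exact F.ccrA.bog F.hyp

theorem dop_eq : dop F.cO F.cD F.γ F.σ = F.dA := by
  exact dop_bog F.hyp

theorem fl_apply (x : α) (Ψ : F.V) (t : Multiset α) :
    (F.fl x Ψ).1 t = F.r * Ψ.1 t + ∑ m ∈ F.s, (F.e m).1 x * (F.dA m Ψ).1 t := by
  rw [F.fl_eq_fkbu]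
  simp only [Submodule.coe_add, Submodule.coe_smul, AddSubmonoidClass.coe_finsetSum, Pi.add_apply,
    Pi.smul_apply, Finset.sum_apply, smul_eq_mul]

variable {F}

theorem str_ann {Ψ : F.V} (h : Ψ ∈ F.Str) (u : BF α) : ann u Ψ ∈ F.Str := by
  intro x t
  have e : F.fl x (ann u Ψ) = ann u (F.fl x Ψ) := by
    rw [F.fl_eq_fkbu, F.fl_eq_fkbu, map_add, map_smul, map_sum]
    congr 1
    refine Finset.sum_congr rfl fun m _ => ?_
    rw [map_smul, F.dA_eq_fkbu, F.dA_eq_fkbu, map_sub, map_smul, ann_ann]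
  rw [e]
  change F.z * ∫ y, u.1 y * Ψ.1 (y ::ₘ x ::ₘ t) ∂(F.ν : Measure α) =
    F.z * ∫ y, u.1 y * (F.fl x Ψ).1 (y ::ₘ t) ∂(F.ν : Measure α)
  simp only [← h x, Multiset.cons_swap]

/-- `creF_cons`, and `fl x (cre (e m) Ψ) = cre (e m) (fl x Ψ) + e m x • Ψ`. -/
theorem str_cre {Ψ : F.V} (h : Ψ ∈ F.Str) {m : κ} (hm : m ∈ F.s) : cre (F.e m) Ψ ∈ F.Str := by
  intro x t
  have e : F.fl x (cre (F.e m) Ψ) = cre (F.e m) (F.fl x Ψ) + (F.e m).1 x • Ψ := by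
    have e1 : ∀ m' ∈ F.s, (F.e m').1 x • F.dA m' (cre (F.e m) Ψ) =
        cre (F.e m) ((F.e m').1 x • F.dA m' Ψ) + if m' = m then (F.e m').1 x • Ψ else 0 := by
      intro m' hm'
      have := F.ccr0.ccr m' hm' m hm Ψ
      rw [map_smul, F.dA_eq_fkbu, F.dA_eq_fkbu, map_sub, map_smul, this]
      split_ifs
      · rw [← smul_add]
        congr 1
        abel
      · rw [add_zero, add_zero]
    rw [F.fl_eq_fkbu, F.fl_eq_fkbu, map_add, map_smul, map_sum, Finset.sum_congr rfl e1,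
      Finset.sum_add_distrib, Finset.sum_ite_eq', if_pos hm, add_assoc]
  rw [e]
  change creF (F.e m).1 Ψ.1 (x ::ₘ t) = creF (F.e m).1 (F.fl x Ψ).1 t + (F.e m).1 x * Ψ.1 t
  rw [creF_cons, add_comm, show (fun u => Ψ.1 (x ::ₘ u)) = (F.fl x Ψ).1 from funext (h x)]

theorem str_dA {Ψ : F.V} (h : Ψ ∈ F.Str) (m : κ) : F.dA m Ψ ∈ F.Str := by
  rw [F.dA_eq_fkbu]
  exact F.Str.sub_mem (str_ann h _) (F.Str.smul_mem _ h)

theorem str_cD {Ψ : F.V} (h : Ψ ∈ F.Str) {m : κ} (hm : m ∈ F.s) : F.cD m Ψ ∈ F.Str := by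
  change F.γ m • (cre (F.e m) Ψ - F.ov m • Ψ) - F.σ m • F.dA m Ψ ∈ F.Str
  exact F.Str.sub_mem (F.Str.smul_mem _ (F.Str.sub_mem (str_cre h hm) (F.Str.smul_mem _ h)))
    (F.Str.smul_mem _ (str_dA h m))

theorem str_fl {Ψ : F.V} (h : Ψ ∈ F.Str) (x : α) : F.fl x Ψ ∈ F.Str := by
  rw [F.fl_eq_fkbu]
  exact F.Str.add_mem (F.Str.smul_mem _ h)
    (F.Str.sum_mem fun m _ => F.Str.smul_mem _ (str_dA h m))

end Fs

end Pool.Agent.BoseLHY
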