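import Pool.Agent.Lib.MP_dec75e_mp.U.Fin3
import Pool.Agent.Lib.MP_dec75e_mp.Sca

/-! The averaged momentum distribution of ground states. -/

open MeasureTheory Finset Function
open scoped Real

noncomputable section

namespace Pool.Agent.BoseLHY

open Pool.Agent.BoseTail

theorem weak_lawP {v f φ : E3 → ℝ} {a η : ℝ} (hs : Scat v f a) {V : BF R3} (hV : Maj v V)
    {P : ℝ} (hP : 0 ≤ P) (hφ : ContDiff ℝ (⊤ : ℕ∞) φ) (hφc : HasCompactSupport φ)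
    (hφ0 : 0 ∉ tsupport φ) (hφe : ∀ κ κ' : E3, (∀ c, |κ c| = |κ' c|) → φ κ = φ κ') (hη : 0 < η) :
    ∃ ρ₀ η' : ℝ, 0 < ρ₀ ∧ 0 < η' ∧ ∀ (N : ℕ) (L : ℝ) [Fact (0 < L)] (ψ : Cf N L → ℂ),
      N / L ^ 3 ≤ ρ₀ → L ^ 5 ≤ (N : ℝ) ^ 2 → Adm ψ → PB V P ψ →
      (∀ χ : Cf N L → ℂ, Adm χ → energy v ψ ≤
        energy v χ + η' * (2 * π * a * (N / L ^ 3) * N * √(N / L ^ 3 * a ^ 3))) →
      ∃ A : ℝ, HasSum (fun n : Fin 3 → ℤ => φ ((√(8 * π * (N / L ^ 3) * a))⁻¹ • kvec L n) *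
          (2 * (N / L ^ 3) * Mom ψ n)) A ∧
        |A / (L * √(8 * π * (N / L ^ 3) * a)) ^ 3 - (∫ κ : E3, φ κ * gB ‖κ‖) / (2 * π) ^ 3| ≤ η := by
  obtain ⟨ρ₁, η₁, h1, h2, H⟩ := bogolyubov hs hV hP hφ hφc hφ0 hφe hη
  obtain ⟨ρ₂, h3, h4, H'⟩ := upper_lhy hs (half_pos h2)
  refine ⟨min ρ₁ ρ₂, η₁ / 2, lt_min h1 h3, half_pos h2, fun N L _ ψ a1 a2 a3 aP a4 => ?_⟩
  have hL : 0 < L := Fact.out
  have hL3 : 0 < L ^ 3 := by positivity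
  have hN : (N : ℝ) ≤ L ^ 3 := by
    have := (a1.trans (min_le_right _ _)).trans h4
    rwa [div_le_one hL3] at this
  have hL1 : 1 ≤ L := by
    have h6 : L ^ 5 * 1 ≤ L ^ 5 * L := by
      calc L ^ 5 * 1 = L ^ 5 := mul_one _
        _ ≤ (N : ℝ) ^ 2 := a2
        _ ≤ (L ^ 3) ^ 2 := pow_le_pow_left₀ (Nat.cast_nonneg N) hN 2
        _ = L ^ 5 * L := by ring
    exact le_of_mul_le_mul_left h6 (by positivity)
  have a5 : L ^ 3 ≤ (N : ℝ) ^ 2 := (pow_le_pow_right₀ hL1 (by norm_num)).trans a2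
  refine (H N L ψ (a1.trans (min_le_left _ _)) a5 a3 aP).2 ?_
  have h7 := H' N L (energy v ψ -
    η₁ / 2 * (2 * π * a * (N / L ^ 3) * N * √(N / L ^ 3 * a ^ 3)))
    (a1.trans (min_le_right _ _)) a2 fun χ hχ => by linarith [a4 χ hχ]
  linarith

theorem big_box {N L ρ₀ R : ℝ} (hL : 0 < L) (hN : 0 ≤ N) (h1 : N / L ^ 3 ≤ ρ₀)
    (h2 : L ^ 5 ≤ N ^ 2) (hρ : ρ₀ ≤ 1) (hR : 1 ≤ R) (hρR : ρ₀ * R ≤ 1) : R ≤ L ∧ L ≤ N := by
  have hL3 : 0 < L ^ 3 := by positivity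
  have h0 : 0 ≤ ρ₀ := le_trans (by positivity) h1
  rw [div_le_iff₀ hL3] at h1
  have h3 : 1 ≤ ρ₀ ^ 2 * L := by
    have h6 : L ^ 5 * 1 ≤ L ^ 5 * (ρ₀ ^ 2 * L) := by
      calc L ^ 5 * 1 = L ^ 5 := mul_one _
        _ ≤ N ^ 2 := h2
        _ ≤ (ρ₀ * L ^ 3) ^ 2 := pow_le_pow_left₀ hN h1 2
        _ = _ := by ring
    exact le_of_mul_le_mul_left h6 (by positivity)
  have h4 : ρ₀ ^ 2 * L ≤ ρ₀ * L := by
    refine mul_le_mul_of_nonneg_right ?_ hL.le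
    nlinarith
  have h5 : R ≤ L := by
    have h6 : R * 1 ≤ R * (ρ₀ * L) := mul_le_mul_of_nonneg_left (h3.trans h4) (by linarith)
    have h7 : ρ₀ * R * L ≤ 1 * L := mul_le_mul_of_nonneg_right hρR hL.le
    linarith
  refine ⟨h5, le_of_pow_le_pow_left₀ (n := 2) (by norm_num) hN ?_⟩
  exact (pow_le_pow_right₀ (hR.trans h5) (by norm_num)).trans h2

/-- For a non-increasing potential the pair bound is the bound on the potential energy. -/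
theorem pb_mono {v f : E3 → ℝ} {a : ℝ} (hs : Scat v f a) (hm : ∀ x y, ‖x‖ ≤ ‖y‖ → v y ≤ v x) :
    ∃ (V : BF R3) (P ρ₀ : ℝ), Maj v V ∧ 0 ≤ P ∧ 0 < ρ₀ ∧
      ∀ (N : ℕ) (L : ℝ) [Fact (0 < L)] (ψ : Cf N L → ℂ) (η : ℝ), η ≤ 1 →
      N / L ^ 3 ≤ ρ₀ → L ^ 5 ≤ (N : ℝ) ^ 2 → Adm ψ →
      (∀ χ : Cf N L → ℂ, Adm χ → energy v ψ ≤
        energy v χ + η * (2 * π * a * (N / L ^ 3) * N * √(N / L ^ 3 * a ^ 3))) → PB V P ψ := by
  have ha := hs.pos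
  have hp := Real.pi_pos
  have hcL : 0 < cL := by rw [cL]; positivity
  obtain ⟨Rv, hRv, hout⟩ := hs.cpt.exists_pos_le_norm
  obtain ⟨Cv, hCv⟩ := hs.cont.bounded_above_of_compact_support hs.cpt
  obtain ⟨Q, -, hQ⟩ := hs.exists_par
  obtain ⟨ρ₁, h1, h2, H⟩ := upper_lhy hs one_pos
  have hR := Q.hR0
  refine ⟨⟨fun z => v (WithLp.toLp 2 z), bm_date hs.cont (M := Cv) fun x => hCv x⟩,
    4 * π * a * (1 + (cL + 2) * √(a ^ 3)), min ρ₁ (1 / (4 * Q.R0)),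
    ⟨fun z z' hz => hm _ _ (norm_mono_date hz), fun _ => le_rfl, Rv, hRv.le,
      fun z hz => hout _ (hz.le.trans (norm_le_date z))⟩, by positivity, by positivity,
    fun N L _ ψ η hη a1 a2 a3 a4 => ?_⟩
  have hL : 0 < L := Fact.out
  have b1 := a1.trans (min_le_left _ _)
  obtain ⟨b2, -⟩ := big_box (R := 4 * Q.R0) hL (Nat.cast_nonneg N) a1 a2
    ((min_le_left _ _).trans h2) (by linarith) (by
      rw [← le_div_iff₀ (by linarith)]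
      exact min_le_right _ _)
  obtain ⟨hpot, hv⟩ := hQ L b2
  have he : ∀ z : T3 L, vper v (-z) = vper v z := fun z => by
    rw [hv, hv]
    exact hpot.wp.even z
  have hb := bm_vper (L := L) hs.cont hs.cpt
  refine ⟨vper v, hb, fun z => tsum_nonneg fun _ => hs.nonneg _,
    fun x y => le_vper hs.nonneg hs.cpt x y, ?_⟩
  have hB : 0 ≤ 2 * π * a * (N / L ^ 3) * N := by positivity
  have hB' : 0 ≤ 2 * π * a * (N / L ^ 3) * N * √(N / L ^ 3 * a ^ 3) := by positivity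
  have h7 := H N L (energy v ψ - 2 * π * a * (N / L ^ 3) * N * √(N / L ^ 3 * a ^ 3)) b1 a2
    fun χ hχ => by linarith [a4 χ hχ, mul_le_mul_of_nonneg_right hη hB']
  have h8 : √(N / L ^ 3 * a ^ 3) ≤ √(a ^ 3) :=
    Real.sqrt_le_sqrt (mul_le_of_le_one_left (by positivity) (b1.trans h2))
  have h9 := mul_le_mul_of_nonneg_left h8 (mul_nonneg hB (by linarith : 0 ≤ cL + 2))
  have h10 : 1 / 2 * ∑ i, ∑ j ∈ univ.erase i, ∫ X : Cf N L, vper v (X i - X j) * ‖ψ X‖ ^ 2 ≤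
      energy v ψ := by
    have k1 : ∀ x : Cf N L, (∑ i, ∑ j, if i < j then vper v (x i - x j) else 0) * ‖ψ x‖ ^ 2 =
        1 / 2 * ∑ i, ∑ j ∈ univ.erase i, vper v (x i - x j) * ‖ψ x‖ ^ 2 := fun x => by
      rw [sum_lt_per (g := fun i j => vper v (x i - x j)) fun i j => by rw [← he, neg_sub]]
      simp only [← Finset.sum_mul, mul_assoc]
    have k2 : 0 ≤ ∑ i, ∑ c, ∫ x, ‖dd (dir i c) ψ x‖ ^ 2 :=
      sum_nonneg fun _ _ => sum_nonneg fun _ _ => integral_nonneg fun _ => sq_nonneg _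
    unfold energy
    simp only [k1]
    rw [integral_const_mul, integral_finsetSum _ fun i _ =>
      (BM.sum fun j _ => bm_pair_lay hb a3.1.1 i j).integrable]
    rw [sum_congr rfl fun i _ => integral_finsetSum (univ.erase i) fun j _ =>
      (bm_pair_lay hb a3.1.1 i j).integrable]
    linarith
  linarith

theorem weak_law {v f φ : E3 → ℝ} {a η : ℝ} (hs : Scat v f a)
    (hm : ∀ x y, ‖x‖ ≤ ‖y‖ → v y ≤ v x) (hφ : ContDiff ℝ (⊤ : ℕ∞) φ) (hφc : HasCompactSupport φ)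
    (hφ0 : 0 ∉ tsupport φ) (hφe : ∀ κ κ' : E3, (∀ c, |κ c| = |κ' c|) → φ κ = φ κ') (hη : 0 < η) :
    ∃ ρ₀ η' : ℝ, 0 < ρ₀ ∧ 0 < η' ∧ ∀ (N : ℕ) (L : ℝ) [Fact (0 < L)] (ψ : Cf N L → ℂ),
      N / L ^ 3 ≤ ρ₀ → L ^ 5 ≤ (N : ℝ) ^ 2 → Adm ψ →
      (∀ χ : Cf N L → ℂ, Adm χ → energy v ψ ≤
        energy v χ + η' * (2 * π * a * (N / L ^ 3) * N * √(N / L ^ 3 * a ^ 3))) →
      ∃ A : ℝ, HasSum (fun n : Fin 3 → ℤ => φ ((√(8 * π * (N / L ^ 3) * a))⁻¹ • kvec L n) *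
          (2 * (N / L ^ 3) * Mom ψ n)) A ∧
        |A / (L * √(8 * π * (N / L ^ 3) * a)) ^ 3 - (∫ κ : E3, φ κ * gB ‖κ‖) / (2 * π) ^ 3| ≤ η := by
  have ha := hs.pos
  have hp := Real.pi_pos
  obtain ⟨V, P, ρ₁, hV, hP, h1, H₁⟩ := pb_mono hs hm
  obtain ⟨ρ₂, η', h2, h3, H₂⟩ := weak_lawP hs hV hP hφ hφc hφ0 hφe hη
  refine ⟨min ρ₁ ρ₂, min η' 1, lt_min h1 h2, lt_min h3 one_pos, fun N L _ ψ a1 a2 a3 a4 => ?_⟩
  have hL : 0 < L := Fact.out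
  refine H₂ N L ψ (a1.trans (min_le_right _ _)) a2 a3
    (H₁ N L ψ _ (min_le_right _ _) (a1.trans (min_le_left _ _)) a2 a3 a4) fun χ hχ =>
      (a4 χ hχ).trans (add_le_add le_rfl
        (mul_le_mul_of_nonneg_right (min_le_left _ _) (by positivity)))

end Pool.Agent.BoseLHY
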