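import Pool.Agent.Lib.MP_dec75e_mp.U.Sin3
import Pool.Agent.Lib.MP_dec75e_mp.L.Tens

/-! Double integrals and Bessel inequalities. -/

open MeasureTheory Finset Function
open scoped Real

noncomputable section

namespace Pool.Agent.BoseLHY

open Pool.Agent.BoseTail

theorem slice_besu {α γ : Type} [MeasurableSpace α] [MeasurableSpace γ] {G : α → γ → ℝ}
    (hG : BM (uncurry G)) (x : α) : BM (G x) :=
  BM.comp hG (T := fun z => (x, z)) measurable_prodMk_left

theorem cs_besu {α : Type} [MeasurableSpace α] {ν : Measure α} [IsFiniteMeasure ν] {u v : α → ℝ}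
    (hu : BM u) (hv : BM v) :
    (∫ x, u x * v x ∂ν) ^ 2 ≤ (∫ x, u x ^ 2 ∂ν) * ∫ x, v x ^ 2 ∂ν := by
  have h1 : ∀ t : ℝ,
      0 ≤ (∫ x, u x ^ 2 ∂ν) * (t * t) + 2 * (∫ x, u x * v x ∂ν) * t + ∫ x, v x ^ 2 ∂ν := by
    intro t
    have h2 : 0 ≤ ∫ x, (t * u x + v x) ^ 2 ∂ν := integral_nonneg fun x => sq_nonneg _
    have h3 : ∫ x, (t * u x + v x) ^ 2 ∂ν =
        ∫ x, (t * t * u x ^ 2 + 2 * t * (u x * v x) + v x ^ 2) ∂ν :=
      integral_congr_ae (Filter.Eventually.of_forall fun x => by beta_reduce; ring)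
    rw [h3, integral_add (((BM.const _).mul (hu.pow 2)).add
        ((BM.const _).mul (hu.mul hv))).integrable (hv.pow 2).integrable,
      integral_add ((BM.const _).mul (hu.pow 2)).integrable
        ((BM.const _).mul (hu.mul hv)).integrable, integral_const_mul, integral_const_mul] at h2
    linarith
  have h3 := discrim_le_zero h1
  unfold discrim at h3
  linarith

theorem pyth_besu {α κ : Type} [MeasurableSpace α] [DecidableEq κ] {ν : Measure α}
    [IsFiniteMeasure ν] (T : Finset κ) {e : κ → α → ℝ} (he : ∀ k, BM (e k))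
    (ho : ∀ k ∈ T, ∀ l ∈ T, ∫ x, e k x * e l x ∂ν = if k = l then 1 else 0) {f : α → ℝ}
    (hf : BM f) {c : κ → ℝ} (hc : ∀ k, c k = ∫ x, e k x * f x ∂ν) :
    ∫ x, (f x - ∑ k ∈ T, c k * e k x) ^ 2 ∂ν = ∫ x, f x ^ 2 ∂ν - ∑ k ∈ T, c k ^ 2 := by
  have h1 : ∀ x, (f x - ∑ k ∈ T, c k * e k x) ^ 2 = f x ^ 2 - ∑ k ∈ T, 2 * c k * (e k x * f x) +
      ∑ k ∈ T, ∑ l ∈ T, c k * c l * (e k x * e l x) := by
    intro x
    have e1 : ∑ k ∈ T, 2 * c k * (e k x * f x) = 2 * f x * ∑ k ∈ T, c k * e k x := by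
      rw [mul_sum]
      exact sum_congr rfl fun k _ => by ring
    have e2 : ∑ k ∈ T, ∑ l ∈ T, c k * c l * (e k x * e l x) = (∑ k ∈ T, c k * e k x) ^ 2 := by
      rw [sq, sum_mul_sum]
      exact sum_congr rfl fun k _ => sum_congr rfl fun l _ => by ring
    rw [e1, e2]
    ring
  have b1 : ∀ k, BM fun x => 2 * c k * (e k x * f x) := fun k => (BM.const _).mul ((he k).mul hf)
  have b2 : ∀ k l, BM fun x => c k * c l * (e k x * e l x) := fun k l =>
    (BM.const _).mul ((he k).mul (he l))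
  have b3 : ∀ k, BM fun x => ∑ l ∈ T, c k * c l * (e k x * e l x) := fun k =>
    BM.sum fun l _ => b2 k l
  simp only [h1]
  rw [integral_add ((hf.pow 2).sub (BM.sum fun k _ => b1 k)).integrable
      (BM.sum fun k _ => b3 k).integrable,
    integral_sub (hf.pow 2).integrable (BM.sum fun k _ => b1 k).integrable,
    integral_finsetSum _ fun k _ => (b1 k).integrable,
    integral_finsetSum _ fun k _ => (b3 k).integrable]
  have e3 : ∑ k ∈ T, ∫ x, 2 * c k * (e k x * f x) ∂ν = 2 * ∑ k ∈ T, c k ^ 2 := by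
    rw [mul_sum]
    refine sum_congr rfl fun k _ => ?_
    rw [integral_const_mul, ← hc]
    ring
  have e4 : ∑ k ∈ T, ∫ x, ∑ l ∈ T, c k * c l * (e k x * e l x) ∂ν = ∑ k ∈ T, c k ^ 2 := by
    refine sum_congr rfl fun k hk => ?_
    rw [integral_finsetSum _ fun l _ => (b2 k l).integrable,
      sum_congr rfl fun l hl => by rw [integral_const_mul, ho k hk l hl]]
    simp [hk, sq]
  rw [e3, e4]
  ring

namespace Box
variable (B : Box)

theorem ii_prod_besu {G : R3 → R3 → ℝ} (hG : BM (uncurry G)) :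
    B.ii G = ∫ p, G p.1 p.2 ∂((B.μ : Measure R3).prod (B.μ : Measure R3)) :=
  (MeasureTheory.integral_prod (fun p : R3 × R3 => G p.1 p.2) hG.integrable).symm

theorem bm_es_besu (k : M3 × M3) : BM fun p : R3 × R3 => (B.es k.1).1 p.1 * (B.es k.2).1 p.2 :=
  ((bmOf (B.es k.1)).comp measurable_fst).mul ((bmOf (B.es k.2)).comp measurable_snd)

theorem cf_prod_besu (G : BF (R3 × R3)) (k : M3 × M3) :
    B.cf G k.1 k.2 = ∫ p, (B.es k.1).1 p.1 * (B.es k.2).1 p.2 * G.1 p
      ∂((B.μ : Measure R3).prod (B.μ : Measure R3)) :=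
  (MeasureTheory.integral_prod (fun p : R3 × R3 => (B.es k.1).1 p.1 * (B.es k.2).1 p.2 * G.1 p)
    ((B.bm_es_besu k).mul (bmOf G)).integrable).symm

theorem hasSum_cf_besu (G : BF (R3 × R3)) :
    HasSum (fun k : M3 × M3 => B.cf G k.1 k.2 ^ 2) (B.ii fun x z => G.1 (x, z) ^ 2) := by
  have h := (B.pars_es.prod B.pars_es).2 _ (bmOf G)
  rw [B.ii_prod_besu (G := fun x z => G.1 (x, z) ^ 2) ((bmOf G).pow 2)]
  simp only [B.cf_prod_besu G]
  exact h

theorem ii_mono {G G' : R3 → R3 → ℝ} (hG : BM (uncurry G)) (hG' : BM (uncurry G'))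
    (h : ∀ x ∈ B.set, ∀ z ∈ B.set, G x z ≤ G' x z) : B.ii G ≤ B.ii G' := by
  refine integral_mono_ae (BM.integral_right hG).integrable (BM.integral_right hG').integrable ?_
  filter_upwards [B.ae_mem] with x hx
  refine integral_mono_ae (slice_besu hG x).integrable (slice_besu hG' x).integrable ?_
  filter_upwards [B.ae_mem] with z hz
  exact h x hx z hz

theorem ii_nonneg {G : R3 → R3 → ℝ} (h : ∀ x z, 0 ≤ G x z) : 0 ≤ B.ii G :=
  integral_nonneg fun x => integral_nonneg fun z => h x z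

theorem ii_add {G G' : R3 → R3 → ℝ} (hG : BM (uncurry G)) (hG' : BM (uncurry G')) :
    B.ii (fun x z => G x z + G' x z) = B.ii G + B.ii G' := by
  rw [B.ii_prod_besu hG, B.ii_prod_besu hG',
    B.ii_prod_besu (G := fun x z => G x z + G' x z) (hG.add hG')]
  exact integral_add hG.integrable hG'.integrable

theorem ii_const_mul (c : ℝ) (G : R3 → R3 → ℝ) : B.ii (fun x z => c * G x z) = c * B.ii G := by
  unfold ii
  simp only [integral_const_mul]

theorem ii_sum {ι : Type} (T : Finset ι) {G : ι → R3 → R3 → ℝ} (hG : ∀ k ∈ T, BM (uncurry (G k))) :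
    B.ii (fun x z => ∑ k ∈ T, G k x z) = ∑ k ∈ T, B.ii (G k) := by
  rw [B.ii_prod_besu (G := fun x z => ∑ k ∈ T, G k x z) (BM.sum hG),
    sum_congr rfl fun k hk => B.ii_prod_besu (hG k hk)]
  exact integral_finsetSum _ fun k hk => (hG k hk).integrable

theorem abs_ii_le {G : R3 → R3 → ℝ} (hG : BM (uncurry G)) :
    |B.ii G| ≤ B.ii fun x z => |G x z| := by
  rw [B.ii_prod_besu hG, B.ii_prod_besu (G := fun x z => |G x z|) hG.abs]
  exact abs_integral_le_integral_abs

/-- A translation invariant kernel against a function of one variable. -/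
theorem ii_sub_mul_le {h f : R3 → ℝ} (hh : BM h) (hi : Integrable h) (h0 : ∀ z, 0 ≤ h z)
    (hf : BM f) (f0 : ∀ x, 0 ≤ f x) :
    B.ii (fun x z => h (x - z) * f x) ≤ (∫ z, h z) / B.vol * ∫ x, f x ∂(B.μ : Measure R3) ∧
    B.ii (fun x z => h (x - z) * f z) ≤ (∫ z, h z) / B.vol * ∫ x, f x ∂(B.μ : Measure R3) := by
  have b1 : BM (uncurry fun x z : R3 => h (x - z) * f x) :=
    (hh.comp (measurable_fst.sub measurable_snd)).mul (hf.comp measurable_fst)
  have b2 : BM (uncurry fun x z : R3 => h (x - z) * f z) :=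
    (hh.comp (measurable_fst.sub measurable_snd)).mul (hf.comp measurable_snd)
  have b3 : BM (uncurry fun z x : R3 => h (x - z) * f z) :=
    (hh.comp (measurable_snd.sub measurable_fst)).mul (hf.comp measurable_fst)
  constructor
  · rw [← integral_const_mul]
    refine integral_mono (BM.integral_right b1).integrable ((BM.const _).mul hf).integrable
      fun x => ?_
    beta_reduce
    rw [integral_mul_const]
    exact mul_le_mul_of_nonneg_right (B.integral_sub_le hi h0 x).1 (f0 x)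
  · unfold ii
    rw [BM.swap b2, ← integral_const_mul]
    refine integral_mono (BM.integral_right b3).integrable ((BM.const _).mul hf).integrable
      fun z => ?_
    beta_reduce
    rw [integral_mul_const]
    exact mul_le_mul_of_nonneg_right (B.integral_sub_le hi h0 z).2 (f0 z)

theorem cf_symm {G : BF (R3 × R3)} (h : ∀ x z, G.1 (x, z) = G.1 (z, x)) (a b : M3) :
    B.cf G a b = B.cf G b a := by
  unfold cf
  rw [BM.swap (Φ := fun x z => (B.es a).1 x * (B.es b).1 z * G.1 (x, z))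
    ((B.bm_es_besu (a, b)).mul (bmOf G))]
  refine integral_congr_ae (Filter.Eventually.of_forall fun x => ?_)
  refine integral_congr_ae (Filter.Eventually.of_forall fun z => ?_)
  beta_reduce
  rw [h z x]
  ring

/-- Bessel's inequality, from `Pars.prod`. -/
theorem bessel (G : BF (R3 × R3)) (F F' : Finset M3) :
    ∑ a ∈ F, ∑ b ∈ F', B.cf G a b ^ 2 ≤ B.ii fun x z => G.1 (x, z) ^ 2 := by
  rw [← sum_product' F F' fun a b => B.cf G a b ^ 2]
  exact sum_le_hasSum _ (fun _ _ => sq_nonneg _) (B.hasSum_cf_besu G)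

theorem cf_zero_besu (G : BF (R3 × R3)) {a b : M3} (h : ¬(Bulk 0 a ∧ Bulk 0 b)) :
    B.cf G a b = 0 := by
  unfold cf
  rcases not_and_or.1 h with h | h <;> simp [B.es_eq_zero h]

/-- The truncated expansions converge in mean square. -/
theorem trunc (G : BF (R3 × R3)) {δ : ℝ} (hδ : 0 < δ) : ∃ P₀ : ℕ, ∀ P, P₀ ≤ P →
    (B.ii fun x z => (G.1 (x, z) - ∑ a ∈ Lplus P, ∑ b ∈ Lplus P,
      B.cf G a b * ((B.es a).1 x * (B.es b).1 z)) ^ 2) ≤ δ := by
  have hs := B.hasSum_cf_besu G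
  obtain ⟨S, hS⟩ := ((tendsto_order.1 hs).1
    ((B.ii fun x z => G.1 (x, z) ^ 2) - δ) (by linarith)).exists
  refine ⟨S.sup fun k => max (univ.sup k.1) (univ.sup k.2), fun P hP => ?_⟩
  have h1 : ∑ k ∈ S, B.cf G k.1 k.2 ^ 2 ≤ ∑ k ∈ Lplus P ×ˢ Lplus P, B.cf G k.1 k.2 ^ 2 := by
    classical
    rw [← sum_filter_ne_zero]
    refine sum_le_sum_of_subset_of_nonneg (fun k hk => ?_) fun _ _ _ => sq_nonneg _
    obtain ⟨hk1, hk2⟩ := mem_filter.1 hk
    have hb : Bulk 0 k.1 ∧ Bulk 0 k.2 := by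
      by_contra hh
      exact hk2 (by rw [B.cf_zero_besu G hh]; ring)
    have hle : max (univ.sup k.1) (univ.sup k.2) ≤ P :=
      (le_sup (f := fun k : M3 × M3 => max (univ.sup k.1) (univ.sup k.2)) hk1).trans hP
    exact mem_product.2
      ⟨mem_Lplus.2 ⟨hb.1, fun c => ((le_sup (mem_univ c)).trans (le_max_left _ _)).trans hle⟩,
        mem_Lplus.2 ⟨hb.2, fun c => ((le_sup (mem_univ c)).trans (le_max_right _ _)).trans hle⟩⟩
  have h2 := pyth_besu (ν := (B.μ : Measure R3).prod (B.μ : Measure R3)) (Lplus P ×ˢ Lplus P)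
    B.bm_es_besu (fun k hk l hl => by
      have e : ∀ p : R3 × R3, (B.es k.1).1 p.1 * (B.es k.2).1 p.2 *
          ((B.es l.1).1 p.1 * (B.es l.2).1 p.2) = ((B.es k.1).1 p.1 * (B.es l.1).1 p.1) *
          ((B.es k.2).1 p.2 * (B.es l.2).1 p.2) := fun p => by ring
      simp only [e]
      rw [integral_prod_mul (fun x => (B.es k.1).1 x * (B.es l.1).1 x)
          fun x => (B.es k.2).1 x * (B.es l.2).1 x,
        B.es_orth (mem_Lplus.1 (mem_product.1 hk).1).1,
        B.es_orth (mem_Lplus.1 (mem_product.1 hk).2).1]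
      by_cases h1 : k.1 = l.1 <;> by_cases h2 : k.2 = l.2 <;> simp [h1, h2, Prod.ext_iff])
    (bmOf G) (B.cf_prod_besu G)
  have h3 : ∀ x z, ∑ a ∈ Lplus P, ∑ b ∈ Lplus P, B.cf G a b * ((B.es a).1 x * (B.es b).1 z) =
      ∑ k ∈ Lplus P ×ˢ Lplus P, B.cf G k.1 k.2 * ((B.es k.1).1 x * (B.es k.2).1 z) := fun x z =>
    (sum_product' _ _ fun a b => B.cf G a b * ((B.es a).1 x * (B.es b).1 z)).symm
  simp only [h3]
  rw [B.ii_prod_besu (G := fun x z => (G.1 (x, z) - ∑ k ∈ Lplus P ×ˢ Lplus P,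
      B.cf G k.1 k.2 * ((B.es k.1).1 x * (B.es k.2).1 z)) ^ 2)
    (((bmOf G).sub (BM.sum fun k _ => (BM.const _).mul (B.bm_es_besu k))).pow 2)]
  rw [B.ii_prod_besu (G := fun x z => G.1 (x, z) ^ 2) ((bmOf G).pow 2)] at hS
  exact h2.trans_le (by linarith)

variable {B} {j : Fin 3} {G G' : BF (R3 × R3)}

/-- Bessel's inequality for the derivative in the first variable: `ibp_mx`, `pars_mx`. -/
theorem bessel_grad1
    (hd : ∀ x z, HasDerivAt (fun t : ℝ => G.1 (x + Pi.single j t, z)) (G'.1 (x, z)) 0)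
    (h0 : ∀ z, B.Face j fun x => G.1 (x, z)) (F : Finset M3) (b : M3) :
    ∑ a ∈ F, B.p a j ^ 2 * B.cf G a b ^ 2 ≤
      ∫ x, (∫ z, (B.es b).1 z * G'.1 (x, z) ∂(B.μ : Measure R3)) ^ 2 ∂(B.μ : Measure R3) := by
  have hb : BM fun x => ∫ z, (B.es b).1 z * G'.1 (x, z) ∂(B.μ : Measure R3) :=
    BM.integral_right (Φ := fun x z => (B.es b).1 z * G'.1 (x, z))
      (((bmOf (B.es b)).comp measurable_snd).mul (bmOf G'))
  have key : ∀ a, B.p a j * B.cf G a b = ∫ x, (B.mx j a).1 x *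
      ∫ z, (B.es b).1 z * G'.1 (x, z) ∂(B.μ : Measure R3) ∂(B.μ : Measure R3) := by
    intro a
    have e1 : ∫ x, (B.mx j a).1 x * ∫ z, (B.es b).1 z * G'.1 (x, z) ∂(B.μ : Measure R3)
        ∂(B.μ : Measure R3) = ∫ x, ∫ z, (B.es b).1 z * ((B.mx j a).1 x * G'.1 (x, z))
        ∂(B.μ : Measure R3) ∂(B.μ : Measure R3) := by
      refine integral_congr_ae (Filter.Eventually.of_forall fun x => ?_)
      beta_reduce
      rw [← integral_const_mul]
      exact integral_congr_ae (Filter.Eventually.of_forall fun z => by beta_reduce; ring)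
    unfold cf
    rw [e1, BM.swap (Φ := fun x z => (B.es a).1 x * (B.es b).1 z * G.1 (x, z))
        ((B.bm_es_besu (a, b)).mul (bmOf G)),
      BM.swap (Φ := fun x z => (B.es b).1 z * ((B.mx j a).1 x * G'.1 (x, z)))
        (((bmOf (B.es b)).comp measurable_snd).mul
          (((bmOf (B.mx j a)).comp measurable_fst).mul (bmOf G'))), ← integral_const_mul]
    refine integral_congr_ae (Filter.Eventually.of_forall fun z => ?_)
    beta_reduce
    rw [integral_const_mul, B.ibp_mx j (f := fun x => G.1 (x, z)) (f' := fun x => G'.1 (x, z))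
      ((bmOf G).comp measurable_prodMk_right) ((bmOf G').comp measurable_prodMk_right)
      (fun x => hd x z) (h0 z) a, mul_left_comm, ← integral_const_mul ((B.es b).1 z)]
    congr 1
    exact integral_congr_ae (Filter.Eventually.of_forall fun x => by beta_reduce; ring)
  simp only [← mul_pow, key]
  exact sum_le_hasSum _ (fun _ _ => sq_nonneg _) ((B.pars_mx j).2 _ hb)

theorem bessel_grad
    (hd : ∀ x z, HasDerivAt (fun t : ℝ => G.1 (x + Pi.single j t, z)) (G'.1 (x, z)) 0)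
    (h0 : ∀ z, B.Face j fun x => G.1 (x, z)) (F F' : Finset M3) :
    ∑ a ∈ F, ∑ b ∈ F', B.p a j ^ 2 * B.cf G a b ^ 2 ≤ B.ii fun x z => G'.1 (x, z) ^ 2 := by
  rw [sum_comm]
  refine (sum_le_sum fun b _ => bessel_grad1 hd h0 F b).trans ?_
  exact sum_le_hasSum _ (fun _ _ => integral_nonneg fun _ => sq_nonneg _)
    (B.pars_es.param (ν' := (B.μ : Measure R3)) (F := fun x z => G'.1 (x, z)) (bmOf G'))

/-- For kernels of short range: Cauchy-Schwarz on the cube of half side `r` around `x`. -/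
theorem bessel_short
    (hd : ∀ x z, HasDerivAt (fun t : ℝ => G.1 (x + Pi.single j t, z)) (G'.1 (x, z)) 0)
    (h0 : ∀ z, B.Face j fun x => G.1 (x, z)) {r : ℝ} (hr : 0 ≤ r)
    (hs : ∀ x z, r < ‖x - z‖ → G'.1 (x, z) = 0) (F F' : Finset M3) :
    ∑ a ∈ F, ∑ b ∈ F', B.p a j ^ 2 * B.cf G a b ^ 2 ≤
      F'.card * (64 * r ^ 3 / B.vol) * B.ii fun x z => G'.1 (x, z) ^ 2 := by
  have hb0 : ∀ z, 0 ≤ (ball3 r).1 z := fun z => by
    rw [ball3_apply]; split_ifs <;> norm_num
  have hb1 : ∀ z, |(ball3 r).1 z| ≤ 1 := fun z => by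
    rw [ball3_apply]; split_ifs <;> norm_num
  have hvol : ∫ z, (ball3 r).1 z ≤ 8 * r ^ 3 := by
    have := (supp_ball3 r).integral_abs_le hr hb1
    simp only [abs_of_nonneg (hb0 _)] at this
    linarith
  have hint : Integrable (ball3 r).1 := (supp_ball3 r).integrable (bmOf _)
  have key : ∀ b x, (∫ z, (B.es b).1 z * G'.1 (x, z) ∂(B.μ : Measure R3)) ^ 2 ≤
      64 * r ^ 3 / B.vol * ∫ z, G'.1 (x, z) ^ 2 ∂(B.μ : Measure R3) := by
    intro b x
    have b1 : BM fun z => (ball3 r).1 (x - z) :=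
      (bmOf (ball3 r)).comp (measurable_const.sub measurable_id)
    have e1 : ∀ z, (B.es b).1 z * G'.1 (x, z) =
        ((B.es b).1 z * (ball3 r).1 (x - z)) * G'.1 (x, z) := by
      intro z
      rw [ball3_apply]
      split_ifs with h
      · rw [mul_one]
      · rw [hs x z (not_le.1 h), mul_zero, mul_zero]
    simp only [e1]
    refine (cs_besu ((bmOf (B.es b)).mul b1) ((bmOf G').comp measurable_prodMk_left)).trans
      (mul_le_mul_of_nonneg_right ?_ (integral_nonneg fun _ => sq_nonneg _))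
    have h1 : ∫ z, ((B.es b).1 z * (ball3 r).1 (x - z)) ^ 2 ∂(B.μ : Measure R3) ≤
        ∫ z, 8 * (ball3 r).1 (x - z) ∂(B.μ : Measure R3) := by
      refine integral_mono (((bmOf (B.es b)).mul b1).pow 2).integrable
        ((BM.const _).mul b1).integrable fun z => ?_
      have := B.es_sq_le b z
      beta_reduce
      rw [ball3_apply]
      split_ifs
      · simpa using this
      · simp
    rw [integral_const_mul] at h1
    have h2 := (B.integral_sub_le hint hb0 x).1
    have h3 := div_le_div_of_nonneg_right hvol B.vol_pos.le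
    have h4 : 64 * r ^ 3 / B.vol = 8 * (8 * r ^ 3 / B.vol) := by ring
    linarith
  rw [sum_comm, mul_assoc, ← nsmul_eq_mul, ← sum_const]
  refine sum_le_sum fun b _ => (bessel_grad1 hd h0 F b).trans ?_
  unfold ii
  rw [← integral_const_mul]
  exact integral_mono
    ((BM.integral_right (Φ := fun x z => (B.es b).1 z * G'.1 (x, z))
      (((bmOf (B.es b)).comp measurable_snd).mul (bmOf G'))).pow 2).integrable
    ((BM.const _).mul (BM.integral_right (Φ := fun x z => G'.1 (x, z) ^ 2)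
      ((bmOf G').pow 2))).integrable fun x => key b x

end Box

end Pool.Agent.BoseLHY
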