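import Pool.Agent.Lib.MP_dec75e_mp.U.Bes
import Pool.Agent.Lib.MP_dec75e_mp.L.Eigen
import Pool.Agent.Lib.MP_dec75e_mp.L.Fold
import Pool.Agent.Lib.MP_dec75e_mp.L.Unf
import Pool.Agent.Lib.MP_dec75e_mp.L.Ct

/-! The antisymmetrised kernel. -/

open MeasureTheory Finset Function
open scoped Real

noncomputable section

namespace Pool.Agent.BoseLHY

open Pool.Agent.BoseTail

namespace Box
variable (B : Box)

theorem asymk_apply (h : BF R3) (x y : R3) : (B.asymk h).1 (x, y) =
    ∑ σ : Fin 3 → Fin 3, (∏ c, if σ c = 0 then (1 : ℝ) else -1) * h.1 (x - B.refl σ y) := by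
  unfold Box.asymk
  rw [AddSubmonoidClass.coe_finsetSum, Finset.sum_apply]
  rfl

theorem far_asymu {r : ℝ} (hr : ∀ c, r ≤ B.s c) {x y : R3} (hx : x ∈ B.set)
    (hy : ∃ c, y c < B.o c - B.s c ∨ B.o c + 2 * B.s c < y c) : r < ‖x - y‖ := by
  obtain ⟨c, hc⟩ := hy
  have h1 := B.mem_fold hx c
  have h2 : |x c - y c| ≤ ‖x - y‖ := norm_le_pi_norm (x - y) c
  have h3 := hr c
  refine lt_of_lt_of_le ?_ h2
  rcases hc with hc | hc
  · exact lt_of_lt_of_le (by linarith) (le_abs_self _)
  · exact lt_of_lt_of_le (by linarith) (neg_le_abs _)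

theorem es_eq_asymu (m : M3) (x : R3) : (B.es m).1 x =
    √2 ^ 3 * ∏ c, Real.cos (m c * B.ang x c - π / 2) := by
  rw [B.es_apply]
  simp only [sn, Real.cos_sub_pi_div_two, prod_mul_distrib, prod_const, card_univ,
    Fintype.card_fin]

theorem conv_asymu {h : R3 → ℝ} (hh : Integrable h) (he : Ev h) (m : M3) (x : R3) :
    ∫ u, h (x - u) * (B.es m).1 u = ct h (B.p m) * (B.es m).1 x := by
  have h1 : ∫ u, h (x - u) * (B.es m).1 u = ∫ z, h z * (B.es m).1 (x - z) := by
    rw [← integral_sub_left_eq_self (fun z => h z * (B.es m).1 (x - z)) volume x]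
    simp only [sub_sub_cancel]
  have h2 : ∀ z, h z * (B.es m).1 (x - z) = √2 ^ 3 *
      (h z * ∏ c, Real.cos (m c * B.ang x c - π / 2 - B.p m c * z c)) := by
    intro z
    have h3 : ∀ c, (m c : ℝ) * B.ang (x - z) c - π / 2 =
        m c * B.ang x c - π / 2 - B.p m c * z c := by
      intro c
      simp only [Box.ang, Box.p, Pi.sub_apply]
      ring
    rw [B.es_eq_asymu]
    simp only [h3]
    ring
  rw [h1]
  simp only [h2]
  rw [integral_const_mul, ct_shift hh he (fun c => m c * B.ang x c - π / 2) (B.p m),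
    B.es_eq_asymu]
  ring

theorem bm_refl_asymu (h : BF R3) (x : R3) (σ : Fin 3 → Fin 3) :
    BM fun y => h.1 (x - B.refl σ y) :=
  (bmOf h).comp (T := fun y => x - B.refl σ y)
    (continuous_const.sub (B.continuous_refl σ)).measurable

/-- `Box.unfold` for `y ↦ h (x - y) * es m y`, `es_refl`, and `ct_shift` with phases shifted by
`π / 2`. -/
theorem asym_eig {h : BF R3} (he : Ev h.1) {r : ℝ} (hs : Supp h.1 r) (hr : ∀ c, r ≤ B.s c)
    (m : M3) {x : R3} (hx : x ∈ B.set) :
    ∫ y, (B.asymk h).1 (x, y) * (B.es m).1 y ∂(B.μ : Measure R3) =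
      ct h.1 (B.p m) / B.vol * (B.es m).1 x := by
  have hh : Integrable h.1 := hs.integrable (bmOf h)
  obtain ⟨hm, K, hK⟩ := bmOf (B.es m)
  have hF : Integrable fun u => h.1 (x - u) * (B.es m).1 u :=
    (hh.comp_sub_left x).mul_bdd hm.aestronglyMeasurable (Filter.Eventually.of_forall hK)
  have hU := B.unfold hF fun y hy => by rw [hs _ (B.far_asymu hr hx hy), zero_mul]
  have hb : ∀ σ : Fin 3 → Fin 3,
      BM fun y => h.1 (x - B.refl σ y) * (B.es m).1 (B.refl σ y) := fun σ =>
    (B.bm_refl_asymu h x σ).mul ((bmOf (B.es m)).comp (B.continuous_refl σ).measurable)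
  have e1 : ∀ y, (B.asymk h).1 (x, y) * (B.es m).1 y =
      ∑ σ : Fin 3 → Fin 3, h.1 (x - B.refl σ y) * (B.es m).1 (B.refl σ y) := fun y => by
    rw [B.asymk_apply, sum_mul]
    exact sum_congr rfl fun σ _ => by rw [B.es_refl]; ring
  simp only [e1]
  rw [integral_finsetSum _ fun σ _ => (hb σ).integrable]
  simp only [B.integral_mu]
  rw [← mul_sum, hU, B.conv_asymu hh he]
  ring

theorem cf_asymk {h : BF R3} (he : Ev h.1) {r : ℝ} (hs : Supp h.1 r) (hr : ∀ c, r ≤ B.s c)
    {a : M3} (ha : Bulk 0 a) (b : M3) :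
    B.cf (B.asymk h) a b = if a = b then ct h.1 (B.p a) / B.vol else 0 := by
  have e1 : B.cf (B.asymk h) a b = ∫ x, ct h.1 (B.p b) / B.vol * ((B.es a).1 x * (B.es b).1 x)
      ∂(B.μ : Measure R3) := by
    refine integral_congr_ae (B.ae_mem.mono fun x hx => ?_)
    have e2 : ∀ z, (B.es a).1 x * (B.es b).1 z * (B.asymk h).1 (x, z) =
        (B.es a).1 x * ((B.asymk h).1 (x, z) * (B.es b).1 z) := fun z => by ring
    simp only [e2]
    rw [integral_const_mul, B.asym_eig he hs hr b hx]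
    ring
  rw [e1, integral_const_mul, B.es_orth ha b]
  split_ifs with hab
  · rw [hab, mul_one]
  · rw [mul_zero]

theorem inv_max_asymu (t : ℝ) : 0 ≤ 1 / max 1 t ∧ 1 / max 1 t ≤ 1 :=
  ⟨one_div_nonneg.2 (zero_le_one.trans (le_max_left _ _)),
    div_le_one_of_le₀ (le_max_left _ _) (zero_le_one.trans (le_max_left _ _))⟩

theorem bm_max_asymu {f : R3 → ℝ} (hf : Measurable f) : BM fun x => 1 / max 1 (f x) :=
  ⟨measurable_const.div (measurable_const.max hf), 1, fun x => by
    rw [Real.norm_of_nonneg (inv_max_asymu _).1]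
    exact (inv_max_asymu _).2⟩

theorem iota_nonneg (x : R3) : 0 ≤ B.iota x := by
  exact sum_nonneg fun c _ => add_nonneg (inv_max_asymu _).1 (inv_max_asymu _).1

theorem bm_iota : BM B.iota := by
  exact BM.sum fun c _ => (bm_max_asymu (by fun_prop)).add (bm_max_asymu (by fun_prop))

theorem img_le_asymu (h : BF R3) (x y : R3) : |(B.asymk h).1 (x, y) - h.1 (x - y)| ≤
    ∑ σ ∈ (univ : Finset (Fin 3 → Fin 3)).erase 0, |h.1 (x - B.refl σ y)| := by
  have e0 : B.refl 0 y = y := funext fun c => if_pos rfl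
  have e1 : (∏ c : Fin 3, if (0 : Fin 3 → Fin 3) c = 0 then (1 : ℝ) else -1) = 1 :=
    prod_eq_one fun c _ => if_pos rfl
  rw [B.asymk_apply, ← add_sum_erase _ _ (mem_univ 0), e0, e1, one_mul, add_sub_cancel_left]
  refine (abs_sum_le_sum_abs _ _).trans (sum_le_sum fun σ _ => ?_)
  rw [abs_mul]
  refine mul_le_of_le_one_left (abs_nonneg _) (abs_prod_le_ct fun c => ?_)
  split_ifs <;> simp

theorem img_far_asymu {x y : R3} (hy : y ∈ B.set) {σ : Fin 3 → Fin 3} (hσ : σ ≠ 0) :
    ∃ c, x c - B.o c ≤ ‖x - B.refl σ y‖ ∧ σ c = 1 ∨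
      B.o c + B.s c - x c ≤ ‖x - B.refl σ y‖ ∧ σ c ≠ 1 := by
  obtain ⟨c, hc⟩ := Function.ne_iff.1 hσ
  have h1 := B.mem_fold hy c
  have h2 : |x c - B.refl σ y c| ≤ ‖x - B.refl σ y‖ := norm_le_pi_norm (x - B.refl σ y) c
  have hc' : σ c ≠ 0 := hc
  refine ⟨c, ?_⟩
  by_cases h3 : σ c = 1
  · rw [Box.refl, if_neg hc', if_pos h3] at h2
    exact Or.inl ⟨by linarith [le_abs_self (x c - (2 * B.o c - y c))], h3⟩
  · rw [Box.refl, if_neg hc', if_neg h3] at h2
    exact Or.inr ⟨by linarith [neg_le_abs (x c - (2 * (B.o c + B.s c) - y c))], h3⟩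

theorem sum26_asymu {f : (Fin 3 → Fin 3) → ℝ} {K : ℝ} (h : ∀ σ, σ ≠ 0 → f σ ≤ K) :
    ∑ σ ∈ (univ : Finset (Fin 3 → Fin 3)).erase 0, f σ ≤ 26 * K := by
  refine (sum_le_card_nsmul _ _ K fun σ hσ => h σ (ne_of_mem_erase hσ)).trans (le_of_eq ?_)
  rw [card_erase_of_mem (mem_univ _), card_univ, Fintype.card_fun, Fintype.card_fin, nsmul_eq_mul]
  norm_num

/-- The 26 images are at least as far from `x` as one of the walls. -/
theorem asym_img {h : BF R3} {C : ℝ} (hC : 1 ≤ C) (h0 : ∀ z, 0 ≤ h.1 z) (h1 : ∀ z, h.1 z ≤ 1)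
    (hd : ∀ z, h.1 z * ‖z‖ ≤ C) {x y : R3} (hx : x ∈ B.set) (hy : y ∈ B.set) :
    |(B.asymk h).1 (x, y) - h.1 (x - y)| ≤ 26 ∧
      |(B.asymk h).1 (x, y) - h.1 (x - y)| ≤ 26 * C * B.iota x := by
  have key : ∀ (z : R3) (t : ℝ), t ≤ ‖z‖ → |h.1 z| ≤ C * (1 / max 1 t) := fun z t ht => by
    rw [abs_of_nonneg (h0 z), mul_one_div, le_div_iff₀ (zero_lt_one.trans_le (le_max_left _ _))]
    rcases le_total t 1 with h2 | h2
    · rw [max_eq_left h2, mul_one]
      exact (h1 z).trans hC
    · rw [max_eq_right h2]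
      exact (mul_le_mul_of_nonneg_left ht (h0 z)).trans (hd z)
  refine ⟨(B.img_le_asymu h x y).trans ((sum26_asymu (K := 1) fun σ _ => ?_).trans_eq
    (mul_one _)), (B.img_le_asymu h x y).trans
      ((sum26_asymu (K := C * B.iota x) fun σ hσ => ?_).trans_eq (mul_assoc _ _ _).symm)⟩
  · rw [abs_of_nonneg (h0 _)]
    exact h1 _
  · obtain ⟨c, hc⟩ := B.img_far_asymu (x := x) hy hσ
    have h2 : 1 / max 1 (x c - B.o c) + 1 / max 1 (B.o c + B.s c - x c) ≤ B.iota x :=
      single_le_sum (f := fun c => 1 / max 1 (x c - B.o c) + 1 / max 1 (B.o c + B.s c - x c))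
        (fun c _ => add_nonneg (inv_max_asymu _).1 (inv_max_asymu _).1) (mem_univ c)
    have h3 := (inv_max_asymu (x c - B.o c)).1
    have h4 := (inv_max_asymu (B.o c + B.s c - x c)).1
    rcases hc with hc | hc
    · exact (key _ _ hc.1).trans (mul_le_mul_of_nonneg_left (by linarith) (by linarith))
    · exact (key _ _ hc.1).trans (mul_le_mul_of_nonneg_left (by linarith) (by linarith))

theorem cont_max_asymu : Continuous fun t : ℝ => 1 / max 1 t :=
  continuous_const.div (continuous_const.max continuous_id)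
    fun t => (zero_lt_one.trans_le (le_max_left 1 t)).ne'

theorem int_max_asymu {s : ℝ} (hs : 1 ≤ s) :
    ∫ t in (0 : ℝ)..s, 1 / max 1 t = 1 + Real.log s := by
  have h1 : ∫ t in (0 : ℝ)..1, 1 / max 1 t = ∫ _ in (0 : ℝ)..1, (1 : ℝ) :=
    intervalIntegral.integral_congr fun t ht => by
      rw [Set.uIcc_of_le zero_le_one] at ht
      simp only [max_eq_left ht.2, div_one]
  have h2 : ∫ t in (1 : ℝ)..s, 1 / max 1 t = ∫ t in (1 : ℝ)..s, 1 / t :=
    intervalIntegral.integral_congr fun t ht => by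
      rw [Set.uIcc_of_le hs] at ht
      simp only [max_eq_right ht.1]
  rw [← intervalIntegral.integral_add_adjacent_intervals (b := 1)
    (cont_max_asymu.intervalIntegrable _ _) (cont_max_asymu.intervalIntegrable _ _), h1, h2,
    integral_one_div_of_pos one_pos (by linarith), div_one]
  simp

theorem marg_asymu (c : Fin 3) {f : ℝ → ℝ} (hf : Continuous f) :
    ∫ x, f (x c) ∂(B.μ : Measure R3) = (B.s c)⁻¹ * ∫ t in B.o c..B.o c + B.s c, f t := by
  have := fun c => unif_prob (B.o c) (B.pos c)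
  rw [← integral_unif (B.pos c), mu_coe_bx]
  exact integral_comp_eval hf.aestronglyMeasurable

theorem integral_iota {s : ℝ} (hB : B.Cube s) (hs : 1 ≤ s) :
    ∫ x, B.iota x ∂(B.μ : Measure R3) ≤ 6 * (1 + Real.log s) / s := by
  unfold Box.iota
  rw [integral_finsetSum _ fun c _ =>
    ((bm_max_asymu (by fun_prop)).add (bm_max_asymu (by fun_prop))).integrable]
  have h1 : ∀ c, ∫ x : R3, (1 / max 1 (x c - B.o c) + 1 / max 1 (B.o c + B.s c - x c))
      ∂(B.μ : Measure R3) = 2 * (1 + Real.log s) / s := fun c => by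
    have c1 : Continuous fun t : ℝ => 1 / max 1 (t - B.o c) := cont_max_asymu.comp (by fun_prop)
    have c2 : Continuous fun t : ℝ => 1 / max 1 (B.o c + B.s c - t) :=
      cont_max_asymu.comp (by fun_prop)
    rw [B.marg_asymu c (f := fun t => 1 / max 1 (t - B.o c) + 1 / max 1 (B.o c + B.s c - t)) (c1.add c2),
      intervalIntegral.integral_add (c1.intervalIntegrable _ _) (c2.intervalIntegrable _ _),
      intervalIntegral.integral_comp_sub_right (fun t => 1 / max 1 t),
      intervalIntegral.integral_comp_sub_left (fun t => 1 / max 1 t), sub_self, sub_self,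
      add_sub_cancel_left, hB c, int_max_asymu hs]
    ring
  simp only [h1, sum_const, card_univ, Fintype.card_fin, nsmul_eq_mul]
  exact le_of_eq (by push_cast; ring)

/-- The images vanish unless `x` is in the boundary layer; there use that the reflections
preserve Lebesgue measure (or `Box.unfold` for `|h (x - ·)|`). -/
theorem asym_lay {h : BF R3} {r : ℝ} (hr0 : 0 ≤ r) (hs : Supp h.1 r) (hr : ∀ c, r ≤ B.s c) :
    (B.ii fun x y => |(B.asymk h).1 (x, y) - h.1 (x - y)|) ≤
      (∑ c, 2 * r / B.s c) * ((∫ z, |h.1 z|) / B.vol) := by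
  have hh : Integrable h.1 := hs.integrable (bmOf h)
  have hK : 0 ≤ (∫ z, |h.1 z|) / B.vol :=
    div_nonneg (integral_nonneg fun z => abs_nonneg _) B.vol_pos.le
  have key : ∀ x ∈ B.set, ∫ y, |(B.asymk h).1 (x, y) - h.1 (x - y)| ∂(B.μ : Measure R3) ≤
      (B.lay r).indicator (fun _ => (∫ z, |h.1 z|) / B.vol) x := fun x hx => by
    by_cases hl : x ∈ B.lay r
    · have hU := B.unfold (hh.comp_sub_left x).abs fun y hy => by
        rw [hs _ (B.far_asymu hr hx hy), abs_zero]
      have hb : ∀ σ : Fin 3 → Fin 3, Integrable (fun y => |h.1 (x - B.refl σ y)|)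
          (B.μ : Measure R3) := fun σ => (B.bm_refl_asymu h x σ).abs.integrable
      rw [Set.indicator_of_mem hl]
      calc _ ≤ ∫ y, ∑ σ : Fin 3 → Fin 3, |h.1 (x - B.refl σ y)| ∂(B.μ : Measure R3) :=
            integral_mono_of_nonneg (Filter.Eventually.of_forall fun y => abs_nonneg _)
              (integrable_finsetSum _ fun σ _ => hb σ)
              (Filter.Eventually.of_forall fun y => (B.img_le_asymu h x y).trans
                (sum_le_sum_of_subset_of_nonneg (erase_subset _ _) fun _ _ _ => abs_nonneg _))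
        _ = _ := by
            rw [integral_finsetSum _ fun σ _ => hb σ]
            simp only [B.integral_mu]
            rw [← mul_sum, hU, integral_sub_left_eq_self (fun z => |h.1 z|) volume x,
              div_eq_inv_mul]
    · rw [Set.indicator_of_notMem hl]
      refine integral_nonpos_of_ae (B.ae_mem.mono fun y hy => ?_)
      refine (B.img_le_asymu h x y).trans (le_of_eq (sum_eq_zero fun σ hσ => ?_))
      obtain ⟨c, hc⟩ := B.img_far_asymu (x := x) hy (ne_of_mem_erase hσ)
      have h3 : r < x c - B.o c := not_le.1 fun h' => hl ⟨c, Or.inl h'⟩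
      have h4 : r < B.o c + B.s c - x c := not_le.1 fun h' => hl ⟨c, Or.inr h'⟩
      rcases hc with hc | hc
      · rw [hs _ (h3.trans_le hc.1), abs_zero]
      · rw [hs _ (h4.trans_le hc.1), abs_zero]
  refine (integral_mono_of_nonneg
    (Filter.Eventually.of_forall fun x => integral_nonneg fun y => abs_nonneg _)
    ((integrable_const _).indicator (B.measurableSet_lay r)) (B.ae_mem.mono key)).trans ?_
  rw [integral_indicator_const _ (B.measurableSet_lay r), smul_eq_mul]
  exact mul_le_mul_of_nonneg_right (B.lay_le hr0) hK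

end Box

end Pool.Agent.BoseLHY
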