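import Pool.Agent.Lib.MP_dec75e_mp.U.Sm0

/-! Elementary bounds on the coefficients. -/

open MeasureTheory Finset Function
open scoped Real

noncomputable section

namespace Pool.Agent.BoseLHY

open Pool.Agent.BoseTail

variable {D : Dat} {C : ℝ}

theorem side_bd1u {s w n : ℝ} (hs : 0 < s) (h1 : 1 ≤ s * w) (h2 : s * w ≤ 2) (hn : 0 ≤ n) :
    n * w ^ 2 ≤ π ^ 2 / s ^ 2 * n ∧ π ^ 2 / s ^ 2 * n ≤ 16 * (n * w ^ 2) := by
  have p1 : (4 : ℝ) ≤ π ^ 2 := by nlinarith [Real.pi_gt_three]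
  have p2 : π ^ 2 ≤ (16 : ℝ) := by nlinarith [Real.pi_le_four, Real.pi_pos]
  have q1 : (s * w) ^ 2 ≤ 4 := by nlinarith
  have q2 : 1 ≤ (s * w) ^ 2 := by nlinarith
  have hs2 : 0 < s ^ 2 := by positivity
  have a1 : w ^ 2 ≤ π ^ 2 / s ^ 2 := by
    rw [le_div_iff₀ hs2]
    calc w ^ 2 * s ^ 2 = (s * w) ^ 2 := by ring
      _ ≤ π ^ 2 := q1.trans p1
  have a2 : π ^ 2 / s ^ 2 ≤ 16 * w ^ 2 := by
    rw [div_le_iff₀ hs2]
    calc π ^ 2 ≤ 16 * 1 := by linarith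
      _ ≤ 16 * (s * w) ^ 2 := by linarith
      _ = 16 * w ^ 2 * s ^ 2 := by ring
  constructor
  · rw [mul_comm n]
    exact mul_le_mul_of_nonneg_right a1 hn
  · calc π ^ 2 / s ^ 2 * n ≤ 16 * w ^ 2 * n := mul_le_mul_of_nonneg_right a2 hn
      _ = 16 * (n * w ^ 2) := by ring

namespace USet
variable (U : USet D C)

theorem p2_bd1u (m : M3) : nm m * U.y ^ 808 ≤ U.p2 m ∧ U.p2 m ≤ 16 * (nm m * U.y ^ 808) := by
  have h := side_bd1u U.hs U.sc.l1 U.sc.l2 (nm_nonneg_lat m)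
  rw [← pow_mul, ← sq3_pk] at h
  exact h

theorem rho_bd1u (hy : U.y ≤ 1 / 1000) : U.y ^ 800 / 2 ≤ U.ρ ∧ U.ρ ≤ 2 * U.y ^ 800 := by
  have h0 := U.sc.y0
  have h1 : U.y ^ 398 ≤ U.y ^ 1 := pow_le_pow_of_le_one h0.le (by linarith) (by norm_num)
  have h2 : U.y ^ 1198 = U.y ^ 800 * U.y ^ 398 := by rw [← pow_add]
  have h3 : 0 < U.y ^ 800 := by positivity
  have h4 : U.y ^ 800 * U.y ^ 398 ≤ U.y ^ 800 * (1 / 2) :=
    mul_le_mul_of_nonneg_left (by rw [pow_one] at h1; linarith) h3.le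
  have h5 := abs_le.1 U.hρ
  rw [h2] at h5
  constructor <;> linarith [h5.1, h5.2]

theorem tlow_bd1u (ha : 8 * π * D.a * U.y ≤ 1) {m : M3} (hm : Bulk 0 m) : U.y ^ 9 ≤ U.t m := by
  have h0 := U.sc.y0
  have hμ := D.mu0_pos h0
  have h1 := (U.p2_bd1u m).1
  have h2 : 1 * U.y ^ 808 ≤ nm m * U.y ^ 808 :=
    mul_le_mul_of_nonneg_right (by linarith [hm.three_le]) (by positivity)
  have h3 : 2 * D.mu0 U.y * U.y ^ 9 ≤ 1 * U.y ^ 808 := by
    have e : 2 * D.mu0 U.y * U.y ^ 9 = 8 * π * D.a * U.y * U.y ^ 808 := by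
      unfold Dat.mu0
      ring
    rw [e]
    exact mul_le_mul_of_nonneg_right ha (by positivity)
  rw [U.p2_eq] at h1
  exact le_of_mul_le_mul_left (h3.trans (h2.trans h1)) (by positivity)

theorem oh_bd1u (hy : U.y ≤ 1 / 1000) (m : M3) :
    U.p2 m * |U.ρ * U.oh m| ≤ 2 * (4 * π * D.a + 64 * C) * U.y ^ 800 := by
  have h0 := U.sc.y0
  obtain ⟨r1, r2⟩ := U.rho_bd1u hy
  have r0 : 0 ≤ U.ρ := le_trans (by positivity) r1
  have h1 : |U.p2 m * U.oh m| ≤ 4 * π * D.a + 64 * C :=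
    U.tr1.abs_ct (by linarith [U.hs]) (pk U.s m)
  have p0 : 0 ≤ U.p2 m :=
    le_trans (mul_nonneg (nm_nonneg_lat m) (by positivity)) (U.p2_bd1u m).1
  rw [abs_mul, abs_of_nonneg p0] at h1
  rw [abs_mul, abs_of_nonneg r0]
  calc U.p2 m * (U.ρ * |U.oh m|) = U.ρ * (U.p2 m * |U.oh m|) := by ring
    _ ≤ 2 * U.y ^ 800 * (4 * π * D.a + 64 * C) :=
      mul_le_mul r2 h1 (by positivity) (by positivity)
    _ = _ := by ring

theorem oh2_bd1u (hy : U.y ≤ 1 / 1000) (m : M3) :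
    nm m * (|U.ρ * U.oh m| * U.y ^ 8) ≤ 2 * (4 * π * D.a + 64 * C) := by
  have h0 := U.sc.y0
  have h1 := (mul_le_mul_of_nonneg_right (U.p2_bd1u m).1 (abs_nonneg (U.ρ * U.oh m))).trans
    (U.oh_bd1u hy m)
  refine le_of_mul_le_mul_right (a := U.y ^ 800) (le_of_eq_of_le ?_ h1) (by positivity)
  ring

theorem alow_bd1u (hy : U.y ≤ 1 / 1000) (ha : 8 * π * D.a * U.y ≤ 1) {m : M3}
    (hm : m ∈ Lplus U.R) : |U.a m| * U.y ^ 5 ≤ 1 := by
  have h0 := U.sc.y0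
  have h1 := U.tlow_bd1u ha (mem_Lplus.1 hm).1
  have h2 : U.y ^ 10 ≤ U.y ^ 9 := pow_le_pow_of_le_one h0.le (by linarith) (by norm_num)
  have h9 : 0 < U.y ^ 9 := by positivity
  have h5 : 0 < U.y ^ 5 := by positivity
  have h3 : U.y ^ 5 ≤ √(U.t m ^ 2 + 2 * U.t m) := by
    refine Real.le_sqrt_of_sq_le ?_
    calc (U.y ^ 5) ^ 2 = U.y ^ 10 := by ring
      _ ≤ U.t m := h2.trans h1
      _ ≤ U.t m ^ 2 + 2 * U.t m := by linarith [sq_nonneg (U.t m), h9.le.trans h1]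
  have h4 : 0 < 2 * √(U.t m ^ 2 + 2 * U.t m) := by linarith
  unfold a
  rw [if_pos hm, abs_div, abs_neg, abs_one, abs_of_pos h4, div_mul_eq_mul_div, one_mul,
    div_le_one h4]
  linarith

theorem ahigh_bd1u {m : M3} (hm : m ∉ Lplus U.R) : |U.a m| = |U.ρ * U.oh m| := by
  unfold a
  rw [if_neg hm, neg_mul, abs_neg]

theorem ahigh1_bd1u (hy : U.y ≤ 1 / 1000) (hA : 2 * (4 * π * D.a + 64 * C) * U.y ≤ 1) {m : M3}
    (hb : Bulk 0 m) (hm : m ∉ Lplus U.R) : |U.a m| ≤ 1 := by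
  have h0 := U.sc.y0
  have h1 := U.oh2_bd1u hy m
  have h2 := (hb.high_of_notMem hm).le_nm
  have hR : (0 : ℝ) ≤ U.R := Nat.cast_nonneg _
  have h3 : 1 ≤ ((U.R : ℝ) * U.y ^ 12) ^ 2 := one_le_pow₀ U.sc.r1
  have h4 : (U.R : ℝ) ^ 2 ≤ nm m := le_trans (by nlinarith) h2
  have h5 : ((U.R : ℝ) * U.y ^ 12) ^ 2 ≤ nm m * U.y ^ 24 := by
    rw [mul_pow, ← pow_mul]
    exact mul_le_mul_of_nonneg_right h4 (by positivity)
  have h6 : U.y ^ 15 ≤ 1 := pow_le_one₀ h0.le (by linarith)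
  rw [U.ahigh_bd1u hm]
  calc |U.ρ * U.oh m| = 1 * |U.ρ * U.oh m| := (one_mul _).symm
    _ ≤ nm m * U.y ^ 24 * |U.ρ * U.oh m| :=
      mul_le_mul_of_nonneg_right (h3.trans h5) (abs_nonneg _)
    _ = nm m * (|U.ρ * U.oh m| * U.y ^ 8) * U.y ^ 16 := by ring
    _ ≤ 2 * (4 * π * D.a + 64 * C) * U.y ^ 16 := mul_le_mul_of_nonneg_right h1 (by positivity)
    _ = 2 * (4 * π * D.a + 64 * C) * U.y * U.y ^ 15 := by ring
    _ ≤ 1 := mul_le_one₀ hA (by positivity) h6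

theorem hsum_bd1u (hy : U.y ≤ 1 / 1000) (hA : 56 * (4 * π * D.a + 64 * C) ^ 2 * U.y ≤ 1) (P : ℕ) :
    (∑ m ∈ Lplus P \ Lplus U.R, U.a m ^ 2) * U.y ^ 5 ≤ 1 := by
  have h0 := U.sc.y0
  set A : ℝ := 4 * π * D.a + 64 * C with hAdef
  have hb : ∀ m ∈ Lplus P \ Lplus U.R, Bulk 0 m ∧ m ∉ Lplus U.R := fun m hm =>
    ⟨(mem_Lplus.1 (mem_sdiff.1 hm).1).1, (mem_sdiff.1 hm).2⟩
  have h1 : ∀ m ∈ Lplus P \ Lplus U.R, U.a m ^ 2 * U.y ^ 16 ≤ 4 * A ^ 2 * (1 / nm m ^ 2) := by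
    intro m hm
    have n0 : 0 < nm m := by linarith [(hb m hm).1.three_le]
    have h2 := U.oh2_bd1u hy m
    rw [← U.ahigh_bd1u (hb m hm).2] at h2
    have h3 := pow_le_pow_left₀ (by positivity) h2 2
    rw [mul_one_div, le_div_iff₀ (by positivity), ← sq_abs (U.a m)]
    calc |U.a m| ^ 2 * U.y ^ 16 * nm m ^ 2 = (nm m * (|U.a m| * U.y ^ 8)) ^ 2 := by ring
      _ ≤ (2 * A) ^ 2 := h3
      _ = 4 * A ^ 2 := by ring
  have h2 := sum_le_sum h1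
  rw [← sum_mul, ← mul_sum] at h2
  have h3 := lat_high U.R (Lplus P \ Lplus U.R) fun m hm =>
    (hb m hm).1.high_of_notMem (hb m hm).2
  have hR : (0 : ℝ) ≤ U.R := Nat.cast_nonneg _
  have h4 : 14 / ((U.R : ℝ) + 1) ≤ 14 * U.y ^ 12 := by
    rw [div_le_iff₀ (by linarith)]
    have := U.sc.r1
    have h12 : 0 < U.y ^ 12 := by positivity
    nlinarith
  have h5 := h2.trans (mul_le_mul_of_nonneg_left (h3.trans h4) (by positivity))
  refine le_of_mul_le_mul_right (a := U.y ^ 11) ?_ (by positivity)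
  calc (∑ m ∈ Lplus P \ Lplus U.R, U.a m ^ 2) * U.y ^ 5 * U.y ^ 11
      = (∑ m ∈ Lplus P \ Lplus U.R, U.a m ^ 2) * U.y ^ 16 := by ring
    _ ≤ 4 * A ^ 2 * (14 * U.y ^ 12) := h5
    _ = 56 * A ^ 2 * U.y * U.y ^ 11 := by ring
    _ ≤ 1 * U.y ^ 11 := mul_le_mul_of_nonneg_right hA (by positivity)

theorem card_bd1u : ((Lplus U.R).card : ℝ) * U.y ^ 36 ≤ 8 := by
  have h0 := U.sc.y0
  have h1 := pow_le_pow_left₀ (by positivity) U.sc.r2 3
  rw [card_Lplus]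
  push_cast
  calc (U.R : ℝ) ^ 3 * U.y ^ 36 = ((U.R : ℝ) * U.y ^ 12) ^ 3 := by ring
    _ ≤ 2 ^ 3 := h1
    _ = 8 := by norm_num

theorem low_bd1u (f : M3 → ℝ) {b : ℝ} (hb : 0 ≤ b) (k : ℕ)
    (h : ∀ m ∈ Lplus U.R, f m * U.y ^ k ≤ b) :
    (∑ m ∈ Lplus U.R, f m) * U.y ^ (k + 36) ≤ 8 * b := by
  have h0 := U.sc.y0
  have h1 := sum_le_card_nsmul _ _ _ h
  rw [← sum_mul, nsmul_eq_mul] at h1
  calc (∑ m ∈ Lplus U.R, f m) * U.y ^ (k + 36)
      = (∑ m ∈ Lplus U.R, f m) * U.y ^ k * U.y ^ 36 := by rw [pow_add, mul_assoc]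
    _ ≤ ((Lplus U.R).card : ℝ) * b * U.y ^ 36 := mul_le_mul_of_nonneg_right h1 (by positivity)
    _ = ((Lplus U.R).card : ℝ) * U.y ^ 36 * b := by ring
    _ ≤ 8 * b := mul_le_mul_of_nonneg_right U.card_bd1u hb

theorem sig_bd1u (ha : 8 * π * D.a * U.y ≤ 1) {m : M3} (hm : m ∈ Lplus U.R) :
    U.σ m ^ 2 = gB √(U.t m) / 2 := by
  have h0 := U.sc.y0
  have ht : 0 < U.t m := lt_of_lt_of_le (by positivity) (U.tlow_bd1u ha (mem_Lplus.1 hm).1)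
  exact (gam_low (a := U.a m) ht (if_pos hm)).1

theorem psig_bd1u (hy : U.y ≤ 1 / 1000) (ha : 8 * π * D.a * U.y ≤ 1)
    (hA : 2 * (4 * π * D.a + 64 * C) * U.y ≤ 1) {m : M3} (hb : Bulk 0 m) :
    U.p2 m * U.σ m ^ 2 ≤ U.y ^ 799 := by
  have h0 := U.sc.y0
  by_cases hm : m ∈ Lplus U.R
  · have ht : 0 < U.t m := lt_of_lt_of_le (by positivity) (U.tlow_bd1u ha hb)
    have hμ := D.mu0_pos h0
    have h1 : U.σ m ^ 2 ≤ 1 / U.t m := by
      rw [U.sig_bd1u ha hm]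
      linarith [(gB_bounds ht).2, min_le_left (1 / U.t m) (1 / U.t m ^ 2)]
    rw [U.p2_eq]
    calc 2 * D.mu0 U.y * U.t m * U.σ m ^ 2 ≤ 2 * D.mu0 U.y * U.t m * (1 / U.t m) :=
        mul_le_mul_of_nonneg_left h1 (by positivity)
      _ = 2 * D.mu0 U.y := by field_simp
      _ = 8 * π * D.a * U.y * U.y ^ 799 := by
        unfold Dat.mu0
        ring
      _ ≤ 1 * U.y ^ 799 := mul_le_mul_of_nonneg_right ha (by positivity)
      _ = U.y ^ 799 := one_mul _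
  · have h1 := U.ahigh1_bd1u hy hA hb hm
    have h2 := U.oh_bd1u hy m
    rw [← U.ahigh_bd1u hm] at h2
    have p0 : 0 ≤ U.p2 m :=
      le_trans (mul_nonneg (nm_nonneg_lat m) (by positivity)) (U.p2_bd1u m).1
    have h3 : U.σ m ^ 2 ≤ |U.a m| := by
      refine (sig_sq_le (U.a m)).trans ?_
      rw [← sq_abs, sq]
      exact mul_le_of_le_one_left (abs_nonneg _) h1
    calc U.p2 m * U.σ m ^ 2 ≤ U.p2 m * |U.a m| := mul_le_mul_of_nonneg_left h3 p0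
      _ ≤ 2 * (4 * π * D.a + 64 * C) * U.y ^ 800 := h2
      _ = 2 * (4 * π * D.a + 64 * C) * U.y * U.y ^ 799 := by ring
      _ ≤ 1 * U.y ^ 799 := mul_le_mul_of_nonneg_right hA (by positivity)
      _ = U.y ^ 799 := one_mul _

theorem bd_bd1u (hy : U.y ≤ 1 / 1000) (hA : 56 * (4 * π * D.a + 64 * C) ^ 2 * U.y ≤ 1)
    (hS : 0 ≤ U.SL ∧ U.SL * U.y ^ 13 ≤ 1) : U.Bd := by
  have h0 := U.sc.y0
  have hC : 1 ≤ C := D.hC.trans U.hC
  have hπa : 0 < π * D.a := mul_pos Real.pi_pos D.ha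
  have hA1 : 1 ≤ 4 * π * D.a + 64 * C := by linarith
  have hA32 : 32 * (4 * π * D.a + 64 * C) * U.y ≤ 1 :=
    le_trans (mul_le_mul_of_nonneg_right (by nlinarith) h0.le) hA
  have hA2 : 2 * (4 * π * D.a + 64 * C) * U.y ≤ 1 :=
    le_trans (mul_le_mul_of_nonneg_right (by linarith) h0.le) hA32
  have ha : 8 * π * D.a * U.y ≤ 1 :=
    le_trans (mul_le_mul_of_nonneg_right (by linarith) h0.le) hA2
  have hy1 : U.y ≤ 1 := by linarith
  have hρ := U.rho_bd1u hy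
  have hpw : ∀ k : ℕ, 1 ≤ k → U.y ^ k ≤ 1 / 1000 := fun k hk => by
    have := pow_le_pow_of_le_one h0.le hy1 hk
    rw [pow_one] at this
    linarith
  refine ⟨h0, hy, hC, hρ, Real.sqrt_nonneg _, ?_, U.card_bd1u,
    fun m hm => U.tlow_bd1u ha (mem_Lplus.1 hm).1, fun m hm => ?_,
    fun m hm => U.alow_bd1u hy ha hm, fun m hb => ?_, fun m hb => U.psig_bd1u hy ha hA2 hb,
    hS.1, hS.2, sum_congr rfl fun m hm => U.sig_bd1u ha hm, fun P => ?_, ?_, fun P => ?_⟩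
  · have hs := U.hs
    exact Real.sq_sqrt (mul_nonneg (le_trans (by positivity) hρ.1) (by positivity))
  · have h1 := nm_le_of_mem (Lplus_subset _ hm)
    have h2 := pow_le_pow_left₀ (by positivity) U.sc.r2 2
    calc U.p2 m ≤ 16 * (nm m * U.y ^ 808) := (U.p2_bd1u m).2
      _ ≤ 16 * (3 * (U.R : ℝ) ^ 2 * U.y ^ 808) := by gcongr
      _ = 48 * ((U.R : ℝ) * U.y ^ 12) ^ 2 * U.y * U.y ^ 783 := by ring
      _ ≤ 48 * 2 ^ 2 * (1 / 1000) * U.y ^ 783 := by gcongr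
      _ ≤ 1 * U.y ^ 783 := mul_le_mul_of_nonneg_right (by norm_num) (by positivity)
      _ = U.y ^ 783 := one_mul _
  · have h1 := mul_le_mul_of_nonneg_right (gam_sq_le (U.a m)) (pow_pos h0 6).le
    have h2 := hpw 6 (by norm_num)
    have h3 : |U.a m| * U.y ^ 6 ≤ 1 / 1000 := by
      by_cases hm : m ∈ Lplus U.R
      · calc |U.a m| * U.y ^ 6 = |U.a m| * U.y ^ 5 * U.y := by ring
          _ ≤ 1 * (1 / 1000) := mul_le_mul (U.alow_bd1u hy ha hm) hy h0.le zero_le_one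
          _ = 1 / 1000 := one_mul _
      · exact (mul_le_of_le_one_left (by positivity) (U.ahigh1_bd1u hy hA2 hb hm)).trans h2
    rw [add_mul, one_mul] at h1
    linarith
  · exact le_trans (mul_le_mul_of_nonneg_right (sum_le_sum fun m _ => sig_sq_le (U.a m))
      (by positivity)) (U.hsum_bd1u hy hA P)
  · have h1 := U.low_bd1u (fun m => |U.a m + U.ρ * U.oh m|) (b := 1 / 8) (by norm_num) 9
      fun m hm => by
        have h2 := U.oh2_bd1u hy m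
        have h3 : |U.ρ * U.oh m| * U.y ^ 8 ≤ 2 * (4 * π * D.a + 64 * C) :=
          le_trans (le_mul_of_one_le_left (by positivity)
            (by linarith [(mem_Lplus.1 hm).1.three_le])) h2
        have h4 := mul_le_mul_of_nonneg_right h3 h0.le
        have h5 := mul_le_mul (U.alow_bd1u hy ha hm) (hpw 4 (by norm_num)) (by positivity)
          zero_le_one
        calc |U.a m + U.ρ * U.oh m| * U.y ^ 9 ≤ (|U.a m| + |U.ρ * U.oh m|) * U.y ^ 9 :=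
            mul_le_mul_of_nonneg_right (abs_add_le _ _) (by positivity)
          _ = |U.a m| * U.y ^ 5 * U.y ^ 4 + |U.ρ * U.oh m| * U.y ^ 8 * U.y := by ring
          _ ≤ 1 / 8 := by linarith
    exact h1.trans (by norm_num)
  · have h1 := U.low_bd1u (fun m => U.a m ^ 2) (b := 1 / 1000) (by norm_num) 11 fun m hm => by
      have h2 := pow_le_pow_left₀ (by positivity) (U.alow_bd1u hy ha hm) 2
      calc U.a m ^ 2 * U.y ^ 11 = (|U.a m| * U.y ^ 5) ^ 2 * U.y := by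
            rw [mul_pow, sq_abs]
            ring
        _ ≤ 1 ^ 2 * (1 / 1000) := mul_le_mul h2 hy h0.le (by norm_num)
        _ = 1 / 1000 := by norm_num
    have h2 := mul_le_mul (U.hsum_bd1u hy hA P) (hpw 42 (by norm_num)) (by positivity) zero_le_one
    have h3 : ∑ m ∈ Lplus P, U.a m ^ 2 ≤
        ∑ m ∈ Lplus P \ Lplus U.R, U.a m ^ 2 + ∑ m ∈ Lplus U.R, U.a m ^ 2 := by
      rw [← sum_union sdiff_disjoint]
      exact sum_le_sum_of_subset_of_nonneg le_sdiff_sup fun m _ _ => sq_nonneg _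
    calc (∑ m ∈ Lplus P, U.a m ^ 2) * U.y ^ 47
        ≤ (∑ m ∈ Lplus P \ Lplus U.R, U.a m ^ 2 + ∑ m ∈ Lplus U.R, U.a m ^ 2) * U.y ^ 47 :=
          mul_le_mul_of_nonneg_right h3 (by positivity)
      _ = (∑ m ∈ Lplus P \ Lplus U.R, U.a m ^ 2) * U.y ^ 5 * U.y ^ 42 +
          (∑ m ∈ Lplus U.R, U.a m ^ 2) * U.y ^ (11 + 36) := by ring
      _ ≤ 1 * (1 / 1000) + 8 * (1 / 1000) := add_le_add h2 h1
      _ ≤ 1 := by norm_num

end USet

/-- On the low modes `t ≥ c y ^ 8`, `p2 ≤ 12 π ^ 2 y ^ 784`, `σ ^ 2 = gB √t / 2 ≤ 1 / t`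
(`gam_low`, `gB_bounds`). On the other modes `|a| = ρ |oh| ≤ ρ A / p2` (`Tr.abs_ct`),
`p2 ≥ y ^ 784` and `lat_high` gives the sums. -/
theorem sm_bd : Sm D C fun U => U.Bd := by
  have h1 : Sm D C fun U => 0 ≤ U.SL ∧ U.SL * U.y ^ 13 ≤ 1 := by
    obtain ⟨y₀, h0, h⟩ := D.SL_le
    exact ⟨y₀, h0, fun U hU => h U.y U.s U.R U.sc hU⟩
  refine (((sm_small 1000).and (sm_small (56 * (4 * π * D.a + 64 * C) ^ 2))).and h1).mono
    fun U h => U.bd_bd1u ?_ h.1.2 h.2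
  linarith [h.1.1]

end Pool.Agent.BoseLHY
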