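import Pool.Agent.Lib.MP_dec75e_mp.U.Df

/-! Inequalities between the coefficient sums. -/

open MeasureTheory Finset Function
open scoped Real

noncomputable section

namespace Pool.Agent.BoseLHY

open Pool.Agent.BoseTail

variable {κ : Type} {s : Finset κ}

theorem n2_nonneg (u : κ → ℝ) : 0 ≤ n2 s u := by
  exact sum_nonneg fun m _ => sq_nonneg _

theorem n2_add_le (u u' : κ → ℝ) : n2 s (fun m => u m + u' m) ≤ 2 * n2 s u + 2 * n2 s u' := by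
  unfold n2
  rw [mul_sum, mul_sum, ← sum_add_distrib]
  exact sum_le_sum fun m _ => by nlinarith [sq_nonneg (u m - u' m)]

theorem q2_eq (M : κ → κ → ℝ) : q2 s M = (∑ a ∈ s, ∑ b ∈ s, (M a b + M b a) ^ 2) / 2 := by
  have h : ∑ a ∈ s, ∑ b ∈ s, M b a ^ 2 = ∑ a ∈ s, ∑ b ∈ s, M a b ^ 2 := sum_comm
  have h2 : ∑ a ∈ s, ∑ b ∈ s, (M a b + M b a) ^ 2 =
      ∑ a ∈ s, ∑ b ∈ s, M a b ^ 2 + ∑ a ∈ s, ∑ b ∈ s, M b a ^ 2 +
        2 * ∑ a ∈ s, ∑ b ∈ s, M a b * M b a := by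
    simp only [mul_sum, ← sum_add_distrib]
    exact sum_congr rfl fun a _ => sum_congr rfl fun b _ => by ring
  have h3 : q2 s M = ∑ a ∈ s, ∑ b ∈ s, M a b ^ 2 + ∑ a ∈ s, ∑ b ∈ s, M a b * M b a := by
    simp only [q2, sum_add_distrib]
  rw [h2, h3, h]; ring

theorem q2_nonneg (M : κ → κ → ℝ) : 0 ≤ q2 s M := by
  rw [q2_eq]
  exact div_nonneg (sum_nonneg fun a _ => sum_nonneg fun b _ => sq_nonneg _) (by norm_num)

theorem q2_le (M : κ → κ → ℝ) : q2 s M ≤ 2 * ∑ a ∈ s, ∑ b ∈ s, M a b ^ 2 := by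
  have h : ∑ a ∈ s, ∑ b ∈ s, M b a ^ 2 = ∑ a ∈ s, ∑ b ∈ s, M a b ^ 2 := sum_comm
  have h2 : ∑ a ∈ s, ∑ b ∈ s, (M a b + M b a) ^ 2 ≤
      2 * ∑ a ∈ s, ∑ b ∈ s, M a b ^ 2 + 2 * ∑ a ∈ s, ∑ b ∈ s, M b a ^ 2 := by
    simp only [mul_sum, ← sum_add_distrib]
    exact sum_le_sum fun a _ => sum_le_sum fun b _ => by nlinarith [sq_nonneg (M a b - M b a)]
  rw [q2_eq]; rw [h] at h2; linarith

theorem q2_smul (t : ℝ) (M : κ → κ → ℝ) : q2 s (fun a b => t * M a b) = t ^ 2 * q2 s M := by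
  unfold q2
  simp only [mul_sum]
  exact sum_congr rfl fun a _ => sum_congr rfl fun b _ => by ring

theorem q2_add_le {ε : ℝ} (hε : 0 < ε) (M M' : κ → κ → ℝ) :
    q2 s (fun a b => M a b + M' a b) ≤ (1 + ε) * q2 s M + (1 + 1 / ε) * q2 s M' := by
  have key : ∀ x y : ℝ, (x + y) ^ 2 ≤ (1 + ε) * x ^ 2 + (1 + 1 / ε) * y ^ 2 := by
    intro x y
    have h1 : 0 ≤ (ε * x - y) ^ 2 / ε := div_nonneg (sq_nonneg _) hε.le
    have h2 : (ε * x - y) ^ 2 / ε = ε * x ^ 2 - 2 * x * y + 1 / ε * y ^ 2 := by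
      field_simp; ring
    nlinarith
  have h : ∑ a ∈ s, ∑ b ∈ s, (M a b + M' a b + (M b a + M' b a)) ^ 2 ≤
      (1 + ε) * ∑ a ∈ s, ∑ b ∈ s, (M a b + M b a) ^ 2 +
        (1 + 1 / ε) * ∑ a ∈ s, ∑ b ∈ s, (M' a b + M' b a) ^ 2 := by
    simp only [mul_sum, ← sum_add_distrib]
    refine sum_le_sum fun a _ => sum_le_sum fun b _ => ?_
    have := key (M a b + M b a) (M' a b + M' b a)
    calc (M a b + M' a b + (M b a + M' b a)) ^ 2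
        = (M a b + M b a + (M' a b + M' b a)) ^ 2 := by ring
      _ ≤ _ := this
  rw [q2_eq, q2_eq, q2_eq]
  linarith

/-- Cauchy-Schwarz in the index `m`, by `q2_eq`. -/
theorem q2_Mv_le (Θ : κ → κ → κ → ℝ) (u : κ → ℝ) : q2 s (Mv s Θ u) ≤ n2 s u * (3 * N3 s Θ) := by
  have h3 : 3 * N3 s Θ = ∑ m ∈ s, q2 s (M1 Θ m) := by unfold N3; ring
  have h4 : ∑ m ∈ s, q2 s (M1 Θ m) =
      (∑ a ∈ s, ∑ b ∈ s, ∑ m ∈ s, (M1 Θ m a b + M1 Θ m b a) ^ 2) / 2 := by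
    simp only [q2_eq, ← sum_div]
    congr 1
    rw [sum_comm]
    exact sum_congr rfl fun a _ => sum_comm
  have h5 : ∑ a ∈ s, ∑ b ∈ s, (Mv s Θ u a b + Mv s Θ u b a) ^ 2 ≤
      n2 s u * ∑ a ∈ s, ∑ b ∈ s, ∑ m ∈ s, (M1 Θ m a b + M1 Θ m b a) ^ 2 := by
    simp only [mul_sum s]
    refine sum_le_sum fun a _ => sum_le_sum fun b _ => ?_
    have e : Mv s Θ u a b + Mv s Θ u b a = ∑ m ∈ s, u m * (M1 Θ m a b + M1 Θ m b a) := by
      simp only [Mv, ← sum_add_distrib]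
      exact sum_congr rfl fun m _ => by ring
    rw [e, ← mul_sum]
    exact sum_mul_sq_le_sq_mul_sq s _ _
  rw [h3, h4, q2_eq]
  linarith

theorem N3_nonneg (Θ : κ → κ → κ → ℝ) : 0 ≤ N3 s Θ := by
  exact div_nonneg (sum_nonneg fun m _ => q2_nonneg _) (by norm_num)

theorem sum_q2_M1_le (Θ : κ → κ → κ → ℝ) :
    ∑ m ∈ s, q2 s (M1 Θ m) ≤ 18 * ∑ a ∈ s, ∑ b ∈ s, ∑ c ∈ s, Θ a b c ^ 2 := by
  have h1 : ∑ m ∈ s, ∑ b ∈ s, ∑ c ∈ s, Θ b m c ^ 2 = ∑ a ∈ s, ∑ b ∈ s, ∑ c ∈ s, Θ a b c ^ 2 :=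
    sum_comm
  have h2 : ∑ m ∈ s, ∑ b ∈ s, ∑ c ∈ s, Θ b c m ^ 2 = ∑ a ∈ s, ∑ b ∈ s, ∑ c ∈ s, Θ a b c ^ 2 := by
    rw [sum_comm]
    exact sum_congr rfl fun a _ => sum_comm
  have h3 : ∑ m ∈ s, q2 s (M1 Θ m) ≤ 6 * ∑ m ∈ s, ∑ b ∈ s, ∑ c ∈ s, Θ m b c ^ 2 +
      6 * ∑ m ∈ s, ∑ b ∈ s, ∑ c ∈ s, Θ b m c ^ 2 + 6 * ∑ m ∈ s, ∑ b ∈ s, ∑ c ∈ s, Θ b c m ^ 2 := by
    simp only [mul_sum, ← sum_add_distrib]
    refine sum_le_sum fun m _ => (q2_le _).trans ?_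
    simp only [mul_sum]
    refine sum_le_sum fun b _ => sum_le_sum fun c _ => ?_
    unfold M1
    nlinarith [sq_nonneg (Θ m b c - Θ b m c), sq_nonneg (Θ m b c - Θ b c m),
      sq_nonneg (Θ b m c - Θ b c m)]
  rw [h1, h2] at h3
  linarith

theorem sq_div_le_coqu (x : ℝ) {g : ℝ} (hg : 1 ≤ g) : (x / g) ^ 2 ≤ x ^ 2 := by
  rw [div_pow]
  exact div_le_self (sq_nonneg _) (one_le_pow₀ hg)

namespace Co
variable {K : Co κ}

theorem N_nonneg : 0 ≤ K.N := by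
  exact N3_nonneg _

theorem T0_nonneg : 0 ≤ K.T0 := by
  exact sum_nonneg fun a _ => sum_nonneg fun b _ => sum_nonneg fun c _ => sq_nonneg _

theorem kk_nonneg (u : κ → ℝ) : 0 ≤ K.kk u := by
  exact q2_nonneg _

theorem tt_nonneg (u : κ → ℝ) : 0 ≤ K.tt u := by
  exact sum_nonneg fun a _ => sum_nonneg fun b _ => sq_nonneg _

theorem main1_nonneg (u u' : κ → ℝ) : 0 ≤ K.main1 u u' := by
  exact sum_nonneg fun a _ => sq_nonneg _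

theorem Dn_nonneg (u : κ → ℝ) : 0 ≤ K.Dn u := by
  have h1 := n2_nonneg (s := K.s) (K.su u)
  have h2 : 0 ≤ K.N := N_nonneg
  have h3 := kk_nonneg (K := K) u
  have h4 := q2_nonneg (s := K.s) (Mv K.s K.Θ (K.su u))
  unfold Dn
  positivity

theorem pb_nonneg {ε sb gb : ℝ} (hε : 0 < ε) (hs : 0 ≤ sb) (hg : 0 ≤ gb) (u u' : κ → ℝ) :
    0 ≤ K.pb ε sb gb u u' := by
  have h2 : 0 ≤ K.N := N_nonneg
  have h3 := kk_nonneg (K := K) u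
  have h4 := kk_nonneg (K := K) u'
  have h5 := tt_nonneg (K := K) u
  have h6 := tt_nonneg (K := K) u'
  have h7 := main1_nonneg (K := K) u u'
  unfold pb
  positivity

theorem kn_nonneg {P : κ → ℝ} (hP : ∀ m ∈ K.s, 0 ≤ P m) : 0 ≤ K.kn P := by
  have h2 : 0 ≤ K.N := N_nonneg
  refine sum_nonneg fun m hm => mul_nonneg (hP m hm) ?_
  have := q2_nonneg (s := K.s) (M1 K.Θ m)
  positivity

theorem Ok.sum_q2_le (h : K.Ok) : ∑ m ∈ K.s, q2 K.s (M1 K.Θ m) ≤ 18 * K.T0 := by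
  refine (sum_q2_M1_le _).trans (mul_le_mul_of_nonneg_left ?_ (by norm_num))
  refine sum_le_sum fun a _ => sum_le_sum fun b _ => sum_le_sum fun c _ => ?_
  exact sq_div_le_coqu _ (one_le_mul_of_one_le_of_one_le (h.g1 a) (h.g1 b))

theorem Ok.N_le (h : K.Ok) : K.N ≤ 6 * K.T0 := by
  have := h.sum_q2_le
  unfold N N3
  linarith

theorem le_n1 : (K.r ^ 2 + n2 K.s K.σ) * (1 + K.N) ≤ K.n1 := by
  unfold n1
  refine le_add_of_nonneg_right (sum_nonneg fun m _ => mul_nonneg ?_ (q2_nonneg _))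
  positivity

theorem Dn_le {u : κ → ℝ} {sb : ℝ} (hs : n2 K.s (K.su u) ≤ sb) :
    K.Dn u ≤ (K.r ^ 2 + sb) * (1 + K.N) + K.kk u + 3 * sb * K.N := by
  have h2 : 0 ≤ K.N := N_nonneg
  have h3 := q2_Mv_le (s := K.s) K.Θ (K.su u)
  have h4 : N3 K.s K.Θ = K.N := rfl
  rw [h4] at h3
  unfold Dn
  nlinarith [mul_le_mul_of_nonneg_right hs h2]

theorem Ok.split_coqu (h : K.Ok) {ε : ℝ} (hε : 0 < ε) (m : κ) :
    K.γ m ^ 2 * q2 K.s (M1 K.Θ m) ≤ (1 + ε) * q2 K.s (fun b c => 2 * K.θ m b c / K.γ b) +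
      (1 + 1 / ε) * q2 K.s fun b c => K.γ m * K.θ b c m / (K.γ b * K.γ c) := by
  rw [← q2_smul]
  refine le_trans (le_of_eq ?_) (q2_add_le hε _ _)
  congr 1
  funext b c
  have h1 : K.γ m ≠ 0 := (lt_of_lt_of_le one_pos (h.g1 m)).ne'
  have h2 : K.γ b ≠ 0 := (lt_of_lt_of_le one_pos (h.g1 b)).ne'
  have h3 : K.γ c ≠ 0 := (lt_of_lt_of_le one_pos (h.g1 c)).ne'
  simp only [M1, Θ]
  rw [h.symm b m c]
  field_simp
  ring

theorem Ok.qA_coqu (h : K.Ok) (m : κ) :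
    q2 K.s (fun b c => 2 * K.θ m b c / K.γ b) ≤
      4 * (∑ b ∈ K.s, ∑ c ∈ K.s, K.θ m b c ^ 2 + ∑ b ∈ K.L, ∑ c ∈ K.s, K.θ m b c ^ 2) := by
  classical
  have hsq : ∀ b c, (2 * K.θ m b c / K.γ b) ^ 2 ≤ 4 * K.θ m b c ^ 2 := fun b c => by
    have := sq_div_le_coqu (2 * K.θ m b c) (h.g1 b)
    linarith [show (2 * K.θ m b c) ^ 2 = 4 * K.θ m b c ^ 2 by ring]
  have hL : ∑ b ∈ K.L, ∑ c ∈ K.s, K.θ m b c ^ 2 =
      ∑ b ∈ K.s, ∑ c ∈ K.s, if b ∈ K.L then K.θ m b c ^ 2 else 0 := by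
    have : ∀ b, (∑ c ∈ K.s, if b ∈ K.L then K.θ m b c ^ 2 else 0) =
        if b ∈ K.L then ∑ c ∈ K.s, K.θ m b c ^ 2 else 0 := fun b => by
      split_ifs <;> simp
    simp only [this]
    rw [sum_ite_mem, inter_eq_right.mpr h.sub]
  have hL' : (∑ b ∈ K.s, ∑ c ∈ K.s, if c ∈ K.L then K.θ m c b ^ 2 else 0) =
      ∑ b ∈ K.s, ∑ c ∈ K.s, if b ∈ K.L then K.θ m b c ^ 2 else 0 := sum_comm
  have hb : q2 K.s (fun b c => 2 * K.θ m b c / K.γ b) ≤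
      4 * ∑ b ∈ K.s, ∑ c ∈ K.s, K.θ m b c ^ 2 +
      2 * (∑ b ∈ K.s, ∑ c ∈ K.s, if b ∈ K.L then K.θ m b c ^ 2 else 0) +
      2 * ∑ b ∈ K.s, ∑ c ∈ K.s, if c ∈ K.L then K.θ m c b ^ 2 else 0 := by
    unfold q2
    simp only [mul_sum, ← sum_add_distrib]
    refine sum_le_sum fun b _ => sum_le_sum fun c _ => ?_
    have h1 := hsq b c
    have h2 := hsq c b
    by_cases hb : b ∈ K.L
    · by_cases hc : c ∈ K.L
      · simp only [hb, hc, if_true]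
        nlinarith [sq_nonneg (2 * K.θ m b c / K.γ b - 2 * K.θ m c b / K.γ c)]
      · simp only [hb, hc, if_true, if_false, h.low m b c hc]
        simp
    · have h0 := h.low m c b hb
      have e1 : (if c ∈ K.L then K.θ m c b ^ 2 else 0) = 0 := by rw [h0]; simp
      have e2 : 2 * K.θ m c b / K.γ c = 0 := by rw [h0]; simp
      rw [e1, e2, if_neg hb]
      linarith
  rw [hL', ← hL] at hb
  linarith

theorem Ok.qB_coqu (h : K.Ok) {P : κ → ℝ} {PL : ℝ} (h0 : 0 ≤ PL)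
    (hL : ∀ m ∈ K.L, P m * K.γ m ^ 2 ≤ PL) {m : κ} (hp : 0 ≤ P m) :
    (P m * q2 K.s fun b c => K.γ m * K.θ b c m / (K.γ b * K.γ c)) ≤
      2 * PL * ∑ b ∈ K.s, ∑ c ∈ K.s, K.θ b c m ^ 2 := by
  have hT : 0 ≤ ∑ b ∈ K.s, ∑ c ∈ K.s, K.θ b c m ^ 2 :=
    sum_nonneg fun a _ => sum_nonneg fun b _ => sq_nonneg _
  by_cases hm : m ∈ K.L
  · have h1 : (q2 K.s fun b c => K.γ m * K.θ b c m / (K.γ b * K.γ c)) ≤
        2 * (K.γ m ^ 2 * ∑ b ∈ K.s, ∑ c ∈ K.s, K.θ b c m ^ 2) := by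
      refine (q2_le _).trans (mul_le_mul_of_nonneg_left ?_ (by norm_num))
      simp only [mul_sum]
      refine sum_le_sum fun b _ => sum_le_sum fun c _ => ?_
      rw [← mul_pow]
      exact sq_div_le_coqu _ (one_le_mul_of_one_le_of_one_le (h.g1 b) (h.g1 c))
    have h2 := mul_le_mul_of_nonneg_left h1 hp
    have h3 := mul_le_mul_of_nonneg_right (hL m hm) hT
    linarith
  · have : (fun b c => K.γ m * K.θ b c m / (K.γ b * K.γ c)) = fun _ _ => (0 : ℝ) := by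
      funext b c
      rw [h.low b c m hm]; simp
    rw [this]
    have : q2 K.s (fun _ _ => (0 : ℝ)) = 0 := by simp [q2]
    rw [this, mul_zero]
    positivity

/-- Write `γ m * M1 Θ m b c = A b c + B b c` with `A b c = 2 θ m b c / γ b` and
`B b c = γ m * θ b c m / (γ b * γ c)`, which vanishes unless `m ∈ L`. In `q2 A` the product
`A b c * A c b` vanishes unless `b, c ∈ L`, so `q2 A ≤ 4 ∑ θ m b c ^ 2 + 4 ∑_{b ∈ L} θ m b c ^ 2`. -/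
theorem Ok.kn_le (h : K.Ok) {P : κ → ℝ} {ε PL Pσ : ℝ} (hε : 0 < ε) (hP : ∀ m ∈ K.s, 0 ≤ P m)
    (h0 : 0 ≤ PL) (h1 : 0 ≤ Pσ) (hL : ∀ m ∈ K.L, P m * K.γ m ^ 2 ≤ PL)
    (hσ : ∀ m ∈ K.s, P m * K.σ m ^ 2 ≤ Pσ) :
    K.kn P ≤ (1 + 6 * K.T0) * ∑ m ∈ K.s, P m * K.σ m ^ 2 +
      (1 + ε) * (4 * (K.T1 P K.s + K.T1 P K.L)) + (1 + 1 / ε) * (2 * PL * K.T0) +
      18 * Pσ * K.T0 := by
  classical
  have hN := h.N_le
  have hq := h.sum_q2_le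
  have hS : 0 ≤ ∑ m ∈ K.s, P m * K.σ m ^ 2 :=
    sum_nonneg fun m hm => mul_nonneg (hP m hm) (sq_nonneg _)
  have e : K.kn P = (∑ m ∈ K.s, P m * K.σ m ^ 2) * (1 + K.N) +
      ∑ m ∈ K.s, P m * (K.γ m ^ 2 * q2 K.s (M1 K.Θ m)) +
      ∑ m ∈ K.s, P m * K.σ m ^ 2 * q2 K.s (M1 K.Θ m) := by
    unfold kn
    rw [sum_mul, ← sum_add_distrib, ← sum_add_distrib]
    exact sum_congr rfl fun m _ => by ring
  have b1 : (∑ m ∈ K.s, P m * K.σ m ^ 2) * (1 + K.N) ≤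
      (1 + 6 * K.T0) * ∑ m ∈ K.s, P m * K.σ m ^ 2 := by
    rw [mul_comm]
    exact mul_le_mul_of_nonneg_right (by linarith) hS
  have b3 : ∑ m ∈ K.s, P m * K.σ m ^ 2 * q2 K.s (M1 K.Θ m) ≤ 18 * Pσ * K.T0 := by
    calc ∑ m ∈ K.s, P m * K.σ m ^ 2 * q2 K.s (M1 K.Θ m)
        ≤ ∑ m ∈ K.s, Pσ * q2 K.s (M1 K.Θ m) :=
          sum_le_sum fun m hm => mul_le_mul_of_nonneg_right (hσ m hm) (q2_nonneg _)
      _ = Pσ * ∑ m ∈ K.s, q2 K.s (M1 K.Θ m) := by rw [mul_sum]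
      _ ≤ Pσ * (18 * K.T0) := mul_le_mul_of_nonneg_left hq h1
      _ = _ := by ring
  have hT : ∑ m ∈ K.s, ∑ b ∈ K.s, ∑ c ∈ K.s, K.θ b c m ^ 2 = K.T0 := by
    unfold T0
    rw [sum_comm]
    exact sum_congr rfl fun a _ => sum_comm
  have hT1 : ∀ t : Finset κ, K.T1 P t = ∑ m ∈ K.s, P m * ∑ b ∈ t, ∑ c ∈ K.s, K.θ m b c ^ 2 := by
    intro t
    unfold T1
    simp only [mul_sum]
  have b2 : ∑ m ∈ K.s, P m * (K.γ m ^ 2 * q2 K.s (M1 K.Θ m)) ≤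
      (1 + ε) * (4 * (K.T1 P K.s + K.T1 P K.L)) + (1 + 1 / ε) * (2 * PL * K.T0) := by
    rw [← hT, hT1, hT1, ← sum_add_distrib, mul_sum, mul_sum, mul_sum, mul_sum, ← sum_add_distrib]
    refine sum_le_sum fun m hm => ?_
    have hp := hP m hm
    have hA := h.qA_coqu m
    have hB := h.qB_coqu (P := P) h0 hL hp
    have hsplit := h.split_coqu hε m
    have he1 : 0 ≤ 1 + ε := by linarith
    have he2 : 0 ≤ 1 + 1 / ε := by positivity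
    calc P m * (K.γ m ^ 2 * q2 K.s (M1 K.Θ m))
        ≤ P m * ((1 + ε) * q2 K.s (fun b c => 2 * K.θ m b c / K.γ b) +
            (1 + 1 / ε) * q2 K.s fun b c => K.γ m * K.θ b c m / (K.γ b * K.γ c)) :=
          mul_le_mul_of_nonneg_left hsplit hp
      _ = (1 + ε) * (P m * q2 K.s fun b c => 2 * K.θ m b c / K.γ b) +
            (1 + 1 / ε) * (P m * q2 K.s fun b c => K.γ m * K.θ b c m / (K.γ b * K.γ c)) := by
          ring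
      _ ≤ _ := by
          refine add_le_add (mul_le_mul_of_nonneg_left ?_ he1) (mul_le_mul_of_nonneg_left hB he2)
          have := mul_le_mul_of_nonneg_left hA hp
          linarith
  rw [e]
  linarith

end Co

end Pool.Agent.BoseLHY
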