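import Pool.Agent.Lib.MP_dec75e_mp.U.CcrA
import Pool.Agent.Lib.MP_dec75e_mp.U.CoQ

/-! Norms of the states with two and three quasi-particles. -/

open MeasureTheory Finset Function
open scoped Real

noncomputable section

namespace Pool.Agent.BoseLHY

open Pool.Agent.BoseTail

variable {V : Type} [AddCommGroup V] [Module ℝ V] {κ : Type} [DecidableEq κ]
  {β : V →ₗ[ℝ] V →ₗ[ℝ] ℝ} {c cd : κ → Module.End ℝ V} {s : Finset κ}
variable {Ξ : V}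

omit [DecidableEq κ] in
theorem lin_ap_ccrbu (d : κ → Module.End ℝ V) (u : κ → ℝ) (f : V) :
    lin d s u f = ∑ m ∈ s, u m • d m f := by
  simp only [lin, LinearMap.sum_apply, LinearMap.smul_apply]

omit [DecidableEq κ] in
theorem cre2_ap_ccrbu (M : κ → κ → ℝ) (f : V) :
    cre2 cd s M f = ∑ a ∈ s, ∑ b ∈ s, M a b • cd a (cd b f) := by
  simp only [cre2, LinearMap.sum_apply, LinearMap.smul_apply, Module.End.mul_apply]

omit [DecidableEq κ] in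
theorem cre3_ap_ccrbu (Θ : κ → κ → κ → ℝ) (f : V) :
    cre3 cd s Θ f = ∑ a ∈ s, ∑ b ∈ s, ∑ e ∈ s, Θ a b e • cd a (cd b (cd e f)) := by
  simp only [cre3, LinearMap.sum_apply, LinearMap.smul_apply, Module.End.mul_apply]

theorem CCR.c2_ccrbu (h : CCR β c cd s) (hΞ : Vac c s Ξ) {m a b : κ} (hm : m ∈ s) (ha : a ∈ s)
    (hb : b ∈ s) : c m (cd a (cd b Ξ)) =
      (if m = a then cd b Ξ else 0) + if m = b then cd a Ξ else 0 := by
  rw [h.ccr m hm a ha, h.ccr m hm b hb, hΞ m hm, map_zero, zero_add, apply_ite (cd a), map_zero,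
    add_comm]

theorem CCR.five_ccrbu (h : CCR β c cd s) {f0 f1 f2 f3 f4 : V} (h0 : Deg c cd s 0 f0)
    (h1 : Deg c cd s 1 f1) (h2 : Deg c cd s 2 f2) (h3 : Deg c cd s 3 f3) (h4 : Deg c cd s 4 f4) :
    nq β (f0 + f1 + f2 + f3 + f4) = nq β f0 + nq β f1 + nq β f2 + nq β f3 + nq β f4 := by
  simp only [h.psd.nq_add, map_add, LinearMap.add_apply, h0.orth h h1 (by norm_num),
    h0.orth h h2 (by norm_num), h0.orth h h3 (by norm_num), h0.orth h h4 (by norm_num),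
    h1.orth h h2 (by norm_num), h1.orth h h3 (by norm_num), h1.orth h h4 (by norm_num),
    h2.orth h h3 (by norm_num), h2.orth h h4 (by norm_num), h3.orth h h4 (by norm_num),
    add_zero, mul_zero]

theorem CCR.deg_cre2 (h : CCR β c cd s) (hΞ : Vac c s Ξ) (M : κ → κ → ℝ) :
    Deg c cd s 2 (cre2 cd s M Ξ) := by
  rw [cre2_ap_ccrbu]
  refine Deg.sum fun a ha => Deg.sum fun b hb => Deg.smul ?_ _
  have := (hΞ.deg.raise h hb).raise h ha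
  rwa [zero_add, one_add_one_eq_two] at this

theorem CCR.deg_cre3 (h : CCR β c cd s) (hΞ : Vac c s Ξ) (Θ : κ → κ → κ → ℝ) :
    Deg c cd s 3 (cre3 cd s Θ Ξ) := by
  rw [cre3_ap_ccrbu]
  refine Deg.sum fun a ha => Deg.sum fun b hb => Deg.sum fun e he => Deg.smul ?_ _
  have := ((hΞ.deg.raise h he).raise h hb).raise h ha
  rwa [show (0 : ℝ) + 1 + 1 + 1 = 3 by norm_num] at this

theorem CCR.c_cre2 (h : CCR β c cd s) (hΞ : Vac c s Ξ) (M : κ → κ → ℝ) {m : κ} (hm : m ∈ s) :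
    c m (cre2 cd s M Ξ) = lin cd s (fun b => M m b + M b m) Ξ := by
  rw [cre2_ap_ccrbu, lin_ap_ccrbu]
  simp only [map_sum, map_smul]
  rw [sum_congr rfl fun a ha => sum_congr rfl fun b hb => by rw [h.c2_ccrbu hΞ hm ha hb]]
  simp only [smul_add, sum_add_distrib, smul_ite, smul_zero, sum_ite_irrel, sum_const_zero,
    sum_ite_eq, hm, if_true, add_smul]

theorem CCR.c_cre3 (h : CCR β c cd s) (hΞ : Vac c s Ξ) (Θ : κ → κ → κ → ℝ) {m : κ} (hm : m ∈ s) :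
    c m (cre3 cd s Θ Ξ) = cre2 cd s (M1 Θ m) Ξ := by
  rw [cre3_ap_ccrbu, cre2_ap_ccrbu]
  simp only [map_sum, map_smul]
  rw [sum_congr rfl fun a ha => sum_congr rfl fun b hb => sum_congr rfl fun e he => by
    rw [h.ccr m hm a ha, h.c2_ccrbu hΞ hm hb he, map_add, apply_ite (cd a), apply_ite (cd a),
      map_zero]]
  simp only [smul_add, sum_add_distrib, smul_ite, smul_zero, sum_ite_irrel, sum_const_zero,
    sum_ite_eq, hm, if_true, add_smul, M1]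
  abel

theorem CCR.lin_cre2 (h : CCR β c cd s) (hΞ : Vac c s Ξ) (M : κ → κ → ℝ) (u : κ → ℝ) :
    lin c s u (cre2 cd s M Ξ) = lin cd s (fun b => ∑ a ∈ s, u a * (M a b + M b a)) Ξ := by
  rw [lin_ap_ccrbu, sum_congr rfl fun m hm => by rw [h.c_cre2 hΞ M hm]]
  simp only [lin_ap_ccrbu, smul_sum, sum_smul, smul_smul]
  exact sum_comm

theorem CCR.lin_cre3 (h : CCR β c cd s) (hΞ : Vac c s Ξ) (Θ : κ → κ → κ → ℝ) (u : κ → ℝ) :
    lin c s u (cre3 cd s Θ Ξ) = cre2 cd s (Mv s Θ u) Ξ := by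
  rw [lin_ap_ccrbu, sum_congr rfl fun m hm => by rw [h.c_cre3 hΞ Θ hm]]
  simp only [cre2_ap_ccrbu, smul_sum, sum_smul, smul_smul, Mv]
  rw [sum_comm]
  exact sum_congr rfl fun b _ => sum_comm

theorem CCR.nq_lin_vac (h : CCR β c cd s) (hΞ : Vac c s Ξ) (u : κ → ℝ) :
    nq β (lin cd s u Ξ) = n2 s u * nq β Ξ := by
  rw [h.nq_lin_cd, hΞ.lin, nq_zero, add_zero]

/-- `Deg.sum_nq` with `r = 2`, `c_cre2` and `q2_eq`. -/
theorem CCR.nq_cre2 (h : CCR β c cd s) (hΞ : Vac c s Ξ) (M : κ → κ → ℝ) :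
    nq β (cre2 cd s M Ξ) = q2 s M * nq β Ξ := by
  have h1 := (h.deg_cre2 hΞ M).sum_nq h
  rw [sum_congr rfl fun m hm => by rw [h.c_cre2 hΞ M hm, h.nq_lin_vac hΞ], ← sum_mul] at h1
  rw [q2_eq]
  simp only [n2] at h1
  linarith

theorem CCR.nq_cre3 (h : CCR β c cd s) (hΞ : Vac c s Ξ) (Θ : κ → κ → κ → ℝ) :
    nq β (cre3 cd s Θ Ξ) = N3 s Θ * nq β Ξ := by
  have h1 := (h.deg_cre3 hΞ Θ).sum_nq h
  rw [sum_congr rfl fun m hm => by rw [h.c_cre3 hΞ Θ hm, h.nq_cre2 hΞ], ← sum_mul] at h1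
  rw [N3]
  linarith

variable {K : Co κ}

theorem Co.nq_X (h : CCR β c cd K.s) (hΞ : Vac c K.s Ξ) :
    nq β (K.X cd Ξ) = (1 + K.N) * nq β Ξ := by
  rw [Co.X, LinearMap.add_apply, Module.End.one_apply, h.psd.nq_add, h.nq_cre3 hΞ,
    hΞ.deg.orth h (h.deg_cre3 hΞ K.Θ) (by norm_num), Co.N]
  ring

/-- The five components of degrees `0, …, 4` are orthogonal. -/
theorem Co.nq_F (h : CCR β c cd K.s) (hΞ : Vac c K.s Ξ) (u : κ → ℝ) :
    nq β (K.F c cd u (K.X cd Ξ)) = K.Dn u * nq β Ξ := by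
  have e : K.F c cd u (K.X cd Ξ) = K.r • Ξ + lin cd K.s (K.su u) Ξ +
      cre2 cd K.s (Mv K.s K.Θ (K.gu u)) Ξ + K.r • cre3 cd K.s K.Θ Ξ +
      lin cd K.s (K.su u) (cre3 cd K.s K.Θ Ξ) := by
    rw [← h.lin_cre3 hΞ, Co.F, fld, lin_dop, Co.X]
    simp only [LinearMap.add_apply, LinearMap.smul_apply, Module.End.one_apply, map_add, hΞ.lin,
      smul_add, zero_add]
    change _ + (lin cd K.s (K.su u) Ξ) + (_ + (lin c K.s (K.gu u) _ + lin cd K.s (K.su u) _)) = _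
    abel
  have d1 := hΞ.deg.lin_cd h (K.su u)
  have d4 := (h.deg_cre3 hΞ K.Θ).lin_cd h (K.su u)
  rw [zero_add] at d1
  rw [show (3 : ℝ) + 1 = 4 by norm_num] at d4
  rw [e, h.five_ccrbu (hΞ.deg.smul _) d1 (h.deg_cre2 hΞ _) ((h.deg_cre3 hΞ _).smul _) d4, nq_smul,
    nq_smul, h.nq_lin_vac hΞ, h.nq_cre2 hΞ, h.nq_lin_cd, h.lin_cre3 hΞ, h.nq_cre2 hΞ,
    h.nq_cre3 hΞ, Co.Dn, Co.kk, Co.N]
  ring

theorem Co.nq_dop (h : CCR β c cd K.s) (hΞ : Vac c K.s Ξ) {m : κ} (hm : m ∈ K.s) :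
    nq β (dop c cd K.γ K.σ m (K.X cd Ξ)) =
      (K.σ m ^ 2 * (1 + K.N) + (K.γ m ^ 2 + K.σ m ^ 2) * q2 K.s (M1 K.Θ m)) * nq β Ξ := by
  have e : dop c cd K.γ K.σ m (K.X cd Ξ) = 0 + K.σ m • cd m Ξ +
      K.γ m • cre2 cd K.s (M1 K.Θ m) Ξ + 0 + K.σ m • cd m (cre3 cd K.s K.Θ Ξ) := by
    rw [← h.c_cre3 hΞ K.Θ hm, dop, Co.X]
    simp only [LinearMap.add_apply, LinearMap.smul_apply, Module.End.one_apply, map_add, hΞ m hm,
      smul_zero, zero_add, add_zero]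
    abel
  have d1 := hΞ.deg.raise h hm
  have d4 := (h.deg_cre3 hΞ K.Θ).raise h hm
  have d0 : ∀ r : ℝ, Deg c cd K.s r (0 : V) := fun r => by simp [Deg]
  rw [zero_add] at d1
  rw [show (3 : ℝ) + 1 = 4 by norm_num] at d4
  rw [e, h.five_ccrbu (d0 _) (d1.smul _) ((h.deg_cre2 hΞ _).smul _) (d0 _) (d4.smul _), nq_smul,
    nq_smul, nq_smul, nq_zero, h.nq_cd hm, h.nq_cd hm, hΞ m hm, nq_zero, h.c_cre3 hΞ K.Θ hm,
    h.nq_cre2 hΞ, h.nq_cre3 hΞ, Co.N]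
  ring

end Pool.Agent.BoseLHY
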