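import Pool.Agent.Lib.MP_dec75e_mp.U.CcrB

/-! The pair density of the trial state. -/

open MeasureTheory Finset Function
open scoped Real

noncomputable section

namespace Pool.Agent.BoseLHY

open Pool.Agent.BoseTail

variable {V : Type} [AddCommGroup V] [Module ℝ V] {κ : Type} [DecidableEq κ]
  {β : V →ₗ[ℝ] V →ₗ[ℝ] ℝ} {c cd : κ → Module.End ℝ V} {s : Finset κ}
variable {Ξ : V} {K : Co κ}

/-- The small part of the one quasi-particle component. -/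
def Co.bb_ccrcu (K : Co κ) (u g : κ → ℝ) (x : κ) : ℝ :=
  2 * (∑ b ∈ K.s, g b * ∑ a ∈ K.s, K.θ a x b * u a) / K.γ x

omit [DecidableEq κ] in
theorem Co.bb_le_ccrcu (hK : K.Ok) {gb : ℝ} {g : κ → ℝ} (hg : n2 K.L g ≤ gb) (u : κ → ℝ) :
    ∑ x ∈ K.s, K.bb_ccrcu u g x ^ 2 ≤ 4 * gb * K.tt u := by
  have g0 : 0 ≤ n2 K.L g := sum_nonneg fun _ _ => sq_nonneg _
  rw [Co.tt, mul_sum]
  refine sum_le_sum fun x _ => ?_
  have e1 : ∑ b ∈ K.s, g b * ∑ a ∈ K.s, K.θ a x b * u a =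
      ∑ b ∈ K.L, g b * ∑ a ∈ K.s, K.θ a x b * u a :=
    (sum_subset hK.sub fun b _ hb => by simp [hK.low _ _ b hb]).symm
  have h1 := sum_mul_sq_le_sq_mul_sq K.L g fun b => ∑ a ∈ K.s, K.θ a x b * u a
  have h2 : ∑ b ∈ K.L, (∑ a ∈ K.s, K.θ a x b * u a) ^ 2 ≤
      ∑ b ∈ K.s, (∑ a ∈ K.s, K.θ a x b * u a) ^ 2 :=
    sum_le_sum_of_subset_of_nonneg hK.sub fun _ _ _ => sq_nonneg _
  have h3 := mul_le_mul hg h2 (sum_nonneg fun _ _ => sq_nonneg _) (g0.trans hg)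
  have h4 : 1 ≤ K.γ x ^ 2 := one_le_pow₀ (hK.g1 x)
  rw [Co.bb_ccrcu, e1, div_pow]
  refine (div_le_self (sq_nonneg _) h4).trans ?_
  rw [n2] at h3
  rw [mul_pow]
  linarith

omit [DecidableEq κ] in
theorem Co.six_ccrcu (hK : K.Ok) (u u' : κ → ℝ) (x : κ) :
    ∑ a ∈ K.s, K.gu u' a * (Mv K.s K.Θ (K.gu u) a x + Mv K.s K.Θ (K.gu u) x a) =
      2 * K.th u u' x + (K.bb_ccrcu u (K.gu u') x + K.bb_ccrcu u' (K.gu u) x) := by
  have hγ : ∀ m, K.γ m ≠ 0 := fun m => by linarith [hK.g1 m]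
  have e1 : K.th u u' x = ∑ a ∈ K.s, ∑ m ∈ K.s, K.θ m a x * (u m * u' a) := sum_comm
  have e2 : K.bb_ccrcu u (K.gu u') x =
      ∑ a ∈ K.s, ∑ m ∈ K.s, 2 * (K.gu u' a * (K.θ m x a * u m)) / K.γ x := by
    simp only [Co.bb_ccrcu, mul_sum, sum_div]
  have e3 : K.bb_ccrcu u' (K.gu u) x =
      ∑ a ∈ K.s, ∑ m ∈ K.s, 2 * (K.gu u m * (K.θ a x m * u' a)) / K.γ x := by
    simp only [Co.bb_ccrcu, mul_sum, sum_div]
    exact sum_comm
  rw [e1, e2, e3, mul_sum, ← sum_add_distrib, ← sum_add_distrib]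
  refine sum_congr rfl fun a _ => ?_
  rw [Mv, Mv, ← sum_add_distrib, mul_sum, mul_sum, ← sum_add_distrib, ← sum_add_distrib]
  refine sum_congr rfl fun m _ => ?_
  simp only [M1, Co.Θ, Co.gu]
  rw [hK.symm a m x, hK.symm x m a, hK.symm x a m]
  have := hγ a
  have := hγ m
  have := hγ x
  field_simp
  ring

theorem sq_add_le_ccrcu {ε : ℝ} (hε : 0 < ε) (A B B' : ℝ) :
    (A + (B + B')) ^ 2 ≤ (1 + ε) * A ^ 2 + (1 + 1 / ε) * (2 * B ^ 2 + 2 * B' ^ 2) := by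
  have h1 : (1 + ε) * A ^ 2 + (1 + 1 / ε) * (B + B') ^ 2 - (A + (B + B')) ^ 2 =
      (ε * A - (B + B')) ^ 2 / ε := by
    field_simp
    ring
  have h2 := div_nonneg (sq_nonneg (ε * A - (B + B'))) hε.le
  have h3 : (B + B') ^ 2 ≤ 2 * B ^ 2 + 2 * B' ^ 2 := by nlinarith [sq_nonneg (B - B')]
  have h4 := mul_le_mul_of_nonneg_left h3 (by positivity : 0 ≤ 1 + 1 / ε)
  linarith

theorem PSD.nq_three_ccrcu (h : PSD β) (x y z : V) :
    nq β (x + y + z) ≤ 3 * (nq β x + nq β y + nq β z) := by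
  have h1 := (le_abs_self _).trans (h.abs_le x y)
  have h2 := (le_abs_self _).trans (h.abs_le x z)
  have h3 := (le_abs_self _).trans (h.abs_le y z)
  rw [h.nq_add, h.nq_add, map_add, LinearMap.add_apply]
  linarith

theorem CCR.nq_six_ccrcu (h : CCR β c cd s) {f0 f1 f2 f3 f4 f5 : V} (h0 : Deg c cd s 0 f0)
    (h1 : Deg c cd s 1 f1) (h2 : Deg c cd s 2 f2) (h3 : Deg c cd s 3 f3) (h4 : Deg c cd s 4 f4)
    (h5 : Deg c cd s 5 f5) : nq β (f0 + f1 + f2 + f3 + f4 + f5) =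
      nq β f0 + nq β f1 + nq β f2 + nq β f3 + nq β f4 + nq β f5 := by
  simp only [h.psd.nq_add, map_add, LinearMap.add_apply]
  rw [h0.orth h h1 (by norm_num), h0.orth h h2 (by norm_num), h0.orth h h3 (by norm_num),
    h0.orth h h4 (by norm_num), h0.orth h h5 (by norm_num), h1.orth h h2 (by norm_num),
    h1.orth h h3 (by norm_num), h1.orth h h4 (by norm_num), h1.orth h h5 (by norm_num),
    h2.orth h h3 (by norm_num), h2.orth h h4 (by norm_num), h2.orth h h5 (by norm_num),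
    h3.orth h h4 (by norm_num), h3.orth h h5 (by norm_num), h4.orth h h5 (by norm_num)]
  ring

omit [DecidableEq κ] in
theorem Deg.of_eq_ccrcu {r r' : ℝ} {f : V} (hf : Deg c cd s r f) (h : r = r') :
    Deg c cd s r' f := h ▸ hf

/-- The one quasi-particle component. With `g = gu u`, `g' = gu u'` one has
`lin c g' (lin c g (cre3 Θ Ξ)) = lin cd V Ξ` (`lin_cre3`, `lin_cre2`), where `V c` is the sum over
the six orderings, `V c = 2 th u u' c + B c + B' c`, `B c = 2 ∑_{b ∈ L} g' b (∑_a u a θ a c b) / γ c`,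
so that `∑_c (B c) ^ 2 ≤ 4 gb tt u` by Cauchy-Schwarz, and the same for `B'`. -/
theorem Co.deg_one (hK : K.Ok) (h : CCR β c cd K.s) (hΞ : Vac c K.s Ξ) {ε gb : ℝ} (hε : 0 < ε)
    {u u' : κ → ℝ} (hg : n2 K.L (K.gu u) ≤ gb) (hg' : n2 K.L (K.gu u') ≤ gb) :
    nq β (K.r • lin cd K.s (fun m => K.su u m + K.su u' m) Ξ +
        lin c K.s (K.gu u') (lin c K.s (K.gu u) (cre3 cd K.s K.Θ Ξ))) ≤
      ((1 + ε) * K.main1 u u' + (1 + 1 / ε) * (8 * gb * (K.tt u + K.tt u'))) * nq β Ξ := by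
  rw [h.lin_cre3 hΞ, h.lin_cre2 hΞ, ← LinearMap.smul_apply, ← lin_smul, ← LinearMap.add_apply,
    ← lin_add, h.nq_lin_vac hΞ]
  refine mul_le_mul_of_nonneg_right ?_ (h.psd.nq_nonneg Ξ)
  have b1 := Co.bb_le_ccrcu hK hg' u
  have b2 := Co.bb_le_ccrcu hK hg u'
  have h1 : 0 ≤ 1 + 1 / ε := by positivity
  calc n2 K.s (fun m => K.r * (K.su u m + K.su u' m) + ∑ a ∈ K.s, K.gu u' a *
        (Mv K.s K.Θ (K.gu u) a m + Mv K.s K.Θ (K.gu u) m a))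
      ≤ ∑ m ∈ K.s, ((1 + ε) * (K.r * K.σ m * (u m + u' m) + 2 * K.th u u' m) ^ 2 + (1 + 1 / ε) *
          (2 * K.bb_ccrcu u (K.gu u') m ^ 2 + 2 * K.bb_ccrcu u' (K.gu u) m ^ 2)) := by
        refine sum_le_sum fun m _ => le_trans (le_of_eq ?_) (sq_add_le_ccrcu hε _ _ _)
        simp only [Co.six_ccrcu hK, Co.su]
        ring
    _ = (1 + ε) * K.main1 u u' + (1 + 1 / ε) * (2 * ∑ m ∈ K.s, K.bb_ccrcu u (K.gu u') m ^ 2 +
          2 * ∑ m ∈ K.s, K.bb_ccrcu u' (K.gu u) m ^ 2) := by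
        simp only [Co.main1, sum_add_distrib, ← mul_sum]
    _ ≤ _ := by
        refine add_le_add le_rfl (mul_le_mul_of_nonneg_left ?_ h1)
        linarith

/-- Normal order `F u' * F u = u0 + r (c g + c g') + r (cd s + cd s') + c g' c g + cd s c g' +
cd s' c g + cd s' cd s` (`c g = lin c (gu u)`, `cd s = lin cd (su u)`), apply it to `Ξ + Φ`,
`Φ = cre3 Θ Ξ`, and sort by degree; components of different degrees are orthogonal.
Degree 0: `u0 ^ 2`. Degree 1: `deg_one`. Degree 2: `cd s' cd s Ξ + r (c g + c g') Φ`, at most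
`4 sb ^ 2 + 4 r ^ 2 (kk u + kk u')`. Degree 3: `u0 Φ + cd s c g' Φ + cd s' c g Φ`, at most
`3 N u0 ^ 2 + 9 sb (kk u + kk u')`. Degree 4: `16 r ^ 2 sb N`. Degree 5: `20 sb ^ 2 N`. -/
theorem Co.nq_FF (hK : K.Ok) (h : CCR β c cd K.s) (hΞ : Vac c K.s Ξ) {ε sb gb : ℝ} (hε : 0 < ε)
    {u u' : κ → ℝ} (hs : n2 K.s (K.su u) ≤ sb) (hs' : n2 K.s (K.su u') ≤ sb)
    (hg : n2 K.L (K.gu u) ≤ gb) (hg' : n2 K.L (K.gu u') ≤ gb) :
    nq β (K.F c cd u' (K.F c cd u (K.X cd Ξ))) ≤ K.pb ε sb gb u u' * nq β Ξ := by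
  have hp := h.psd
  have hF : ∀ (v : κ → ℝ) (f : V), K.F c cd v f =
      K.r • f + (lin c K.s (K.gu v) f + lin cd K.s (K.su v) f) := fun v f => by
    rw [Co.F, fld, lin_dop]
    rfl
  have hd : lin cd K.s (fun m => K.su u m + K.su u' m) Ξ =
      lin cd K.s (K.su u) Ξ + lin cd K.s (K.su u') Ξ := by
    rw [lin_add]
    rfl
  have hu0 : K.u0 u u' = K.r * K.r + ∑ m ∈ K.s, K.gu u' m * K.su u m := by
    rw [Co.u0, sq]
    congr 1
    exact sum_congr rfl fun m _ => by simp only [Co.gu, Co.su]; ring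
  have b1 := Co.deg_one hK h hΞ hε hg hg'
  have k1 : nq β (lin c K.s (K.gu u) (cre3 cd K.s K.Θ Ξ)) = K.kk u * nq β Ξ := by
    rw [h.lin_cre3 hΞ, h.nq_cre2 hΞ, Co.kk]
  have k2 : nq β (lin c K.s (K.gu u') (cre3 cd K.s K.Θ Ξ)) = K.kk u' * nq β Ξ := by
    rw [h.lin_cre3 hΞ, h.nq_cre2 hΞ, Co.kk]
  have k3 : nq β (cre3 cd K.s K.Θ Ξ) = K.N * nq β Ξ := h.nq_cre3 hΞ K.Θ
  have d3 := h.deg_cre3 hΞ K.Θ
  have hX : K.X cd Ξ = Ξ + cre3 cd K.s K.Θ Ξ := rfl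
  rw [hd] at b1
  rw [hX]
  generalize cre3 cd K.s K.Θ Ξ = Φ at b1 k1 k2 k3 d3
  have d0 : Deg c cd K.s 0 Ξ := hΞ.deg
  have c1 := h.lin_ccr (K.gu u') (K.su u)
  have v1 := hΞ.lin (K.gu u)
  have v2 := hΞ.lin (K.gu u')
  have lc : ∀ {r : ℝ} {f : V}, Deg c cd K.s r f → Deg c cd K.s (r - 1) (lin c K.s (K.gu u) f) ∧
      Deg c cd K.s (r - 1) (lin c K.s (K.gu u') f) := fun hf => ⟨hf.lin_c h _, hf.lin_c h _⟩
  have s0 : 0 ≤ sb := le_trans (sum_nonneg fun _ _ => sq_nonneg _) hs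
  have ld : ∀ {r : ℝ} {f : V}, Deg c cd K.s r f → 0 ≤ r →
      (Deg c cd K.s (r + 1) (lin cd K.s (K.su u) f) ∧
        nq β (lin cd K.s (K.su u) f) ≤ sb * ((r + 1) * nq β f)) ∧
      Deg c cd K.s (r + 1) (lin cd K.s (K.su u') f) ∧
        nq β (lin cd K.s (K.su u') f) ≤ sb * ((r + 1) * nq β f) := fun {r f} hf hr =>
    have p0 : 0 ≤ (r + 1) * nq β f := mul_nonneg (by linarith) (hp.nq_nonneg f)
    ⟨⟨hf.lin_cd h _, (hf.nq_lin_cd h _).trans (mul_le_mul_of_nonneg_right hs p0)⟩,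
      hf.lin_cd h _, (hf.nq_lin_cd h _).trans (mul_le_mul_of_nonneg_right hs' p0)⟩
  rw [hF, hF]
  generalize lin c K.s (K.gu u) = a at *
  generalize lin c K.s (K.gu u') = a' at *
  generalize lin cd K.s (K.su u) = e at *
  generalize lin cd K.s (K.su u') = e' at *
  have key : K.r • (K.r • (Ξ + Φ) + (a (Ξ + Φ) + e (Ξ + Φ))) +
      (a' (K.r • (Ξ + Φ) + (a (Ξ + Φ) + e (Ξ + Φ))) +
        e' (K.r • (Ξ + Φ) + (a (Ξ + Φ) + e (Ξ + Φ)))) =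
      K.u0 u u' • Ξ + (K.r • (e Ξ + e' Ξ) + a' (a Φ)) + (e' (e Ξ) + K.r • (a Φ + a' Φ)) +
        (K.u0 u u' • Φ + e (a' Φ) + e' (a Φ)) + K.r • (e Φ + e' Φ) + e' (e Φ) := by
    simp only [map_add, map_smul, c1, v1, v2, map_zero, hu0]
    module
  obtain ⟨⟨x1, y1⟩, x2, -⟩ := ld d0 le_rfl
  obtain ⟨x3, x4⟩ := lc d3
  obtain ⟨-, x5⟩ := lc x3
  obtain ⟨-, x6, y6⟩ := ld x1 (by norm_num)
  obtain ⟨⟨x7, y7⟩, -⟩ := ld x4 (by norm_num)
  obtain ⟨-, x8, y8⟩ := ld x3 (by norm_num)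
  obtain ⟨⟨x9, y9⟩, x10, y10⟩ := ld d3 (by norm_num)
  obtain ⟨-, x11, y11⟩ := ld x9 (by norm_num)
  rw [key, h.nq_six_ccrcu (d0.smul _)
    ((((x1.add x2).smul _).of_eq_ccrcu (by norm_num)).add (x5.of_eq_ccrcu (by norm_num)))
    ((x6.of_eq_ccrcu (by norm_num)).add (((x3.add x4).smul _).of_eq_ccrcu (by norm_num)))
    (((d3.smul _).add (x7.of_eq_ccrcu (by norm_num))).add (x8.of_eq_ccrcu (by norm_num)))
    (((x9.add x10).smul _).of_eq_ccrcu (by norm_num)) (x11.of_eq_ccrcu (by norm_num))]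
  have r0 := sq_nonneg K.r
  have b2 : nq β (e' (e Ξ) + K.r • (a Φ + a' Φ)) ≤
      (4 * sb ^ 2 + 4 * K.r ^ 2 * (K.kk u + K.kk u')) * nq β Ξ := by
    refine (hp.nq_add_le_two _ _).trans ?_
    have z1 := mul_le_mul_of_nonneg_left (hp.nq_add_le_two (a Φ) (a' Φ)) r0
    have z2 := mul_le_mul_of_nonneg_left y1 s0
    rw [k1, k2] at z1
    rw [nq_smul]
    linarith
  have b3 : nq β (K.u0 u u' • Φ + e (a' Φ) + e' (a Φ)) ≤
      (3 * K.N * K.u0 u u' ^ 2 + 9 * sb * (K.kk u + K.kk u')) * nq β Ξ := by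
    refine (hp.nq_three_ccrcu _ _ _).trans ?_
    rw [k2] at y7
    rw [k1] at y8
    rw [nq_smul, k3]
    linarith
  have b4 : nq β (K.r • (e Φ + e' Φ)) ≤ 16 * K.r ^ 2 * sb * K.N * nq β Ξ := by
    have z1 := mul_le_mul_of_nonneg_left (hp.nq_add_le_two (e Φ) (e' Φ)) r0
    have z2 := mul_le_mul_of_nonneg_left y9 r0
    have z3 := mul_le_mul_of_nonneg_left y10 r0
    rw [k3] at z2 z3
    rw [nq_smul]
    linarith
  have b5 : nq β (e' (e Φ)) ≤ 20 * sb ^ 2 * K.N * nq β Ξ := by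
    have z2 := mul_le_mul_of_nonneg_left y9 s0
    rw [k3] at z2
    linarith
  rw [nq_smul, Co.pb]
  linarith

end Pool.Agent.BoseLHY
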