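import Pool.Agent.Lib.MP_dec75e_mp.U.Df
import Pool.Agent.Lib.MP_dec75e_mp.L.Bx

/-! The cut-off at the walls. -/

open MeasureTheory Finset Function
open scoped Real

noncomputable section

namespace Pool.Agent.BoseLHY

open Pool.Agent.BoseTail

theorem fac_chiu (a b : ℝ) : 0 ≤ Real.smoothTransition a * Real.smoothTransition b ∧
    Real.smoothTransition a * Real.smoothTransition b ≤ 1 :=
  ⟨mul_nonneg (Real.smoothTransition.nonneg _) (Real.smoothTransition.nonneg _),
    mul_le_one₀ (Real.smoothTransition.le_one _) (Real.smoothTransition.nonneg _)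
      (Real.smoothTransition.le_one _)⟩

namespace Box
variable (B : Box)

theorem chi_apply_chiu (r : ℝ) (x : R3) : (B.chi r).1 x =
    ∏ c, Real.smoothTransition ((x c - B.o c) / r) *
      Real.smoothTransition ((B.o c + B.s c - x c) / r) := rfl

theorem chi_bounds (r : ℝ) (x : R3) : 0 ≤ (B.chi r).1 x ∧ (B.chi r).1 x ≤ 1 := by
  rw [chi_apply_chiu]
  exact ⟨prod_nonneg fun c _ => (fac_chiu _ _).1,
    prod_le_one (fun c _ => (fac_chiu _ _).1) fun c _ => (fac_chiu _ _).2⟩

theorem chi_eq_one {r : ℝ} (hr : 0 < r) {x : R3} (hx : x ∉ B.lay r) : (B.chi r).1 x = 1 := by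
  rw [chi_apply_chiu]
  refine prod_eq_one fun c _ => ?_
  have h : ¬(x c - B.o c ≤ r ∨ B.o c + B.s c - x c ≤ r) := fun h => hx ⟨c, h⟩
  rw [not_or, not_le, not_le] at h
  rw [Real.smoothTransition.one_of_one_le ((one_le_div hr).2 h.1.le),
    Real.smoothTransition.one_of_one_le ((one_le_div hr).2 h.2.le), one_mul]

theorem chi_face (r : ℝ) (j : Fin 3) : B.Face j (B.chi r).1 := by
  intro x hx
  rw [chi_apply_chiu]
  refine prod_eq_zero (mem_univ j) ?_
  rcases hx with hx | hx <;> simp [hx]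

end Box

theorem bound_chiu : ∃ A : ℝ, 0 ≤ A ∧ ∀ u, |deriv Real.smoothTransition u| ≤ A := by
  have hc : Continuous (deriv Real.smoothTransition) :=
    (Real.smoothTransition.contDiff (n := 1)).continuous_deriv le_rfl
  obtain ⟨A, hA⟩ := (isCompact_Icc (a := (0 : ℝ)) (b := 1)).exists_bound_of_continuousOn
    hc.continuousOn
  have h0 : 0 ≤ A := (norm_nonneg _).trans (hA 0 ⟨le_rfl, zero_le_one⟩)
  refine ⟨A, h0, fun u => ?_⟩
  rcases lt_or_ge u 0 with h | h
  · have : Real.smoothTransition =ᶠ[nhds u] fun _ => 0 :=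
      (eventually_lt_nhds h).mono fun v hv => Real.smoothTransition.zero_of_nonpos hv.le
    rw [this.deriv_eq]; simpa using h0
  rcases le_or_gt u 1 with h' | h'
  · exact hA u ⟨h, h'⟩
  · have : Real.smoothTransition =ᶠ[nhds u] fun _ => 1 :=
      (eventually_gt_nhds h').mono fun v hv => Real.smoothTransition.one_of_one_le hv.le
    rw [this.deriv_eq]; simpa using h0

/-- The derivative of `Real.smoothTransition` is continuous and vanishes outside `[0, 1]`. -/
theorem chi_deriv : ∃ A : ℝ, 1 ≤ A ∧ ∀ (B : Box) (r : ℝ), 0 < r → ∀ j : Fin 3, ∃ χ' : BF R3,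
    (∀ x, HasDerivAt (fun t : ℝ => (B.chi r).1 (x + Pi.single j t)) (χ'.1 x) 0) ∧
      ∀ x, |χ'.1 x| ≤ A / r := by
  obtain ⟨A, h0, hA⟩ := bound_chiu
  refine ⟨2 * A + 1, by linarith, fun B r hr j => ?_⟩
  set φ := Real.smoothTransition with hφ
  have hc : Continuous (deriv φ) :=
    (Real.smoothTransition.contDiff (n := 1)).continuous_deriv le_rfl
  have hc0 : Continuous φ := Real.smoothTransition.continuous
  have hd : ∀ u, HasDerivAt φ (deriv φ u) u := fun u =>
    (((Real.smoothTransition.contDiff (n := 1)).differentiable one_ne_zero) u).hasDerivAt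
  let f : R3 → ℝ := fun x =>
    (deriv φ ((x j - B.o j) / r) * (1 / r) * φ ((B.o j + B.s j - x j) / r) +
      φ ((x j - B.o j) / r) * (deriv φ ((B.o j + B.s j - x j) / r) * (-1 / r))) *
      ∏ c ∈ univ.erase j, φ ((x c - B.o c) / r) * φ ((B.o c + B.s c - x c) / r)
  have hb : ∀ x, |f x| ≤ (2 * A + 1) / r := fun x => by
    have p0 : 0 ≤ ∏ c ∈ univ.erase j, φ ((x c - B.o c) / r) * φ ((B.o c + B.s c - x c) / r) :=
      prod_nonneg fun c _ => (fac_chiu _ _).1
    have p1 : ∏ c ∈ univ.erase j, φ ((x c - B.o c) / r) * φ ((B.o c + B.s c - x c) / r) ≤ 1 :=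
      prod_le_one (fun c _ => (fac_chiu _ _).1) fun c _ => (fac_chiu _ _).2
    have q : ∀ u v, |deriv φ u * φ v| ≤ A := fun u v => by
      rw [abs_mul, abs_of_nonneg (Real.smoothTransition.nonneg v)]
      exact (mul_le_of_le_one_right (abs_nonneg _) (Real.smoothTransition.le_one v)).trans (hA u)
    have e : f x = (deriv φ ((x j - B.o j) / r) * φ ((B.o j + B.s j - x j) / r) -
        deriv φ ((B.o j + B.s j - x j) / r) * φ ((x j - B.o j) / r)) / r *
        ∏ c ∈ univ.erase j, φ ((x c - B.o c) / r) * φ ((B.o c + B.s c - x c) / r) := by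
      simp only [f]; ring
    rw [e, abs_mul, abs_of_nonneg p0, abs_div, abs_of_pos hr]
    refine (mul_le_of_le_one_right (by positivity) p1).trans ?_
    refine div_le_div_of_nonneg_right ((abs_sub _ _).trans ?_) hr.le
    linarith [q ((x j - B.o j) / r) ((B.o j + B.s j - x j) / r),
      q ((B.o j + B.s j - x j) / r) ((x j - B.o j) / r)]
  have hm : Continuous f := by
    simp only [f]; fun_prop
  refine ⟨⟨f, hm.measurable, _, hb⟩, fun x => ?_, hb⟩
  have e : (fun t : ℝ => (B.chi r).1 (x + Pi.single j t)) = fun t =>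
      φ ((x j + t - B.o j) / r) * φ ((B.o j + B.s j - (x j + t)) / r) *
        ∏ c ∈ univ.erase j, φ ((x c - B.o c) / r) * φ ((B.o c + B.s c - x c) / r) := by
    funext t
    rw [Box.chi_apply_chiu, ← mul_prod_erase _ _ (mem_univ j)]
    congr 1
    · simp [hφ]
    · exact prod_congr rfl fun c hc => by simp [hφ, Pi.single_eq_of_ne (ne_of_mem_erase hc)]
  rw [e]
  have h1 : HasDerivAt (fun t : ℝ => (x j + t - B.o j) / r) (1 / r) 0 :=
    (((hasDerivAt_id (0 : ℝ)).const_add (x j)).sub_const (B.o j)).div_const r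
  have h2 : HasDerivAt (fun t : ℝ => (B.o j + B.s j - (x j + t)) / r) (-1 / r) 0 :=
    (((hasDerivAt_id (0 : ℝ)).const_add (x j)).const_sub (B.o j + B.s j)).div_const r
  have h3 := (((hd _).comp (0 : ℝ) h1).mul ((hd _).comp (0 : ℝ) h2)).mul_const
    (∏ c ∈ univ.erase j, φ ((x c - B.o c) / r) * φ ((B.o c + B.s c - x c) / r))
  simpa [f, comp_def] using h3

end Pool.Agent.BoseLHY
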