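import Pool.Agent.Lib.MP_dec75e_mp.U.CoQ

/-! Integrals of the densities over an orthonormal family. -/

open MeasureTheory Finset Function
open scoped Real

noncomputable section

namespace Pool.Agent.BoseLHY

open Pool.Agent.BoseTail

variable {α κ : Type} [MeasurableSpace α] [DecidableEq κ] {ν : ProbabilityMeasure α}
  {e : κ → BF α} {K : Co κ}

omit [DecidableEq κ] in
theorem bm_val_cointu (m : κ) : BM fun x => val e x m := bmOf (e m)

omit [DecidableEq κ] in
theorem bm_fst_cointu (m : κ) : BM fun p : α × α => val e p.1 m :=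
  (bm_val_cointu m).comp measurable_fst

omit [DecidableEq κ] in
theorem bm_snd_cointu (m : κ) : BM fun p : α × α => val e p.2 m :=
  (bm_val_cointu m).comp measurable_snd

omit [DecidableEq κ] in
theorem bm_q2_cointu (s : Finset κ) (Θ : κ → κ → κ → ℝ) (t : κ → ℝ) :
    BM fun x => q2 s (Mv s Θ fun m => t m * val e x m) := by
  have h : ∀ a b, BM fun x => Mv s Θ (fun m => t m * val e x m) a b := fun a b =>
    BM.sum fun m _ => ((BM.const _).mul (bm_val_cointu m)).mul (BM.const _)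
  exact BM.sum fun a _ => BM.sum fun b _ => ((h a b).pow 2).add ((h a b).mul (h b a))

omit [DecidableEq κ] in
theorem bm_n2_cointu (s : Finset κ) (t : κ → ℝ) :
    BM fun x => n2 s fun m => t m * val e x m :=
  BM.sum fun m _ => ((BM.const _).mul (bm_val_cointu m)).pow 2

omit [DecidableEq κ] in
theorem bm_lin_cointu (s : Finset κ) (u : κ → ℝ) : BM fun x => ∑ m ∈ s, u m * (e m).1 x :=
  BM.sum fun m _ => (BM.const _).mul (bmOf (e m))

omit [DecidableEq κ] in
theorem ii_cointu {F : α × α → ℝ} (h : BM F) :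
    ∫ x, ∫ y, F (x, y) ∂(ν : Measure α) ∂(ν : Measure α) =
      ∫ p, F p ∂((ν : Measure α).prod ν) := (integral_prod F h.integrable).symm

omit [DecidableEq κ] in
theorem Co.bm_kk : BM fun x => K.kk (val e x) := by
  exact bm_q2_cointu _ _ _

omit [DecidableEq κ] in
theorem Co.bm_tt : BM fun x => K.tt (val e x) := by
  exact BM.sum fun b _ => BM.sum fun c _ => (bm_lin_cointu _ _).pow 2

omit [DecidableEq κ] in
theorem Co.bm_Dn : BM fun x => K.Dn (val e x) := by
  exact ((((BM.const _).add (bm_n2_cointu _ _)).mul (BM.const _)).add Co.bm_kk).add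
    (bm_q2_cointu _ _ _)

omit [DecidableEq κ] in
theorem Co.bm_u0 : BM fun p : α × α => K.u0 (val e p.1) (val e p.2) := by
  exact (BM.const _).add
    (BM.sum fun m _ => (BM.const _).mul ((bm_fst_cointu m).mul (bm_snd_cointu m)))

omit [DecidableEq κ] in
theorem Co.bm_th (c : κ) : BM fun p : α × α => K.th (val e p.1) (val e p.2) c := by
  exact BM.sum fun a _ => BM.sum fun b _ =>
    (BM.const _).mul ((bm_fst_cointu a).mul (bm_snd_cointu b))

omit [DecidableEq κ] in
theorem Co.bm_main1 : BM fun p : α × α => K.main1 (val e p.1) (val e p.2) := by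
  exact BM.sum fun c _ => (((BM.const _).mul ((bm_fst_cointu c).add (bm_snd_cointu c))).add
    ((BM.const _).mul (Co.bm_th c))).pow 2

omit [DecidableEq κ] in
theorem Co.bm_pb (ε sb gb : ℝ) : BM fun p : α × α => K.pb ε sb gb (val e p.1) (val e p.2) := by
  exact ((((((BM.const _).mul (Co.bm_u0.pow 2)).add ((BM.const _).mul Co.bm_main1)).add
    ((BM.const _).mul ((BM.const _).mul
      ((Co.bm_tt.comp measurable_fst).add (Co.bm_tt.comp measurable_snd))))).add (BM.const _)).add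
    ((BM.const _).mul
      ((Co.bm_kk.comp measurable_fst).add (Co.bm_kk.comp measurable_snd)))).add (BM.const _)

theorem Orth.integral_sq {s : Finset κ} (h : Orth ν 1 s e) (u : κ → ℝ) :
    ∫ x, (∑ m ∈ s, u m * (e m).1 x) ^ 2 ∂(ν : Measure α) = n2 s u := by
  have e1 : ∀ x, (∑ m ∈ s, u m * (e m).1 x) ^ 2 =
      ∑ m ∈ s, ∑ m' ∈ s, u m * u m' * ((e m).1 x * (e m').1 x) := fun x => by
    rw [sq, Finset.sum_mul_sum]
    exact Finset.sum_congr rfl fun m _ => Finset.sum_congr rfl fun m' _ => by ring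
  have hb : ∀ m m', BM fun x => u m * u m' * ((e m).1 x * (e m').1 x) := fun m m' =>
    (BM.const _).mul ((bmOf (e m)).mul (bmOf (e m')))
  simp only [e1]
  rw [integral_finsetSum _ fun m _ => (BM.sum fun m' _ => hb m m').integrable, n2]
  refine Finset.sum_congr rfl fun m hm => ?_
  rw [integral_finsetSum _ fun m' _ => (hb m m').integrable,
    Finset.sum_eq_single_of_mem m hm fun m' hm' hne => ?_]
  · have := h m hm m hm
    rw [one_mul, if_pos rfl] at this
    rw [integral_const_mul, this]; ring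
  · have := h m hm m' hm'
    rw [one_mul, if_neg hne.symm] at this
    rw [integral_const_mul, this, mul_zero]

theorem Orth.integral_sq2 {s : Finset κ} (h : Orth ν 1 s e) (M : κ → κ → ℝ) :
    ∫ x, ∫ y, (∑ a ∈ s, ∑ b ∈ s, M a b * ((e a).1 x * (e b).1 y)) ^ 2
      ∂(ν : Measure α) ∂(ν : Measure α) = ∑ a ∈ s, ∑ b ∈ s, M a b ^ 2 := by
  have e1 : ∀ x, ∫ y, (∑ a ∈ s, ∑ b ∈ s, M a b * ((e a).1 x * (e b).1 y)) ^ 2 ∂(ν : Measure α) =
      ∑ b ∈ s, (∑ a ∈ s, M a b * (e a).1 x) ^ 2 := fun x => by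
    rw [← n2, ← h.integral_sq]
    refine integral_congr_ae (Filter.Eventually.of_forall fun y => ?_)
    simp only
    rw [Finset.sum_comm]
    congr 1
    refine Finset.sum_congr rfl fun b _ => ?_
    rw [Finset.sum_mul]
    exact Finset.sum_congr rfl fun a _ => by ring
  simp only [e1]
  rw [integral_finsetSum _ fun b _ => ((bm_lin_cointu _ _).pow 2).integrable, Finset.sum_comm]
  exact Finset.sum_congr rfl fun b _ => h.integral_sq _

/-- By `q2_eq` and `Orth.integral_sq`. -/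
theorem Orth.integral_q2 {s : Finset κ} (h : Orth ν 1 s e) (Θ : κ → κ → κ → ℝ) (t : κ → ℝ) :
    ∫ x, q2 s (Mv s Θ fun m => t m * (e m).1 x) ∂(ν : Measure α) =
      ∑ m ∈ s, t m ^ 2 * q2 s (M1 Θ m) := by
  have e1 : ∀ x, q2 s (Mv s Θ fun m => t m * (e m).1 x) = (∑ a ∈ s, ∑ b ∈ s,
      (∑ m ∈ s, t m * (M1 Θ m a b + M1 Θ m b a) * (e m).1 x) ^ 2) / 2 := fun x => by
    rw [q2_eq]
    congr 1
    refine Finset.sum_congr rfl fun a _ => Finset.sum_congr rfl fun b _ => ?_
    congr 1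
    simp only [Mv]
    rw [← Finset.sum_add_distrib]
    exact Finset.sum_congr rfl fun m _ => by ring
  have e2 : ∀ a ∈ s, ∫ x, ∑ b ∈ s, (∑ m ∈ s, t m * (M1 Θ m a b + M1 Θ m b a) * (e m).1 x) ^ 2
      ∂(ν : Measure α) = ∑ m ∈ s, ∑ b ∈ s, t m ^ 2 * (M1 Θ m a b + M1 Θ m b a) ^ 2 := fun a _ => by
    rw [integral_finsetSum _ fun b _ => ((bm_lin_cointu _ _).pow 2).integrable, Finset.sum_comm]
    refine Finset.sum_congr rfl fun b _ => ?_
    rw [h.integral_sq, n2]
    exact Finset.sum_congr rfl fun m _ => by ring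
  simp only [e1]
  rw [integral_div, integral_finsetSum _ fun a _ =>
    (BM.sum fun b _ => (bm_lin_cointu _ _).pow 2).integrable, Finset.sum_congr rfl e2,
    Finset.sum_comm, Finset.sum_div]
  refine Finset.sum_congr rfl fun m _ => ?_
  rw [q2_eq, ← mul_div_assoc, Finset.mul_sum]
  simp only [Finset.mul_sum]

theorem Orth.integral_n2_cointu {s : Finset κ} (h : Orth ν 1 s e) (t : κ → ℝ) :
    ∫ x, (n2 s fun m => t m * val e x m) ∂(ν : Measure α) = n2 s t := by
  simp only [n2]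
  rw [integral_finsetSum _ fun m _ => (((BM.const _).mul (bm_val_cointu m)).pow 2).integrable]
  refine Finset.sum_congr rfl fun m hm => ?_
  have h1 := h m hm m hm
  rw [one_mul, if_pos rfl] at h1
  have e1 : ∀ x, (t m * val e x m) ^ 2 = t m ^ 2 * ((e m).1 x * (e m).1 x) := fun x => by
    rw [val]; ring
  simp only [e1]
  rw [integral_const_mul, h1, mul_one]

theorem marg_fst_cointu {W : α × α → ℝ} (bW : BM W) {b : ℝ}
    (h1 : ∀ x, ∫ y, W (x, y) ∂(ν : Measure α) ≤ b) {f : α → ℝ} (hf : BM f) (h0 : ∀ x, 0 ≤ f x) :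
    ∫ p, W p * f p.1 ∂((ν : Measure α).prod ν) ≤ b * ∫ x, f x ∂(ν : Measure α) := by
  have A := bW.mul (hf.comp measurable_fst)
  rw [← ii_cointu A, ← integral_const_mul]
  refine integral_mono (BM.integral_right (Φ := fun x y => W (x, y) * f x) A).integrable
    ((BM.const b).mul hf).integrable fun x => ?_
  simp only
  rw [integral_mul_const]
  exact mul_le_mul_of_nonneg_right (h1 x) (h0 x)

theorem marg_snd_cointu {W : α × α → ℝ} (bW : BM W) {b : ℝ}
    (h2 : ∀ y, ∫ x, W (x, y) ∂(ν : Measure α) ≤ b) {f : α → ℝ} (hf : BM f) (h0 : ∀ x, 0 ≤ f x) :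
    ∫ p, W p * f p.2 ∂((ν : Measure α).prod ν) ≤ b * ∫ x, f x ∂(ν : Measure α) := by
  have A := bW.mul (hf.comp measurable_snd)
  have h := marg_fst_cointu (ν := ν) (bW.comp measurable_swap) h2 hf h0
  rw [← ii_cointu ((bW.comp measurable_swap).mul (hf.comp measurable_fst))] at h
  rw [← ii_cointu A, BM.swap (Φ := fun x y => W (x, y) * f y) A]
  exact h

theorem Co.integral_kk (hK : K.Ok) (h : Orth ν 1 K.s e) {g2 : ℝ} (h0 : 0 ≤ g2)
    (hg : ∀ m ∈ K.s, K.γ m ^ 2 ≤ g2) :
    ∫ x, K.kk (val e x) ∂(ν : Measure α) ≤ 18 * g2 * K.T0 := by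
  have e1 := h.integral_q2 K.Θ K.γ
  have e2 : ∑ m ∈ K.s, K.γ m ^ 2 * q2 K.s (M1 K.Θ m) ≤ ∑ m ∈ K.s, g2 * q2 K.s (M1 K.Θ m) :=
    Finset.sum_le_sum fun m hm => mul_le_mul_of_nonneg_right (hg m hm) (q2_nonneg _)
  rw [← Finset.mul_sum] at e2
  have e3 := mul_le_mul_of_nonneg_left hK.sum_q2_le h0
  calc _ = _ := e1
    _ ≤ _ := by linarith

theorem Co.integral_tt (h : Orth ν 1 K.s e) : ∫ x, K.tt (val e x) ∂(ν : Measure α) = K.T0 := by
  have e1 : ∀ b ∈ K.s, ∫ x, ∑ c ∈ K.s, (∑ a ∈ K.s, K.θ a b c * (e a).1 x) ^ 2 ∂(ν : Measure α) =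
      ∑ a ∈ K.s, ∑ c ∈ K.s, K.θ a b c ^ 2 := fun b _ => by
    rw [integral_finsetSum _ fun c _ => ((bm_lin_cointu _ _).pow 2).integrable, Finset.sum_comm]
    exact Finset.sum_congr rfl fun c _ => h.integral_sq _
  simp only [Co.tt, val]
  rw [integral_finsetSum _ fun b _ => (BM.sum fun c _ => (bm_lin_cointu _ _).pow 2).integrable,
    Finset.sum_congr rfl e1, Finset.sum_comm, Co.T0]

theorem Co.integral_Dn (h : Orth ν 1 K.s e) : ∫ x, K.Dn (val e x) ∂(ν : Measure α) = K.n1 := by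
  have e1 : ∫ x, K.kk (val e x) ∂(ν : Measure α) = _ := h.integral_q2 K.Θ K.γ
  have e2 : ∫ x, q2 K.s (Mv K.s K.Θ (K.su (val e x))) ∂(ν : Measure α) = _ :=
    h.integral_q2 K.Θ K.σ
  have e3 : ∫ x, n2 K.s (K.su (val e x)) ∂(ν : Measure α) = _ := h.integral_n2_cointu K.σ
  have b1 : BM fun x => n2 K.s (K.su (val e x)) := bm_n2_cointu _ _
  have b2 : BM fun x => q2 K.s (Mv K.s K.Θ (K.su (val e x))) := bm_q2_cointu _ _ _
  have b3 : BM fun x => (K.r ^ 2 + n2 K.s (K.su (val e x))) * (1 + K.N) :=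
    ((BM.const _).add b1).mul (BM.const _)
  simp only [Co.Dn]
  rw [integral_add (b3.add Co.bm_kk).integrable b2.integrable,
    integral_add b3.integrable Co.bm_kk.integrable, integral_mul_const,
    integral_add (integrable_const _) b1.integrable, e1, e2, e3, Co.n1, add_assoc,
    ← Finset.sum_add_distrib]
  simp only [integral_const, probReal_univ, one_smul, add_mul]

theorem Co.integral_u0 (h : Orth ν 1 K.s e) :
    ∫ x, ∫ y, K.u0 (val e x) (val e y) ^ 2 ∂(ν : Measure α) ∂(ν : Measure α) ≤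
      2 * K.r ^ 4 + 2 * ∑ m ∈ K.s, (K.γ m * K.σ m) ^ 2 := by
  have e1 : ∀ x, ∫ y, K.u0 (val e x) (val e y) ^ 2 ∂(ν : Measure α) ≤
      2 * K.r ^ 4 + 2 * n2 K.s fun m => K.γ m * K.σ m * val e x m := fun x => by
    have b1 := (bm_lin_cointu (e := e) K.s fun m => K.γ m * K.σ m * val e x m).pow 2
    rw [← h.integral_sq, ← integral_const_mul]
    refine le_trans (integral_mono ((Co.bm_u0.pow 2).comp measurable_prodMk_left).integrable
      ((BM.const (2 * K.r ^ 4)).add ((BM.const 2).mul b1)).integrable fun y => ?_) (le_of_eq ?_)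
    · have e2 : K.u0 (val e x) (val e y) =
          K.r ^ 2 + ∑ m ∈ K.s, K.γ m * K.σ m * val e x m * (e m).1 y := by
        rw [Co.u0]
        congr 1
        exact Finset.sum_congr rfl fun m _ => by rw [mul_assoc (K.γ m * K.σ m)]; rfl
      simp only [e2]
      nlinarith [sq_nonneg (K.r ^ 2 - ∑ m ∈ K.s, K.γ m * K.σ m * val e x m * (e m).1 y)]
    · rw [integral_add (integrable_const _) ((BM.const 2).mul b1).integrable]
      simp only [integral_const, probReal_univ, one_smul]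
  have b2 := bm_n2_cointu (e := e) K.s fun m => K.γ m * K.σ m
  refine le_trans (integral_mono (BM.integral_right (Φ := fun x y =>
    K.u0 (val e x) (val e y) ^ 2) (Co.bm_u0.pow 2)).integrable
    ((BM.const _).add ((BM.const 2).mul b2)).integrable e1) (le_of_eq ?_)
  rw [integral_add (integrable_const _) ((BM.const 2).mul b2).integrable, integral_const_mul,
    integral_const_mul, h.integral_n2_cointu]
  simp only [integral_const, probReal_univ, one_smul, n2]

theorem Co.integral_main1 (h : Orth ν 1 K.s e) :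
    ∫ x, ∫ y, K.main1 (val e x) (val e y) ∂(ν : Measure α) ∂(ν : Measure α) ≤
      8 * K.r ^ 2 * n2 K.s K.σ + 8 * K.T0 := by
  have b1 : BM fun x => n2 K.s fun m => K.σ m * val e x m := bm_n2_cointu _ _
  have b2 : BM fun p : α × α => ∑ c ∈ K.s, K.th (val e p.1) (val e p.2) c ^ 2 :=
    BM.sum fun c _ => (Co.bm_th c).pow 2
  have b3 := (BM.const (4 * K.r ^ 2)).mul ((b1.comp measurable_fst).add (b1.comp measurable_snd))
  have i1 : ∫ p : α × α, (n2 K.s fun m => K.σ m * val e p.1 m) ∂((ν : Measure α).prod ν) =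
      n2 K.s K.σ := by
    rw [← ii_cointu (b1.comp measurable_fst)]
    simp only [integral_const, probReal_univ, one_smul]
    exact h.integral_n2_cointu _
  have i2 : ∫ p : α × α, (n2 K.s fun m => K.σ m * val e p.2 m) ∂((ν : Measure α).prod ν) =
      n2 K.s K.σ := by
    rw [← ii_cointu (b1.comp measurable_snd)]
    simp only [h.integral_n2_cointu, integral_const, probReal_univ, one_smul]
  have i3 : ∫ p : α × α, ∑ c ∈ K.s, K.th (val e p.1) (val e p.2) c ^ 2
      ∂((ν : Measure α).prod ν) = K.T0 := by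
    have e1 : ∀ c ∈ K.s, ∫ p : α × α, K.th (val e p.1) (val e p.2) c ^ 2
        ∂((ν : Measure α).prod ν) = ∑ a ∈ K.s, ∑ b ∈ K.s, K.θ a b c ^ 2 := fun c _ => by
      rw [← ii_cointu ((Co.bm_th c).pow 2)]
      exact h.integral_sq2 fun a b => K.θ a b c
    rw [integral_finsetSum _ fun c _ => ((Co.bm_th c).pow 2).integrable, Finset.sum_congr rfl e1,
      Finset.sum_comm, Co.T0]
    exact Finset.sum_congr rfl fun a _ => Finset.sum_comm
  rw [ii_cointu Co.bm_main1]
  refine le_trans (integral_mono Co.bm_main1.integrable (b3.add ((BM.const 8).mul b2)).integrable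
    fun p => ?_) (le_of_eq ?_)
  · simp only [Co.main1, n2, Finset.mul_sum, ← Finset.sum_add_distrib]
    refine Finset.sum_le_sum fun c _ => ?_
    nlinarith [sq_nonneg (K.r * K.σ c * (val e p.1 c + val e p.2 c) -
      2 * K.th (val e p.1) (val e p.2) c), sq_nonneg (K.r * K.σ c * (val e p.1 c - val e p.2 c))]
  · rw [integral_add b3.integrable ((BM.const 8).mul b2).integrable, integral_const_mul,
      integral_const_mul, integral_add (b1.comp measurable_fst).integrable
        (b1.comp measurable_snd).integrable, i1, i2, i3]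
    ring

/-- Integration of `pb` against a kernel whose marginals are at most `b`. -/
theorem Co.integral_pb (hK : K.Ok) (h : Orth ν 1 K.s e) {ε sb gb g2 b : ℝ} (hε : 0 < ε)
    (hs : 0 ≤ sb) (hgb : 0 ≤ gb) (h0 : 0 ≤ g2) (hg : ∀ m ∈ K.s, K.γ m ^ 2 ≤ g2) {W : BF (α × α)}
    (hW : ∀ z, 0 ≤ W.1 z) (h1 : ∀ x, ∫ y, W.1 (x, y) ∂(ν : Measure α) ≤ b)
    (h2 : ∀ y, ∫ x, W.1 (x, y) ∂(ν : Measure α) ≤ b) :
    ∫ x, ∫ y, W.1 (x, y) * K.pb ε sb gb (val e x) (val e y) ∂(ν : Measure α) ∂(ν : Measure α) ≤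
      (1 + 18 * K.T0) *
        (∫ x, ∫ y, W.1 (x, y) * K.u0 (val e x) (val e y) ^ 2 ∂(ν : Measure α) ∂(ν : Measure α)) +
      (1 + ε) *
        (∫ x, ∫ y, W.1 (x, y) * K.main1 (val e x) (val e y) ∂(ν : Measure α) ∂(ν : Measure α)) +
      b * ((1 + 1 / ε) * (16 * gb * K.T0) + 4 * sb ^ 2 +
        (4 * K.r ^ 2 + 9 * sb) * (36 * g2 * K.T0) +
        (96 * K.r ^ 2 * sb + 120 * sb ^ 2) * K.T0) := by
  have bW : BM W.1 := bmOf W
  have hb : 0 ≤ b := by
    obtain ⟨x⟩ := ν.nonempty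
    exact (integral_nonneg fun y => hW _).trans (h1 x)
  have A1 := (bW.mul (Co.bm_u0 (e := e) (K := K) |>.pow 2))
  have A2 := bW.mul (Co.bm_main1 (e := e) (K := K))
  have A3 := bW.mul ((Co.bm_tt (e := e) (K := K)).comp measurable_fst)
  have A4 := bW.mul ((Co.bm_tt (e := e) (K := K)).comp measurable_snd)
  have A5 := bW.mul ((Co.bm_kk (e := e) (K := K)).comp measurable_fst)
  have A6 := bW.mul ((Co.bm_kk (e := e) (K := K)).comp measurable_snd)
  have m3 := marg_fst_cointu bW h1 (Co.bm_tt (e := e) (K := K)) fun _ => Co.tt_nonneg _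
  have m4 := marg_snd_cointu bW h2 (Co.bm_tt (e := e) (K := K)) fun _ => Co.tt_nonneg _
  have m5 := marg_fst_cointu bW h1 (Co.bm_kk (e := e) (K := K)) fun _ => Co.kk_nonneg _
  have m6 := marg_snd_cointu bW h2 (Co.bm_kk (e := e) (K := K)) fun _ => Co.kk_nonneg _
  have m7 := marg_fst_cointu bW h1 (BM.const (1 : ℝ)) fun _ => zero_le_one
  simp only [mul_one, integral_const, probReal_univ, one_smul] at m7
  rw [Co.integral_tt h] at m3 m4
  have k1 := mul_le_mul_of_nonneg_left (Co.integral_kk hK h h0 hg) hb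
  have p1 : 0 ≤ ∫ p : α × α, W.1 p * K.u0 (val e p.1) (val e p.2) ^ 2 ∂((ν : Measure α).prod ν) :=
    integral_nonneg fun p => mul_nonneg (hW _) (sq_nonneg _)
  have hN := hK.N_le
  have hN0 := Co.N_nonneg (K := K)
  have c1 : 0 ≤ (1 + 1 / ε) * (8 * gb) := by positivity
  have c2 : 0 ≤ 4 * K.r ^ 2 + 9 * sb := by positivity
  have c3 : 0 ≤ 16 * K.r ^ 2 * sb + 20 * sb ^ 2 := by positivity
  have e1 : ∀ p : α × α, W.1 p * K.pb ε sb gb (val e p.1) (val e p.2) =
      (1 + 3 * K.N) * (W.1 p * K.u0 (val e p.1) (val e p.2) ^ 2) +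
      (1 + ε) * (W.1 p * K.main1 (val e p.1) (val e p.2)) +
      (1 + 1 / ε) * (8 * gb) * (W.1 p * K.tt (val e p.1) + W.1 p * K.tt (val e p.2)) +
      (4 * K.r ^ 2 + 9 * sb) * (W.1 p * K.kk (val e p.1) + W.1 p * K.kk (val e p.2)) +
      (4 * sb ^ 2 + (16 * K.r ^ 2 * sb + 20 * sb ^ 2) * K.N) * W.1 p := fun p => by
    rw [Co.pb]; ring
  have B1 := (BM.const (1 + 3 * K.N)).mul A1
  have B2 := (BM.const (1 + ε)).mul A2
  have B3 := (BM.const ((1 + 1 / ε) * (8 * gb))).mul (A3.add A4)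
  have B4 := (BM.const (4 * K.r ^ 2 + 9 * sb)).mul (A5.add A6)
  have B5 := (BM.const (4 * sb ^ 2 + (16 * K.r ^ 2 * sb + 20 * sb ^ 2) * K.N)).mul bW
  rw [ii_cointu (bW.mul (Co.bm_pb ε sb gb)), ii_cointu A1, ii_cointu A2]
  simp only [e1]
  rw [integral_add (((B1.add B2).add B3).add B4).integrable B5.integrable,
    integral_add ((B1.add B2).add B3).integrable B4.integrable,
    integral_add (B1.add B2).integrable B3.integrable, integral_add B1.integrable B2.integrable,
    integral_const_mul, integral_const_mul, integral_const_mul, integral_const_mul,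
    integral_const_mul, integral_add A3.integrable A4.integrable,
    integral_add A5.integrable A6.integrable]
  have t1 := mul_le_mul_of_nonneg_right (show 1 + 3 * K.N ≤ 1 + 18 * K.T0 by linarith) p1
  have t3 := mul_le_mul_of_nonneg_left (add_le_add m3 m4) c1
  have t4 := mul_le_mul_of_nonneg_left (add_le_add (m5.trans k1) (m6.trans k1)) c2
  have t5 := mul_le_mul_of_nonneg_left m7
    (show 0 ≤ 4 * sb ^ 2 + (16 * K.r ^ 2 * sb + 20 * sb ^ 2) * K.N by positivity)
  have t6 := mul_le_mul_of_nonneg_right (mul_le_mul_of_nonneg_left hN c3) hb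
  linarith

end Pool.Agent.BoseLHY
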