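import Pool.Agent.Lib.MP_dec75e_mp.U.Sin1
import Pool.Agent.Lib.MP_dec75e_mp.L.SumA
import Pool.Agent.Lib.MP_dec75e_mp.L.Lat
import Pool.Agent.Lib.MP_dec75e_mp.L.Bog
import Pool.Agent.Lib.MP_dec75e_mp.L.Main1

/-! Small density: bookkeeping. -/

open MeasureTheory Finset Function
open scoped Real

noncomputable section

namespace Pool.Agent.BoseLHY

open Pool.Agent.BoseTail

variable {D : Dat} {C : ℝ}

theorem Sm.and {p q : USet D C → Prop} (hp : Sm D C p) (hq : Sm D C q) :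
    Sm D C fun U => p U ∧ q U := by
  obtain ⟨a, ha, hp⟩ := hp
  obtain ⟨b, hb, hq⟩ := hq
  exact ⟨min a b, lt_min ha hb, fun U h =>
    ⟨hp U (h.trans (min_le_left _ _)), hq U (h.trans (min_le_right _ _))⟩⟩

theorem Sm.mono {p q : USet D C → Prop} (hp : Sm D C p) (h : ∀ U, p U → q U) : Sm D C q := by
  obtain ⟨a, ha, hp⟩ := hp
  exact ⟨a, ha, fun U hU => h U (hp U hU)⟩

/-- Constants are absorbed by one power of `y`. -/
theorem sm_small (A : ℝ) : Sm D C fun U => A * U.y ≤ 1 := by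
  refine ⟨1 / (|A| + 1), by positivity, fun U hU => ?_⟩
  have hy := U.sc.y0
  rw [le_div_iff₀ (by positivity)] at hU
  have h1 : A * U.y ≤ |A| * U.y := mul_le_mul_of_nonneg_right (le_abs_self A) hy.le
  nlinarith

/-- Logarithms too: `log (1 / y) ≤ 2 / √y`. -/
theorem sm_log (A : ℝ) : Sm D C fun U => 1 ≤ U.s ∧ A * (1 + Real.log U.s) * U.y ≤ 1 := by
  have hA : 0 < 810 * (|A| + 1) := by positivity
  refine ⟨min 1 ((1 / (810 * (|A| + 1))) ^ 2), by positivity, fun U hU => ?_⟩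
  obtain ⟨hy1, hy2⟩ := le_min_iff.1 hU
  have hy := U.sc.y0
  have hs := U.hs
  have hp : 0 < U.y ^ 404 := by positivity
  have hp1 : U.y ^ 404 ≤ 1 := pow_le_one₀ hy.le hy1
  have hs1 : 1 ≤ U.s := by
    have := U.sc.l1
    nlinarith
  refine ⟨hs1, ?_⟩
  have hr : 0 < √U.y := Real.sqrt_pos.2 hy
  have hr2 : √U.y * √U.y = U.y := Real.mul_self_sqrt hy.le
  have hr1 : √U.y ≤ 1 := Real.sqrt_le_one.2 hy1
  have hr3 : √U.y ≤ 1 / (810 * (|A| + 1)) := Real.sqrt_le_iff.2 ⟨by positivity, hy2⟩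
  have h1 : Real.log (U.s * U.y ^ 404) ≤ 1 := by
    have := Real.log_le_sub_one_of_pos (mul_pos hs hp)
    have := U.sc.l2
    linarith
  rw [Real.log_mul hs.ne' hp.ne', Real.log_pow] at h1
  have h2 : Real.log U.y = 2 * Real.log √U.y := by
    rw [Real.log_sqrt hy.le]
    ring
  have h3 : 1 - (√U.y)⁻¹ ≤ Real.log √U.y := Real.one_sub_inv_le_log_of_pos hr
  have h4 : (√U.y)⁻¹ * U.y = √U.y := by
    rw [inv_mul_eq_iff_eq_mul₀ hr.ne', hr2]
  have h5 : U.y ≤ √U.y := by nlinarith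
  have h6 : Real.log U.s ≤ 1 + 808 * (√U.y)⁻¹ := by
    push_cast at h1
    linarith
  have h7 : (1 + Real.log U.s) * U.y ≤ 810 * √U.y := by
    have := mul_le_mul_of_nonneg_right h6 hy.le
    nlinarith
  have h8 : 0 ≤ (1 + Real.log U.s) * U.y := by
    have := Real.log_nonneg hs1
    positivity
  rw [le_div_iff₀ hA] at hr3
  calc A * (1 + Real.log U.s) * U.y = A * ((1 + Real.log U.s) * U.y) := by ring
    _ ≤ |A| * ((1 + Real.log U.s) * U.y) := mul_le_mul_of_nonneg_right (le_abs_self A) h8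
    _ ≤ |A| * (810 * √U.y) := mul_le_mul_of_nonneg_left h7 (abs_nonneg A)
    _ ≤ 1 := by nlinarith

theorem Dat.int_g (D : Dat) : ∫ z, D.g.1 z = 4 * π * D.a := by
  exact D.int

theorem Dat.G1_bounds (D : Dat) : 0 ≤ D.G1 ∧ D.G1 ≤ 4 * π * D.a := by
  refine ⟨integral_nonneg fun z => (D.g_bounds z).1, ?_⟩
  rw [← D.int_g]
  exact integral_mono (D.supp_g'.integrable (bmOf _)) (D.supp_g.integrable (bmOf _))
    fun z => (D.g_bounds z).2.1

theorem Dat.int_wff (D : Dat) : ∫ z, D.w.1 z * D.f.1 z ^ 2 = 4 * π * D.a - D.G1 := by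
  rw [← D.int_g, Dat.G1,
    ← integral_sub (D.supp_g.integrable (bmOf _)) (D.supp_g'.integrable (bmOf _))]
  refine integral_congr_ae (Filter.Eventually.of_forall fun z => ?_)
  change D.w.1 z * D.f.1 z ^ 2 = D.w.1 z * D.f.1 z - D.w.1 z * D.f.1 z * (1 - D.f.1 z)
  ring

theorem Dat.int_w (D : Dat) : Integrable D.w.1 ∧ ∫ z, D.w.1 z ≤ 8 * D.C ^ 4 := by
  refine ⟨D.supp.integrable (bmOf _), ?_⟩
  have hC : 0 ≤ D.C := zero_le_one.trans D.hC
  have h1 := D.supp.integral_abs_le (M := D.C) hC fun z => by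
    rw [abs_of_nonneg (D.w0 z)]
    exact D.wC z
  simp only [abs_of_nonneg (D.w0 _)] at h1
  calc _ ≤ 8 * D.C * D.C ^ 3 := h1
    _ = _ := by ring

theorem Dat.ct_g (D : Dat) (k : R3) : |ct D.g.1 k| ≤ 4 * π * D.a ∧
    |ct D.g.1 k - 4 * π * D.a| ≤ 4 * D.C ^ 6 * sq3 k := by
  have hC : 0 ≤ D.C := zero_le_one.trans D.hC
  have h0 : ∀ z, 0 ≤ D.g.1 z := fun z => (D.g_bounds z).1.trans (D.g_bounds z).2.1
  constructor
  · have h1 := abs_ct_le (D.supp_g.integrable (bmOf _)) k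
    simp only [abs_of_nonneg (h0 _)] at h1
    rwa [D.int_g] at h1
  · have h1 := ct_lip (M := D.C) (bmOf D.g) D.supp_g hC (fun z => by
      rw [abs_of_nonneg (h0 z)]
      exact (D.g_bounds z).2.2.1.trans (D.wC z)) k
    rw [ct_zero, D.int_g] at h1
    calc _ ≤ 4 * D.C * D.C ^ 5 * sq3 k := h1
      _ = _ := by ring

theorem Tr.abs_ct {R : ℝ} {ω m : BF R3} {ω' : Fin 3 → BF R3} (h : Tr D C R ω m ω') (hR : 0 < R)
    (k : R3) : |sq3 k * ct ω.1 k| ≤ 4 * π * D.a + 64 * C := by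
  rw [h.four]
  have h1 := (D.ct_g k).1
  have h2 := abs_ct_le (h.suppm.integrable (bmOf _)) k
  have h3 := h.suppm.integral_abs_le (by positivity) h.mle
  have h4 : 8 * (C / R ^ 3) * (2 * R) ^ 3 = 64 * C := by
    field_simp
    ring
  have h5 := abs_sub (ct D.g.1 k) (ct m.1 k)
  linarith

/-- `gB_bounds`, `Dat.tm_eq` and `lat_min`. -/
theorem Dat.SL_le (D : Dat) : ∃ y₀ : ℝ, 0 < y₀ ∧ ∀ (y s : ℝ) (R : ℕ), Scale y s R → y ≤ y₀ →
    0 ≤ D.SL y s R ∧ D.SL y s R * y ^ 13 ≤ 1 := by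
  have hπ := Real.pi_pos
  have ha := D.ha
  have hσ : 0 < √(8 * π * D.a) := Real.sqrt_pos.2 (by positivity)
  refine ⟨1 / (168 * (√(8 * π * D.a) / π) ^ 3), by positivity, fun y s R hS hy => ?_⟩
  have hy0 := hS.y0
  have hs := hS.l_pos
  have hne : ∀ m ∈ Lplus R, m ≠ 0 := by
    intro m hm h0
    have := (mem_Lplus.1 hm).1 0
    rw [h0] at this
    exact lt_irrefl _ this
  have hκ : 0 < √(2 * D.mu0 y) := Real.sqrt_pos.2 (by have := D.mu0_pos hy0; positivity)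
  have hδ : 0 < π / (s * √(2 * D.mu0 y)) := by positivity
  have ht : ∀ m ∈ Lplus R, 0 < D.tm y s m := by
    intro m hm
    have := one_le_nm (hne m hm)
    rw [D.tm_eq hy0 hs]
    positivity
  refine ⟨Finset.sum_nonneg fun m hm => div_nonneg (gB_bounds (ht m hm)).1 zero_le_two, ?_⟩
  have h1 : D.SL y s R ≤ 21 / (π / (s * √(2 * D.mu0 y))) ^ 3 := by
    refine le_trans (Finset.sum_le_sum fun m hm => ?_) (lat_min hδ (Lplus R) hne)
    have := (gB_bounds (ht m hm)).2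
    rw [← D.tm_eq hy0 hs]
    linarith
  have h2 : 21 / (π / (s * √(2 * D.mu0 y))) ^ 3 * y ^ 13 =
      21 * (√(8 * π * D.a) / π) ^ 3 * (s * y ^ 404) ^ 3 * y := by
    rw [kappa_main1 D hy0, show y ^ 404 = y ^ 400 * y ^ 4 by rw [← pow_add]]
    generalize y ^ 400 = u
    field_simp
  have h3 : (s * y ^ 404) ^ 3 ≤ 2 ^ 3 := pow_le_pow_left₀ (by positivity) hS.l2 3
  rw [le_div_iff₀ (by positivity)] at hy
  have h4 : 0 ≤ 21 * (√(8 * π * D.a) / π) ^ 3 * y := by positivity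
  calc D.SL y s R * y ^ 13 ≤ 21 / (π / (s * √(2 * D.mu0 y))) ^ 3 * y ^ 13 :=
        mul_le_mul_of_nonneg_right h1 (by positivity)
    _ = 21 * (√(8 * π * D.a) / π) ^ 3 * y * (s * y ^ 404) ^ 3 := by rw [h2]; ring
    _ ≤ 21 * (√(8 * π * D.a) / π) ^ 3 * y * 2 ^ 3 := mul_le_mul_of_nonneg_left h3 h4
    _ ≤ 1 := by linarith

namespace USet
variable (U : USet D C)

theorem cube : U.B.Cube U.s := cube_cube0 _ _

theorem vol : U.B.vol = U.s ^ 3 := U.cube.vol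

theorem p_eq (m : M3) : U.B.p m = pk U.s m := U.cube.p_eq m

theorem p2_eq (m : M3) : U.p2 m = 2 * D.mu0 U.y * U.t m := by
  have := D.mu0_pos U.sc.y0
  unfold p2 t Dat.tm
  field_simp

/-- Powers of the side in terms of `y`. -/
theorem s_pow (k : ℕ) : 1 ≤ U.s ^ k * U.y ^ (404 * k) ∧ U.s ^ k * U.y ^ (404 * k) ≤ 2 ^ k := by
  have h0 : 0 ≤ U.s * U.y ^ 404 := zero_le_one.trans U.sc.l1
  rw [pow_mul, ← mul_pow]
  exact ⟨one_le_pow₀ U.sc.l1, pow_le_pow_left₀ h0 U.sc.l2 k⟩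

end USet

end Pool.Agent.BoseLHY
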