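import Pool.Agent.Lib.MP_dec75e_mp.U.Chi
import Pool.Agent.Lib.MP_dec75e_mp.U.Sm0
import Pool.Agent.Lib.MP_dec75e_mp.U.Asym

/-! The ultraviolet cut-off. -/

open MeasureTheory Finset Function
open scoped Real

noncomputable section

namespace Pool.Agent.BoseLHY

open Pool.Agent.BoseTail

variable {D : Dat} {C : ℝ}

theorem USet.vth_apply (U : USet D C) (c : M3) (x z : R3) :
    (U.vth c).1 (x, z) = -(U.r / 2) * U.σ c * (U.η.1 (x - z) * (U.B.chi (U.y ^ 8)⁻¹).1 x *
      (U.B.chi (U.y ^ 8)⁻¹).1 z * ((U.B.es c).1 x + (U.B.es c).1 z)) := rfl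

theorem USet.vth_symm (U : USet D C) (c : M3) (x z : R3) :
    (U.vth c).1 (x, z) = (U.vth c).1 (z, x) := by
  rw [U.vth_apply, U.vth_apply, U.tr2.ev (x - z) (z - x) fun _ => abs_sub_comm _ _]
  ring

theorem USet.ok (U : USet D C) {P : ℕ} (h : U.R ≤ P) : (U.K P).Ok := by
  refine ⟨Lplus_mono h, fun m => one_le_gam _, fun m => gam_hyp _, fun a b c => ?_,
    fun a b c hc => if_neg hc⟩
  show U.θ a b c = U.θ b a c
  unfold USet.θ
  rw [U.B.cf_symm (U.vth_symm c) a b]

theorem USet.orth (U : USet D C) (P : ℕ) : Orth U.B.μ 1 (U.K P).s U.B.es :=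
  U.B.orth_es fun _ hm => (mem_Lplus.1 hm).1

/-- `Box.trunc` for the kernels `asymk ω` (with `cf_asymk`) and `vth c`. -/
theorem USet.exists_cut (U : USet D C) : ∃ P, U.Cut P := by
  have hy := U.sc.y0
  have hs := U.hs
  obtain ⟨P₁, h₁⟩ := U.B.trunc (U.B.asymk U.ω) (δ := U.y ^ 2100) (by positivity)
  set k : ℝ := (((Lplus U.R).card : ℕ) : ℝ) with hk
  have hk0 : 0 ≤ k := Nat.cast_nonneg _
  choose P₂ h₂ using fun c => U.B.trunc (U.vth c) (δ := U.y ^ 810 / (k + 1)) (by positivity)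
  set P := max U.R (max P₁ ((Lplus U.R).sup P₂)) with hP
  refine ⟨P, le_max_left _ _, ?_, ?_⟩
  · refine le_of_eq_of_le ?_ (h₁ P ((le_max_left _ _).trans (le_max_right _ _)))
    unfold USet.E1
    congr 1
    funext x z
    congr 2
    refine sum_congr rfl fun a ha => ?_
    have hr : ∀ c, 2 * (U.s / 8) ≤ U.B.s c := fun c => by rw [U.cube c]; linarith
    simp only [U.B.cf_asymk U.tr1.ev U.tr1.supp hr (mem_Lplus.1 ha).1, ite_mul, zero_mul,
      sum_ite_eq, if_pos ha, U.vol, U.p_eq]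
    rfl
  · refine le_trans (sum_le_card_nsmul _ _ (U.y ^ 810 / (k + 1)) fun c hc => ?_) ?_
    · refine le_of_eq_of_le ?_ (h₂ c P
        (((le_sup hc).trans (le_max_right _ _)).trans (le_max_right _ _)))
      congr 1
      funext x z
      congr 2
      refine sum_congr rfl fun a _ => sum_congr rfl fun b _ => ?_
      show U.θ a b c * _ = _
      rw [USet.θ, if_pos hc]
      rfl
    · rw [nsmul_eq_mul, ← hk, ← mul_div_assoc, div_le_iff₀ (by positivity)]
      nlinarith [pow_pos hy 810]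

end Pool.Agent.BoseLHY
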