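import Pool.Agent.Lib.MP_dec75e_mp.U.Bd1
import Pool.Agent.Lib.MP_dec75e_mp.U.Trunc

/-! The cubic kernel and its derivative. -/

open MeasureTheory Finset Function
open scoped Real

noncomputable section

namespace Pool.Agent.BoseLHY

open Pool.Agent.BoseTail

variable {D : Dat} {C : ℝ}

theorem bm_sub_cub1u {h : R3 → ℝ} (hh : BM h) : BM fun p : R3 × R3 => h (p.1 - p.2) :=
  hh.comp (measurable_fst.sub measurable_snd)

theorem bm_fst_cub1u {h : R3 → ℝ} (hh : BM h) : BM fun p : R3 × R3 => h p.1 :=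
  hh.comp measurable_fst

theorem bm_snd_cub1u {h : R3 → ℝ} (hh : BM h) : BM fun p : R3 × R3 => h p.2 :=
  hh.comp measurable_snd

theorem ii_one_cub1u (B : Box) (h f : BF R3) {r : ℝ} (hs : Supp h.1 r)
    (hf : ∫ x, f.1 x ^ 2 ∂(B.μ : Measure R3) ≤ 1) :
    B.ii (fun x z => h.1 (x - z) ^ 2 * f.1 x ^ 2) ≤ (∫ z, h.1 z ^ 2) / B.vol ∧
      B.ii (fun x z => h.1 (x - z) ^ 2 * f.1 z ^ 2) ≤ (∫ z, h.1 z ^ 2) / B.vol := by
  have hb : BM fun z => h.1 z ^ 2 := (bmOf h).pow 2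
  have hs2 : Supp (fun z => h.1 z ^ 2) r := fun z hz => by simp [hs z hz]
  obtain ⟨h1, h2⟩ := B.ii_sub_mul_le hb (hs2.integrable hb) (fun z => sq_nonneg _)
    ((bmOf f).pow 2) fun x => sq_nonneg _
  have h0 : 0 ≤ (∫ z, h.1 z ^ 2) / B.vol :=
    div_nonneg (integral_nonneg fun z => sq_nonneg _) B.vol_pos.le
  exact ⟨h1.trans (mul_le_of_le_one_right h0 hf), h2.trans (mul_le_of_le_one_right h0 hf)⟩

/-- The common form of the estimates. -/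
theorem ii_le_cub1u (B : Box) (G : BF (R3 × R3)) (h k f g : BF R3) {r a b e : ℝ}
    (hs : Supp h.1 r) (hk : Supp k.1 r) (ha : 0 ≤ a) (hb : 0 ≤ b) (he : 0 ≤ e)
    (hf : ∫ x, f.1 x ^ 2 ∂(B.μ : Measure R3) ≤ 1) (hg : ∫ x, g.1 x ^ 2 ∂(B.μ : Measure R3) ≤ 1)
    (hG : ∀ x z, G.1 (x, z) ^ 2 ≤
      a * (h.1 (x - z) ^ 2 * f.1 x ^ 2 + h.1 (x - z) ^ 2 * f.1 z ^ 2) +
      b * (k.1 (x - z) ^ 2 * f.1 x ^ 2 + k.1 (x - z) ^ 2 * f.1 z ^ 2) +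
      e * (k.1 (x - z) ^ 2 * g.1 x ^ 2)) :
    B.ii (fun x z => G.1 (x, z) ^ 2) ≤
      (2 * a * (∫ z, h.1 z ^ 2) + (2 * b + e) * ∫ z, k.1 z ^ 2) / B.vol := by
  have b1 : ∀ u v : BF R3, BM (uncurry fun x z => u.1 (x - z) ^ 2 * v.1 x ^ 2) := fun u v =>
    (bm_sub_cub1u ((bmOf u).pow 2)).mul (bm_fst_cub1u ((bmOf v).pow 2))
  have b2 : ∀ u v : BF R3, BM (uncurry fun x z => u.1 (x - z) ^ 2 * v.1 z ^ 2) := fun u v =>
    (bm_sub_cub1u ((bmOf u).pow 2)).mul (bm_snd_cub1u ((bmOf v).pow 2))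
  have b3 : ∀ (c : ℝ) (u v : BF R3), BM (uncurry fun x z =>
      c * (u.1 (x - z) ^ 2 * v.1 x ^ 2 + u.1 (x - z) ^ 2 * v.1 z ^ 2)) := fun c u v =>
    (BM.const c).mul ((b1 u v).add (b2 u v))
  have b4 : BM (uncurry fun x z => e * (k.1 (x - z) ^ 2 * g.1 x ^ 2)) :=
    (BM.const e).mul (b1 k g)
  have b5 : BM (uncurry fun x z =>
      a * (h.1 (x - z) ^ 2 * f.1 x ^ 2 + h.1 (x - z) ^ 2 * f.1 z ^ 2) +
      b * (k.1 (x - z) ^ 2 * f.1 x ^ 2 + k.1 (x - z) ^ 2 * f.1 z ^ 2)) := (b3 a h f).add (b3 b k f)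
  have b0 : BM (uncurry fun x z => G.1 (x, z) ^ 2) := (bmOf G).pow 2
  have b6 : BM (uncurry fun x z =>
      a * (h.1 (x - z) ^ 2 * f.1 x ^ 2 + h.1 (x - z) ^ 2 * f.1 z ^ 2) +
      b * (k.1 (x - z) ^ 2 * f.1 x ^ 2 + k.1 (x - z) ^ 2 * f.1 z ^ 2) +
      e * (k.1 (x - z) ^ 2 * g.1 x ^ 2)) := b5.add b4
  refine (B.ii_mono b0 b6 fun x _ z _ => hG x z).trans ?_
  rw [B.ii_add b5 b4, B.ii_add (b3 a h f) (b3 b k f), B.ii_const_mul, B.ii_const_mul,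
    B.ii_const_mul, B.ii_add (b1 h f) (b2 h f), B.ii_add (b1 k f) (b2 k f)]
  obtain ⟨h1, h2⟩ := ii_one_cub1u B h f hs hf
  obtain ⟨h3, h4⟩ := ii_one_cub1u B k f hk hf
  obtain ⟨h5, -⟩ := ii_one_cub1u B k g hk hg
  have e1 := mul_le_mul_of_nonneg_left (add_le_add h1 h2) ha
  have e2 := mul_le_mul_of_nonneg_left (add_le_add h3 h4) hb
  have e3 := mul_le_mul_of_nonneg_left h5 he
  refine (add_le_add (add_le_add e1 e2) e3).trans_eq ?_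
  ring

theorem pt1_cub1u {η u v e f : ℝ} (hu : 0 ≤ u ∧ u ≤ 1) (hv : 0 ≤ v ∧ v ≤ 1) :
    (η * u * v * (e + f)) ^ 2 ≤ 2 * (η ^ 2 * e ^ 2 + η ^ 2 * f ^ 2) := by
  have h1 : (u * v) ^ 2 ≤ 1 := pow_le_one₀ (mul_nonneg hu.1 hv.1) (mul_le_one₀ hu.2 hv.1 hv.2)
  have h2 : (η * u * v * (e + f)) ^ 2 = (u * v) ^ 2 * (η * (e + f)) ^ 2 := by ring
  have h3 := mul_le_of_le_one_left (sq_nonneg (η * (e + f))) h1
  nlinarith [sq_nonneg (η * (e - f))]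

theorem pt2_cub1u {η η' u u' v e f p m q b : ℝ} (hu : 0 ≤ u ∧ u ≤ 1) (hv : 0 ≤ v ∧ v ≤ 1)
    (hq : 0 < q) (hb : |u'| ≤ b) :
    (η' * u * v * (e + f) + η * u' * v * (e + f) + η * u * v * (p * m)) ^ 2 ≤
      (1 + q) * 2 * (η' ^ 2 * e ^ 2 + η' ^ 2 * f ^ 2) +
        (1 + 1 / q) * (4 * b ^ 2) * (η ^ 2 * e ^ 2 + η ^ 2 * f ^ 2) +
        (1 + 1 / q) * (2 * p ^ 2) * (η ^ 2 * m ^ 2) := by
  have h1 := pt1_cub1u (η := η') (e := e) (f := f) hu hv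
  have h2 := pt1_cub1u (η := η) (e := e) (f := f) (u := 1) ⟨zero_le_one, le_rfl⟩ hv
  have h3 : u' ^ 2 ≤ b ^ 2 := by
    rw [← sq_abs]; exact pow_le_pow_left₀ (abs_nonneg _) hb 2
  have h4 : (η * u' * v * (e + f)) ^ 2 ≤ b ^ 2 * (2 * (η ^ 2 * e ^ 2 + η ^ 2 * f ^ 2)) := by
    have : (η * u' * v * (e + f)) ^ 2 = u' ^ 2 * (η * 1 * v * (e + f)) ^ 2 := by ring
    rw [this]
    exact mul_le_mul h3 h2 (sq_nonneg _) (sq_nonneg _)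
  have h5 : (η * u * v * (p * m)) ^ 2 ≤ p ^ 2 * (η ^ 2 * m ^ 2) := by
    have h6 : (u * v) ^ 2 ≤ 1 := pow_le_one₀ (mul_nonneg hu.1 hv.1) (mul_le_one₀ hu.2 hv.1 hv.2)
    have : (η * u * v * (p * m)) ^ 2 = (u * v) ^ 2 * (p ^ 2 * (η ^ 2 * m ^ 2)) := by ring
    rw [this]
    exact mul_le_of_le_one_left (by positivity) h6
  generalize η' * u * v * (e + f) = A at *
  generalize η * u' * v * (e + f) = B₁ at *
  generalize η * u * v * (p * m) = B₂ at *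
  have h7 : (A + B₁ + B₂) ^ 2 ≤ (1 + q) * A ^ 2 + (1 + 1 / q) * (B₁ + B₂) ^ 2 := by
    have : (1 + q) * A ^ 2 + (1 + 1 / q) * (B₁ + B₂) ^ 2 - (A + B₁ + B₂) ^ 2 =
        (q * A - (B₁ + B₂)) ^ 2 / q := by
      field_simp
      ring
    have h8 : 0 ≤ (q * A - (B₁ + B₂)) ^ 2 / q := by positivity
    linarith
  have h8 : (B₁ + B₂) ^ 2 ≤ 2 * (b ^ 2 * (2 * (η ^ 2 * e ^ 2 + η ^ 2 * f ^ 2))) +
      2 * (p ^ 2 * (η ^ 2 * m ^ 2)) := by nlinarith [sq_nonneg (B₁ - B₂)]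
  have h9 := mul_le_mul_of_nonneg_left h1 (show 0 ≤ 1 + q by positivity)
  have h10 := mul_le_mul_of_nonneg_left h8 (show 0 ≤ 1 + 1 / q by positivity)
  refine h7.trans ((add_le_add h9 h10).trans_eq ?_)
  ring

/-- `(e x + e z) ^ 2 ≤ 2 e x ^ 2 + 2 e z ^ 2`, `ii_sub_mul_le`, `Tr.l2`. -/
theorem sm_vth : Sm D C fun U => ∀ c,
    (U.B.ii fun x z => (U.vth c).1 (x, z) ^ 2) ≤ U.σ c ^ 2 * U.y ^ 791 := by
  refine (sm_bd.and (sm_small (2 * C))).mono fun U ⟨hB, hy⟩ c => ?_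
  have y0 := hB.y0
  have hs := U.hs
  have hC := hB.c1
  have h1 := ii_le_cub1u U.B (U.vth c) U.η U.η (U.B.es c) (U.B.es c)
    (a := (U.r / 2 * U.σ c) ^ 2 * 2) (b := 0) (e := 0) U.tr2.supp U.tr2.supp (by positivity)
    le_rfl le_rfl (U.B.integral_es_sq c) (U.B.integral_es_sq c) fun x z => by
      rw [U.vth_apply, mul_pow, neg_mul, neg_sq, zero_mul, zero_mul, add_zero, add_zero,
        mul_assoc _ (2 : ℝ)]
      exact mul_le_mul_of_nonneg_left (pt1_cub1u (U.B.chi_bounds _ x) (U.B.chi_bounds _ z))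
        (sq_nonneg _)
  refine h1.trans ?_
  have e : (2 * ((U.r / 2 * U.σ c) ^ 2 * 2) * (∫ z, U.η.1 z ^ 2) +
      (2 * 0 + 0) * ∫ z, U.η.1 z ^ 2) / U.B.vol = U.σ c ^ 2 * (U.ρ * ∫ z, U.η.1 z ^ 2) := by
    rw [U.vol, mul_pow, div_pow, hB.r2]
    field_simp
    ring
  rw [e]
  refine mul_le_mul_of_nonneg_left ?_ (sq_nonneg _)
  have h2 := mul_le_mul hB.rho.2 U.tr2.l2 (integral_nonneg fun z => sq_nonneg _) (by positivity)
  refine h2.trans ?_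
  have e2 : 2 * U.y ^ 800 * (C * (U.y ^ 8)⁻¹) = 2 * C * U.y * U.y ^ 791 := by field_simp
  rw [e2]
  exact mul_le_of_le_one_left (by positivity) hy

theorem num_cub1u {y ρ G A C K I J P : ℝ} (y0 : 0 < y) (y1 : y ≤ 1 / 1000) (hC : 1 ≤ C)
    (ρ0 : 0 ≤ ρ) (hρ : ρ ≤ 2 * y ^ 800) (G0 : 0 ≤ G) (hG : G ≤ K)
    (hI : I ≤ G + C / (y ^ 8)⁻¹) (J0 : 0 ≤ J) (hJ : J ≤ C * (y ^ 8)⁻¹) (hP : P ≤ y ^ 783)
    (hy : 2 * (K + 3 * C + 12 * A ^ 2 * C) * y ≤ 1) :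
    ρ * ((1 + y ^ 4) * I + (1 + 1 / y ^ 4) * (6 * (A / (y ^ 8)⁻¹) ^ 2 + P / 2) * J) ≤
      ρ * G + y ^ 803 := by
  have y2 : y ≤ 1 := by linarith
  have p4 : y ^ 4 ≤ 1 := pow_le_one₀ y0.le y2
  have p767 : y ^ 767 ≤ 1 := pow_le_one₀ y0.le y2
  have q4 : 0 < y ^ 4 := by positivity
  have h1 : 1 + 1 / y ^ 4 ≤ 2 / y ^ 4 := by
    have : 1 ≤ 1 / y ^ 4 := by rw [le_div_iff₀ q4]; linarith
    have e : 2 / y ^ 4 = 1 / y ^ 4 + 1 / y ^ 4 := by ring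
    linarith
  have h2 : (1 + 1 / y ^ 4) * (6 * (A / (y ^ 8)⁻¹) ^ 2 + P / 2) * J ≤
      2 / y ^ 4 * (6 * (A / (y ^ 8)⁻¹) ^ 2 + y ^ 783 / 2) * (C * (y ^ 8)⁻¹) := by
    refine mul_le_mul ?_ hJ J0 (by positivity)
    calc (1 + 1 / y ^ 4) * (6 * (A / (y ^ 8)⁻¹) ^ 2 + P / 2)
        ≤ (1 + 1 / y ^ 4) * (6 * (A / (y ^ 8)⁻¹) ^ 2 + y ^ 783 / 2) := by gcongr
      _ ≤ _ := by gcongr
  have e2 : 2 / y ^ 4 * (6 * (A / (y ^ 8)⁻¹) ^ 2 + y ^ 783 / 2) * (C * (y ^ 8)⁻¹) =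
      y ^ 4 * (12 * A ^ 2 * C + C * y ^ 767) := by
    field_simp
    ring
  have e3 : C / (y ^ 8)⁻¹ = y ^ 4 * (C * y ^ 4) := by field_simp
  have h3 : (1 + y ^ 4) * I ≤ G + y ^ 4 * (K + 2 * C) := by
    have h4 := mul_le_mul_of_nonneg_left hI (show 0 ≤ 1 + y ^ 4 by positivity)
    rw [e3] at h4
    have h5 : C * y ^ 4 ≤ C := mul_le_of_le_one_right (by linarith) p4
    have h6 : (1 + y ^ 4) * (C * y ^ 4) ≤ 2 * C := by
      refine mul_le_mul (by linarith) h5 (by positivity) (by norm_num)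
    have h7 := mul_le_mul_of_nonneg_left h6 q4.le
    have h8 := mul_le_mul_of_nonneg_left hG q4.le
    nlinarith
  have h4 : C * y ^ 767 ≤ C := mul_le_of_le_one_right (by linarith) p767
  have h5 : (1 + y ^ 4) * I + (1 + 1 / y ^ 4) * (6 * (A / (y ^ 8)⁻¹) ^ 2 + P / 2) * J ≤
      G + y ^ 4 * (K + 3 * C + 12 * A ^ 2 * C) := by
    have := mul_le_mul_of_nonneg_left h4 q4.le
    rw [e2] at h2
    nlinarith
  have K0 : 0 ≤ K + 3 * C + 12 * A ^ 2 * C := by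
    have : 0 ≤ 12 * A ^ 2 * C := by positivity
    linarith
  have h6 : ρ * (y ^ 4 * (K + 3 * C + 12 * A ^ 2 * C)) ≤ y ^ 803 := by
    calc ρ * (y ^ 4 * (K + 3 * C + 12 * A ^ 2 * C))
        ≤ 2 * y ^ 800 * (y ^ 4 * (K + 3 * C + 12 * A ^ 2 * C)) := by gcongr
      _ = 2 * (K + 3 * C + 12 * A ^ 2 * C) * y * y ^ 803 := by ring
      _ ≤ y ^ 803 := mul_le_of_le_one_left (by positivity) hy
  have h7 := mul_le_mul_of_nonneg_left h5 ρ0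
  rw [mul_add ρ G] at h7
  linarith

/-- The derivative of the cubic kernel. -/
def dv_cub1u (U : USet D C) (c : M3) (χ' : BF R3) (j : Fin 3) : BF (R3 × R3) :=
  (-(U.r / 2) * U.σ c) • (dif (U.η' j) * pull Prod.fst measurable_fst (U.B.chi (U.y ^ 8)⁻¹) *
    pull Prod.snd measurable_snd (U.B.chi (U.y ^ 8)⁻¹) *
    (pull Prod.fst measurable_fst (U.B.es c) + pull Prod.snd measurable_snd (U.B.es c)) +
    dif U.η * pull Prod.fst measurable_fst χ' *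
    pull Prod.snd measurable_snd (U.B.chi (U.y ^ 8)⁻¹) *
    (pull Prod.fst measurable_fst (U.B.es c) + pull Prod.snd measurable_snd (U.B.es c)) +
    dif U.η * pull Prod.fst measurable_fst (U.B.chi (U.y ^ 8)⁻¹) *
    pull Prod.snd measurable_snd (U.B.chi (U.y ^ 8)⁻¹) *
    (U.B.p c j • pull Prod.fst measurable_fst (U.B.mx j c)))

theorem dv_apply_cub1u (U : USet D C) (c : M3) (χ' : BF R3) (j : Fin 3) (x z : R3) :
    (dv_cub1u U c χ' j).1 (x, z) = -(U.r / 2) * U.σ c *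
      ((U.η' j).1 (x - z) * (U.B.chi (U.y ^ 8)⁻¹).1 x * (U.B.chi (U.y ^ 8)⁻¹).1 z *
        ((U.B.es c).1 x + (U.B.es c).1 z) +
      U.η.1 (x - z) * χ'.1 x * (U.B.chi (U.y ^ 8)⁻¹).1 z * ((U.B.es c).1 x + (U.B.es c).1 z) +
      U.η.1 (x - z) * (U.B.chi (U.y ^ 8)⁻¹).1 x * (U.B.chi (U.y ^ 8)⁻¹).1 z *
        (U.B.p c j * (U.B.mx j c).1 x)) := rfl

theorem dv_deriv_cub1u (U : USet D C) (c : M3) {χ' : BF R3} (j : Fin 3)
    (h : ∀ x, HasDerivAt (fun t : ℝ => (U.B.chi (U.y ^ 8)⁻¹).1 (x + Pi.single j t)) (χ'.1 x) 0)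
    (x z : R3) : HasDerivAt (fun t : ℝ => (U.vth c).1 (x + Pi.single j t, z))
      ((dv_cub1u U c χ' j).1 (x, z)) 0 := by
  have h1 := ((((U.tr2.der j (x - z)).fun_mul (h x)).mul_const
    ((U.B.chi (U.y ^ 8)⁻¹).1 z)).fun_mul ((U.B.es_deriv j c x).add_const
      ((U.B.es c).1 z))).const_mul (-(U.r / 2) * U.σ c)
  simp only [Pi.single_zero, add_zero] at h1
  simp only [U.vth_apply, add_sub_right_comm]
  rw [dv_apply_cub1u]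
  refine h1.congr_deriv ?_
  ring

/-- The derivative of `vth c` in the first variable is `-(r / 2) σ` times
`η' χ χ (e + e) + η χ' χ (e + e) + η χ χ p mx`; use `(A + B) ^ 2 ≤ (1 + y ^ 4) A ^ 2 +
(1 + 1 / y ^ 4) B ^ 2`, `Tr.grad` for the first term and `Tr.l2`, `chi_deriv`, `Bd.plow` for
the others. -/
theorem sm_dvth : Sm D C fun U => ∀ c ∈ Lplus U.R, ∃ G' : Fin 3 → BF (R3 × R3),
    (∀ j x z, HasDerivAt (fun t : ℝ => (U.vth c).1 (x + Pi.single j t, z)) ((G' j).1 (x, z)) 0) ∧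
    (∀ j x z, 2 * (U.y ^ 8)⁻¹ < ‖x - z‖ → (G' j).1 (x, z) = 0) ∧
    ∑ j, (U.B.ii fun x z => (G' j).1 (x, z) ^ 2) ≤ U.σ c ^ 2 * (U.ρ * D.G1 + U.y ^ 803) := by
  obtain ⟨A, -, hA⟩ := chi_deriv
  refine (sm_bd.and (sm_small (2 * (4 * π * D.a + 3 * C + 12 * A ^ 2 * C)))).mono
    fun U ⟨hB, hy⟩ c hc => ?_
  have y0 := hB.y0
  have hs := U.hs
  choose χ' hχ hχb using hA U.B (U.y ^ 8)⁻¹ (by positivity)
  refine ⟨fun j => dv_cub1u U c (χ' j) j, fun j => dv_deriv_cub1u U c j (hχ j),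
    fun j x z hxz => ?_, ?_⟩
  · rw [dv_apply_cub1u, U.tr2.supp _ hxz, U.tr2.supp' j _ hxz]
    ring
  have hm : ∀ j, ∫ x, (U.B.mx j c).1 x ^ 2 ∂(U.B.μ : Measure R3) ≤ 1 := fun j => by
    have := U.B.mx_orth j (mem_Lplus.1 hc).1 c
    rw [if_pos rfl] at this
    simp only [sq]
    exact this.le
  have h1 : ∀ j, (U.B.ii fun x z => (dv_cub1u U c (χ' j) j).1 (x, z) ^ 2) ≤ _ := fun j =>
    ii_le_cub1u U.B (dv_cub1u U c (χ' j) j) (U.η' j) U.η (U.B.es c) (U.B.mx j c)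
      (a := (U.r / 2 * U.σ c) ^ 2 * ((1 + U.y ^ 4) * 2))
      (b := (U.r / 2 * U.σ c) ^ 2 * ((1 + 1 / U.y ^ 4) * (4 * (A / (U.y ^ 8)⁻¹) ^ 2)))
      (e := (U.r / 2 * U.σ c) ^ 2 * ((1 + 1 / U.y ^ 4) * (2 * U.B.p c j ^ 2)))
      (U.tr2.supp' j) U.tr2.supp (by positivity) (by positivity) (by positivity)
      (U.B.integral_es_sq c) (hm j) fun x z => by
        rw [dv_apply_cub1u, mul_pow, neg_mul, neg_sq]
        refine (mul_le_mul_of_nonneg_left (pt2_cub1u (q := U.y ^ 4) (U.B.chi_bounds _ x)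
          (U.B.chi_bounds _ z) (by positivity) (hχb j x)) (sq_nonneg _)).trans_eq ?_
        ring
  refine (sum_le_sum fun j _ => h1 j).trans ?_
  have ρ0 : 0 ≤ U.ρ := le_trans (by positivity) hB.rho.1
  have h2 := num_cub1u (A := A) y0 hB.y1 hB.c1 ρ0 hB.rho.2 D.G1_bounds.1 D.G1_bounds.2 U.tr2.grad
    (integral_nonneg fun z => sq_nonneg _) U.tr2.l2 (hB.plow c hc) hy
  refine le_trans (le_of_eq ?_) (mul_le_mul_of_nonneg_left h2 (sq_nonneg (U.σ c)))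
  rw [U.vol, mul_pow, div_pow U.r, hB.r2, USet.p2, ← U.p_eq, sq3]
  simp only [Fin.sum_univ_three]
  field_simp
  ring

theorem USet.vth_face (U : USet D C) (c : M3) (j : Fin 3) (z : R3) :
    U.B.Face j fun x => (U.vth c).1 (x, z) := by
  intro x hx
  simp only [U.vth_apply, U.B.chi_face _ j x hx, mul_zero, zero_mul]

end Pool.Agent.BoseLHY
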