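import Pool.Agent.Lib.MP_dec75e_mp.U.Cub1

/-! The cubic part: kinetic energy. -/

open MeasureTheory Finset Function
open scoped Real

noncomputable section

namespace Pool.Agent.BoseLHY

open Pool.Agent.BoseTail

variable {D : Dat} {C : ℝ}

theorem sum_th_cub2u (U : USet D C) {P : ℕ} (h : U.R ≤ P) (w : M3 → ℝ) (F F' : Finset M3) :
    ∑ a ∈ F, ∑ b ∈ F', ∑ c ∈ Lplus P, w a * U.θ a b c ^ 2 =
      ∑ c ∈ Lplus U.R, ∑ a ∈ F, ∑ b ∈ F', w a * U.B.cf (U.vth c) a b ^ 2 := by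
  rw [Finset.sum_comm (s := Lplus U.R)]
  refine Finset.sum_congr rfl fun a _ => ?_
  rw [Finset.sum_comm (s := Lplus U.R)]
  refine Finset.sum_congr rfl fun b _ => ?_
  rw [← Finset.sum_subset (Lplus_mono h) fun c _ hc => by
    rw [USet.θ, if_neg hc, zero_pow two_ne_zero, mul_zero]]
  exact Finset.sum_congr rfl fun c hc => by rw [USet.θ, if_pos hc]

theorem T1_eq_cub2u (U : USet D C) {P : ℕ} (h : U.R ≤ P) (F' : Finset M3) :
    (U.K P).T1 U.p2 F' = ∑ c ∈ Lplus U.R, ∑ j, ∑ a ∈ Lplus P, ∑ b ∈ F',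
      U.B.p a j ^ 2 * U.B.cf (U.vth c) a b ^ 2 := by
  refine (sum_th_cub2u U h U.p2 (Lplus P) F').trans (Finset.sum_congr rfl fun c _ => ?_)
  rw [Finset.sum_comm (s := Finset.univ)]
  refine Finset.sum_congr rfl fun a _ => ?_
  rw [Finset.sum_comm (s := Finset.univ)]
  refine Finset.sum_congr rfl fun b _ => ?_
  rw [← Finset.sum_mul, U.p_eq]
  rfl

theorem sm_T0 : Sm D C fun U => ∀ P, U.R ≤ P → (U.K P).T0 ≤ U.y ^ 778 := by
  refine (sm_bd.and sm_vth).mono fun U ⟨hb, hv⟩ P hP => ?_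
  have h1 := sum_th_cub2u U hP (fun _ => 1) (Lplus P) (Lplus P)
  simp only [one_mul] at h1
  have h2 : (U.K P).T0 ≤ ∑ c ∈ Lplus U.R, U.σ c ^ 2 * U.y ^ 791 :=
    h1.trans_le (Finset.sum_le_sum fun c _ => (U.B.bessel _ _ _).trans (hv c))
  rw [← Finset.sum_mul, hb.slσ] at h2
  have h3 : U.SL * U.y ^ 791 = U.SL * U.y ^ 13 * U.y ^ 778 := by
    rw [mul_assoc, ← pow_add]
  rw [h3] at h2
  exact h2.trans (mul_le_of_le_one_left (pow_nonneg hb.y0.le _) hb.sl)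

theorem num_cub2u {y k v S Z A : ℝ} (y0 : 0 < y) (y1 : y ≤ 1) (hk : k * y ^ 36 ≤ 8)
    (v0 : 0 < v) (hv : 1 ≤ v * y ^ 1212) (S0 : 0 ≤ S) (hS : S * y ^ 13 ≤ 1) (Z0 : 0 ≤ Z)
    (hZ : Z ≤ A) (hA : 4096 * A * y ≤ 1) :
    k * (64 * (2 * (y ^ 8)⁻¹) ^ 3 / v) * (S * Z) ≤ y ^ 800 := by
  have h1 : k ≤ 8 / y ^ 36 := (le_div_iff₀ (pow_pos y0 _)).2 hk
  have h2 : v⁻¹ ≤ y ^ 1212 := by
    rw [inv_le_iff_one_le_mul₀' v0]
    exact hv
  have h3 : S ≤ 1 / y ^ 13 := (le_div_iff₀ (pow_pos y0 _)).2 hS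
  have h4 : y ^ 1212 = y ^ 36 * (y ^ 8) ^ 3 * y ^ 13 * y * y ^ 1138 := by
    rw [← pow_mul, ← pow_add, ← pow_add, ← pow_succ, ← pow_add]
  have h5 : y ^ 1138 ≤ y ^ 800 := pow_le_pow_of_le_one y0.le y1 (by norm_num)
  have h6 : 0 < y ^ 1138 := pow_pos y0 _
  have a0 : 0 < y ^ 36 := pow_pos y0 _
  have b0 : 0 < y ^ 8 := pow_pos y0 _
  have c0 : 0 < y ^ 13 := pow_pos y0 _
  rw [h4] at h2
  generalize y ^ 1138 = t at *
  generalize y ^ 36 = a at *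
  generalize y ^ 8 = b at *
  generalize y ^ 13 = c at *
  calc k * (64 * (2 * b⁻¹) ^ 3 / v) * (S * Z)
      ≤ 8 / a * (64 * (2 * b⁻¹) ^ 3 * (a * b ^ 3 * c * y * t)) * (1 / c * A) := by
        rw [div_eq_mul_inv _ v]
        gcongr
    _ = 4096 * A * y * t := by
        field_simp
        ring
    _ ≤ t := mul_le_of_le_one_left h6.le hA
    _ ≤ _ := h5

/-- `bessel_grad` and `bessel_short`. -/
theorem sm_T1 : Sm D C fun U => ∀ P, U.R ≤ P →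
    (U.K P).T1 U.p2 (Lplus P) ≤ U.ρ * U.SL * D.G1 + U.y ^ 790 ∧
      (U.K P).T1 U.p2 (Lplus U.R) ≤ U.y ^ 800 := by
  refine ((sm_bd.and sm_dvth).and (sm_small (4096 * (2 * D.G1 + 1)))).mono
    fun U ⟨⟨hb, hv⟩, hA⟩ P hP => ?_
  have y0 := hb.y0
  have y1 : U.y ≤ 1 := hb.y1.trans (by norm_num)
  have G0 := D.G1_bounds.1
  rw [T1_eq_cub2u U hP, T1_eq_cub2u U hP]
  constructor
  · refine (Finset.sum_le_sum (g := fun c => U.σ c ^ 2 * (U.ρ * D.G1 + U.y ^ 803))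
      fun c hc => ?_).trans ?_
    · obtain ⟨G', hd, -, hG⟩ := hv c hc
      exact (Finset.sum_le_sum fun j _ =>
        Box.bessel_grad (hd j) (U.vth_face c j) _ _).trans hG
    · rw [← Finset.sum_mul, hb.slσ]
      have h3 : U.SL * U.y ^ 803 = U.SL * U.y ^ 13 * U.y ^ 790 := by
        rw [mul_assoc, ← pow_add]
      have h4 := mul_le_of_le_one_left (pow_nonneg y0.le 790) hb.sl
      rw [mul_add, h3]
      exact add_le_add (le_of_eq (by ring)) h4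
  · have hs3 : 0 < U.s ^ 3 := pow_pos U.hs 3
    have hr : (0 : ℝ) ≤ 2 * (U.y ^ 8)⁻¹ := by positivity
    refine (Finset.sum_le_sum (g := fun c => (Lplus U.R).card *
      (64 * (2 * (U.y ^ 8)⁻¹) ^ 3 / U.s ^ 3) * (U.σ c ^ 2 * (U.ρ * D.G1 + U.y ^ 803)))
      fun c hc => ?_).trans ?_
    · obtain ⟨G', hd, hs, hG⟩ := hv c hc
      refine (Finset.sum_le_sum fun j _ =>
        Box.bessel_short (hd j) (U.vth_face c j) hr (hs j) _ _).trans ?_
      rw [← Finset.mul_sum, U.vol]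
      exact mul_le_mul_of_nonneg_left hG (by positivity)
    · rw [← Finset.mul_sum, ← Finset.sum_mul, hb.slσ]
      have h1 : U.y ^ 800 ≤ 1 := pow_le_one₀ y0.le y1
      have h2 : U.y ^ 803 ≤ 1 := pow_le_one₀ y0.le y1
      have h3 : 0 < U.y ^ 800 := pow_pos y0 _
      have h4 : 0 < U.y ^ 803 := pow_pos y0 _
      have h5 : 0 ≤ U.ρ := le_trans (half_pos h3).le hb.rho.1
      have h6 : U.ρ ≤ 2 := hb.rho.2.trans (by linarith)
      exact num_cub2u y0 y1 hb.card hs3 (U.s_pow 3).1 hb.sl0 hb.sl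
        (add_nonneg (mul_nonneg h5 G0) h4.le)
        (add_le_add (mul_le_mul_of_nonneg_right h6 G0) h2) hA

end Pool.Agent.BoseLHY
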