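import Pool.Agent.Lib.MP_dec75e_mp.U.Bd1
import Pool.Agent.Lib.MP_dec75e_mp.U.Trunc
import Pool.Agent.Lib.MP_dec75e_mp.U.CoInt

/-! The cubic part: interaction energy. -/

open MeasureTheory Finset Function
open scoped Real

noncomputable section

namespace Pool.Agent.BoseLHY

open Pool.Agent.BoseTail

variable {D : Dat} {C : ℝ}

theorem bm_dif_cub3u {h : R3 → ℝ} (hh : BM h) : BM fun p : R3 × R3 => h (p.1 - p.2) :=
  hh.comp (measurable_fst.sub measurable_snd)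

theorem bm_two_cub3u {h f : R3 → ℝ} (hh : BM h) (hf : BM f) :
    BM (uncurry fun x z : R3 => h (x - z) * (f x + f z)) :=
  (bm_dif_cub3u hh).mul ((hf.comp measurable_fst).add (hf.comp measurable_snd))

theorem bm_cm_cub3u (c : ℝ) {G : R3 → R3 → ℝ} (h : BM (uncurry G)) :
    BM (uncurry fun x z => c * G x z) := (BM.const c).mul h

theorem two_cub3u (B : Box) {h f : R3 → ℝ} (hh : BM h) (hi : Integrable h) (h0 : ∀ z, 0 ≤ h z)
    (hf : BM f) (f0 : ∀ x, 0 ≤ f x) {b : ℝ} (hb : ∫ x, f x ∂(B.μ : Measure R3) ≤ b) :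
    B.ii (fun x z => h (x - z) * (f x + f z)) ≤ 2 * ((∫ z, h z) / B.vol * b) := by
  obtain ⟨h1, h2⟩ := B.ii_sub_mul_le hh hi h0 hf f0
  have hv : 0 < B.vol := Finset.prod_pos fun c _ => B.pos c
  have h3 : (∫ z, h z) / B.vol * ∫ x, f x ∂(B.μ : Measure R3) ≤ (∫ z, h z) / B.vol * b :=
    mul_le_mul_of_nonneg_left hb (div_nonneg (integral_nonneg h0) hv.le)
  have e := B.ii_add (G := fun x z => h (x - z) * f x) (G' := fun x z => h (x - z) * f z)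
    ((bm_dif_cub3u hh).mul (hf.comp measurable_fst))
    ((bm_dif_cub3u hh).mul (hf.comp measurable_snd))
  simp only [mul_add]
  rw [e]
  linarith

theorem bm_ee_cub3u (B : Box) (c : M3) :
    BM fun p : R3 × R3 => (B.es c).1 p.1 + (B.es c).1 p.2 :=
  ((bmOf _).comp measurable_fst).add ((bmOf _).comp measurable_snd)

theorem pw_cub3u {w f η a b u v i j : ℝ} (hw : 0 ≤ w) (hη : w ≠ 0 → η = 1 - f) (η0 : 0 ≤ η)
    (η1 : η ≤ 1) (ha : 0 ≤ a ∧ a ≤ 1) (hb : 0 ≤ b ∧ b ≤ 1) (hu : u ^ 2 ≤ 8) (hv : v ^ 2 ≤ 8)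
    (hi : i = 1 ∨ (i = 0 ∧ a = 1)) (hj : j = 1 ∨ (j = 0 ∧ b = 1)) :
    w * ((u + v) * (1 - η * a * b)) ^ 2 ≤
      2 * (w * f ^ 2 * (u ^ 2 + v ^ 2)) + 32 * (w * (i + j)) := by
  rcases hw.eq_or_lt with h | h
  · rw [← h]
    simp
  have h1 : (u + v) ^ 2 ≤ 2 * (u ^ 2 + v ^ 2) := by nlinarith [sq_nonneg (u - v)]
  have h2 : 0 ≤ η * a * b := mul_nonneg (mul_nonneg η0 ha.1) hb.1
  have h3 : η * a * b ≤ 1 := mul_le_one₀ (mul_le_one₀ η1 ha.1 ha.2) hb.1 hb.2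
  have h4 : (1 - η * a * b) ^ 2 ≤ 1 := by nlinarith
  have h5 : ((u + v) * (1 - η * a * b)) ^ 2 ≤ 32 := by
    rw [mul_pow]
    nlinarith [sq_nonneg (u + v), mul_le_mul_of_nonneg_left h4 (sq_nonneg (u + v))]
  have h6 : 0 ≤ f ^ 2 * (u ^ 2 + v ^ 2) := by positivity
  have key : ((u + v) * (1 - η * a * b)) ^ 2 ≤ 2 * (f ^ 2 * (u ^ 2 + v ^ 2)) + 32 * (i + j) := by
    rcases hi with hi | ⟨hi, ha1⟩
    · rcases hj with hj | ⟨hj, -⟩ <;> rw [hi, hj] <;> linarith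
    · rcases hj with hj | ⟨hj, hb1⟩
      · rw [hi, hj]
        linarith
      · rw [hi, hj, ha1, hb1, hη h.ne', mul_pow]
        have e : (1 - (1 - f) * 1 * 1) ^ 2 = f ^ 2 := by ring
        rw [e]
        nlinarith [mul_le_mul_of_nonneg_right h1 (sq_nonneg f)]
  nlinarith [mul_le_mul_of_nonneg_left key h.le]

theorem num1_cub3u {y ρ s A I : ℝ} (y0 : 0 < y) (y1 : y ≤ 1) (hs : 0 < s) (hsy : 1 ≤ s * y ^ 404)
    (ρ0 : 0 ≤ ρ) (hρ : ρ ≤ 2 * y ^ 800) (I0 : 0 ≤ I) (hI : I ≤ A) (hA : 768 * A * y ≤ 1) :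
    ρ * s ^ 3 * (32 * (2 * (I / s ^ 3 * (6 * (y ^ 8)⁻¹ / s)))) ≤ y ^ 1000 := by
  have e : ρ * s ^ 3 * (32 * (2 * (I / s ^ 3 * (6 * (y ^ 8)⁻¹ / s)))) =
      384 * ρ * I * (1 / s) / y ^ 8 := by
    field_simp
    ring
  have A0 : 0 ≤ A := I0.trans hI
  have h1 : 1 / s ≤ y ^ 404 := by
    rw [div_le_iff₀ hs]
    linarith
  rw [e, div_le_iff₀ (by positivity)]
  calc 384 * ρ * I * (1 / s) ≤ 384 * (2 * y ^ 800) * A * y ^ 404 := by gcongr
    _ = 768 * A * y * y ^ 1203 := by ring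
    _ ≤ 1 * y ^ 1203 := by gcongr
    _ ≤ y ^ 1008 := by
      rw [one_mul]
      exact pow_le_pow_of_le_one y0.le y1 (by norm_num)
    _ = y ^ 1000 * y ^ 8 := by ring

/-- For `c` low, `r σ (e + e) + 2 vth c = r σ (e + e) (1 - η χ χ)`, and on the support of `w`
this is `r σ (e + e) f` unless `x` or `z` is in the layer of width `1 / y ^ 8`, where
`|1 - η χ χ| ≤ 1` (`Box.lay_le`). -/
theorem sm_cub3a : Sm D C fun U => ∀ c,
    (U.B.ii fun x z => D.w.1 (x - z) *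
      (U.r * U.σ c * ((U.B.es c).1 x + (U.B.es c).1 z) + 2 * (U.vth c).1 (x, z)) ^ 2) ≤
      U.σ c ^ 2 * (4 * U.ρ * (4 * π * D.a - D.G1) + U.y ^ 1000) := by
  refine (sm_bd.and (sm_small (768 * (8 * D.C ^ 4)))).mono fun U ⟨hb, hA⟩ c => ?_
  have y0 := hb.y0
  have hs := U.hs
  have hy8 : 0 < (U.y ^ 8)⁻¹ := by positivity
  have ρ0 : 0 ≤ U.ρ := le_trans (by positivity) hb.rho.1
  have bw := bmOf D.w
  have bwf : BM fun z => D.w.1 z * D.f.1 z ^ 2 := bw.mul ((bmOf D.f).pow 2)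
  have iwf : Integrable fun z => D.w.1 z * D.f.1 z ^ 2 :=
    Supp.integrable bwf (r := D.C) fun z hz => by rw [D.supp z hz, zero_mul]
  obtain ⟨I, hI⟩ : ∃ I : BF R3, I = ind (U.B.lay (U.y ^ 8)⁻¹) (U.B.measurableSet_lay _) := ⟨_, rfl⟩
  have I1 : ∀ x, I.1 x = 1 ∨ (I.1 x = 0 ∧ (U.B.chi (U.y ^ 8)⁻¹).1 x = 1) := fun x => by
    rw [hI]
    by_cases hx : x ∈ U.B.lay (U.y ^ 8)⁻¹
    · exact Or.inl (Set.indicator_of_mem hx fun _ => (1 : ℝ))
    · exact Or.inr ⟨Set.indicator_of_notMem hx fun _ => (1 : ℝ), U.B.chi_eq_one hy8 hx⟩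
  have I0 : ∀ x, 0 ≤ I.1 x := fun x => by rcases I1 x with h | h <;> simp [h]
  have I2 : ∫ x, I.1 x ∂(U.B.μ : Measure R3) ≤ 6 * (U.y ^ 8)⁻¹ / U.s := by
    rw [hI]
    refine (integral_indicator_one (U.B.measurableSet_lay _)).le.trans
      ((U.B.lay_le hy8.le).trans_eq ?_)
    rw [Fin.sum_univ_three, U.cube 0, U.cube 1, U.cube 2]
    ring
  have t1 := two_cub3u U.B bwf iwf (fun z => mul_nonneg (D.w0 z) (sq_nonneg _))
    ((bmOf (U.B.es c)).pow 2) (fun x => sq_nonneg _) (U.B.integral_es_sq c)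
  have t2 := two_cub3u U.B bw D.int_w.1 D.w0 (bmOf I) I0 I2
  have b1 := bm_two_cub3u bwf ((bmOf (U.B.es c)).pow 2)
  have b2 := bm_two_cub3u bw (bmOf I)
  rw [D.int_wff, U.vol] at t1
  rw [U.vol] at t2
  have n1 := num1_cub3u y0 (hb.y1.trans (by norm_num)) hs U.sc.l1 ρ0 hb.rho.2
    (integral_nonneg D.w0) D.int_w.2 hA
  calc _ ≤ U.B.ii fun x z => U.σ c ^ 2 * (U.ρ * U.s ^ 3) *
          (2 * (D.w.1 (x - z) * D.f.1 (x - z) ^ 2 * ((U.B.es c).1 x ^ 2 + (U.B.es c).1 z ^ 2)) +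
            32 * (D.w.1 (x - z) * (I.1 x + I.1 z))) := by
        refine U.B.ii_mono ((bm_dif_cub3u bw).mul ((((BM.const _).mul (bm_ee_cub3u U.B c)).add
          ((BM.const 2).mul (bmOf (U.vth c)))).pow 2))
          ((BM.const _).mul (((BM.const 2).mul b1).add ((BM.const 32).mul b2))) fun x _ z _ => ?_
        have k := pw_cub3u (D.w0 (x - z)) (U.tr2.eqf (x - z)) (U.tr2.w0 _) (U.tr2.w1 _)
          (U.B.chi_bounds (U.y ^ 8)⁻¹ x) (U.B.chi_bounds (U.y ^ 8)⁻¹ z) (U.B.es_sq_le c x)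
          (U.B.es_sq_le c z) (I1 x) (I1 z)
        refine le_of_eq_of_le ?_ (mul_le_mul_of_nonneg_left k (by positivity))
        rw [U.vth_apply, ← hb.r2]
        ring
    _ = U.σ c ^ 2 * (U.ρ * U.s ^ 3 * (2 * (U.B.ii fun x z => D.w.1 (x - z) * D.f.1 (x - z) ^ 2 *
          ((U.B.es c).1 x ^ 2 + (U.B.es c).1 z ^ 2))) +
          U.ρ * U.s ^ 3 * (32 * U.B.ii fun x z => D.w.1 (x - z) * (I.1 x + I.1 z))) := by
        rw [U.B.ii_const_mul, U.B.ii_add (bm_cm_cub3u 2 b1) (bm_cm_cub3u 32 b2),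
          U.B.ii_const_mul, U.B.ii_const_mul]
        ring
    _ ≤ _ := by
        refine mul_le_mul_of_nonneg_left (add_le_add ?_ (le_trans ?_ n1)) (sq_nonneg _)
        · refine (mul_le_mul_of_nonneg_left (mul_le_mul_of_nonneg_left t1 zero_le_two)
            (by positivity)).trans_eq ?_
          field_simp
          norm_num
        · exact mul_le_mul_of_nonneg_left (mul_le_mul_of_nonneg_left t2 (by norm_num))
            (by positivity)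

theorem split_cub3u {ε : ℝ} (hε : 0 < ε) (A B : ℝ) :
    (A + B) ^ 2 ≤ (1 + ε) * A ^ 2 + (1 + 1 / ε) * B ^ 2 := by
  have h : (1 + ε) * A ^ 2 + (1 + 1 / ε) * B ^ 2 - (A + B) ^ 2 = (ε * A - B) ^ 2 / ε := by
    field_simp
    ring
  have h2 : 0 ≤ (ε * A - B) ^ 2 / ε := by positivity
  linarith

theorem num2_cub3u {y ρ S G a E c H I : ℝ} (y0 : 0 < y) (y1 : y ≤ 1 / 1000)
    (hρ : ρ ≤ 2 * y ^ 800) (S0 : 0 ≤ S) (hS : S * y ^ 13 ≤ 1) (G0 : 0 ≤ G) (hG : G ≤ a)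
    (ha : 16 * a * y ≤ 1) (hE : E ≤ y ^ 810) (c0 : 0 ≤ c) (hc : c * y ≤ 1) (H0 : 0 ≤ H)
    (hH : H * y ^ 5 ≤ 1) (I0 : 0 ≤ I) (hI : I * y ≤ 1) :
    ((1 + y ^ 4) * (S * (4 * ρ * G + y ^ 1000)) + (1 + 1 / y ^ 4) * (4 * c * E) +
      H * (4 * ρ * I)) / 2 ≤ 2 * ρ * S * G + y ^ 790 := by
  have y2 : y ≤ 1 := y1.trans (by norm_num)
  have p4 : y ^ 4 ≤ 1 := pow_le_one₀ y0.le y2
  have q : 0 < y ^ 790 := by positivity
  have h1 : y ^ 4 * (S * (4 * ρ * G)) ≤ y ^ 790 / 2 := by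
    calc y ^ 4 * (S * (4 * ρ * G)) ≤ y ^ 4 * (S * (4 * (2 * y ^ 800) * a)) := by gcongr
      _ = S * y ^ 13 * (16 * a * y) * (y ^ 790 / 2) := by ring
      _ ≤ 1 * 1 * (y ^ 790 / 2) := by
        have : 0 ≤ a := G0.trans hG
        gcongr
      _ = _ := by ring
  have h2 : (1 + y ^ 4) * (S * y ^ 1000) ≤ y ^ 790 / 2 := by
    calc (1 + y ^ 4) * (S * y ^ 1000) ≤ (1 + 1) * (S * y ^ 1000) := by gcongr
      _ = S * y ^ 13 * y ^ 196 * (4 * y) * (y ^ 790 / 2) := by ring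
      _ ≤ 1 * 1 * 1 * (y ^ 790 / 2) := by
        have : y ^ 196 ≤ 1 := pow_le_one₀ y0.le y2
        have : 4 * y ≤ 1 := by linarith
        gcongr
      _ = _ := by ring
  have h3 : (1 + 1 / y ^ 4) * (4 * c * E) ≤ y ^ 790 / 2 := by
    have : 1 ≤ 1 / y ^ 4 := one_le_one_div (by positivity) p4
    calc (1 + 1 / y ^ 4) * (4 * c * E) ≤ (1 + 1 / y ^ 4) * (4 * c * y ^ 810) := by gcongr
      _ ≤ (1 / y ^ 4 + 1 / y ^ 4) * (4 * c * y ^ 810) := by gcongr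
      _ = c * y * y ^ 14 * (16 * y) * (y ^ 790 / 2) := by
        field_simp
        ring
      _ ≤ 1 * 1 * 1 * (y ^ 790 / 2) := by
        have : y ^ 14 ≤ 1 := pow_le_one₀ y0.le y2
        have : 16 * y ≤ 1 := by linarith
        gcongr
      _ = _ := by ring
  have h4 : H * (4 * ρ * I) ≤ y ^ 790 / 2 := by
    calc H * (4 * ρ * I) ≤ H * (4 * (2 * y ^ 800) * I) := by gcongr
      _ = H * y ^ 5 * (I * y) * y ^ 3 * (16 * y) * (y ^ 790 / 2) := by ring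
      _ ≤ 1 * 1 * 1 * 1 * (y ^ 790 / 2) := by
        have : y ^ 3 ≤ 1 := pow_le_one₀ y0.le y2
        have : 16 * y ≤ 1 := by linarith
        gcongr
      _ = _ := by ring
  nlinarith

/-- Low `c`: `(A + B) ^ 2 ≤ (1 + y ^ 4) A ^ 2 + (1 + 1 / y ^ 4) B ^ 2`, `sm_cub3a` and `Cut.e2`.
High `c`: `th = 0` and `Bd.high`. -/
theorem sm_cub3 : Sm D C fun U => ∀ P, U.Cut P →
    (U.B.ii fun x z => D.w.1 (x - z) * (U.K P).main1 (val U.B.es x) (val U.B.es z)) / 2 ≤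
      2 * U.ρ * U.SL * (4 * π * D.a - D.G1) + U.y ^ 790 := by
  refine (((sm_bd.and sm_cub3a).and (sm_small (16 * (4 * π * D.a)))).and
    ((sm_small D.C).and (sm_small (8 * D.C ^ 4)))).mono
    fun U ⟨⟨⟨hb, h3⟩, hA⟩, hC, hC4⟩ P hP => ?_
  have y0 := hb.y0
  have hs := U.hs
  have ρ0 : 0 ≤ U.ρ := le_trans (by positivity) hb.rho.1
  have c0 : 0 ≤ D.C := zero_le_one.trans D.hC
  have bw := bmOf D.w
  have y4 : 0 < U.y ^ 4 := by positivity
  have bt : ∀ c, BM fun p : R3 × R3 => (U.K P).th (val U.B.es p.1) (val U.B.es p.2) c :=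
    fun c => Co.bm_th c
  have bF : ∀ c, BM (uncurry fun x z : R3 => D.w.1 (x - z) *
      (U.r * U.σ c * ((U.B.es c).1 x + (U.B.es c).1 z) +
        2 * (U.K P).th (val U.B.es x) (val U.B.es z) c) ^ 2) := fun c =>
    (bm_dif_cub3u bw).mul ((((BM.const _).mul (bm_ee_cub3u U.B c)).add
      ((BM.const 2).mul (bt c))).pow 2)
  have e0 : (U.B.ii fun x z => D.w.1 (x - z) * (U.K P).main1 (val U.B.es x) (val U.B.es z)) =
      ∑ c ∈ Lplus P, U.B.ii fun x z => D.w.1 (x - z) *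
        (U.r * U.σ c * ((U.B.es c).1 x + (U.B.es c).1 z) +
          2 * (U.K P).th (val U.B.es x) (val U.B.es z) c) ^ 2 := by
    rw [← U.B.ii_sum _ fun c _ => bF c]
    congr 1
    funext x z
    rw [Co.main1, mul_sum]
    rfl
  have low : ∀ c ∈ Lplus U.R, (U.B.ii fun x z => D.w.1 (x - z) *
      (U.r * U.σ c * ((U.B.es c).1 x + (U.B.es c).1 z) +
        2 * (U.K P).th (val U.B.es x) (val U.B.es z) c) ^ 2) ≤
      (1 + U.y ^ 4) * (U.σ c ^ 2 * (4 * U.ρ * (4 * π * D.a - D.G1) + U.y ^ 1000)) +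
        (1 + 1 / U.y ^ 4) * (4 * D.C * U.B.ii fun x z =>
          ((U.vth c).1 (x, z) - (U.K P).th (val U.B.es x) (val U.B.es z) c) ^ 2) := fun c _ => by
    have b1 : BM (uncurry fun x z : R3 => D.w.1 (x - z) *
        (U.r * U.σ c * ((U.B.es c).1 x + (U.B.es c).1 z) + 2 * (U.vth c).1 (x, z)) ^ 2) :=
      (bm_dif_cub3u bw).mul ((((BM.const _).mul (bm_ee_cub3u U.B c)).add
        ((BM.const 2).mul (bmOf (U.vth c)))).pow 2)
    have b2 : BM (uncurry fun x z : R3 =>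
        ((U.vth c).1 (x, z) - (U.K P).th (val U.B.es x) (val U.B.es z) c) ^ 2) :=
      ((bmOf (U.vth c)).sub (bt c)).pow 2
    refine le_trans ?_ (add_le_add_left (mul_le_mul_of_nonneg_left (h3 c) (by positivity)) _)
    rw [← U.B.ii_const_mul, ← U.B.ii_const_mul, ← U.B.ii_const_mul,
      ← U.B.ii_add ((BM.const _).mul b1) ((BM.const _).mul ((BM.const _).mul b2))]
    refine U.B.ii_mono (bF c) (((BM.const _).mul b1).add ((BM.const _).mul ((BM.const _).mul b2)))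
      fun x _ z _ => ?_
    have k := split_cub3u y4 (U.r * U.σ c * ((U.B.es c).1 x + (U.B.es c).1 z) +
      2 * (U.vth c).1 (x, z))
      (-2 * ((U.vth c).1 (x, z) - (U.K P).th (val U.B.es x) (val U.B.es z) c))
    have k1 := mul_le_mul_of_nonneg_left k (D.w0 (x - z))
    have k2 := mul_le_mul_of_nonneg_right (D.wC (x - z)) (show 0 ≤ (1 + 1 / U.y ^ 4) *
      (4 * ((U.vth c).1 (x, z) - (U.K P).th (val U.B.es x) (val U.B.es z) c) ^ 2) by positivity)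
    refine le_of_eq_of_le (by ring) (k1.trans ?_)
    nlinarith
  have high : ∀ c ∈ Lplus P \ Lplus U.R, (U.B.ii fun x z => D.w.1 (x - z) *
      (U.r * U.σ c * ((U.B.es c).1 x + (U.B.es c).1 z) +
        2 * (U.K P).th (val U.B.es x) (val U.B.es z) c) ^ 2) ≤
      U.σ c ^ 2 * (4 * U.ρ * (8 * D.C ^ 4)) := fun c hc => by
    have hc' := (mem_sdiff.1 hc).2
    have th0 : ∀ u u', (U.K P).th u u' c = 0 := fun u u' =>
      sum_eq_zero fun a _ => sum_eq_zero fun b _ => by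
        rw [show (U.K P).θ a b c = 0 from if_neg hc', zero_mul]
    have t1 := two_cub3u U.B bw D.int_w.1 D.w0 ((bmOf (U.B.es c)).pow 2) (fun x => sq_nonneg _)
      (U.B.integral_es_sq c)
    rw [U.vol] at t1
    calc _ ≤ U.B.ii fun x z => U.σ c ^ 2 * (2 * (U.ρ * U.s ^ 3)) *
          (D.w.1 (x - z) * ((U.B.es c).1 x ^ 2 + (U.B.es c).1 z ^ 2)) := by
          refine U.B.ii_mono (bF c)
            ((BM.const _).mul (bm_two_cub3u bw ((bmOf (U.B.es c)).pow 2))) fun x _ z _ => ?_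
          rw [th0, ← hb.r2]
          have k : 0 ≤ D.w.1 (x - z) * (U.r * U.σ c * ((U.B.es c).1 x - (U.B.es c).1 z)) ^ 2 :=
            mul_nonneg (D.w0 _) (sq_nonneg _)
          nlinarith
      _ ≤ U.σ c ^ 2 * (2 * (U.ρ * U.s ^ 3)) * (2 * (8 * D.C ^ 4 / U.s ^ 3 * 1)) := by
          rw [U.B.ii_const_mul]
          refine mul_le_mul_of_nonneg_left (t1.trans ?_) (by positivity)
          have := D.int_w.2
          gcongr
      _ = _ := by field_simp; ring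
  have s1 := sum_le_sum low
  have s2 := sum_le_sum high
  rw [sum_add_distrib, ← mul_sum, ← mul_sum, ← mul_sum, ← sum_mul, hb.slσ] at s1
  rw [← sum_mul] at s2
  rw [e0, ← sum_sdiff (Lplus_mono hP.le)]
  refine le_trans ?_ (num2_cub3u y0 hb.y1 hb.rho.2 hb.sl0 hb.sl
    (sub_nonneg.2 D.G1_bounds.2) (sub_le_self _ D.G1_bounds.1) hA hP.e2 c0 hC
    (sum_nonneg fun m _ => sq_nonneg _) (hb.high P) (by positivity) hC4)
  rw [USet.E2]
  linarith

end Pool.Agent.BoseLHY
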