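import Pool.Agent.Lib.MP_dec75e_mp.U.DatU0

/-! The truncated scattering solution with gradient bounds. -/

open MeasureTheory Finset Function
open scoped Real

noncomputable section

namespace Pool.Agent.BoseLHY

open Pool.Agent.BoseTail

/-- The datum of `exists_dat` with known scattering solution. -/
theorem dat_datu {v f : E3 → ℝ} {a : ℝ} (h : Scat v f a) :
    ∃ (D : Dat) (Rv : ℝ), D.a = a ∧ (∀ z, D.w.1 z = v (WithLp.toLp 2 z)) ∧
      (∀ z, D.f.1 z = f (WithLp.toLp 2 z)) ∧ 0 < Rv ∧ Rv < D.C ∧ ∀ x, Rv < ‖x‖ → v x = 0 := by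
  obtain ⟨M, -, hV⟩ := exists_maj h.cont h.cpt
  obtain ⟨r, hr, hsV⟩ := hV.supp
  obtain ⟨Rv, hRv, hout⟩ := h.cpt.exists_pos_le_norm
  obtain ⟨Cv, hCv⟩ := h.cont.bounded_above_of_compact_support h.cpt
  obtain ⟨Λ, hΛ, htr⟩ := scat_truncate h
  have hout' : ∀ x, Rv < ‖x‖ → v x = 0 := fun x hx => hout x hx.le
  have hCv' : ∀ x, |v x| ≤ Cv := fun x => hCv x
  have hCv0 : 0 ≤ Cv := (abs_nonneg _).trans (hCv' 0)
  have haΛ : 0 ≤ a * Λ := mul_nonneg h.pos.le (by linarith)
  have hf1 : ∀ x, |f x| ≤ 1 := fun x => by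
    rw [abs_of_nonneg (h.bounds x).1]
    exact (h.bounds x).2
  have hw : BM fun z : R3 => v (WithLp.toLp 2 z) := bm_date h.cont hCv'
  have hf : BM fun z : R3 => f (WithLp.toLp 2 z) := bm_date h.c2.continuous hf1
  have hg : Integrable fun z : R3 => v (WithLp.toLp 2 z) * f (WithLp.toLp 2 z) :=
    Supp.integrable (r := Rv) (hw.mul hf) fun z hz => by
      simp only [hout' _ (hz.trans_le (norm_le_date z)), zero_mul]
  have key : ∀ R, Rv < R → ∃ ω m : BF R3, Ev ω.1 ∧ Ev m.1 ∧ Supp ω.1 (2 * R) ∧ Supp m.1 (2 * R) ∧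
      (∀ z, 0 ≤ ω.1 z) ∧ (∀ z, v (WithLp.toLp 2 z) ≠ 0 → ω.1 z = 1 - f (WithLp.toLp 2 z)) ∧
      (∀ z, |m.1 z| ≤ a * Λ / R ^ 3) ∧ (∫ z, m.1 z = 4 * π * a) ∧
      ∀ k, sq3 k * ct ω.1 k =
        ct (fun z => v (WithLp.toLp 2 z) * f (WithLp.toLp 2 z)) k - ct m.1 k := by
    intro R hR
    obtain ⟨ω, m, hω2, hω01, hωo, hmc, hmle, hmo, hmi, hrad, hin, hlap⟩ := htr Rv R hRv hR hout'
    have hω1 : ∀ x, |ω x| ≤ 1 := fun x => by
      rw [abs_of_nonneg (hω01 x).1]
      exact (hω01 x).2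
    have hm1 : BM fun z : R3 => a * m (WithLp.toLp 2 z) := (BM.const a).mul (bm_date hmc hmle)
    have hms : Supp (fun z : R3 => a * m (WithLp.toLp 2 z)) (2 * R) := fun z hz => by
      simp only [hmo _ (hz.le.trans (norm_le_date z)), mul_zero]
    refine ⟨⟨fun z => ω (WithLp.toLp 2 z), bm_date hω2.continuous hω1⟩,
      ⟨fun z => a * m (WithLp.toLp 2 z), hm1⟩, fun z z' hz => (hrad _ _ (norm_eq_date hz)).1,
      fun z z' hz => ?_, fun z hz => hωo _ (hz.le.trans (norm_le_date z)), hms,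
      fun z => (hω01 _).1, fun z hz => hin _ ?_, fun z => ?_, ?_, fun k => ?_⟩
    · exact congrArg (a * ·) (hrad _ _ (norm_eq_date hz)).2
    · by_contra hn
      exact hz (hout' _ (hR.trans (not_le.1 hn)))
    · change |a * m (WithLp.toLp 2 z)| ≤ _
      rw [abs_mul, abs_of_pos h.pos, mul_div_assoc]
      exact mul_le_mul_of_nonneg_left (hmle _) h.pos.le
    · change ∫ z : R3, a * m (WithLp.toLp 2 z) = _
      rw [integral_const_mul, integral_date m, hmi]
      ring
    · exact ct_eq_date (g := fun x => v x * f x) hω2 hωo hg (Supp.integrable hm1 hms) hlap k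
  refine ⟨⟨⟨_, hw⟩, ⟨_, hf⟩, _, a, Cv + Rv + 1 + a * Λ + r, h.pos, by linarith,
    fun z => h.nonneg _, fun z => ?_, fun z z' hz => h.rad _ _ (norm_eq_date hz), fun z hz => ?_,
    hV.le, hV.mono, fun z hz => hsV z (by linarith),
    fun z => (h.bounds _).1, fun z => (h.bounds _).2, fun z z' hz => h.radial (norm_eq_date hz),
    ?_, fun R hR => ?_⟩, Rv, rfl, fun z => rfl, fun z => rfl, hRv, ?_, hout'⟩
  · have h1 := (le_abs_self _).trans (hCv' (WithLp.toLp 2 z))
    change v (WithLp.toLp 2 z) ≤ _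
    linarith
  · exact hout' _ (lt_of_lt_of_le (by linarith) (norm_le_date z))
  · obtain ⟨ω, m, -, -, -, -, -, -, -, hi, hk⟩ := key (Rv + 1) (by linarith)
    have h0 := hk 0
    have h1 : sq3 0 = 0 := by simp [sq3]
    rw [h1, zero_mul, ct_zero, ct_zero, hi] at h0
    change ∫ z : R3, v (WithLp.toLp 2 z) * f (WithLp.toLp 2 z) = _
    linarith
  · obtain ⟨ω, m, k1, k2, k3, k4, k5, k6, k7, -, hk⟩ := key R (by linarith)
    have hR0 : 0 < R := by linarith
    refine ⟨ω, m, k1, k2, k3, k4, k5, k6, fun z => (k7 z).trans ?_, hk⟩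
    exact div_le_div_of_nonneg_right (by linarith) (pow_pos hR0 3).le
  · change Rv < Cv + Rv + 1 + a * Λ + r
    linarith

/-- The square of a function which decays like the Newton potential. -/
theorem l2_datu {ω : R3 → ℝ} (hω : BM ω) {c r : ℝ} (hc : 1 ≤ c) (hr : 0 ≤ r) (hs : Supp ω r)
    (h0 : ∀ z, 0 ≤ ω z) (h1 : ∀ z, ω z ≤ 1) (hd : ∀ z, ω z * ‖z‖ ≤ c) :
    ∫ z, ω z ^ 2 ≤ 3 * (volume : Measure R3).real (Metric.ball 0 1) * c ^ 2 * r := by
  set g : ℝ → ℝ := (Set.Iic r).indicator fun y => (c / max 1 y) ^ 2 with hg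
  have hpos : ∀ y : ℝ, 0 < max 1 y := fun y => lt_of_lt_of_le one_pos (le_max_left _ _)
  have gm : Measurable g := by
    refine Measurable.indicator ?_ measurableSet_Iic
    fun_prop
  have g0 : ∀ y, 0 ≤ g y := fun y => Set.indicator_nonneg (fun _ _ => sq_nonneg _) y
  have g1 : ∀ y, g y ≤ (c / max 1 y) ^ 2 := fun y =>
    Set.indicator_le_self' (fun _ _ => sq_nonneg _) y
  have g2 : ∀ y, g y ≤ c ^ 2 := fun y => (g1 y).trans
    (pow_le_pow_left₀ (div_nonneg (by linarith) (hpos y).le)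
      (div_le_self (by linarith) (le_max_left _ _)) 2)
  have gs : ∀ y, r < y → g y = 0 := fun y hy =>
    Set.indicator_of_notMem (s := Set.Iic r) (fun h => not_le.2 hy (Set.mem_Iic.1 h)) _
  have i1 : Integrable fun z => ω z ^ 2 :=
    Supp.integrable (r := r) (hω.pow 2) fun z hz => by simp only [hs z hz, ne_eq,
      OfNat.ofNat_ne_zero, not_false_eq_true, zero_pow]
  have i2 : Integrable fun z : R3 => g ‖z‖ :=
    Supp.integrable (r := r) ⟨gm.comp measurable_norm, c ^ 2, fun z => by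
      rw [Real.norm_of_nonneg (g0 _)]
      exact g2 _⟩ fun z hz => gs _ hz
  have k1 : ∫ z, ω z ^ 2 ≤ ∫ z : R3, g ‖z‖ := by
    refine integral_mono i1 i2 fun z => ?_
    change ω z ^ 2 ≤ g ‖z‖
    rcases lt_or_ge r ‖z‖ with hz | hz
    · rw [hs z hz, gs _ hz]
      norm_num
    · rw [hg, Set.indicator_of_mem (Set.mem_Iic.2 hz)]
      refine pow_le_pow_left₀ (h0 z) ?_ 2
      rw [le_div_iff₀ (hpos _)]
      rcases le_total 1 ‖z‖ with h | h
      · rw [max_eq_right h]
        exact hd z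
      · rw [max_eq_left h, mul_one]
        exact (h1 z).trans hc
  have k2 : ∫ y in Set.Ioi (0 : ℝ), y ^ 2 * g y ≤ c ^ 2 * r := by
    have j : Integrable ((Set.Ioc 0 r).indicator fun _ : ℝ => c ^ 2)
        (volume.restrict (Set.Ioi (0 : ℝ))) :=
      ((integrable_indicator_iff measurableSet_Ioc).2
        (integrableOn_const measure_Ioc_lt_top.ne)).integrableOn
    have k := norm_integral_le_of_norm_le (f := fun y : ℝ => y ^ 2 * g y) j (by
      filter_upwards [ae_restrict_mem measurableSet_Ioi] with y hy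
      have hy0 : 0 < y := hy
      rw [Real.norm_of_nonneg (mul_nonneg (sq_nonneg _) (g0 y))]
      rcases lt_or_ge r y with hz | hz
      · rw [gs y hz, mul_zero]
        exact Set.indicator_nonneg (fun _ _ => sq_nonneg _) y
      · rw [Set.indicator_of_mem (Set.mem_Ioc.2 ⟨hy0, hz⟩)]
        refine (mul_le_mul_of_nonneg_left (g1 y) (sq_nonneg _)).trans ?_
        rw [← mul_pow]
        refine pow_le_pow_left₀ (mul_nonneg hy0.le (div_nonneg (by linarith) (hpos y).le)) ?_ 2
        rw [mul_div_assoc', div_le_iff₀ (hpos y), mul_comm]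
        exact mul_le_mul_of_nonneg_left (le_max_right _ _) (by linarith))
    rw [integral_indicator measurableSet_Ioc, Measure.restrict_restrict measurableSet_Ioc,
      Set.inter_eq_left.2 Set.Ioc_subset_Ioi_self, setIntegral_const, Real.volume_real_Ioc_of_le hr,
      sub_zero, smul_eq_mul, Real.norm_eq_abs] at k
    linarith [le_abs_self (∫ y in Set.Ioi (0 : ℝ), y ^ 2 * g y)]
  rw [integral_fun_norm_addHaar volume g] at k1
  simp only [Module.finrank_fin_fun, smul_eq_mul, nsmul_eq_mul, Nat.cast_ofNat,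
    Nat.add_one_sub_one] at k1
  have k3 := mul_le_mul_of_nonneg_left k2
    (measureReal_nonneg (μ := (volume : Measure R3)) (s := Metric.ball 0 1))
  linarith

theorem bm_out_datu {u : E3 → ℝ} (hu : Continuous u) {r : ℝ} (hs : ∀ x, r < ‖x‖ → u x = 0) :
    BM fun z : R3 => u (WithLp.toLp 2 z) := by
  have hc : HasCompactSupport u :=
    HasCompactSupport.intro (isCompact_closedBall (0 : E3) r) fun x hx =>
      hs x (by simpa using hx)
  obtain ⟨M, hM⟩ := hu.bounded_above_of_compact_support hc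
  exact bm_date hu (M := M) fun x => hM x

/-- The datum of `exists_dat` (repeat its construction, so that `D.f` is known), together with the
truncated solutions. `1 - f = a / ‖x‖` outside the support (`Scat.outside`), so `ω z * ‖z‖ ≤ C`;
`∫ ω ^ 2 ≤ C R` from `ω ≤ min 1 (C / ‖z‖)` (polar coordinates or dyadic cubes), and
`|∫ m ω| ≤ (Λ / R ^ 3) (a / R) (4 R) ^ 3`. -/
theorem exists_ud {v f : E3 → ℝ} {a : ℝ} (h : Scat v f a) :
    ∃ (D : Dat) (C : ℝ), D.a = a ∧ (∀ z, D.w.1 z = v (WithLp.toLp 2 z)) ∧ UD D C := by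
  obtain ⟨D, Rv, ha, hw, hf, hRv, hRC, hout⟩ := dat_datu h
  obtain ⟨Λ, hΛ, htr⟩ := scat_truncate2 h
  have hpos := h.pos
  have hC := D.hC
  set K : ℝ := (volume : Measure R3).real (Metric.ball 0 1) with hK
  have hK0 : 0 ≤ K := measureReal_nonneg
  set c : ℝ := Rv + a + 1 with hc
  have hc1 : 1 ≤ c := by linarith
  have p1 : 0 ≤ a * Λ := by positivity
  have p2 : 0 ≤ 6 * K * c ^ 2 := by positivity
  have p3 : 0 ≤ 64 * (a * Λ * a) := by positivity
  set C : ℝ := D.C + c + a * Λ + 6 * K * c ^ 2 + 64 * (a * Λ * a) with hCd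
  refine ⟨D, C, ha, hw, by linarith, fun R hR => ?_⟩
  have hR' : Rv < R := hRC.trans_le hR
  have hR0 : 0 < R := hRv.trans hR'
  obtain ⟨ω, m, hω2, hω01, hωo, hmc, hmle, hmo, hmi, hrad, hin, hlap⟩ := htr Rv R hRv hR' hout
  have hω1 : ContDiff ℝ 1 ω := hω2.of_le (by norm_num)
  have hle1 : ∀ x, ω x ≤ 1 := fun x => by linarith [(hω01 x).2, (h.bounds x).1]
  have hωo' : ∀ x, 2 * R < ‖x‖ → ω x = 0 := fun x hx => hωo x hx.le
  have hfar : ∀ x, Rv < ‖x‖ → ω x ≤ a / ‖x‖ := fun x hx => by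
    linarith [(hω01 x).2, h.outside hRv hout hx]
  have b1 : BM fun z : R3 => ω (WithLp.toLp 2 z) := bm_out_datu hω2.continuous hωo'
  have b2 : BM fun z : R3 => a * m (WithLp.toLp 2 z) := (BM.const a).mul (bm_date hmc hmle)
  have b3 : ∀ j, BM fun z : R3 => dd (e3 j) ω (WithLp.toLp 2 z) := fun j =>
    bm_out_datu (D1_of_contDiff hω1 j).cdd (dd_e3_out hωo' j)
  have s1 : Supp (fun z : R3 => ω (WithLp.toLp 2 z)) (2 * R) := fun z hz =>
    hωo _ (hz.le.trans (norm_le_date z))
  have s2 : Supp (fun z : R3 => a * m (WithLp.toLp 2 z)) (2 * R) := fun z hz => by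
    simp only [hmo _ (hz.le.trans (norm_le_date z)), mul_zero]
  have s3 : Supp (fun z : R3 => a * m (WithLp.toLp 2 z) * ω (WithLp.toLp 2 z)) (2 * R) :=
    fun z hz => by simp only [hmo _ (hz.le.trans (norm_le_date z)), mul_zero, zero_mul]
  have hml : ∀ x, |a * m x| ≤ a * Λ / R ^ 3 := fun x => by
    rw [abs_mul, abs_of_pos hpos, mul_div_assoc]
    exact mul_le_mul_of_nonneg_left (hmle _) hpos.le
  have heq : ∀ x, v x ≠ 0 → ω x = 1 - f x := fun x hx => hin _ (by
    by_contra hn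
    exact hx (hout _ (hR'.trans (not_le.1 hn))))
  have hdec : ∀ z : R3, ω (WithLp.toLp 2 z) * ‖z‖ ≤ c := fun z => by
    have k1 := norm_le_date z
    have k2 := mul_le_mul_of_nonneg_left k1 (hω01 (WithLp.toLp 2 z)).1
    rcases lt_or_ge Rv ‖(WithLp.toLp 2 z : E3)‖ with hx | hx
    · have k3 := hfar _ hx
      rw [le_div_iff₀ (hRv.trans hx)] at k3
      linarith
    · have k3 := mul_le_of_le_one_left (norm_nonneg (WithLp.toLp 2 z : E3))
        (hle1 (WithLp.toLp 2 z))
      linarith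
  have hg : D.g.1 = fun z : R3 => v (WithLp.toLp 2 z) * f (WithLp.toLp 2 z) := funext fun z => by
    rw [← hw, ← hf]
    rfl
  have hg' : D.g'.1 = fun z : R3 =>
      v (WithLp.toLp 2 z) * f (WithLp.toLp 2 z) * (1 - f (WithLp.toLp 2 z)) := funext fun z => by
    rw [← hw, ← hf]
    rfl
  have ig : Integrable fun z : R3 => v (WithLp.toLp 2 z) * f (WithLp.toLp 2 z) := by
    refine Supp.integrable (r := Rv) (hg ▸ bmOf D.g) fun z hz => ?_
    simp only [hout _ (hz.trans_le (norm_le_date z)), zero_mul]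
  have ig' : Integrable D.g'.1 := by
    refine Supp.integrable (r := Rv) (bmOf D.g') fun z hz => ?_
    simp only [hg', hout _ (hz.trans_le (norm_le_date z)), zero_mul]
  have hom : |∫ z : R3, a * m (WithLp.toLp 2 z) * ω (WithLp.toLp 2 z)| ≤ C / R := by
    have k1 := s3.integral_abs_le (M := a * Λ / R ^ 3 * (a / R)) (by linarith) fun z => by
      rcases le_or_gt ‖(WithLp.toLp 2 z : E3)‖ R with hx | hx
      · simp only [hmi _ hx, mul_zero, zero_mul, abs_zero]
        positivity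
      · rw [abs_mul, abs_of_nonneg (hω01 _).1]
        exact mul_le_mul (hml _) ((hfar _ (hR'.trans hx)).trans
          (div_le_div_of_nonneg_left hpos.le hR0 hx.le)) (hω01 _).1 (by positivity)
    have k2 : 8 * (a * Λ / R ^ 3 * (a / R)) * (2 * R) ^ 3 = 64 * (a * Λ * a) / R := by
      field_simp
      ring
    refine abs_integral_le_integral_abs.trans ((k1.trans_eq k2).trans ?_)
    exact div_le_div_of_nonneg_right (by linarith) hR0.le
  refine ⟨⟨_, b1⟩, ⟨_, b2⟩, fun j => ⟨_, b3 j⟩, fun z z' hz => (hrad _ _ (norm_eq_date hz)).1,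
    fun z z' hz => congrArg (a * ·) (hrad _ _ (norm_eq_date hz)).2, s1, s2,
    fun j z hz => dd_e3_out hωo' j _ (hz.trans_le (norm_le_date z)), fun z => (hω01 _).1,
    fun z => hle1 _, fun z => (hdec z).trans (by linarith), fun z hz => ?_, fun z => ?_,
    fun k => ?_, fun j z => ?_, ?_, hom, ?_⟩
  · rw [hf]
    exact heq _ (by rwa [hw] at hz)
  · exact (hml _).trans (div_le_div_of_nonneg_right (by linarith) (pow_pos hR0 3).le)
  · rw [hg]
    exact ct_eq_date (g := fun x => v x * f x) hω2 hωo ig (Supp.integrable b2 s2) hlap k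
  · have k := line_date0 hω1 j z
    unfold HasLineDerivAt at k
    simp only [← Pi.single_smul', smul_eq_mul, mul_one] at k
    exact k
  · have k := l2_datu b1 hc1 (by linarith) s1 (fun z => (hω01 _).1) (fun z => hle1 _) hdec
    refine k.trans ?_
    rw [← hK, show 3 * K * c ^ 2 * (2 * R) = 6 * K * c ^ 2 * R by ring]
    exact mul_le_mul_of_nonneg_right (by linarith) hR0.le
  · have k := integral_grad_sq hω2 hωo
    have e : (fun z : R3 => ω (WithLp.toLp 2 z) * -lapE ω (WithLp.toLp 2 z)) =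
        fun z => D.g'.1 z - a * m (WithLp.toLp 2 z) * ω (WithLp.toLp 2 z) := funext fun z => by
      rw [hlap, hg']
      by_cases hz : v (WithLp.toLp 2 z) = 0
      · simp only [hz]
        ring
      · simp only [← heq _ hz]
        ring
    rw [e, integral_sub ig' (Supp.integrable (b2.mul b1) s3)] at k
    refine k.trans_le ?_
    linarith [neg_le_abs (∫ z : R3, a * m (WithLp.toLp 2 z) * ω (WithLp.toLp 2 z))]

end Pool.Agent.BoseLHY
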