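import Pool.Agent.Lib.MP_dec75e_mp.U.Df
import Pool.Agent.Lib.MP_dec75e_mp.L.DatE

/-! The truncated scattering solution in Euclidean space. -/

open MeasureTheory Finset Function
open scoped Real

noncomputable section

namespace Pool.Agent.BoseLHY

open Pool.Agent.BoseTail

/-- As `scat_truncate` (repeat its proof), keeping in addition `ω ≤ 1 - f` and that `m` vanishes
on the ball of radius `R`. -/
theorem scat_truncate2 {v f : E3 → ℝ} {a : ℝ} (h : Scat v f a) : ∃ Λ : ℝ, 1 ≤ Λ ∧ ∀ Rv R : ℝ,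
    0 < Rv → Rv < R → (∀ x, Rv < ‖x‖ → v x = 0) → ∃ ω m : E3 → ℝ, ContDiff ℝ 2 ω ∧
      (∀ x, 0 ≤ ω x ∧ ω x ≤ 1 - f x) ∧ (∀ x, 2 * R ≤ ‖x‖ → ω x = 0) ∧ Continuous m ∧
      (∀ x, |m x| ≤ Λ / R ^ 3) ∧ (∀ x, 2 * R ≤ ‖x‖ → m x = 0) ∧ (∀ x, ‖x‖ ≤ R → m x = 0) ∧
      (∀ x y, ‖x‖ = ‖y‖ → ω x = ω y ∧ m x = m y) ∧ (∀ x, ‖x‖ ≤ R → ω x = 1 - f x) ∧
      ∀ x, -lapE ω x = v x * f x - a * m x := by
  obtain ⟨Λ, p, p', p'', hΛ, hp, h1, h2, hc, h01, hl, hr, hb⟩ := exists_profile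
  refine ⟨Λ, hΛ, fun Rv R hRv hRR hv => ?_⟩
  have hR : 0 < R := hRv.trans hRR
  have hin : ∀ x : E3, ‖x‖ < R → ∀ᶠ y in nhds x, p (‖y‖ / R) = 1 := fun x hx => by
    filter_upwards [(isOpen_lt continuous_norm continuous_const).mem_nhds hx] with y hy
    exact (hl _ ((div_le_one hR).2 (le_of_lt hy))).1
  have hP : ContDiff ℝ 2 fun x : E3 => p (‖x‖ / R) := by
    rw [contDiff_iff_contDiffAt]
    intro x
    by_cases hx : x = 0
    · exact contDiffAt_const.congr_of_eventuallyEq (hin x (by simpa [hx] using hR))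
    · exact hp.contDiffAt.comp x ((contDiffAt_norm ℝ hx).div_const R)
  have hmax : ∀ x : E3, 0 < R ^ 2 * max ‖x‖ R := fun x =>
    mul_pos (pow_pos hR 2) (hR.trans_le (le_max_right _ _))
  refine ⟨fun x => (1 - f x) * p (‖x‖ / R), fun x => p'' (‖x‖ / R) / (R ^ 2 * max ‖x‖ R),
    (contDiff_const.sub h.c2).mul hP, fun x => ?_, fun x hx => ?_, ?_, fun x => ?_,
    fun x hx => ?_, fun x hx => ?_, fun x y hxy => ?_, fun x hx => ?_,
    fun x => ?_⟩
  · obtain ⟨a1, a2⟩ := h.bounds x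
    obtain ⟨b1, b2⟩ := h01 (‖x‖ / R)
    exact ⟨mul_nonneg (by linarith) b1, mul_le_of_le_one_right (by linarith) b2⟩
  · simp only [(hr _ ((le_div_iff₀ hR).2 hx)).1, mul_zero]
  · exact (hc.comp (continuous_norm.div_const R)).div
      (continuous_const.mul (continuous_norm.max continuous_const)) fun x => (hmax x).ne'
  · rw [abs_div, abs_of_pos (hmax x)]
    refine div_le_div₀ (by linarith) (hb _) (pow_pos hR 3) ?_
    rw [pow_succ R 2]
    exact mul_le_mul_of_nonneg_left (le_max_right _ _) (sq_nonneg R)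
  · simp only [(hr _ ((le_div_iff₀ hR).2 hx)).2.2, zero_div]
  · simp only [(hl _ ((div_le_one hR).2 hx)).2.2, zero_div]
  · simp only [hxy, h.radial hxy, and_self]
  · simp only [(hl _ ((div_le_one hR).2 hx)).1, mul_one]
  · rcases lt_or_ge ‖x‖ R with hx | hx
    · have e1 : (fun y : E3 => (1 - f y) * p (‖y‖ / R)) =ᶠ[nhds x] fun y => 1 - f y := by
        filter_upwards [hin x hx] with y hy
        rw [hy, mul_one]
      have e2 := hl _ ((div_le_one hR).2 hx.le)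
      rw [lapE_congr e1, lapE_one_sub_rad, ← laplacian_eq_lapE h.c2, h.eqn]
      simp only [e2.2.2]
      ring
    · have hx' : Rv < ‖x‖ := hRR.trans_le hx
      have e1 : (fun y : E3 => (1 - f y) * p (‖y‖ / R)) =ᶠ[nhds x]
          fun y => a / ‖y‖ * p (‖y‖ / R) := by
        filter_upwards [(isOpen_lt continuous_const continuous_norm).mem_nhds hx'] with y hy
        rw [h.outside hRv hv hy]
        ring
      rw [lapE_congr e1, lapE_newton_rad h1 h2 a hR (norm_pos_iff.1 (hRv.trans hx')), hv x hx']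
      simp only [max_eq_left hx]
      ring

/-- `∫ |∇ u|² = - ∫ u Δ u`: `ct_lapE` at `k = 0` for `u ^ 2`. -/
theorem integral_grad_sq {u : E3 → ℝ} (hu : ContDiff ℝ 2 u) {r : ℝ}
    (hs : ∀ x, r ≤ ‖x‖ → u x = 0) :
    ∑ j, (∫ z : R3, dd (e3 j) u (WithLp.toLp 2 z) ^ 2) =
      ∫ z : R3, u (WithLp.toLp 2 z) * -lapE u (WithLp.toLp 2 z) := by
  have hs' : ∀ x, r < ‖x‖ → u x = 0 := fun x hx => hs x hx.le
  have hu1 : ContDiff ℝ 1 u := hu.of_le (by norm_num)
  have h1 : ∀ c, ContDiff ℝ 1 (dd (e3 c) u) := fun c => by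
    have := contDiff_dd (n := 1) (u := u) (by exact_mod_cast hu) c
    exact_mod_cast this
  have a : ∀ c, ∫ z : R3, dd (e3 c) (dd (e3 c) u) (WithLp.toLp 2 z) * u (WithLp.toLp 2 z) =
      -∫ z : R3, dd (e3 c) u (WithLp.toLp 2 z) * dd (e3 c) u (WithLp.toLp 2 z) := fun c =>
    ibp_date0 (h1 c) (dd_e3_out hs' c) c (g := fun z => u (WithLp.toLp 2 z))
      (g' := fun z => dd (e3 c) u (WithLp.toLp 2 z)) (hu.continuous.comp cont_toLp_date0)
      ((h1 c).continuous.comp cont_toLp_date0) fun z => line_date0 hu1 c z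
  have e : (fun z : R3 => u (WithLp.toLp 2 z) * -lapE u (WithLp.toLp 2 z)) = fun z : R3 =>
      -∑ c, dd (e3 c) (dd (e3 c) u) (WithLp.toLp 2 z) * u (WithLp.toLp 2 z) := by
    funext z
    rw [← sum_mul, lapE]
    ring
  rw [e, integral_neg, integral_finsetSum _ fun c _ => integrable_date0
    (D1_of_contDiff (h1 c) c).cdd (dd_e3_out (dd_e3_out hs' c) c)
    (g := fun z => u (WithLp.toLp 2 z)) (hu.continuous.comp cont_toLp_date0)]
  simp only [a, sum_neg_distrib, neg_neg, sq]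

end Pool.Agent.BoseLHY
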