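import Pool.Agent.Lib.MP_dec75e_mp.L.Dfs

/-! Definitions for the second order upper bound. -/

open MeasureTheory Finset Function
open scoped Real

noncomputable section

namespace Pool.Agent.BoseLHY

open Pool.Agent.BoseTail

/-! ### Canonical commutation relations -/

section ccr
variable {V : Type} [AddCommGroup V] [Module ℝ V] {κ : Type}

structure CCR [DecidableEq κ] (β : V →ₗ[ℝ] V →ₗ[ℝ] ℝ) (c cd : κ → Module.End ℝ V) (s : Finset κ) :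
    Prop where
  psd : PSD β
  adj : ∀ m ∈ s, ∀ f g, β (cd m f) g = β f (c m g)
  ccr : ∀ m ∈ s, ∀ m' ∈ s, ∀ f, c m (cd m' f) = cd m' (c m f) + if m = m' then f else 0
  cc : ∀ m ∈ s, ∀ m' ∈ s, ∀ f, c m (c m' f) = c m' (c m f)
  dd : ∀ m ∈ s, ∀ m' ∈ s, ∀ f, cd m (cd m' f) = cd m' (cd m f)

/-- A vacuum vector. -/
def Vac (c : κ → Module.End ℝ V) (s : Finset κ) (Ξ : V) : Prop := ∀ m ∈ s, c m Ξ = 0

def lin (c : κ → Module.End ℝ V) (s : Finset κ) (u : κ → ℝ) : Module.End ℝ V := ∑ m ∈ s, u m • c m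

def cre2 (cd : κ → Module.End ℝ V) (s : Finset κ) (M : κ → κ → ℝ) : Module.End ℝ V :=
  ∑ a ∈ s, ∑ b ∈ s, M a b • (cd a * cd b)

def cre3 (cd : κ → Module.End ℝ V) (s : Finset κ) (Θ : κ → κ → κ → ℝ) : Module.End ℝ V :=
  ∑ a ∈ s, ∑ b ∈ s, ∑ c ∈ s, Θ a b c • (cd a * cd b * cd c)

/-- Eigenvectors of the number operator. -/
def Deg (c cd : κ → Module.End ℝ V) (s : Finset κ) (r : ℝ) (Φ : V) : Prop :=
  ∑ m ∈ s, cd m (c m Φ) = r • Φ

def n2 (s : Finset κ) (u : κ → ℝ) : ℝ := ∑ m ∈ s, u m ^ 2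

def q2 (s : Finset κ) (M : κ → κ → ℝ) : ℝ := ∑ a ∈ s, ∑ b ∈ s, (M a b ^ 2 + M a b * M b a)

def M1 (Θ : κ → κ → κ → ℝ) (m : κ) : κ → κ → ℝ := fun b c => Θ m b c + Θ b m c + Θ b c m

def Mv (s : Finset κ) (Θ : κ → κ → κ → ℝ) (u : κ → ℝ) : κ → κ → ℝ :=
  fun b c => ∑ m ∈ s, u m * M1 Θ m b c

def N3 (s : Finset κ) (Θ : κ → κ → κ → ℝ) : ℝ := (∑ m ∈ s, q2 s (M1 Θ m)) / 3

/-- Bogolyubov transformation. -/
def dop (c cd : κ → Module.End ℝ V) (γ σ : κ → ℝ) (m : κ) : Module.End ℝ V :=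
  γ m • c m + σ m • cd m

/-- The field operator at a point where the modes take the values `u`. -/
def fld (r : ℝ) (d : κ → Module.End ℝ V) (s : Finset κ) (u : κ → ℝ) : Module.End ℝ V :=
  r • 1 + lin d s u

end ccr

/-- The coefficients of the trial state in one box. -/
structure Co (κ : Type) where
  s : Finset κ
  L : Finset κ
  r : ℝ
  γ : κ → ℝ
  σ : κ → ℝ
  θ : κ → κ → κ → ℝ

namespace Co
variable {κ : Type} (K : Co κ)

structure Ok : Prop where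
  sub : K.L ⊆ K.s
  g1 : ∀ m, 1 ≤ K.γ m
  hyp : ∀ m, K.γ m ^ 2 = 1 + K.σ m ^ 2
  symm : ∀ a b c, K.θ a b c = K.θ b a c
  low : ∀ a b c, c ∉ K.L → K.θ a b c = 0

def Θ (a b c : κ) : ℝ := K.θ a b c / (K.γ a * K.γ b)

def N : ℝ := N3 K.s K.Θ

def T0 : ℝ := ∑ a ∈ K.s, ∑ b ∈ K.s, ∑ c ∈ K.s, K.θ a b c ^ 2

def T1 (P : κ → ℝ) (t : Finset κ) : ℝ := ∑ a ∈ K.s, ∑ b ∈ t, ∑ c ∈ K.s, P a * K.θ a b c ^ 2

def gu (u : κ → ℝ) : κ → ℝ := fun m => K.γ m * u m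

def su (u : κ → ℝ) : κ → ℝ := fun m => K.σ m * u m

def kk (u : κ → ℝ) : ℝ := q2 K.s (Mv K.s K.Θ (K.gu u))

def tt (u : κ → ℝ) : ℝ := ∑ b ∈ K.s, ∑ c ∈ K.s, (∑ a ∈ K.s, K.θ a b c * u a) ^ 2

/-- The density. -/
def Dn (u : κ → ℝ) : ℝ :=
  (K.r ^ 2 + n2 K.s (K.su u)) * (1 + K.N) + K.kk u + q2 K.s (Mv K.s K.Θ (K.su u))

/-- The particle number. -/
def n1 : ℝ := (K.r ^ 2 + n2 K.s K.σ) * (1 + K.N) +
  ∑ m ∈ K.s, (K.γ m ^ 2 + K.σ m ^ 2) * q2 K.s (M1 K.Θ m)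

/-- Twice the kinetic energy. -/
def kn (P : κ → ℝ) : ℝ := ∑ m ∈ K.s,
  P m * (K.σ m ^ 2 * (1 + K.N) + (K.γ m ^ 2 + K.σ m ^ 2) * q2 K.s (M1 K.Θ m))

def u0 (u u' : κ → ℝ) : ℝ := K.r ^ 2 + ∑ m ∈ K.s, K.γ m * K.σ m * (u m * u' m)

def th (u u' : κ → ℝ) (c : κ) : ℝ := ∑ a ∈ K.s, ∑ b ∈ K.s, K.θ a b c * (u a * u' b)

def main1 (u u' : κ → ℝ) : ℝ :=
  ∑ c ∈ K.s, (K.r * K.σ c * (u c + u' c) + 2 * K.th u u' c) ^ 2

/-- Upper bound for the pair density. -/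
def pb (ε sb gb : ℝ) (u u' : κ → ℝ) : ℝ :=
  (1 + 3 * K.N) * K.u0 u u' ^ 2 + (1 + ε) * K.main1 u u' +
    (1 + 1 / ε) * (8 * gb * (K.tt u + K.tt u')) + 4 * sb ^ 2 +
    (4 * K.r ^ 2 + 9 * sb) * (K.kk u + K.kk u') + (16 * K.r ^ 2 * sb + 20 * sb ^ 2) * K.N

/-- The operator creating the trial state from the vacuum. -/
def X {V : Type} [AddCommGroup V] [Module ℝ V] (cd : κ → Module.End ℝ V) : Module.End ℝ V :=
  1 + cre3 cd K.s K.Θ

/-- The field operator. -/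
def F {V : Type} [AddCommGroup V] [Module ℝ V] (c cd : κ → Module.End ℝ V) (u : κ → ℝ) :
    Module.End ℝ V := fld K.r (dop c cd K.γ K.σ) K.s u

end Co

/-- An orthonormal family with respect to `z` times a probability measure. -/
def Orth {α κ : Type} [MeasurableSpace α] [DecidableEq κ] (ν : ProbabilityMeasure α) (z : ℝ)
    (s : Finset κ) (e : κ → BF α) : Prop :=
  ∀ m ∈ s, ∀ m' ∈ s, z * ∫ x, (e m).1 x * (e m').1 x ∂(ν : Measure α) = if m = m' then 1 else 0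

/-- The values of the modes at a point. -/
def val {α κ : Type} [MeasurableSpace α] (e : κ → BF α) (x : α) : κ → ℝ := fun m => (e m).1 x

/-! ### Fock space -/

section fock
variable {α : Type} [MeasurableSpace α]

/-- The multiset of positions. -/
def ms {n : ℕ} (X : Fin n → α) : Multiset α := Multiset.map X univ.val

/-- The positions of all particles but `i`. -/
def er {n : ℕ} (X : Fin n → α) (i : Fin n) : Multiset α := Multiset.map X (univ.erase i).val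

/-- The positions of all particles but `i` and `j`. -/
def er2 {n : ℕ} (X : Fin n → α) (i j : Fin n) : Multiset α :=
  Multiset.map X ((univ.erase i).erase j).val

/-- The `n`-particle component. -/
def sec (Ψ : Multiset α → ℝ) (n : ℕ) : (Fin n → α) → ℝ := fun X => Ψ (ms X)

def wt2 (ν : ProbabilityMeasure α) (z : ℝ) (Ψ Φ : Multiset α → ℝ) (n : ℕ) : ℝ :=
  z ^ n / n.factorial * ∫ X, sec Ψ n X * sec Φ n X ∂pm fun _ : Fin n => ν

/-- Bounded measurable components with geometrically decaying norms. -/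
def Good (ν : ProbabilityMeasure α) (z : ℝ) (Ψ : Multiset α → ℝ) : Prop :=
  (∀ n, BM (sec Ψ n)) ∧ ∃ C q : ℝ, 0 ≤ q ∧ q < 1 ∧ ∀ n, wt2 ν z Ψ Ψ n ≤ C * q ^ n

open Classical in
def creF (h : α → ℝ) (Ψ : Multiset α → ℝ) : Multiset α → ℝ :=
  fun t => (t.map fun x => h x * Ψ (t.erase x)).sum

def annF (ν : ProbabilityMeasure α) (z : ℝ) (h : α → ℝ) (Ψ : Multiset α → ℝ) : Multiset α → ℝ :=
  fun t => z * ∫ x, h x * Ψ (x ::ₘ t) ∂(ν : Measure α)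

end fock

/-! ### Dirichlet modes -/

theorem continuous_sn (m : ℕ) : Continuous (sn m) := by
  unfold sn; fun_prop

theorem abs_sn_le (m : ℕ) (θ : ℝ) : |sn m θ| ≤ √2 := by
  unfold sn
  rw [abs_mul, abs_of_nonneg (Real.sqrt_nonneg 2)]
  exact mul_le_of_le_one_right (Real.sqrt_nonneg 2) (Real.abs_sin_le_one _)

/-- Modes with all components in `[1, R]`. -/
def Lplus (R : ℕ) : Finset M3 := Fintype.piFinset fun _ => Icc 1 R

namespace Box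
variable (B : Box)

/-- The Dirichlet eigenfunctions. -/
def es (m : M3) : BF R3 :=
  ⟨fun x => ∏ c, sn (m c) (B.ang x c), BM.prod fun c _ =>
    ⟨((continuous_sn _).comp (B.continuous_ang c)).measurable, √2, fun _ => abs_sn_le _ _⟩⟩

/-- A cosine in direction `j`, sines in the other directions. -/
def mx (j : Fin 3) (m : M3) : BF R3 :=
  ⟨fun x => ∏ c, if c = j then cs (m c) (B.ang x c) else sn (m c) (B.ang x c),
    BM.prod fun c _ => by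
      split_ifs
      · exact ⟨((continuous_cs _).comp (B.continuous_ang c)).measurable, √2,
          fun _ => abs_cs_le _ _⟩
      · exact ⟨((continuous_sn _).comp (B.continuous_ang c)).measurable, √2,
          fun _ => abs_sn_le _ _⟩⟩

/-- The antisymmetrised kernel. -/
def asymk (h : BF R3) : BF (R3 × R3) :=
  ∑ σ : Fin 3 → Fin 3, (∏ c, if σ c = 0 then (1 : ℝ) else -1) •
    pull (fun z : R3 × R3 => z.1 - B.refl σ z.2)
      (continuous_fst.sub ((B.continuous_refl σ).comp continuous_snd)).measurable h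

/-- Coefficients of a kernel in the Dirichlet basis. -/
def cf (G : BF (R3 × R3)) (a b : M3) : ℝ :=
  ∫ x, ∫ z, (B.es a).1 x * (B.es b).1 z * G.1 (x, z) ∂(B.μ : Measure R3) ∂(B.μ : Measure R3)

/-- Double integral of a kernel. -/
def ii (G : R3 → R3 → ℝ) : ℝ := ∫ x, ∫ z, G x z ∂(B.μ : Measure R3) ∂(B.μ : Measure R3)

/-- `f` vanishes on the two walls orthogonal to the direction `j`. -/
def Face (j : Fin 3) (f : R3 → ℝ) : Prop := ∀ x, x j = B.o j ∨ x j = B.o j + B.s j → f x = 0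

/-- Sum of the inverse distances to the walls. -/
def iota (x : R3) : ℝ := ∑ c, (1 / max 1 (x c - B.o c) + 1 / max 1 (B.o c + B.s c - x c))

/-- A cut-off which vanishes on the walls and equals one outside the layer of width `r`. -/
def chi (r : ℝ) : BF R3 :=
  ⟨fun x => ∏ c, Real.smoothTransition ((x c - B.o c) / r) *
      Real.smoothTransition ((B.o c + B.s c - x c) / r),
    BM.prod fun c _ => ⟨by
      have := Real.smoothTransition.continuous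
      fun_prop, 1, fun x => by
      rw [Real.norm_eq_abs, abs_mul, abs_of_nonneg (Real.smoothTransition.nonneg _),
        abs_of_nonneg (Real.smoothTransition.nonneg _)]
      exact mul_le_one₀ (Real.smoothTransition.le_one _) (Real.smoothTransition.nonneg _)
        (Real.smoothTransition.le_one _)⟩⟩

end Box

/-- `gam a = cosh`, `a / gam a = sinh` with `cosh * sinh = a`. -/
def gam (a : ℝ) : ℝ := √((√(1 + 4 * a ^ 2) + 1) / 2)

/-- The truncated scattering solution at scale `R`. -/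
structure Tr (D : Dat) (C R : ℝ) (ω m : BF R3) (ω' : Fin 3 → BF R3) : Prop where
  ev : Ev ω.1
  evm : Ev m.1
  supp : Supp ω.1 (2 * R)
  suppm : Supp m.1 (2 * R)
  supp' : ∀ j, Supp (ω' j).1 (2 * R)
  w0 : ∀ z, 0 ≤ ω.1 z
  w1 : ∀ z, ω.1 z ≤ 1
  dec : ∀ z, ω.1 z * ‖z‖ ≤ C
  eqf : ∀ z, D.w.1 z ≠ 0 → ω.1 z = 1 - D.f.1 z
  mle : ∀ z, |m.1 z| ≤ C / R ^ 3
  four : ∀ k, sq3 k * ct ω.1 k = ct D.g.1 k - ct m.1 k
  der : ∀ j z, HasDerivAt (fun t : ℝ => ω.1 (z + Pi.single j t)) ((ω' j).1 z) 0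
  l2 : ∫ z, ω.1 z ^ 2 ≤ C * R
  om : |∫ z, m.1 z * ω.1 z| ≤ C / R
  grad : ∑ j, (∫ z, (ω' j).1 z ^ 2) ≤ (∫ z, D.g'.1 z) + C / R

def UD (D : Dat) (C : ℝ) : Prop := D.C ≤ C ∧ ∀ R, D.C ≤ R → ∃ ω m ω', Tr D C R ω m ω'

/-- The setting of the trial state in one box. -/
structure USet (D : Dat) (C : ℝ) where
  y : ℝ
  s : ℝ
  R : ℕ
  ρ : ℝ
  hs : 0 < s
  ω : BF R3
  m : BF R3
  ω' : Fin 3 → BF R3
  η : BF R3
  n : BF R3
  η' : Fin 3 → BF R3
  hC : D.C ≤ C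
  sc : Scale y s R
  hρ : |ρ - y ^ 800| ≤ y ^ 1198
  tr1 : Tr D C (s / 8) ω m ω'
  tr2 : Tr D C (y ^ 8)⁻¹ η n η'

/-- The number of low excitations. -/
def Dat.SL (D : Dat) (y s : ℝ) (R : ℕ) : ℝ := ∑ m ∈ Lplus R, gB √(D.tm y s m) / 2

namespace USet
variable {D : Dat} {C : ℝ} (U : USet D C)

def B : Box := cube0 U.s U.hs

def t (m : M3) : ℝ := D.tm U.y U.s m

def p2 (m : M3) : ℝ := sq3 (pk U.s m)

def oh (m : M3) : ℝ := ct U.ω.1 (pk U.s m)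

def gh (m : M3) : ℝ := ct D.g.1 (pk U.s m)

def a (m : M3) : ℝ :=
  if m ∈ Lplus U.R then -1 / (2 * √(U.t m ^ 2 + 2 * U.t m)) else -U.ρ * U.oh m

def σ (m : M3) : ℝ := U.a m / gam (U.a m)

def r : ℝ := √(U.ρ * U.s ^ 3)

def SL : ℝ := D.SL U.y U.s U.R

/-- The kernel of the cubic term. -/
def vth (c : M3) : BF (R3 × R3) :=
  (-(U.r / 2) * U.σ c) • (dif U.η * pull Prod.fst measurable_fst (U.B.chi (U.y ^ 8)⁻¹) *
    pull Prod.snd measurable_snd (U.B.chi (U.y ^ 8)⁻¹) *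
    (pull Prod.fst measurable_fst (U.B.es c) + pull Prod.snd measurable_snd (U.B.es c)))

def θ (a b c : M3) : ℝ :=
  if c ∈ Lplus U.R then U.B.cf (U.vth c) a b else 0

def K (P : ℕ) : Co M3 := ⟨Lplus P, Lplus U.R, U.r, fun m => gam (U.a m), U.σ, U.θ⟩

/-- Truncation error of the quadratic kernel. -/
def E1 (P : ℕ) : ℝ :=
  U.B.ii fun x z => ((U.B.asymk U.ω).1 (x, z) -
    ∑ m ∈ Lplus P, U.oh m / U.s ^ 3 * ((U.B.es m).1 x * (U.B.es m).1 z)) ^ 2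

/-- Truncation error of the cubic kernel. -/
def E2 (P : ℕ) : ℝ :=
  ∑ c ∈ Lplus U.R, U.B.ii fun x z =>
    ((U.vth c).1 (x, z) - (U.K P).th (val U.B.es x) (val U.B.es z) c) ^ 2

/-- Admissible ultraviolet cut-offs. -/
structure Cut (P : ℕ) : Prop where
  le : U.R ≤ P
  e1 : U.E1 P ≤ U.y ^ 2100
  e2 : U.E2 P ≤ U.y ^ 810

/-- The low part of the pairing kernel. -/
def dd0 (x z : R3) : ℝ :=
  ∑ m ∈ Lplus U.R, (U.a m + U.ρ * U.oh m) * ((U.B.es m).1 x * (U.B.es m).1 z)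

/-- Elementary bounds on the coefficients. -/
structure Bd : Prop where
  y0 : 0 < U.y
  y1 : U.y ≤ 1 / 1000
  c1 : 1 ≤ C
  rho : U.y ^ 800 / 2 ≤ U.ρ ∧ U.ρ ≤ 2 * U.y ^ 800
  r0 : 0 ≤ U.r
  r2 : U.r ^ 2 = U.ρ * U.s ^ 3
  card : ((Lplus U.R).card : ℝ) * U.y ^ 36 ≤ 8
  tlow : ∀ m ∈ Lplus U.R, U.y ^ 9 ≤ U.t m
  plow : ∀ m ∈ Lplus U.R, U.p2 m ≤ U.y ^ 783
  alow : ∀ m ∈ Lplus U.R, |U.a m| * U.y ^ 5 ≤ 1
  gam2 : ∀ m, Bulk 0 m → gam (U.a m) ^ 2 * U.y ^ 6 ≤ 1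
  psig : ∀ m, Bulk 0 m → U.p2 m * U.σ m ^ 2 ≤ U.y ^ 799
  sl0 : 0 ≤ U.SL
  sl : U.SL * U.y ^ 13 ≤ 1
  slσ : ∑ m ∈ Lplus U.R, U.σ m ^ 2 = U.SL
  high : ∀ P, (∑ m ∈ Lplus P \ Lplus U.R, U.σ m ^ 2) * U.y ^ 5 ≤ 1
  dsum : (∑ m ∈ Lplus U.R, |U.a m + U.ρ * U.oh m|) * U.y ^ 45 ≤ 1
  asum : ∀ P, (∑ m ∈ Lplus P, U.a m ^ 2) * U.y ^ 47 ≤ 1

end USet

/-- A property which holds at small density. -/
def Sm (D : Dat) (C : ℝ) (p : USet D C → Prop) : Prop :=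
  ∃ y₀ : ℝ, 0 < y₀ ∧ ∀ U : USet D C, U.y ≤ y₀ → p U

/-- The second Born term. -/
def Dat.G1 (D : Dat) : ℝ := ∫ z, D.g'.1 z

/-- What is needed of the trial state in a box. -/
structure BoxOk (K : Co M3) (B : Box) (w : BF R3) (ε sb gb E Q : ℝ) : Prop where
  ok : K.Ok
  bulk : ∀ m ∈ K.s, Bulk 0 m
  r0 : 0 ≤ K.r
  e0 : 0 < ε
  hs : ∀ x, n2 K.s (K.su (val B.es x)) ≤ sb
  hg : ∀ x, n2 K.L (K.gu (val B.es x)) ≤ gb
  en : K.kn (fun m => sq3 (B.p m)) / 2 +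
    B.ii (fun x z => w.1 (x - z) * K.pb ε sb gb (val B.es x) (val B.es z)) / 2 ≤ E
  two : B.ii (fun x z => K.pb ε sb gb (val B.es x) (val B.es z)) ≤ Q
  dn : ∀ x, K.Dn (val B.es x) ≤ 2 * K.r ^ 2 + K.kk (val B.es x)
  kk : ∫ x, K.kk (val B.es x) ∂(B.μ : Measure R3) ≤ 1

/-! ### The torus -/

/-- The cells of side `l`, shrunk by `b` on every side. -/
def sbox {K : ℕ} (l b : ℝ) (h : 0 < l - 2 * b) (k : Fin 3 → Fin K) : Box :=
  ⟨fun c => (k c : ℕ) * l + b, fun _ => l - 2 * b, fun _ => h⟩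

/-- A function on the box `Q k`, extended by zero and normalised for Lebesgue measure. -/
def ext0 (B : Box) (h : BF R3) : BF R3 := (√B.vol)⁻¹ • (ind B.set B.measurableSet_set * h)

def eG {C : Type} (Q : C → Box) (km : C × M3) : BF R3 := ext0 (Q km.1) ((Q km.1).es km.2)

def eG' {C : Type} (Q : C → Box) (j : Fin 3) (km : C × M3) : BF R3 :=
  ext0 (Q km.1) ((Q km.1).p km.2 j • (Q km.1).mx j km.2)

section torus
variable {N : ℕ} {L : ℝ} [Fact (0 < L)]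

/-- The representative in `[0, L)^3`. -/
def secT (x : T3 L) : R3 := fun c => (AddCircle.equivIco L 0 (x c) : ℝ)

/-- `g` is the derivative of `u` along the shifts `e`, up to countably many points on each
line. -/
def WD {G : Type} [Add G] (e : ℝ → G) (u g : G → ℝ) : Prop :=
  ∀ x, ∃ T : Set ℝ, T.Countable ∧ ∀ t ∉ T, HasDerivAt (fun s : ℝ => u (x + e s)) (g (x + e t)) t

/-- `E` is a lower bound for the energy of `N` bosons. -/
def LBd (v : E3 → ℝ) (N : ℕ) (L : ℝ) [Fact (0 < L)] (E : ℝ) : Prop :=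
  ∀ φ : Cf N L → ℂ, IsC1 φ → (∀ (σ : Equiv.Perm (Fin N)) (x : Cf N L), φ (x ∘ σ) = φ x) →
    E * ∫ x, ‖φ x‖ ^ 2 ≤ energy v φ

/-- Disjoint boxes in the interior of the fundamental domain. -/
structure Ins {C : Type} (L : ℝ) (Q : C → Box) : Prop where
  lo : ∀ k c, 0 < (Q k).o c
  hi : ∀ k c, (Q k).o c + (Q k).s c < L
  disj : ∀ k k' x, x ∈ (Q k).set → x ∈ (Q k').set → k = k'

/-- The periodised potential on the covering space. -/
structure Wper {C : Type} (v : E3 → ℝ) (L : ℝ) [Fact (0 < L)] (Q : C → Box) (w : BF R3) (b : ℝ)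
    (W : BF (R3 × R3)) : Prop where
  eq : ∀ x y, W.1 (x, y) = vper v (proj L x - proj L y)
  symm : ∀ x y, W.1 (x, y) = W.1 (y, x)
  nonneg : ∀ z, 0 ≤ W.1 z
  same : ∀ k, ∀ x ∈ (Q k).set, ∀ y ∈ (Q k).set, W.1 (x, y) = w.1 (x - y)
  diff : ∀ k k', k ≠ k' → ∀ x ∈ (Q k).set, ∀ y ∈ (Q k').set, W.1 (x, y) = 0
  marg : ∀ x, L ^ 3 * ∫ y, W.1 (x, y) ∂((big L).μ : Measure R3) ≤ b

/-- The one-body and two-body densities of the trial state. -/
structure Den {C : Type} (Q : C → Box) (K : Co M3) (ε sb gb ρ : ℝ) (D1 : BF R3)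
    (D2 : BF (R3 × R3)) : Prop where
  pos1 : ∀ x, 0 ≤ D1.1 x
  pos2 : ∀ z, 0 ≤ D2.1 z
  box : ∀ k, ∀ x ∈ (Q k).set, D1.1 x = K.Dn (val (Q k).es x) / ((Q k).vol * (1 + K.N))
  out : ∀ x, (∀ k, x ∉ (Q k).set) → D1.1 x = ρ
  same : ∀ k, ∀ x ∈ (Q k).set, ∀ y ∈ (Q k).set,
    D2.1 (x, y) ≤ K.pb ε sb gb (val (Q k).es x) (val (Q k).es y) / (Q k).vol ^ 2
  diff : ∀ x y, (∀ k, ¬(x ∈ (Q k).set ∧ y ∈ (Q k).set)) → D2.1 (x, y) = D1.1 x * D1.1 y

/-- A grand canonical trial state with first and second factorial moments `n1`, `n2` of the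
particle number and energy `En`. -/
def Trial (v : E3 → ℝ) (L : ℝ) [Fact (0 < L)] (n1 n2 En : ℝ) : Prop :=
  ∃ a e : ℕ → ℝ, (∀ n, 0 ≤ a n) ∧ (∀ n, 0 ≤ e n) ∧ HasSum a 1 ∧
    HasSum (fun n : ℕ => (n : ℝ) * a n) n1 ∧ HasSum (fun n : ℕ => (n : ℝ) * (n - 1) * a n) n2 ∧
    HasSum e En ∧ ∀ (n : ℕ) (E : ℝ), LBd v n L E → E * a n ≤ e n

end torus

/-! ### Product states -/

section prod
variable {V : Type} [AddCommGroup V] [Module ℝ V] {C κ : Type}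

/-- The operators of the box `k`. -/
def bx (c : C × κ → Module.End ℝ V) (k : C) : κ → Module.End ℝ V := fun m => c (k, m)

/-- The state `Ψ` is created from a vacuum in each box and in each pair of boxes. -/
structure PS (K : Co κ) (c cd : C × κ → Module.End ℝ V) (Ψ : V) : Prop where
  one : ∀ k, ∃ Ξ, Vac (bx c k) K.s Ξ ∧ Ψ = K.X (bx cd k) Ξ
  two : ∀ k k', k ≠ k' → ∃ Ξ, Vac (bx c k) K.s Ξ ∧ Vac (bx c k') K.s Ξ ∧
    Ψ = K.X (bx cd k) (K.X (bx cd k') Ξ)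

/-- The annihilation operators of all boxes. -/
def dG (K : Co κ) (c cd : C × κ → Module.End ℝ V) : C × κ → Module.End ℝ V :=
  dop c cd (fun km => K.γ km.2) fun km => K.σ km.2

end prod

end Pool.Agent.BoseLHY
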