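import Pool.Agent.Lib.MP_dec75e_mp.U.FkA

/-! The Fock space and its operators. -/

open MeasureTheory Finset Function
open scoped Real

noncomputable section

namespace Pool.Agent.BoseLHY

open Pool.Agent.BoseTail

variable {α : Type} [MeasurableSpace α]

/-- The Fock space. -/
def FK (ν : ProbabilityMeasure α) (z : ℝ) (hz : 0 < z) : Submodule ℝ (Multiset α → ℝ) where
  carrier := {Ψ | Good ν z Ψ}
  add_mem' := fun h h' => Good.add hz h h'
  zero_mem' := Good.zero
  smul_mem' := fun c _ h => Good.smul c h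

section
variable {ν : ProbabilityMeasure α} {z : ℝ} {hz : 0 < z}

theorem goodOf (Ψ : FK ν z hz) : Good ν z Ψ.1 := Ψ.2

/-- The scalar product of the Fock space. -/
def fip (ν : ProbabilityMeasure α) (z : ℝ) (hz : 0 < z) :
    FK ν z hz →ₗ[ℝ] FK ν z hz →ₗ[ℝ] ℝ :=
  LinearMap.mk₂ ℝ (fun Ψ Φ => ∑' n, wt2 ν z Ψ.1 Φ.1 n)
    (fun Ψ Ψ' Φ => by
      rw [← ((goodOf Ψ).summable hz (goodOf Φ)).tsum_add ((goodOf Ψ').summable hz (goodOf Φ))]
      exact tsum_congr fun n => wt2_add (goodOf Φ).1 (goodOf Ψ).1 (goodOf Ψ').1 n)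
    (fun c Ψ Φ => by
      rw [smul_eq_mul, ← tsum_mul_left]
      exact tsum_congr fun n => wt2_smul c n)
    (fun Ψ Φ Φ' => by
      rw [← ((goodOf Ψ).summable hz (goodOf Φ)).tsum_add ((goodOf Ψ).summable hz (goodOf Φ'))]
      refine tsum_congr fun n => ?_
      rw [wt2_comm, wt2_comm (Φ := Φ.1), wt2_comm (Φ := Φ'.1)]
      exact wt2_add (goodOf Ψ).1 (goodOf Φ).1 (goodOf Φ').1 n)
    (fun c Ψ Φ => by
      rw [smul_eq_mul, ← tsum_mul_left]
      refine tsum_congr fun n => ?_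
      rw [wt2_comm, wt2_comm (Φ := Φ.1)]
      exact wt2_smul c n)

/-- Creation operator. -/
def cre (h : BF α) : Module.End ℝ (FK ν z hz) where
  toFun Ψ := ⟨creF h.1 Ψ.1, (goodOf Ψ).creF hz (bmOf h)⟩
  map_add' Ψ Φ := Subtype.ext (creF_add h.1 Ψ.1 Φ.1)
  map_smul' c Ψ := Subtype.ext (creF_smul h.1 c Ψ.1)

/-- Annihilation operator. -/
def ann (h : BF α) : Module.End ℝ (FK ν z hz) where
  toFun Ψ := ⟨annF ν z h.1 Ψ.1, (goodOf Ψ).annF hz (bmOf h)⟩
  map_add' Ψ Φ := Subtype.ext (annF_add (goodOf Ψ).1 (goodOf Φ).1 (bmOf h))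
  map_smul' c _ := Subtype.ext (annF_smul h.1 c)

end

/-- A Fock space with a finite orthonormal family of modes, a condensate and a Bogolyubov
transformation. -/
structure Fs (α κ : Type) [MeasurableSpace α] [DecidableEq κ] where
  ν : ProbabilityMeasure α
  z : ℝ
  hz : 0 < z
  s : Finset κ
  e : κ → BF α
  orth : Orth ν z s e
  r : ℝ
  γ : κ → ℝ
  σ : κ → ℝ
  g1 : ∀ m, 1 ≤ γ m
  hyp : ∀ m, γ m ^ 2 = 1 + σ m ^ 2

namespace Fs
variable {κ : Type} [DecidableEq κ] (F : Fs α κ)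

abbrev V : Type := FK F.ν F.z F.hz

def β : F.V →ₗ[ℝ] F.V →ₗ[ℝ] ℝ := fip F.ν F.z F.hz

/-- Overlap of the condensate with the mode `m`. -/
def ov (m : κ) : ℝ := F.r * (F.z * ∫ x, (F.e m).1 x ∂(F.ν : Measure α))

def dA (m : κ) : Module.End ℝ F.V := ann (F.e m) - F.ov m • 1

def dC (m : κ) : Module.End ℝ F.V := cre (F.e m) - F.ov m • 1

def cO (m : κ) : Module.End ℝ F.V := F.γ m • F.dA m - F.σ m • F.dC m

def cD (m : κ) : Module.End ℝ F.V := F.γ m • F.dC m - F.σ m • F.dA m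

/-- The field operator at `x`. -/
def fl (x : α) : Module.End ℝ F.V := fld F.r F.dA F.s (val F.e x)

/-- The states on which removing a particle at `x` is given by the field operator. -/
def Str : Submodule ℝ F.V where
  carrier := {Ψ | ∀ x t, Ψ.1 (x ::ₘ t) = (F.fl x Ψ).1 t}
  add_mem' := fun {Ψ Φ} h h' x t => by
    rw [map_add]
    exact congrArg₂ (· + ·) (h x t) (h' x t)
  zero_mem' := fun x t => by
    rw [map_zero]
    rfl
  smul_mem' := fun c Ψ h x t => by
    rw [map_smul]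
    exact congrArg (c * ·) (h x t)

/-- The derivative with respect to particle `i`, when `e'` is the derivative of the modes. -/
def gr (e' : κ → BF α) (Ψ : F.V) {n : ℕ} (X : Fin n → α) (i : Fin n) : ℝ :=
  (lin F.dA F.s (val e' (X i)) Ψ).1 (er X i)

end Fs

end Pool.Agent.BoseLHY
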