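import Pool.Agent.Lib.MP_dec75e_mp.U.Sin1
import Pool.Agent.Lib.MP_dec75e_mp.L.LHYint
import Pool.Agent.Lib.MP_dec75e_mp.L.Main1
import Pool.Agent.Lib.MP_dec75e_mp.L.Bog

/-! Riemann sums and the choice of the scales. -/

open MeasureTheory Finset Function
open scoped Real

noncomputable section

namespace Pool.Agent.BoseLHY

open Pool.Agent.BoseTail

theorem point_riemuu {F : ℝ → ℝ} (hF : AntitoneOn F (Set.Ioi 0)) (h0 : ∀ t, 0 < t → 0 ≤ F t)
    {δ : ℝ} (hδ : 0 < δ) (R : ℕ) {z : R3} (hz : z 0 ≠ 0) :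
    ∑ m ∈ Lplus R, (cell_riem δ fun c => m c - 1).indicator (fun _ => F (δ ^ 2 * nm m)) z ≤
      {z : R3 | ∀ c, 0 ≤ z c}.indicator (fun z => F (sq3 z)) z := by
  have hp : 0 < sq3 z := by
    unfold sq3
    rw [Fin.sum_univ_three]
    have := pow_pos (abs_pos.2 hz) 2
    rw [sq_abs] at this
    positivity
  by_cases hex : ∃ m ∈ Lplus R, z ∈ cell_riem δ fun c => m c - 1
  · obtain ⟨m, hm, hzm⟩ := hex
    have hb := (mem_Lplus.1 hm).1
    rw [Finset.sum_eq_single_of_mem m hm, Set.indicator_of_mem hzm,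
      Set.indicator_of_mem (show z ∈ {z : R3 | ∀ c, 0 ≤ z c} from ((mem_cell_riem hδ).1 hzm).1)]
    · have a3 : sq3 z ≤ δ ^ 2 * nm m := by
        unfold nm sq3
        rw [Finset.mul_sum]
        refine Finset.sum_le_sum fun c _ => ?_
        have h1 := (hzm c (Set.mem_univ c)).2
        have h2 : (((m c - 1 : ℕ) : ℝ) + 1) = m c := by
          have := hb c
          exact_mod_cast (show m c - 1 + 1 = m c by omega)
        simp only [h2] at h1
        rw [← mul_pow]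
        exact pow_le_pow_left₀ (((mem_cell_riem hδ).1 hzm).1 c) h1.le 2
      exact hF hp (hp.trans_le a3) a3
    · intro m' hm' hne
      refine Set.indicator_of_notMem (fun h => hne ?_) _
      have e := ((mem_cell_riem hδ).1 h).2.trans ((mem_cell_riem hδ).1 hzm).2.symm
      funext c
      have e1 : m' c - 1 = m c - 1 := congrFun e c
      have b1 := hb c
      have b2 := (mem_Lplus.1 hm').1 c
      omega
  · rw [Finset.sum_eq_zero fun m hm => Set.indicator_of_notMem (fun h => hex ⟨m, hm, h⟩) _]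
    by_cases h : z ∈ {z : R3 | ∀ c, 0 ≤ z c}
    · rw [Set.indicator_of_mem h]
      exact h0 _ hp
    · rw [Set.indicator_of_notMem h]

/-- The cube `(δ (m - 1), δ m]` lies in the positive octant, and `F (sq3 z) ≥ F (δ ^ 2 nm m)` on
it (compare `riem_anti`). -/
theorem riem_upper {F : ℝ → ℝ} (hF : AntitoneOn F (Set.Ioi 0)) (h0 : ∀ t, 0 < t → 0 ≤ F t)
    (hi : Integrable fun z : R3 => F (sq3 z)) {δ : ℝ} (hδ : 0 < δ) (R : ℕ) :
    δ ^ 3 * ∑ m ∈ Lplus R, F (δ ^ 2 * nm m) ≤ (∫ z : R3, F (sq3 z)) / 8 := by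
  have hm : MeasurableSet {z : R3 | ∀ c, 0 ≤ z c} := by
    rw [Set.ofPred_forall]
    exact MeasurableSet.iInter fun c => measurableSet_le measurable_const (measurable_pi_apply c)
  have he : Ev fun z : R3 => F (sq3 z) := fun z z' h => by
    have : sq3 z = sq3 z' := Finset.sum_congr rfl fun c _ => by
      rw [← sq_abs (z c), h c, sq_abs]
    simp only [this]
  have I1 : ∀ m ∈ Lplus R, Integrable ((cell_riem δ fun c => m c - 1).indicator
      fun _ : R3 => F (δ ^ 2 * nm m)) := fun m _ =>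
    (integrableOn_const (fin_cell_riem δ _)).integrable_indicator (meas_cell_riem δ _)
  have ae : ∀ᵐ z : R3, z 0 ≠ 0 := Measure.ae_eval_ne (fun _ : Fin 3 => (volume : Measure ℝ)) 0 0
  have key := integral_mono_ae (integrable_finsetSum (Lplus R) I1) (hi.indicator hm)
    (by filter_upwards [ae] with z hz using point_riemuu hF h0 hδ R hz)
  rw [integral_finsetSum _ I1] at key
  have B : ∑ m ∈ Lplus R, ∫ z, (cell_riem δ fun c => m c - 1).indicator
      (fun _ : R3 => F (δ ^ 2 * nm m)) z = δ ^ 3 * ∑ m ∈ Lplus R, F (δ ^ 2 * nm m) := by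
    rw [Finset.mul_sum]
    refine Finset.sum_congr rfl fun m _ => ?_
    rw [integral_indicator_const _ (meas_cell_riem δ _), vol_cell_riem hδ, smul_eq_mul]
  rw [octant_riem hi he, ← B]
  linarith

theorem sum_FF_le (D : Dat) {y s : ℝ} (hy : 0 < y) (hs : 0 < s) (R : ℕ) :
    ∑ m ∈ Lplus R, FF (D.tm y s m) (D.tm y s m) ≤
      (s * √(2 * D.mu0 y) / π) ^ 3 * (2 * √2 * π / 15) := by
  have hκ : 0 < √(2 * D.mu0 y) := Real.sqrt_pos.2 (by have := D.mu0_pos hy; positivity)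
  have hδ : 0 < π / (s * √(2 * D.mu0 y)) := by positivity
  have hinv : s * √(2 * D.mu0 y) / π = (π / (s * √(2 * D.mu0 y)))⁻¹ := by rw [inv_div]
  have key := riem_upper (F := fun t => FF t t) FF_anti (fun _ ht => FF_nonneg ht)
    integral_FF.1 hδ R
  rw [integral_FF.2] at key
  simp only [D.tm_eq hy hs]
  rw [hinv]
  generalize π / (s * √(2 * D.mu0 y)) = δ at hδ key ⊢
  rw [inv_pow, ← div_eq_inv_mul, le_div_iff₀ (by positivity)]
  linarith

/-- Take `n = ⌊(2 / 3) L y ^ 404⌋` and `R = ⌈1 / y ^ 12⌉`. -/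
theorem exists_scale2 {b : ℝ} (hb : 1 ≤ b) : ∃ y₀ : ℝ, 0 < y₀ ∧ ∀ y L : ℝ, 0 < y → y ≤ y₀ →
    1 ≤ L * y ^ 1600 → ∃ (n R : ℕ) (l : ℝ), L = n * l ∧ 0 < l - 2 * b ∧ 1 ≤ l * y ^ 404 ∧
      l * y ^ 404 ≤ 2 ∧ Scale y (l - 2 * b) R := by
  refine ⟨1 / (6 * b), by positivity, fun y L hy hyb hL => ?_⟩
  have hb6 : 6 * b * y ≤ 1 := by
    rw [le_div_iff₀ (by positivity)] at hyb
    linarith
  have hy6 : y ≤ 1 / 6 := by nlinarith
  have hy1 : y ≤ 1 := by linarith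
  have hy4 : 0 < y ^ 404 := pow_pos hy _
  have hy12 : 0 < y ^ 12 := pow_pos hy _
  have hL0 : 0 < L := by
    by_contra hn
    have : L * y ^ 1600 ≤ 0 := mul_nonpos_of_nonpos_of_nonneg (not_lt.1 hn) (by positivity)
    linarith
  have p1 : y ^ 404 ≤ y := pow_le_of_le_one hy.le hy1 (by norm_num)
  have p2 : y ^ 1196 ≤ y := pow_le_of_le_one hy.le hy1 (by norm_num)
  obtain ⟨x, hx⟩ : ∃ x, x = L * y ^ 404 := ⟨_, rfl⟩
  have hx0 : 0 < x := by rw [hx]; positivity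
  have hx6 : 6 ≤ x := by
    have e : L * y ^ 1600 = x * y ^ 1196 := by
      rw [hx, mul_assoc, ← pow_add]
    have h1 : x * y ^ 1196 ≤ x * (1 / 6) := mul_le_mul_of_nonneg_left (p2.trans hy6) hx0.le
    linarith
  have h1 : (⌊2 / 3 * x⌋₊ : ℝ) ≤ 2 / 3 * x := Nat.floor_le (by linarith)
  have h2 : 2 / 3 * x < (⌊2 / 3 * x⌋₊ : ℝ) + 1 := Nat.lt_floor_add_one _
  generalize ⌊2 / 3 * x⌋₊ = n at h1 h2
  have hn0 : (0 : ℝ) < n := by linarith
  have hq : L / (n : ℝ) * y ^ 404 = x / n := by rw [hx]; ring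
  have q1 : 3 / 2 ≤ L / (n : ℝ) * y ^ 404 := by rw [hq, le_div_iff₀ hn0]; linarith
  have q2 : L / (n : ℝ) * y ^ 404 ≤ 2 := by rw [hq, div_le_iff₀ hn0]; linarith
  have q3 : b * y ^ 404 ≤ b * y := mul_le_mul_of_nonneg_left p1 (by linarith)
  have q4 : 0 < b * y ^ 404 := by positivity
  have q5 : 1 ≤ (L / (n : ℝ) - 2 * b) * y ^ 404 := by rw [sub_mul]; linarith
  have h3 : (y ^ 12)⁻¹ ≤ (⌈(y ^ 12)⁻¹⌉₊ : ℝ) := Nat.le_ceil _
  have h4 : (⌈(y ^ 12)⁻¹⌉₊ : ℝ) < (y ^ 12)⁻¹ + 1 := Nat.ceil_lt_add_one (inv_pos.2 hy12).le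
  have h5 : (y ^ 12)⁻¹ * y ^ 12 = 1 := inv_mul_cancel₀ hy12.ne'
  have h6 : y ^ 12 ≤ 1 := pow_le_one₀ hy.le hy1
  refine ⟨n, ⌈(y ^ 12)⁻¹⌉₊, L / (n : ℝ), by field_simp, ?_, by linarith, q2, hy, q5, ?_, ?_, ?_⟩
  · exact (mul_pos_iff_of_pos_right hy4).1 (by linarith)
  · rw [sub_mul]; linarith
  · calc (1 : ℝ) = (y ^ 12)⁻¹ * y ^ 12 := h5.symm
      _ ≤ _ := mul_le_mul_of_nonneg_right h3 hy12.le
  · calc (⌈(y ^ 12)⁻¹⌉₊ : ℝ) * y ^ 12 ≤ ((y ^ 12)⁻¹ + 1) * y ^ 12 :=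
          mul_le_mul_of_nonneg_right h4.le hy12.le
      _ = 1 + y ^ 12 := by rw [add_mul, h5, one_mul]
      _ ≤ 2 := by linarith

end Pool.Agent.BoseLHY
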