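import Pool.Agent.Lib.MP_dec75e_mp.U.Bd1
import Pool.Agent.Lib.MP_dec75e_mp.L.Eigen

/-! The quadratic part: kinetic energy. -/

open MeasureTheory Finset Function
open scoped Real

noncomputable section

namespace Pool.Agent.BoseLHY

open Pool.Agent.BoseTail

variable {D : Dat} {C : ℝ}

theorem sq3_nonneg_kin0u (k : R3) : 0 ≤ sq3 k := sum_nonneg fun _ _ => sq_nonneg _

theorem wt3_nonneg_kin0u (m : M3) : 0 ≤ wt3 m :=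
  prod_nonneg fun c _ => by split_ifs <;> norm_num

theorem wt3_bulk_kin0u {m : M3} (h : Bulk 0 m) : wt3 m = 1 :=
  prod_eq_one fun c _ => if_neg (h c).ne'

theorem pars_kin0u (U : USet D C) (hs : D.C ≤ U.s) (P : ℕ) :
    ∑ m ∈ Lplus P, U.p2 m * U.oh m ^ 2 ≤ U.s ^ 3 * D.G1 + 8 * C * U.s ^ 2 := by
  have h0 := U.hs
  have hr : ∀ c, U.s ≤ U.B.s c := fun c => (U.cube c).ge
  have hω : Supp U.ω.1 U.s := U.tr1.supp.mono (by linarith)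
  have h1 := U.B.pars_ct U.tr1.ev D.ev_g hω (D.supp_g.mono hs) hr
  have h2 := U.B.pars_ct U.tr1.ev U.tr1.evm hω (U.tr1.suppm.mono (by linarith)) hr
  have h3 := h1.sub h2
  have e1 : (fun m => wt3 m * (ct U.ω.1 (U.B.p m) * ct D.g.1 (U.B.p m)) -
      wt3 m * (ct U.ω.1 (U.B.p m) * ct U.m.1 (U.B.p m))) =
      fun m => wt3 m * (U.p2 m * U.oh m ^ 2) := by
    funext m
    have := U.tr1.four (pk U.s m)
    rw [U.p_eq, ← mul_sub, ← mul_sub, ← this, USet.p2, USet.oh]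
    ring
  rw [e1] at h3
  have h4 := sum_le_hasSum (f := fun m => wt3 m * (U.p2 m * U.oh m ^ 2)) (Lplus P)
    (fun m _ => mul_nonneg (wt3_nonneg_kin0u m)
    (mul_nonneg (sq3_nonneg_kin0u _) (sq_nonneg _))) h3
  have e2 : ∑ m ∈ Lplus P, wt3 m * (U.p2 m * U.oh m ^ 2) = ∑ m ∈ Lplus P, U.p2 m * U.oh m ^ 2 :=
    sum_congr rfl fun m hm => by rw [wt3_bulk_kin0u (mem_Lplus.1 hm).1, one_mul]
  have e3 : ∫ z, U.ω.1 z * D.g.1 z = D.G1 := by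
    unfold Dat.G1
    congr 1
    funext z
    show U.ω.1 z * (D.w.1 z * D.f.1 z) = D.w.1 z * D.f.1 z * (1 - D.f.1 z)
    by_cases hz : D.w.1 z = 0
    · simp [hz]
    · rw [U.tr1.eqf z hz]; ring
  have e4 : -∫ z, U.ω.1 z * U.m.1 z ≤ 8 * C / U.s := by
    have h5 := U.tr1.om
    have e5 : C / (U.s / 8) = 8 * C / U.s := by field_simp
    simp only [mul_comm (U.m.1 _)] at h5
    rw [e5] at h5
    exact (neg_le_abs _).trans h5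
  have h6 := mul_le_mul_of_nonneg_left e4 (pow_pos h0 3).le
  have e6 : U.s ^ 3 * (8 * C / U.s) = 8 * C * U.s ^ 2 := by field_simp
  rw [e2, e3, U.vol] at h4
  linarith

theorem num1_kin0u {y ρ s C : ℝ} (hy : 0 < y) (hρ0 : 0 ≤ ρ) (hρ : ρ ≤ 2 * y ^ 800)
    (hC0 : 0 ≤ C) (hC : 64 * C * y ≤ 1) (hs : s ^ 2 * y ^ (404 * 2) ≤ 2 ^ 2) :
    ρ ^ 2 * (8 * C * s ^ 2) ≤ 2 * y ^ 791 := by
  have h1 : ρ ^ 2 ≤ (2 * y ^ 800) ^ 2 := pow_le_pow_left₀ hρ0 hρ 2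
  calc _ ≤ (2 * y ^ 800) ^ 2 * (8 * C * s ^ 2) := by gcongr
    _ = 32 * C * y ^ 792 * (s ^ 2 * y ^ (404 * 2)) := by ring
    _ ≤ 32 * C * y ^ 792 * 2 ^ 2 := by gcongr
    _ = 2 * y ^ 791 * (64 * C * y) := by ring
    _ ≤ 2 * y ^ 791 * 1 := by gcongr
    _ = _ := mul_one _

theorem num2_kin0u {y ρ s G A : ℝ} (hy : 0 < y) (hρ0 : 0 ≤ ρ) (hρ : ρ ≤ 2 * y ^ 800)
    (hs0 : 0 < s) (hG0 : 0 ≤ G) (hG : G ≤ A) (hA : 64 * A * y ≤ 1)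
    (hs : s ^ 3 * y ^ (404 * 3) ≤ 2 ^ 3) : ρ ^ 2 * s ^ 3 * G ≤ y ^ 387 / 2 := by
  have h1 : ρ ^ 2 ≤ (2 * y ^ 800) ^ 2 := pow_le_pow_left₀ hρ0 hρ 2
  have hA0 := hG0.trans hG
  calc _ ≤ (2 * y ^ 800) ^ 2 * s ^ 3 * A := by gcongr
    _ = 4 * A * y ^ 388 * (s ^ 3 * y ^ (404 * 3)) := by ring
    _ ≤ 4 * A * y ^ 388 * 2 ^ 3 := by gcongr
    _ = y ^ 387 / 2 * (64 * A * y) := by ring
    _ ≤ y ^ 387 / 2 * 1 := by gcongr
    _ = _ := mul_one _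

theorem num3_kin0u {y N : ℝ} (hy : 0 < y) (hy1 : y ≤ 1 / 1000) (hN : N * y ^ 36 ≤ 8) :
    N * y ^ 799 + 2 * y ^ 791 ≤ y ^ 387 / 2 := by
  have h0 : y ≤ 1 := by linarith
  have h1 : y ^ 763 ≤ y ^ 388 := pow_le_pow_of_le_one hy.le h0 (by norm_num)
  have h2 : y ^ 791 ≤ y ^ 388 := pow_le_pow_of_le_one hy.le h0 (by norm_num)
  have h3 : N * y ^ 799 ≤ 8 * y ^ 763 := by
    calc _ = N * y ^ 36 * y ^ 763 := by ring
      _ ≤ _ := by gcongr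
  have h4 : y ^ 388 ≤ y ^ 387 * (1 / 1000) := by
    rw [pow_succ]; gcongr
  have h5 : 0 < y ^ 387 := by positivity
  linarith

/-- On the high modes `σ ^ 2 ≤ (ρ oh) ^ 2`. By `Tr.four` and `Box.pars_ct`,
`∑ wt3 m * p2 m * oh m ^ 2 = s ^ 3 ∫ ω (g - m) ≤ s ^ 3 (G1 + 8 C / s)`, all terms are nonnegative
and `wt3 = 1` on `Lplus P`. -/
theorem sm_kin0 : Sm D C fun U => ∀ P, U.R ≤ P →
    (∑ m ∈ Lplus P, U.p2 m * U.σ m ^ 2) / 2 ≤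
      (∑ m ∈ Lplus U.R, (U.p2 m * U.σ m ^ 2 - U.ρ ^ 2 * U.p2 m * U.oh m ^ 2)) / 2 +
        U.ρ ^ 2 * U.s ^ 3 * D.G1 / 2 + U.y ^ 791 ∧
    ∑ m ∈ Lplus P, U.p2 m * U.σ m ^ 2 ≤ U.y ^ 387 := by
  refine ((sm_bd.and (sm_small (64 * C))).and (sm_small (64 * (4 * π * D.a)))).mono ?_
  rintro U ⟨⟨hb, hC⟩, ha⟩ P hP
  have hy := hb.y0
  have hy1 := hb.y1
  have hC1 := hb.c1
  have hρ0 : 0 ≤ U.ρ := le_trans (by positivity) hb.rho.1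
  have hs : D.C ≤ U.s := by
    have h1 := U.sc.l1
    have h2 : U.y ^ 404 ≤ U.y := pow_le_of_le_one hy.le (by linarith) (by norm_num)
    have h3 : 1 ≤ U.s * U.y := h1.trans (mul_le_mul_of_nonneg_left h2 U.hs.le)
    have h4 : C * U.y ≤ U.s * U.y := by nlinarith
    exact U.hC.trans (le_of_mul_le_mul_right h4 hy)
  have h1 := pars_kin0u U hs P
  have h2 : ∑ m ∈ Lplus P \ Lplus U.R, U.p2 m * U.σ m ^ 2 ≤
      ∑ m ∈ Lplus P \ Lplus U.R, U.ρ ^ 2 * (U.p2 m * U.oh m ^ 2) := by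
    refine sum_le_sum fun m hm => ?_
    have h3 : U.σ m ^ 2 ≤ U.a m ^ 2 := sig_sq_le _
    have h4 : U.a m = -U.ρ * U.oh m := if_neg (mem_sdiff.1 hm).2
    rw [h4] at h3
    calc _ ≤ U.p2 m * (-U.ρ * U.oh m) ^ 2 := mul_le_mul_of_nonneg_left h3 (sq3_nonneg_kin0u _)
      _ = _ := by ring
  have h3 := sum_sdiff (f := fun m => U.p2 m * U.σ m ^ 2) (Lplus_mono hP)
  have h4 := sum_sdiff (f := fun m => U.ρ ^ 2 * (U.p2 m * U.oh m ^ 2)) (Lplus_mono hP)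
  have h5 : ∑ m ∈ Lplus P, U.ρ ^ 2 * (U.p2 m * U.oh m ^ 2) ≤
      U.ρ ^ 2 * U.s ^ 3 * D.G1 + U.ρ ^ 2 * (8 * C * U.s ^ 2) := by
    rw [← mul_sum, mul_assoc, ← mul_add]
    exact mul_le_mul_of_nonneg_left h1 (sq_nonneg _)
  have h6 := num1_kin0u hy hρ0 hb.rho.2 (by linarith) hC (U.s_pow 2).2
  have h7 := num2_kin0u hy hρ0 hb.rho.2 U.hs D.G1_bounds.1 D.G1_bounds.2 ha (U.s_pow 3).2
  have h8 := num3_kin0u hy hy1 hb.card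
  have h9 : ∑ m ∈ Lplus U.R, U.p2 m * U.σ m ^ 2 ≤ (Lplus U.R).card * U.y ^ 799 := by
    have := sum_le_card_nsmul (Lplus U.R) (fun m => U.p2 m * U.σ m ^ 2) _
      fun m hm => hb.psig m (mem_Lplus.1 hm).1
    rwa [nsmul_eq_mul] at this
  have h10 : 0 ≤ ∑ m ∈ Lplus U.R, U.ρ ^ 2 * (U.p2 m * U.oh m ^ 2) :=
    sum_nonneg fun m _ => mul_nonneg (sq_nonneg _) (mul_nonneg (sq3_nonneg_kin0u _) (sq_nonneg _))
  simp only [sum_sub_distrib, mul_assoc (U.ρ ^ 2) (U.p2 _)]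
  generalize U.y ^ 791 = a1 at *
  generalize U.y ^ 387 = a2 at *
  generalize U.y ^ 799 = a3 at *
  constructor <;> linarith

end Pool.Agent.BoseLHY
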