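import Pool.Agent.Lib.MP_dec75e_mp.U.Pot1
import Pool.Agent.Lib.MP_dec75e_mp.U.Trunc

/-! The quadratic part: interaction energy. -/

open MeasureTheory Finset Function
open scoped Real

noncomputable section

namespace Pool.Agent.BoseLHY

open Pool.Agent.BoseTail

variable {D : Dat} {C : ℝ}

theorem pw_pot0u {y : ℝ} (y0 : 0 < y) (y1 : y ≤ 1 / 1000) {a b : ℕ} (h : a < b) :
    y ^ b ≤ y ^ a / 1000 := by
  have h1 : y ^ b ≤ y ^ (a + 1) := pow_le_pow_of_le_one y0.le (by linarith) h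
  have h2 : 0 < y ^ a := pow_pos y0 a
  rw [pow_succ] at h1
  nlinarith

theorem num_pot0u {y ρ s3 r2 A G S c I1 I2 I3 J T : ℝ} (y0 : 0 < y) (y1 : y ≤ 1 / 1000)
    (ρ0 : 0 ≤ ρ) (ρ1 : ρ ≤ 2 * y ^ 800) (s0 : 0 < s3) (s1 : s3 * y ^ 1212 ≤ 8)
    (hr : r2 = ρ * s3) (G0 : 0 ≤ G) (A0 : 0 ≤ A) (hS : |S| * y ^ 45 ≤ A)
    (hA : (144 * A + 1156) * y ≤ 1) (c0 : 0 ≤ c) (hc : c * y ≤ 1)
    (h1 : I1 ≤ (A - G) / s3 + y ^ 1615) (h2 : I2 ≤ S / s3 + y ^ 1500) (h3 : I3 ≤ y ^ 1100)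
    (hJ : J ≤ c * y ^ 2100)
    (hT : T ≤ (1 + y ^ 420) * (r2 ^ 2 * I1 + 2 * r2 * I2 + I3) + (1 + 1 / y ^ 420) * (r2 ^ 2 * J)) :
    T / 2 ≤ ρ ^ 2 * s3 * (A - G) / 2 + ρ * S + y ^ 790 ∧ T ≤ y ^ 387 := by
  have yp : ∀ n : ℕ, 0 < y ^ n := fun n => pow_pos y0 n
  have yl : y ≤ 1 := by linarith
  have r0 : 0 ≤ r2 := by rw [hr]; positivity
  have r1 : r2 * y ^ 412 ≤ 16 := by
    have e : r2 * y ^ 412 = ρ * (s3 * y ^ 412) := by rw [hr]; ring
    have e2 : 2 * y ^ 800 * (s3 * y ^ 412) = 2 * (s3 * y ^ 1212) := by ring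
    have e3 : ρ * (s3 * y ^ 412) ≤ 2 * y ^ 800 * (s3 * y ^ 412) :=
      mul_le_mul_of_nonneg_right ρ1 (mul_pos s0 (yp _)).le
    linarith
  have r3 : (r2 * y ^ 412) ^ 2 ≤ 256 := by
    have := mul_nonneg r0 (yp 412).le
    nlinarith
  have a1 : r2 ^ 2 * y ^ 1615 ≤ 256 * y ^ 791 := by
    have e : r2 ^ 2 * y ^ 1615 = (r2 * y ^ 412) ^ 2 * y ^ 791 := by ring
    rw [e]
    exact mul_le_mul_of_nonneg_right r3 (yp _).le
  have a2 : r2 * y ^ 1500 ≤ 16 * y ^ 1088 := by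
    have e : r2 * y ^ 1500 = (r2 * y ^ 412) * y ^ 1088 := by ring
    rw [e]
    exact mul_le_mul_of_nonneg_right r1 (yp _).le
  have a3 : ρ ^ 2 * s3 ≤ 32 * y ^ 388 := by
    have e1 : ρ ^ 2 ≤ (2 * y ^ 800) ^ 2 := pow_le_pow_left₀ ρ0 ρ1 2
    have e2 : ρ ^ 2 * s3 ≤ (2 * y ^ 800) ^ 2 * s3 := mul_le_mul_of_nonneg_right e1 s0.le
    have e3 : (2 * y ^ 800) ^ 2 * s3 = 4 * y ^ 388 * (s3 * y ^ 1212) := by ring
    have e4 : 4 * y ^ 388 * (s3 * y ^ 1212) ≤ 4 * y ^ 388 * 8 :=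
      mul_le_mul_of_nonneg_left s1 (by have := yp 388; positivity)
    linarith
  have a4 : ρ * S ≤ 2 * y ^ 388 * A := by
    have e1 : ρ * S ≤ ρ * |S| := mul_le_mul_of_nonneg_left (le_abs_self S) ρ0
    have e2 : ρ * |S| ≤ 2 * y ^ 800 * |S| := mul_le_mul_of_nonneg_right ρ1 (abs_nonneg S)
    have e3 : 2 * y ^ 800 * |S| = 2 * y ^ 755 * (|S| * y ^ 45) := by ring
    have e4 : 2 * y ^ 755 * (|S| * y ^ 45) ≤ 2 * y ^ 755 * A :=
      mul_le_mul_of_nonneg_left hS (by have := yp 755; positivity)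
    have e5 : y ^ 755 ≤ y ^ 388 := pow_le_pow_of_le_one y0.le yl (by norm_num)
    have e6 : 2 * y ^ 755 * A ≤ 2 * y ^ 388 * A :=
      mul_le_mul_of_nonneg_right (by linarith) A0
    linarith
  have b1 : r2 ^ 2 * I1 ≤ ρ ^ 2 * s3 * (A - G) + 256 * y ^ 791 := by
    have e1 : r2 ^ 2 * I1 ≤ r2 ^ 2 * ((A - G) / s3 + y ^ 1615) :=
      mul_le_mul_of_nonneg_left h1 (sq_nonneg _)
    have e2 : r2 ^ 2 * ((A - G) / s3 + y ^ 1615) = ρ ^ 2 * s3 * (A - G) + r2 ^ 2 * y ^ 1615 := by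
      rw [mul_add, hr]
      congr 1
      field_simp
    linarith
  have b2 : 2 * r2 * I2 ≤ 2 * (ρ * S) + 32 * y ^ 1088 := by
    have e1 : r2 * I2 ≤ r2 * (S / s3 + y ^ 1500) := mul_le_mul_of_nonneg_left h2 r0
    have e2 : r2 * (S / s3 + y ^ 1500) = ρ * S + r2 * y ^ 1500 := by
      rw [mul_add, hr]
      congr 1
      field_simp
    linarith
  have b3 : (1 + 1 / y ^ 420) * (r2 ^ 2 * J) ≤ 512 * y ^ 855 := by
    have e1 : r2 ^ 2 * J ≤ r2 ^ 2 * (c * y ^ 2100) := mul_le_mul_of_nonneg_left hJ (sq_nonneg _)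
    have e0 : 0 ≤ 1 + 1 / y ^ 420 := by have := yp 420; positivity
    have e2 := mul_le_mul_of_nonneg_left e1 e0
    have e3 : (1 + 1 / y ^ 420) * (r2 ^ 2 * (c * y ^ 2100)) =
        (y ^ 420 + 1) * (r2 * y ^ 412) ^ 2 * (c * y) * y ^ 855 := by
      have e4 : y ^ 2100 = y ^ 420 * y ^ 1680 := by ring
      have e5 : (1 + 1 / y ^ 420) * y ^ 420 = y ^ 420 + 1 := by
        have := (yp 420).ne'
        field_simp
      rw [e4, ← e5]
      ring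
    have e6 : y ^ 420 ≤ 1 := pow_le_one₀ y0.le yl
    have e7 : (y ^ 420 + 1) * (r2 * y ^ 412) ^ 2 ≤ 2 * 256 :=
      mul_le_mul (by linarith) r3 (sq_nonneg _) (by norm_num)
    have e8 : (y ^ 420 + 1) * (r2 * y ^ 412) ^ 2 * (c * y) ≤ 2 * 256 * 1 :=
      mul_le_mul e7 hc (mul_nonneg c0 y0.le) (by norm_num)
    have e9 := mul_le_mul_of_nonneg_right e8 (yp 855).le
    linarith
  have p1 : y ^ 791 ≤ y ^ 388 := pow_le_pow_of_le_one y0.le yl (by norm_num)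
  have p2 : y ^ 1088 ≤ y ^ 388 := pow_le_pow_of_le_one y0.le yl (by norm_num)
  have p3 : y ^ 1100 ≤ y ^ 388 := pow_le_pow_of_le_one y0.le yl (by norm_num)
  have b4 : r2 ^ 2 * I1 + 2 * r2 * I2 + I3 ≤ y ^ 387 / 4 := by
    have e1 : ρ ^ 2 * s3 * (A - G) ≤ ρ ^ 2 * s3 * A :=
      mul_le_mul_of_nonneg_left (by linarith) (by positivity)
    have e2 : ρ ^ 2 * s3 * A ≤ 32 * y ^ 388 * A := mul_le_mul_of_nonneg_right a3 A0
    have e3 : (144 * A + 1156) * y * y ^ 387 ≤ 1 * y ^ 387 :=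
      mul_le_mul_of_nonneg_right hA (yp _).le
    have e4 : (144 * A + 1156) * y * y ^ 387 = 144 * (y ^ 388 * A) + 1156 * y ^ 388 := by ring
    linarith
  have b5 : y ^ 420 * (r2 ^ 2 * I1 + 2 * r2 * I2 + I3) ≤ y ^ 807 / 4 := by
    have e1 := mul_le_mul_of_nonneg_left b4 (yp 420).le
    have e2 : y ^ 420 * (y ^ 387 / 4) = y ^ 807 / 4 := by ring
    linarith
  have q1 := pw_pot0u y0 y1 (by norm_num : 790 < 791)
  have q2 := pw_pot0u y0 y1 (by norm_num : 790 < 1088)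
  have q3 := pw_pot0u y0 y1 (by norm_num : 790 < 1100)
  have q4 := pw_pot0u y0 y1 (by norm_num : 790 < 807)
  have q5 := pw_pot0u y0 y1 (by norm_num : 790 < 855)
  have q6 := pw_pot0u y0 y1 (by norm_num : 387 < 807)
  have q7 := pw_pot0u y0 y1 (by norm_num : 387 < 855)
  have q8 := yp 790
  have q9 := yp 387
  rw [add_mul, one_mul] at hT
  constructor <;> linarith

theorem sq_pot0u {θ : ℝ} (hθ : 0 < θ) (A B : ℝ) :
    (A + B) ^ 2 ≤ (1 + θ) * A ^ 2 + (1 + 1 / θ) * B ^ 2 := by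
  have h : (1 + θ) * A ^ 2 + (1 + 1 / θ) * B ^ 2 - (A + B) ^ 2 = (θ * A - B) ^ 2 / θ := by
    field_simp
    ring
  have h2 : 0 ≤ (θ * A - B) ^ 2 / θ := by positivity
  linarith

theorem USet.u0_pot0u (U : USet D C) {P : ℕ} (h : U.R ≤ P) (hr : U.r ^ 2 = U.ρ * U.s ^ 3)
    (x z : R3) : (U.K P).u0 (val U.B.es x) (val U.B.es z) =
      (U.r ^ 2 * (1 - (U.B.asymk U.ω).1 (x, z)) + U.dd0 x z) +
        U.r ^ 2 * ((U.B.asymk U.ω).1 (x, z) -
          ∑ m ∈ Lplus P, U.oh m / U.s ^ 3 * ((U.B.es m).1 x * (U.B.es m).1 z)) := by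
  have hs : U.s ≠ 0 := U.hs.ne'
  have e1 : (U.K P).u0 (val U.B.es x) (val U.B.es z) =
      U.r ^ 2 + ∑ m ∈ Lplus P, U.a m * ((U.B.es m).1 x * (U.B.es m).1 z) := by
    unfold Co.u0
    congr 1
    refine sum_congr rfl fun m _ => ?_
    show gam (U.a m) * (U.a m / gam (U.a m)) * ((U.B.es m).1 x * (U.B.es m).1 z) = _
    rw [gam_mul]
  have e2 : U.dd0 x z =
      ∑ m ∈ Lplus P, (U.a m + U.ρ * U.oh m) * ((U.B.es m).1 x * (U.B.es m).1 z) := by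
    unfold USet.dd0
    refine sum_subset (Lplus_mono h) fun m _ hm => ?_
    have : U.a m = -U.ρ * U.oh m := by unfold USet.a; rw [if_neg hm]
    rw [this]
    ring
  have e3 : U.r ^ 2 * ∑ m ∈ Lplus P, U.oh m / U.s ^ 3 * ((U.B.es m).1 x * (U.B.es m).1 z) =
      ∑ m ∈ Lplus P, U.ρ * U.oh m * ((U.B.es m).1 x * (U.B.es m).1 z) := by
    rw [mul_sum]
    refine sum_congr rfl fun m _ => ?_
    rw [hr]
    field_simp
  have e4 : ∑ m ∈ Lplus P, (U.a m + U.ρ * U.oh m) * ((U.B.es m).1 x * (U.B.es m).1 z) =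
      ∑ m ∈ Lplus P, U.a m * ((U.B.es m).1 x * (U.B.es m).1 z) +
        ∑ m ∈ Lplus P, U.ρ * U.oh m * ((U.B.es m).1 x * (U.B.es m).1 z) := by
    rw [← sum_add_distrib]
    exact sum_congr rfl fun m _ => by ring
  rw [e1, e2, e4, mul_sub (U.r ^ 2) ((U.B.asymk U.ω).1 (x, z)), e3]
  ring

theorem split_pot0u (B : Box) {W a d e u : R3 → R3 → ℝ} {r2 θ c : ℝ} (hθ : 0 < θ)
    (hW : BM (uncurry W)) (ha : BM (uncurry a)) (hd : BM (uncurry d)) (he : BM (uncurry e))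
    (W0 : ∀ x z, 0 ≤ W x z) (Wc : ∀ x z, W x z ≤ c)
    (hu : ∀ x z, u x z = (r2 * a x z + d x z) + r2 * e x z) :
    (B.ii fun x z => W x z * u x z ^ 2) ≤
      (1 + θ) * (r2 ^ 2 * (B.ii fun x z => W x z * a x z ^ 2) +
        2 * r2 * (B.ii fun x z => W x z * a x z * d x z) + B.ii fun x z => W x z * d x z ^ 2) +
      (1 + 1 / θ) * (r2 ^ 2 * (c * B.ii fun x z => e x z ^ 2)) := by
  have m1 : BM (uncurry fun x z => W x z * a x z ^ 2) := hW.mul (ha.pow 2)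
  have m2 : BM (uncurry fun x z => W x z * a x z * d x z) := (hW.mul ha).mul hd
  have m3 : BM (uncurry fun x z => W x z * d x z ^ 2) := hW.mul (hd.pow 2)
  have m4 : BM (uncurry fun x z => e x z ^ 2) := he.pow 2
  have n1 : BM (uncurry fun x z => r2 ^ 2 * (W x z * a x z ^ 2)) := (BM.const _).mul m1
  have n2 : BM (uncurry fun x z => 2 * r2 * (W x z * a x z * d x z)) := (BM.const _).mul m2
  have n3 : BM (uncurry fun x z => r2 ^ 2 * (W x z * a x z ^ 2) +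
      2 * r2 * (W x z * a x z * d x z)) := n1.add n2
  have n4 : BM (uncurry fun x z => r2 ^ 2 * (W x z * a x z ^ 2) +
      2 * r2 * (W x z * a x z * d x z) + W x z * d x z ^ 2) := n3.add m3
  have n5 : BM (uncurry fun x z => (1 + θ) * (r2 ^ 2 * (W x z * a x z ^ 2) +
      2 * r2 * (W x z * a x z * d x z) + W x z * d x z ^ 2)) := (BM.const _).mul n4
  have n6 : BM (uncurry fun x z => (1 + 1 / θ) * (r2 ^ 2 * (c * e x z ^ 2))) :=
    (BM.const _).mul ((BM.const _).mul ((BM.const _).mul m4))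
  have hu' : BM (uncurry u) := by
    have : uncurry u = fun p => (r2 * uncurry a p + uncurry d p) + r2 * uncurry e p :=
      funext fun p => hu p.1 p.2
    rw [this]
    exact (((BM.const _).mul ha).add hd).add ((BM.const _).mul he)
  have n0 : BM (uncurry fun x z => W x z * u x z ^ 2) := hW.mul (hu'.pow 2)
  rw [← B.ii_const_mul (r2 ^ 2), ← B.ii_const_mul (2 * r2), ← B.ii_add n1 n2, ← B.ii_add n3 m3,
    ← B.ii_const_mul (1 + θ), ← B.ii_const_mul c, ← B.ii_const_mul (r2 ^ 2),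
    ← B.ii_const_mul (1 + 1 / θ), ← B.ii_add n5 n6]
  refine B.ii_mono n0 (n5.add n6) fun x _ z _ => ?_
  have k1 := sq_pot0u hθ (r2 * a x z + d x z) (r2 * e x z)
  rw [← hu] at k1
  have k2 := mul_le_mul_of_nonneg_left k1 (W0 x z)
  have k3 : 0 ≤ (1 + 1 / θ) * (r2 * e x z) ^ 2 := by positivity
  have k4 := mul_le_mul_of_nonneg_right (Wc x z) k3
  have k5 : W x z * ((1 + θ) * (r2 * a x z + d x z) ^ 2 + (1 + 1 / θ) * (r2 * e x z) ^ 2) =
      (1 + θ) * (r2 ^ 2 * (W x z * a x z ^ 2) + 2 * r2 * (W x z * a x z * d x z) +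
        W x z * d x z ^ 2) + W x z * ((1 + 1 / θ) * (r2 * e x z) ^ 2) := by ring
  have k6 : c * ((1 + 1 / θ) * (r2 * e x z) ^ 2) = (1 + 1 / θ) * (r2 ^ 2 * (c * e x z ^ 2)) := by
    ring
  linarith

/-- `u0 = A + r ^ 2 * err` with `A = r ^ 2 (1 - asymk ω) + dd0` and `err` the function whose square
is integrated in `E1`. First bound `ii (w A ^ 2)` by `sm_pot1`, `sm_pot2`, `sm_pot3`, then use
`(A + B) ^ 2 ≤ (1 + y ^ 420) A ^ 2 + (1 + 1 / y ^ 420) B ^ 2`. -/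
theorem sm_pot0 : Sm D C fun U => ∀ P, U.Cut P →
    (U.B.ii fun x z => D.w.1 (x - z) * (U.K P).u0 (val U.B.es x) (val U.B.es z) ^ 2) / 2 ≤
      U.ρ ^ 2 * U.s ^ 3 * (4 * π * D.a - D.G1) / 2 +
        ∑ m ∈ Lplus U.R, U.ρ * U.gh m * (U.a m + U.ρ * U.oh m) + U.y ^ 790 ∧
    (U.B.ii fun x z => D.w.1 (x - z) * (U.K P).u0 (val U.B.es x) (val U.B.es z) ^ 2) ≤
      U.y ^ 387 := by
  refine ((((sm_bd.and sm_pot1).and (sm_pot2.and sm_pot3)).and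
    ((sm_small (144 * (4 * π * D.a) + 1156)).and (sm_small D.C))).mono ?_)
  rintro U ⟨⟨⟨hb, h1⟩, h2, h3⟩, hA, hc⟩ P hP
  have A0 : 0 ≤ 4 * π * D.a := by have := D.ha; positivity
  have c0 : 0 ≤ D.C := by have := D.hC; linarith
  have ρ0 : 0 ≤ U.ρ := by
    have := hb.rho.1
    have := pow_pos hb.y0 800
    linarith
  have s1 : U.s ^ 3 * U.y ^ 1212 ≤ 8 := by
    have := (U.s_pow 3).2
    norm_num at this
    exact this
  have hS : |∑ m ∈ Lplus U.R, U.gh m * (U.a m + U.ρ * U.oh m)| * U.y ^ 45 ≤ 4 * π * D.a := by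
    have e1 : |∑ m ∈ Lplus U.R, U.gh m * (U.a m + U.ρ * U.oh m)| ≤
        4 * π * D.a * ∑ m ∈ Lplus U.R, |U.a m + U.ρ * U.oh m| := by
      rw [mul_sum]
      refine (abs_sum_le_sum_abs _ _).trans (sum_le_sum fun m _ => ?_)
      rw [abs_mul]
      exact mul_le_mul_of_nonneg_right (D.ct_g _).1 (abs_nonneg _)
    have e2 := mul_le_mul_of_nonneg_right e1 (pow_pos hb.y0 45).le
    have e3 := mul_le_mul_of_nonneg_left hb.dsum A0
    rw [mul_assoc] at e2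
    linarith
  have hW : BM (uncurry fun x z : R3 => D.w.1 (x - z)) :=
    BM.comp (bmOf D.w) (measurable_fst.sub measurable_snd)
  have ha : BM (uncurry fun x z : R3 => 1 - (U.B.asymk U.ω).1 (x, z)) :=
    (BM.const _).sub (bmOf (U.B.asymk U.ω))
  have he : BM (uncurry fun x z : R3 => (U.B.asymk U.ω).1 (x, z) -
      ∑ m ∈ Lplus P, U.oh m / U.s ^ 3 * ((U.B.es m).1 x * (U.B.es m).1 z)) :=
    (bmOf (U.B.asymk U.ω)).sub (BM.sum fun m _ => (BM.const _).mul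
      ((BM.comp (bmOf (U.B.es m)) measurable_fst).mul (BM.comp (bmOf (U.B.es m)) measurable_snd)))
  have hT := split_pot0u U.B (pow_pos hb.y0 420) hW ha U.bm_dd0 he (fun x z => D.w0 _)
    (fun x z => D.wC _) (U.u0_pot0u hP.le hb.r2)
  have hJ : D.C * U.E1 P ≤ D.C * U.y ^ 2100 := mul_le_mul_of_nonneg_left hP.e1 c0
  have key := num_pot0u hb.y0 hb.y1 ρ0 hb.rho.2 (pow_pos U.hs 3) s1 hb.r2 D.G1_bounds.1 A0 hS hA
    c0 hc h1 h2 h3 hJ hT
  have e : ∑ m ∈ Lplus U.R, U.ρ * U.gh m * (U.a m + U.ρ * U.oh m) =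
      U.ρ * ∑ m ∈ Lplus U.R, U.gh m * (U.a m + U.ρ * U.oh m) := by
    rw [mul_sum]
    exact sum_congr rfl fun m _ => by ring
  rw [e]
  exact key

end Pool.Agent.BoseLHY
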