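import Pool.Agent.Lib.MP_dec75e_mp.U.Cub2
import Pool.Agent.Lib.MP_dec75e_mp.U.CoInt

/-! The remainder terms in one box. -/

open MeasureTheory Finset Function
open scoped Real

noncomputable section

namespace Pool.Agent.BoseLHY

open Pool.Agent.BoseTail

variable {D : Dat} {C : ℝ}

theorem es_sq_ubox0u (B : Box) (m : M3) (x : R3) : (B.es m).1 x ^ 2 ≤ 8 := by
  have h : |(B.es m).1 x| ≤ √2 ^ 3 := by
    change |∏ c, sn (m c) (B.ang x c)| ≤ _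
    rw [abs_prod]
    simpa using prod_le_prod (s := univ) (g := fun _ : Fin 3 => √2) (fun c _ => abs_nonneg _)
      fun c _ => abs_sn_le (m c) (B.ang x c)
  rw [← sq_abs]
  refine (pow_le_pow_left₀ (abs_nonneg _) h 2).trans (le_of_eq ?_)
  rw [← pow_mul, mul_comm, pow_mul, Real.sq_sqrt (by norm_num)]
  norm_num

theorem n2_val_ubox0u (B : Box) (s : Finset M3) (u : M3 → ℝ) (x : R3) :
    n2 s (fun m => u m * val B.es x m) ≤ 8 * n2 s u := by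
  rw [n2, n2, mul_sum]
  refine sum_le_sum fun m _ => ?_
  rw [mul_pow, mul_comm]
  exact mul_le_mul_of_nonneg_right (es_sq_ubox0u B m x) (sq_nonneg _)

theorem le_inv_ubox0u {y A c : ℝ} {k : ℕ} (hy : 0 < y) (h : A * y ^ k ≤ c) : A ≤ c * y⁻¹ ^ k := by
  rw [inv_pow, ← div_eq_mul_inv, le_div_iff₀ (by positivity)]
  exact h

theorem step_ubox0u {x c : ℝ} (hx : 1000 ≤ x) (hc : c ≤ 1000) (k : ℕ) :
    c * x ^ k ≤ x ^ (k + 1) := by
  rw [pow_succ']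
  exact mul_le_mul_of_nonneg_right (hc.trans hx) (by positivity)

namespace USet.Bd

variable {U : USet D C} (h : U.Bd)
include h

theorem x_ubox0u : 1000 ≤ U.y⁻¹ := by
  rw [le_inv_comm₀ (by norm_num) h.y0]
  simpa using h.y1

theorem r_ubox0u : U.y⁻¹ ^ 412 ≤ 2 * U.r ^ 2 ∧ U.r ^ 2 ≤ 16 * U.y⁻¹ ^ 412 := by
  have hy := h.y0
  have h3 := U.s_pow 3
  have e : U.r ^ 2 * U.y ^ 412 * U.y ^ 800 = U.ρ * (U.s ^ 3 * U.y ^ (404 * 3)) := by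
    rw [h.r2]; ring
  have h8 : 0 < U.y ^ 800 := by positivity
  constructor
  · rw [inv_pow, inv_le_iff_one_le_mul₀ (by positivity)]
    refine le_of_mul_le_mul_right ?_ h8
    rw [mul_assoc 2, mul_assoc 2, e]
    nlinarith [h.rho.1, h3.1]
  · refine le_inv_ubox0u hy (le_of_mul_le_mul_right ?_ h8)
    rw [e]
    nlinarith [h.rho.1, h.rho.2, h3.1, h3.2]

theorem sig_ubox0u {P : ℕ} (hP : U.R ≤ P) : n2 (Lplus P) U.σ ≤ 2 * U.y⁻¹ ^ 13 := by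
  have h1 := le_inv_ubox0u h.y0 h.sl
  have h2 := le_inv_ubox0u h.y0 (h.high P)
  have h3 : U.y⁻¹ ^ 5 ≤ U.y⁻¹ ^ 13 := pow_le_pow_right₀ (by linarith [h.x_ubox0u]) (by norm_num)
  rw [n2, ← sum_sdiff (Lplus_mono hP), h.slσ]
  linarith

theorem gam_ubox0u {P : ℕ} : ∀ m ∈ Lplus P, gam (U.a m) ^ 2 ≤ (U.y ^ 6)⁻¹ := fun m hm => by
  simpa using le_inv_ubox0u h.y0 (h.gam2 m (mem_Lplus.mp hm).1)

theorem mul_ubox0u {T : ℝ} (hT : T ≤ U.y ^ 778) {k : ℕ} (hk : k ≤ 777) :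
    U.y⁻¹ ^ k * T ≤ 1 / 1000 := by
  have hy := h.y0
  have h1 : U.y⁻¹ ^ k ≤ U.y⁻¹ ^ 777 := pow_le_pow_right₀ (by linarith [h.x_ubox0u]) hk
  calc _ ≤ U.y⁻¹ ^ k * U.y ^ 778 := mul_le_mul_of_nonneg_left hT (by positivity)
    _ ≤ U.y⁻¹ ^ 777 * U.y ^ 778 := mul_le_mul_of_nonneg_right h1 (by positivity)
    _ = U.y := by field_simp
    _ ≤ _ := h.y1

end USet.Bd

theorem rem_ubox0u {x r T : ℝ} (hx : 1000 ≤ x) (hr : r ≤ 16 * x ^ 412) (hT : 0 ≤ T)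
    (p : ∀ k ≤ 777, x ^ k * T ≤ 1 / 1000) :
    (1 + x ^ 4) * (16 * x ^ 43 * T) + 4 * (x ^ 14) ^ 2 + (4 * r + 9 * x ^ 14) * (36 * x ^ 6 * T) +
      (96 * r * x ^ 14 + 120 * (x ^ 14) ^ 2) * T ≤ x ^ 29 := by
  have h0 : 0 < x := by linarith
  have h1 : 1 ≤ x ^ 28 := one_le_pow₀ (by linarith)
  calc _ ≤ (1 + x ^ 4) * (16 * x ^ 43 * T) + 4 * (x ^ 14) ^ 2 +
        (4 * (16 * x ^ 412) + 9 * x ^ 14) * (36 * x ^ 6 * T) +
        (96 * (16 * x ^ 412) * x ^ 14 + 120 * (x ^ 14) ^ 2) * T := by gcongr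
    _ = 16 * (x ^ 43 * T) + 16 * (x ^ 47 * T) + 4 * x ^ 28 + 2304 * (x ^ 418 * T) +
        324 * (x ^ 20 * T) + 1536 * (x ^ 426 * T) + 120 * (x ^ 28 * T) := by ring
    _ ≤ 9 * x ^ 28 := by
      linarith [p 43 (by norm_num), p 47 (by norm_num), p 418 (by norm_num), p 20 (by norm_num),
        p 426 (by norm_num), p 28 (by norm_num)]
    _ ≤ _ := step_ubox0u hx (by norm_num) 28

theorem two_ubox0u {x r T A S e : ℝ} (hx : 1000 ≤ x) (h0 : 0 ≤ r) (hr : r ≤ 16 * x ^ 412)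
    (hT : T ≤ 1 / 1000) (hT0 : 0 ≤ T) (hA0 : 0 ≤ A) (hA : A ≤ x ^ 47) (hS0 : 0 ≤ S)
    (hS : S ≤ 2 * x ^ 13) (he : e ≤ 1) :
    (1 + 18 * T) * (2 * r ^ 2 + 2 * A) + (1 + e) * (8 * r * S + 8 * T) + x ^ 29 ≤ x ^ 826 := by
  have h1 : 0 < x := by linarith
  have p : ∀ k ≤ 824, x ^ k ≤ x ^ 824 := fun k hk => pow_le_pow_right₀ (by linarith) hk
  calc _ ≤ 2 * (2 * (16 * x ^ 412) ^ 2 + 2 * x ^ 47) +
        2 * (8 * (16 * x ^ 412) * (2 * x ^ 13) + 8 * 1) + x ^ 29 := by gcongr <;> linarith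
    _ = 1024 * x ^ 824 + 4 * x ^ 47 + 512 * x ^ 425 + 16 * x ^ 0 + x ^ 29 := by ring
    _ ≤ 2 * (1000 * x ^ 824) := by
      linarith [p 47 (by norm_num), p 425 (by norm_num), p 0 (by norm_num), p 29 (by norm_num),
        show 0 < x ^ 824 by positivity]
    _ ≤ 2 * x ^ 825 := mul_le_mul_of_nonneg_left (step_ubox0u hx le_rfl 824) zero_le_two
    _ ≤ _ := step_ubox0u hx (by norm_num) 825

theorem kn_ubox0u {y S T X T1 T2 kn : ℝ} (hy : 0 < y) (h1 : y ≤ 1 / 1000) (hS0 : 0 ≤ S)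
    (hS : S ≤ y ^ 387) (hT : T ≤ y ^ 778) (hX : y ^ 4 * X ≤ y ^ 790 / 4)
    (a1 : T1 ≤ X + y ^ 790) (a2 : T2 ≤ y ^ 800)
    (h : kn ≤ (1 + 6 * T) * S + (1 + y ^ 4) * (4 * (T1 + T2)) + (1 + 1 / y ^ 4) * (2 * y ^ 777 * T) +
      18 * y ^ 799 * T) : kn / 2 ≤ S / 2 + 2 * X + 3 * y ^ 790 := by
  have p : ∀ k, 791 ≤ k → y ^ k ≤ y ^ 790 / 1000 := fun k hk =>
    (pow_le_pow_of_le_one hy.le (by linarith) hk).trans (by
      rw [pow_succ y 790, div_eq_mul_one_div]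
      exact mul_le_mul_of_nonneg_left h1 (by positivity))
  have b1 : T * S ≤ y ^ 1165 := (mul_le_mul hT hS hS0 (by positivity)).trans (le_of_eq (by ring))
  have b2 : (1 + y ^ 4) * (4 * (T1 + T2)) ≤ (1 + y ^ 4) * (4 * (X + y ^ 790 + y ^ 800)) := by
    gcongr
  have b3 : (1 + 1 / y ^ 4) * (2 * y ^ 777 * T) ≤ 2 * y ^ 1555 + 2 * y ^ 1551 :=
    le_trans (by gcongr) (le_of_eq (show (1 + 1 / y ^ 4) * (2 * y ^ 777 * y ^ 778) = _ by
      field_simp))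
  have b4 : 18 * y ^ 799 * T ≤ 18 * y ^ 1577 :=
    (mul_le_mul_of_nonneg_left hT (by positivity)).trans (le_of_eq (by ring))
  have b5 : (1 + y ^ 4) * (4 * (X + y ^ 790 + y ^ 800)) =
      4 * X + 4 * (y ^ 4 * X) + 4 * y ^ 790 + 4 * y ^ 794 + 4 * y ^ 800 + 4 * y ^ 804 := by ring
  have b6 : (1 + 6 * T) * S = S + 6 * (T * S) := by ring
  linarith [p 1165 (by norm_num), p 1555 (by norm_num), p 1551 (by norm_num), p 1577 (by norm_num),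
    p 794 (by norm_num), p 800 (by norm_num), p 804 (by norm_num),
    show 0 < y ^ 790 by positivity]

theorem sm_hs : Sm D C fun U => ∀ P, U.R ≤ P → ∀ x,
    n2 (U.K P).s ((U.K P).su (val U.B.es x)) ≤ (U.y ^ 14)⁻¹ ∧
      n2 (U.K P).L ((U.K P).gu (val U.B.es x)) ≤ (U.y ^ 43)⁻¹ := by
  refine sm_bd.mono fun U h P hP x => ⟨?_, ?_⟩
  · refine (n2_val_ubox0u U.B (Lplus P) U.σ x).trans ?_
    rw [← inv_pow]
    linarith [h.sig_ubox0u hP, step_ubox0u h.x_ubox0u (show (16 : ℝ) ≤ 1000 by norm_num) 13]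
  · refine (n2_val_ubox0u U.B (Lplus U.R) (fun m => gam (U.a m)) x).trans ?_
    have h1 := sum_le_card_nsmul _ _ _ (h.gam_ubox0u (P := U.R))
    have h2 := mul_le_mul_of_nonneg_right (le_inv_ubox0u h.y0 h.card)
      (show 0 ≤ U.y⁻¹ ^ 6 by have := h.y0; positivity)
    rw [nsmul_eq_mul, ← inv_pow] at h1
    rw [mul_assoc, ← pow_add] at h2
    rw [← inv_pow, n2]
    linarith [step_ubox0u h.x_ubox0u (show (64 : ℝ) ≤ 1000 by norm_num) 42]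

theorem sm_dn : Sm D C fun U => ∀ P, U.R ≤ P →
    (∀ x, (U.K P).Dn (val U.B.es x) ≤ 2 * (U.K P).r ^ 2 + (U.K P).kk (val U.B.es x)) ∧
      ∫ x, (U.K P).kk (val U.B.es x) ∂(U.B.μ : Measure R3) ≤ 1 := by
  refine (sm_bd.and (sm_hs.and sm_T0)).mono fun U ⟨h, h1, h2⟩ P hP => ⟨fun x => ?_, ?_⟩
  · refine (Co.Dn_le (h1 P hP x).1).trans ?_
    have a1 := (U.ok hP).N_le
    have a2 := h.mul_ubox0u (h2 P hP) (Nat.zero_le _)
    have a3 : U.y⁻¹ ^ 412 ≤ 2 * (U.K P).r ^ 2 := h.r_ubox0u.1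
    have a4 := step_ubox0u h.x_ubox0u le_rfl 14
    have a5 : U.y⁻¹ ^ (14 + 1) ≤ U.y⁻¹ ^ 412 :=
      pow_le_pow_right₀ (by linarith [h.x_ubox0u]) (by norm_num)
    have a6 : (U.K P).N ≤ 1 / 100 := by
      rw [pow_zero, one_mul] at a2
      linarith
    have a7 : 0 ≤ U.y⁻¹ ^ 14 := by have := h.y0; positivity
    rw [← inv_pow]
    nlinarith [mul_le_mul_of_nonneg_left a6 a7, mul_le_mul_of_nonneg_left a6 (sq_nonneg (U.K P).r)]
  · refine (Co.integral_kk (U.ok hP) (U.orth P) (by have := h.y0; positivity)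
      h.gam_ubox0u).trans ?_
    rw [← inv_pow, mul_assoc]
    linarith [h.mul_ubox0u (h2 P hP) (show 6 ≤ 777 by norm_num)]

/-- The remainder in `Co.integral_pb`, with `g2 = 1 / y ^ 6`. -/
theorem sm_rem : Sm D C fun U => ∀ P, U.R ≤ P →
    (1 + 1 / U.y ^ 4) * (16 * (U.y ^ 43)⁻¹ * (U.K P).T0) + 4 * (U.y ^ 14)⁻¹ ^ 2 +
      (4 * (U.K P).r ^ 2 + 9 * (U.y ^ 14)⁻¹) * (36 * (U.y ^ 6)⁻¹ * (U.K P).T0) +
      (96 * (U.K P).r ^ 2 * (U.y ^ 14)⁻¹ + 120 * (U.y ^ 14)⁻¹ ^ 2) * (U.K P).T0 ≤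
      (U.y ^ 29)⁻¹ := by
  refine (sm_bd.and sm_T0).mono fun U ⟨h, h2⟩ P hP => ?_
  simp only [one_div, ← inv_pow]
  exact rem_ubox0u h.x_ubox0u h.r_ubox0u.2 Co.T0_nonneg fun k hk => h.mul_ubox0u (h2 P hP) hk

/-- `Co.integral_pb` with `W = 1`, `Co.integral_u0`, `Co.integral_main1`, `gam_mul`. -/
theorem sm_two : Sm D C fun U => ∀ P, U.R ≤ P →
    (U.B.ii fun x z => (U.K P).pb (U.y ^ 4) (U.y ^ 14)⁻¹ (U.y ^ 43)⁻¹
      (val U.B.es x) (val U.B.es z)) ≤ (U.y ^ 826)⁻¹ := by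
  refine (sm_bd.and (sm_rem.and sm_T0)).mono fun U ⟨h, h1, h2⟩ P hP => ?_
  have hy := h.y0
  have a1 := Co.integral_pb (U.ok hP) (U.orth P) (ε := U.y ^ 4) (sb := (U.y ^ 14)⁻¹)
    (gb := (U.y ^ 43)⁻¹) (b := 1) (by positivity) (by positivity) (by positivity) (by positivity)
    h.gam_ubox0u (W := 1) (fun _ => zero_le_one) (fun _ => by simp) fun _ => by simp
  simp only [OneMemClass.coe_one, Pi.one_apply, one_mul] at a1
  have a2 := Co.integral_u0 (U.orth P)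
  have a3 := Co.integral_main1 (U.orth P)
  have a4 : ∑ m ∈ (U.K P).s, ((U.K P).γ m * (U.K P).σ m) ^ 2 = ∑ m ∈ Lplus P, U.a m ^ 2 :=
    sum_congr rfl fun m _ => congrArg (· ^ 2) (gam_mul _)
  have a5 := Co.T0_nonneg (K := U.K P)
  have a6 := two_ubox0u (e := U.y ^ 4) h.x_ubox0u (sq_nonneg _) h.r_ubox0u.2
    (by simpa using h.mul_ubox0u (h2 P hP) (Nat.zero_le _)) a5
    (sum_nonneg fun m _ => sq_nonneg (U.a m)) (by simpa using le_inv_ubox0u hy (h.asum P))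
    (n2_nonneg _) (h.sig_ubox0u hP) (pow_le_one₀ hy.le (by linarith [h.y1]))
  rw [a4] at a2
  rw [inv_pow, inv_pow, ← pow_mul] at a6
  refine a1.trans (le_trans (add_le_add (add_le_add (mul_le_mul_of_nonneg_left a2 (by positivity))
    (mul_le_mul_of_nonneg_left a3 (by positivity))) (h1 P hP)) a6)

/-- `Co.Ok.kn_le` with `ε = y ^ 4`, `PL = y ^ 777`, `Pσ = y ^ 799`. -/
theorem sm_kn : Sm D C fun U => ∀ P, U.R ≤ P →
    ∑ m ∈ Lplus P, U.p2 m * U.σ m ^ 2 ≤ U.y ^ 387 →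
    (U.K P).kn U.p2 / 2 ≤ (∑ m ∈ Lplus P, U.p2 m * U.σ m ^ 2) / 2 +
      2 * U.ρ * U.SL * D.G1 + 3 * U.y ^ 790 := by
  refine (sm_bd.and (sm_T1.and (sm_T0.and (sm_small (8 * D.G1))))).mono
    fun U ⟨h, h1, h2, h3⟩ P hP hS => ?_
  have hy := h.y0
  have hG := D.G1_bounds.1
  have a1 := (U.ok hP).kn_le (P := U.p2) (ε := U.y ^ 4) (PL := U.y ^ 777) (Pσ := U.y ^ 799)
    (by positivity) (fun m _ => sq3_nonneg _) (by positivity) (by positivity)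
    (fun m hm => (mul_le_mul (h.plow m hm) (h.gam_ubox0u m hm) (sq_nonneg _)
      (by positivity)).trans (le_of_eq (by field_simp)))
    fun m hm => h.psig m (mem_Lplus.mp hm).1
  have a2 : U.y ^ 4 * (U.ρ * U.SL * D.G1) ≤ U.y ^ 790 / 4 := by
    have b1 := mul_le_mul (mul_le_mul h.rho.2 (le_inv_ubox0u hy h.sl) h.sl0 (by positivity))
      (le_inv_ubox0u (k := 1) (c := 1 / 8) (A := D.G1) hy (by rw [pow_one]; linarith)) hG
      (by positivity)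
    exact (mul_le_mul_of_nonneg_left b1 (by positivity)).trans (le_of_eq (by field_simp; ring))
  have a3 := kn_ubox0u (S := ∑ m ∈ Lplus P, U.p2 m * U.σ m ^ 2) hy h.y1
    (sum_nonneg fun m _ => mul_nonneg (sq3_nonneg _) (sq_nonneg _)) hS
    (h2 P hP) a2 (h1 P hP).1 (h1 P hP).2 a1
  linarith

end Pool.Agent.BoseLHY
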