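import Pool.Agent.Lib.MP_dec75e_mp.U.LowS
import Pool.Agent.Lib.MP_dec75e_mp.U.UBox0
import Pool.Agent.Lib.MP_dec75e_mp.U.Kin0
import Pool.Agent.Lib.MP_dec75e_mp.U.Pot0
import Pool.Agent.Lib.MP_dec75e_mp.U.Cub3

/-! The energy of the trial state in one box. -/

open MeasureTheory Finset Function
open scoped Real

noncomputable section

namespace Pool.Agent.BoseLHY

open Pool.Agent.BoseTail

variable {D : Dat} {C : ℝ}

theorem num1_uboxu {y T A Bm X S c g V Rm I : ℝ} (y0 : 0 < y) (y1 : y ≤ 1 / 1000)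
    (hT0 : 0 ≤ T) (hT : T ≤ y ^ 778) (hA1 : A / 2 ≤ X + y ^ 790) (hA2 : A ≤ y ^ 387)
    (hB : Bm / 2 ≤ 2 * S * g + y ^ 790) (hS : S * y ^ 13 ≤ 2 * y ^ 800)
    (hg0 : 0 ≤ g) (hg : 4 * g * y ≤ 1) (hc0 : 0 ≤ c) (hc : c * y ≤ 1) (hV0 : 0 < V)
    (hV : 1 ≤ V * y ^ 1212) (hR : Rm ≤ (y ^ 29)⁻¹)
    (hI : I ≤ (1 + 18 * T) * A + (1 + y ^ 4) * Bm + 8 * c / V * Rm) :
    I / 2 ≤ X + 2 * S * g + 4 * y ^ 790 := by
  have y2 : y ≤ 1 := by linarith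
  have p790 : 0 < y ^ 790 := by positivity
  have q : ∀ k, 791 ≤ k → y ^ k ≤ y ^ 790 / 1000 := fun k hk =>
    (pow_le_pow_of_le_one y0.le y2 hk).trans (by rw [pow_succ]; nlinarith)
  have a1 : T * A ≤ y ^ 790 / 1000 := by
    refine le_trans ?_ (q 1165 (by norm_num))
    calc T * A ≤ T * y ^ 387 := mul_le_mul_of_nonneg_left hA2 hT0
      _ ≤ y ^ 778 * y ^ 387 := mul_le_mul_of_nonneg_right hT (by positivity)
      _ = _ := by ring
  have a2 : S ≤ 2 * y ^ 787 := by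
    refine le_of_mul_le_mul_right ?_ (by positivity : 0 < y ^ 13)
    calc S * y ^ 13 ≤ 2 * y ^ 800 := hS
      _ = _ := by ring
  have a3 : y ^ 4 * (2 * S * g) ≤ y ^ 790 := by
    calc y ^ 4 * (2 * S * g) ≤ y ^ 4 * (2 * (2 * y ^ 787) * g) := by gcongr
      _ = 4 * g * y * y ^ 790 := by ring
      _ ≤ 1 * y ^ 790 := mul_le_mul_of_nonneg_right hg p790.le
      _ = _ := one_mul _
  have a4 : y ^ 4 * y ^ 790 ≤ y ^ 790 / 1000 := by
    rw [← pow_add]; exact q _ (by norm_num)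
  have a5 : y ^ 4 * (Bm / 2) ≤ y ^ 4 * (2 * S * g + y ^ 790) :=
    mul_le_mul_of_nonneg_left hB (by positivity)
  have a6 : c / V * Rm ≤ y ^ 790 / 1000 := by
    refine le_trans ?_ (q 1182 (by norm_num))
    have b1 : c / V ≤ c * y ^ 1212 := by
      rw [div_le_iff₀ hV0]
      calc c = c * 1 := (mul_one c).symm
        _ ≤ c * (V * y ^ 1212) := mul_le_mul_of_nonneg_left hV hc0
        _ = _ := by ring
    calc c / V * Rm ≤ c / V * (y ^ 29)⁻¹ := mul_le_mul_of_nonneg_left hR (by positivity)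
      _ ≤ c * y ^ 1212 * (y ^ 29)⁻¹ := mul_le_mul_of_nonneg_right b1 (by positivity)
      _ = c * y * y ^ 1182 := by field_simp
      _ ≤ 1 * y ^ 1182 := mul_le_mul_of_nonneg_right hc (by positivity)
      _ = _ := one_mul _
  have e : 8 * c / V * Rm = 8 * (c / V * Rm) := by ring
  rw [e] at hI
  nlinarith

theorem num2_uboxu {y ρ S g : ℝ} (y0 : 0 < y) (y1 : y ≤ 1 / 1000) (hρ : |ρ - y ^ 800| ≤ y ^ 1198)
    (hS0 : 0 ≤ S) (hS : S * y ^ 13 ≤ 1) (hg0 : 0 ≤ g) (hg : 2 * g * y ≤ 1) :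
    2 * ρ * S * g + 7 * y ^ 790 + y ^ 791 + y ^ 800 ≤ 2 * (g * y ^ 800 * S) + y ^ 789 := by
  have y2 : y ≤ 1 := by linarith
  have q : ∀ k, 790 ≤ k → y ^ k ≤ y ^ 789 / 1000 := fun k hk =>
    (pow_le_pow_of_le_one y0.le y2 hk).trans (by
      have : 0 < y ^ 789 := by positivity
      rw [pow_succ]; nlinarith)
  have a1 : 2 * (ρ - y ^ 800) * S * g ≤ y ^ 1184 := by
    calc 2 * (ρ - y ^ 800) * S * g ≤ 2 * y ^ 1198 * S * g := by
          gcongr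
          exact (le_abs_self _).trans hρ
      _ = 2 * g * y * (S * y ^ 13) * y ^ 1184 := by ring
      _ ≤ 1 * 1 * y ^ 1184 := by gcongr
      _ = _ := by ring
  have p789 : 0 < y ^ 789 := by positivity
  have := q 790 le_rfl
  have := q 791 (by norm_num)
  have := q 800 (by norm_num)
  have := q 1184 (by norm_num)
  nlinarith

/-- `Co.integral_pb` with `W = dif D.w` and `b = 8 C ^ 4 / s ^ 3`. -/
theorem sm_pot : Sm D C fun U => ∀ P, U.Cut P →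
    (U.B.ii fun x z => D.w.1 (x - z) * (U.K P).pb (U.y ^ 4) (U.y ^ 14)⁻¹ (U.y ^ 43)⁻¹
      (val U.B.es x) (val U.B.es z)) / 2 ≤
      U.ρ ^ 2 * U.s ^ 3 * (4 * π * D.a - D.G1) / 2 +
        ∑ m ∈ Lplus U.R, U.ρ * U.gh m * (U.a m + U.ρ * U.oh m) +
        2 * U.ρ * U.SL * (4 * π * D.a - D.G1) + 4 * U.y ^ 790 := by
  refine (((((((sm_bd (D := D) (C := C)).and sm_T0).and sm_pot0).and sm_cub3).and sm_rem).and
    (sm_small (4 * (4 * π * D.a)))).and (sm_small (D.C ^ 4))).mono ?_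
  rintro U ⟨⟨⟨⟨⟨⟨hb, hT⟩, hp⟩, hc⟩, hr⟩, h1⟩, h2⟩ P hP
  have y0 := hb.y0
  have hs := U.hs
  obtain ⟨g0, g1⟩ := D.G1_bounds
  obtain ⟨iw, iw'⟩ := D.int_w
  have hm : (∫ z, D.w.1 z) / U.B.vol ≤ 8 * D.C ^ 4 / U.s ^ 3 := by
    rw [U.vol]
    exact div_le_div_of_nonneg_right iw' (by positivity)
  have hg : ∀ m ∈ (U.K P).s, (U.K P).γ m ^ 2 ≤ (U.y ^ 6)⁻¹ := fun m hm => by
    rw [← one_div, le_div_iff₀ (by positivity)]
    exact hb.gam2 m (mem_Lplus.1 hm).1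
  have hI := Co.integral_pb (U.ok hP.le) (U.orth P) (ε := U.y ^ 4) (sb := (U.y ^ 14)⁻¹)
    (gb := (U.y ^ 43)⁻¹) (g2 := (U.y ^ 6)⁻¹) (b := 8 * D.C ^ 4 / U.s ^ 3) (by positivity)
    (by positivity) (by positivity) (by positivity) hg (W := dif D.w) (fun z => D.w0 _)
    (fun x => (U.B.integral_sub_le iw D.w0 x).1.trans hm)
    fun x => (U.B.integral_sub_le iw D.w0 x).2.trans hm
  have hS : U.ρ * U.SL * U.y ^ 13 ≤ 2 * U.y ^ 800 := by
    have r0 : 0 ≤ U.ρ := le_trans (by positivity) hb.rho.1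
    calc U.ρ * U.SL * U.y ^ 13 = U.ρ * (U.SL * U.y ^ 13) := by ring
      _ ≤ U.ρ * 1 := mul_le_mul_of_nonneg_left hb.sl r0
      _ ≤ _ := by rw [mul_one]; exact hb.rho.2
  have key := num1_uboxu (S := U.ρ * U.SL) (g := 4 * π * D.a - D.G1) (c := D.C ^ 4)
    (V := U.s ^ 3) y0 hb.y1 Co.T0_nonneg (hT P hP.le) (hp P hP).1 (hp P hP).2
    ((hc P hP).trans (le_of_eq (by ring))) hS (by linarith)
    (by nlinarith) (by have := D.hC; positivity) h2 (by positivity) (U.s_pow 3).1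
    (hr P hP.le) hI
  refine le_trans key (le_of_eq ?_)
  ring

/-- The trial state in one box. -/
theorem sm_box : Sm D C fun U => ∃ K : Co M3,
    BoxOk K U.B D.w (U.y ^ 4) (U.y ^ 14)⁻¹ (U.y ^ 43)⁻¹
      (2 * π * D.a * U.ρ ^ 2 * U.s ^ 3 + D.mu0 U.y * U.SL +
        D.mu0 U.y * ∑ m ∈ Lplus U.R, FF (U.t m) (U.t m) + U.y ^ 789) (U.y ^ 826)⁻¹ ∧
    K.r ^ 2 = U.ρ * U.s ^ 3 ∧ U.SL ≤ n2 K.s K.σ := by
  refine (((((((((sm_bd (D := D) (C := C)).and sm_pot).and sm_hs).and sm_dn).and sm_two).and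
    sm_kn).and sm_kin0).and sm_lows).and (sm_small (2 * (4 * π * D.a)))).mono ?_
  rintro U ⟨⟨⟨⟨⟨⟨⟨⟨hb, hp⟩, hh⟩, hd⟩, ht⟩, hk⟩, h0⟩, hl⟩, h1⟩
  obtain ⟨P, hP⟩ := U.exists_cut
  have y0 := hb.y0
  have ha := D.ha
  refine ⟨U.K P, ⟨U.ok hP.le, fun m hm => (mem_Lplus.1 hm).1, hb.r0, by positivity,
    fun x => (hh P hP.le x).1, fun x => (hh P hP.le x).2, ?_, ht P hP.le, (hd P hP.le).1,
    (hd P hP.le).2⟩, hb.r2, ?_⟩
  · have e : (fun m => sq3 (U.B.p m)) = U.p2 := funext fun m => by rw [U.p_eq]; rfl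
    rw [e]
    have a1 := hk P hP.le (h0 P hP.le).2
    have a2 := (h0 P hP.le).1
    have a3 := hp P hP
    have a4 := num2_uboxu (g := 4 * π * D.a) y0 hb.y1 U.hρ hb.sl0 hb.sl (by positivity) h1
    have e2 : D.mu0 U.y * U.SL = 4 * π * D.a * U.y ^ 800 * U.SL := rfl
    rw [← e2] at a4
    linarith
  · rw [← hb.slσ]
    exact Finset.sum_le_sum_of_subset_of_nonneg (Lplus_mono hP.le) fun m _ _ => sq_nonneg _

end Pool.Agent.BoseLHY
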