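import Pool.Agent.Lib.MP_dec75e_mp.U.Df

/-! The second order upper bound: numerical part. -/

open MeasureTheory Finset Function
open scoped Real

noncomputable section

namespace Pool.Agent.BoseLHY

open Pool.Agent.BoseTail

/-- The fluctuation term. -/
theorem fluct_up0u {y N ν : ℝ} (hy : 0 < y) (hy1 : y ≤ 1) (hN : 1 ≤ N * y ^ 4000)
    (hν : ν ≤ N * y ^ 412) :
    (ν * (y ^ 826)⁻¹ + N * (1 + 2 * y ^ 402)) / (N * (1 + 2 * y ^ 402) - N) ^ 2 ≤ y ^ 2000 := by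
  have hN0 : 0 < N := (mul_pos_iff_of_pos_right (pow_pos hy 4000)).1 (one_pos.trans_le hN)
  have e : (N * (1 + 2 * y ^ 402) - N) ^ 2 = 4 * y ^ 804 * N ^ 2 := by ring
  rw [e, div_le_iff₀ (by positivity)]
  refine le_of_mul_le_mul_right ?_ (pow_pos hy 826)
  have h1 : N * y ^ 412 ≤ N := mul_le_of_le_one_right hN0.le (pow_le_one₀ hy.le hy1)
  have h2 : y ^ 402 ≤ 1 := pow_le_one₀ hy.le hy1
  have h3 : N * (1 + 2 * y ^ 402) * y ^ 826 ≤ N * 3 * 1 :=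
    mul_le_mul (mul_le_mul_of_nonneg_left (by linarith) hN0.le) (pow_le_one₀ hy.le hy1)
      (by positivity) (by positivity)
  have h4 : 1 ≤ N * y ^ 3630 :=
    hN.trans (mul_le_mul_of_nonneg_left (pow_le_pow_of_le_one hy.le hy1 (by norm_num)) hN0.le)
  calc _ = ν + N * (1 + 2 * y ^ 402) * y ^ 826 := by
        rw [add_mul, inv_mul_cancel_right₀ (pow_pos hy 826).ne']
    _ ≤ 4 * N * 1 := by linarith
    _ ≤ 4 * N * (N * y ^ 3630) := mul_le_mul_of_nonneg_left h4 (by positivity)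
    _ = _ := by ring

/-- The energy of one box. -/
theorem box_up0u {y l s S ρ κ C : ℝ} (hy : 0 < y) (hy1 : y ≤ 1) (hκ : 0 ≤ κ) (hC : 0 ≤ C)
    (hs : 0 < s) (hsl : s ≤ l) (h1 : 1 ≤ l * y ^ 404) (h2 : l * y ^ 404 ≤ 2) (hS : 0 ≤ S)
    (hS1 : S * y ^ 13 ≤ 1) (hρ : ρ = y ^ 800 * (1 + 2 * y ^ 402) - S / l ^ 3) :
    κ * ρ ^ 2 * s ^ 3 + 2 * κ * y ^ 800 * S + 8 * C ^ 4 * (12 * C * ρ ^ 2 * l ^ 2 + ρ) ≤
      κ * y ^ 1600 * l ^ 3 + (65 * κ + 8 * C ^ 4 * (432 * C + 3)) * y ^ 790 := by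
  have hl : 0 < l := hs.trans_le hsl
  have hp : ∀ {a b : ℕ}, a ≤ b → y ^ b ≤ y ^ a := fun h => pow_le_pow_of_le_one hy.le hy1 h
  have v1 : 1 ≤ l ^ 3 * y ^ 1212 := by
    have := one_le_pow₀ (n := 3) h1
    rwa [mul_pow, ← pow_mul] at this
  have v2 : l ^ 3 * y ^ 1212 ≤ 8 := by
    have := pow_le_pow_left₀ (by positivity) h2 3
    rw [mul_pow, ← pow_mul] at this
    exact this.trans_eq (by norm_num)
  have v3 : l ^ 2 * y ^ 808 ≤ 4 := by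
    have := pow_le_pow_left₀ (by positivity) h2 2
    rw [mul_pow, ← pow_mul] at this
    exact this.trans_eq (by norm_num)
  have q0 : 0 ≤ S / l ^ 3 := by positivity
  have q1 : S / l ^ 3 ≤ S * y ^ 1212 := by
    rw [div_le_iff₀ (by positivity), mul_assoc, mul_comm (y ^ 1212)]
    exact le_mul_of_one_le_right hS v1
  have q2 : S / l ^ 3 ≤ y ^ 800 := by
    calc _ ≤ _ := q1
      _ = S * y ^ 13 * y ^ 1199 := by ring
      _ ≤ 1 * y ^ 800 := mul_le_mul hS1 (hp (by norm_num)) (by positivity) zero_le_one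
      _ = _ := one_mul _
  have q3 : S * (S / l ^ 3) ≤ y ^ 790 := by
    calc _ ≤ S * (S * y ^ 1212) := mul_le_mul_of_nonneg_left q1 hS
      _ = (S * y ^ 13) ^ 2 * y ^ 1186 := by ring
      _ ≤ 1 * y ^ 790 := mul_le_mul (pow_le_one₀ (by positivity) hS1) (hp (by norm_num))
          (by positivity) zero_le_one
      _ = _ := one_mul _
  have e1 : y ^ 402 ≤ 1 := pow_le_one₀ hy.le hy1
  have e2 : 0 ≤ y ^ 800 * y ^ 402 := by positivity
  have e3 : y ^ 800 * y ^ 402 ≤ y ^ 800 := mul_le_of_le_one_right (by positivity) e1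
  have r0 : 0 ≤ ρ := by rw [hρ]; linarith
  have r1 : ρ ≤ 3 * y ^ 800 := by rw [hρ]; linarith
  have r2 : ρ ^ 2 * l ^ 2 ≤ 36 * y ^ 790 := by
    calc _ ≤ (3 * y ^ 800) ^ 2 * l ^ 2 := by gcongr
      _ = 9 * (l ^ 2 * y ^ 808) * y ^ 792 := by ring
      _ ≤ 9 * 4 * y ^ 790 :=
          mul_le_mul (by linarith) (hp (by norm_num)) (by positivity) (by norm_num)
      _ = _ := by norm_num
  have r3 : ρ ≤ 3 * y ^ 790 := r1.trans (by linarith [hp (show 790 ≤ 800 by norm_num)])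
  have r4 : 8 * C ^ 4 * (12 * C * ρ ^ 2 * l ^ 2 + ρ) ≤ 8 * C ^ 4 * ((432 * C + 3) * y ^ 790) := by
    refine mul_le_mul_of_nonneg_left ?_ (by positivity)
    linarith [mul_le_mul_of_nonneg_left r2 hC]
  have r5 : ρ ^ 2 * l ^ 3 + 2 * y ^ 800 * S ≤ y ^ 1600 * l ^ 3 + 65 * y ^ 790 := by
    have g1 : ρ ^ 2 * l ^ 3 + 2 * y ^ 800 * S = y ^ 1600 * l ^ 3 +
        4 * (1 + y ^ 402) * (l ^ 3 * y ^ 1212) * y ^ 790 - 4 * (y ^ 800 * y ^ 402) * S +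
        S * (S / l ^ 3) := by
      rw [hρ]
      field_simp
      ring
    have g2 : 4 * (1 + y ^ 402) * (l ^ 3 * y ^ 1212) * y ^ 790 ≤ 4 * 2 * 8 * y ^ 790 :=
      mul_le_mul_of_nonneg_right (mul_le_mul (by linarith) v2 (by positivity) (by norm_num))
        (by positivity)
    have g3 := mul_nonneg e2 hS
    linarith
  have r6 : ρ ^ 2 * s ^ 3 ≤ ρ ^ 2 * l ^ 3 := by gcongr
  linarith [mul_le_mul_of_nonneg_left r5 hκ, mul_le_mul_of_nonneg_left r6 hκ]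

/-- The numerical part. Here `ρ = y ^ 800 (1 + 2 y ^ 402) - S / l ^ 3`, so that
`ρ L ^ 3 + n ^ 3 S = N (1 + 2 y ^ 402)`, the fluctuation term is at most `y ^ 2000`, and
`2 π a ρ ^ 2 s ^ 3 + mu0 S ≤ 2 π a y ^ 1600 l ^ 3 + A y ^ 790`. -/
theorem up_num (D : Dat) : ∃ y₀ : ℝ, 0 < y₀ ∧ ∀ (y L l ρ S T E₀ N : ℝ) (n : ℕ), 0 < y → y ≤ y₀ →
    1 ≤ L * y ^ 1600 → L = n * l → 0 < l - 2 * D.C → 1 ≤ l * y ^ 404 → l * y ^ 404 ≤ 2 →
    N = y ^ 800 * L ^ 3 → 0 ≤ S → S * y ^ 13 ≤ 1 → ρ = y ^ 800 * (1 + 2 * y ^ 402) - S / l ^ 3 →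
    T ≤ ((l - 2 * D.C) * √(2 * D.mu0 y) / π) ^ 3 * (2 * √2 * π / 15) → 0 ≤ E₀ →
    E₀ * (1 - (n ^ 3 * (y ^ 826)⁻¹ + (ρ * L ^ 3 + n ^ 3 * S)) / (ρ * L ^ 3 + n ^ 3 * S - N) ^ 2) ≤
      n ^ 3 * (2 * π * D.a * ρ ^ 2 * (l - 2 * D.C) ^ 3 + D.mu0 y * S + D.mu0 y * T + y ^ 789 +
        8 * D.C ^ 4 * (12 * D.C * ρ ^ 2 * l ^ 2 + ρ)) →
    E₀ ≤ 2 * π * D.a * y ^ 800 * N +
      D.mu0 y * (L * √(2 * D.mu0 y) / π) ^ 3 * (2 * √2 * π / 15) + 3 * y ^ 1201 * N := by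
  have ha := D.ha
  have hC : 0 ≤ D.C := zero_le_one.trans D.hC
  obtain ⟨κ, hκ⟩ : ∃ κ, κ = 2 * π * D.a := ⟨_, rfl⟩
  have hκ0 : 0 < κ := by rw [hκ]; positivity
  obtain ⟨c, hc⟩ : ∃ c, c = 2 * √2 * π / 15 := ⟨_, rfl⟩
  have hc0 : 0 < c := by rw [hc]; positivity
  obtain ⟨A, hA⟩ : ∃ A, A = 65 * κ + 8 * D.C ^ 4 * (432 * D.C + 3) := ⟨_, rfl⟩
  have hA0 : 0 < A := by rw [hA]; positivity
  obtain ⟨B, hB⟩ : ∃ B, B = 8 * κ + 16 * κ * ((√(4 * κ) / π) ^ 3 * c) + 2 := ⟨_, rfl⟩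
  have hB0 : 0 < B := by rw [hB]; positivity
  refine ⟨min (1 / 2) (min (1 / (2 * A)) (1 / (2 * B))), by positivity,
    fun y L l ρ S T E₀ N n hy hy0 hL hLn hs h1 h2 hN hS hS1 hρ hT hE h => ?_⟩
  have hy2 : y ≤ 1 / 2 := hy0.trans (min_le_left _ _)
  have hy1 : y ≤ 1 := by linarith
  have hyA : A * y ≤ 1 / 2 := by
    have := (hy0.trans (min_le_right _ _)).trans (min_le_left _ _)
    rw [le_div_iff₀ (by positivity)] at this
    linarith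
  have hyB : 2 * B * y ≤ 1 := by
    have := (hy0.trans (min_le_right _ _)).trans (min_le_right _ _)
    rw [le_div_iff₀ (by positivity)] at this
    linarith
  have hp : ∀ {a b : ℕ}, a ≤ b → y ^ b ≤ y ^ a := fun h => pow_le_pow_of_le_one hy.le hy1 h
  have hl : 0 < l := by linarith
  have hν : (0 : ℝ) ≤ (n : ℝ) ^ 3 := by positivity
  have hmu : D.mu0 y = 2 * κ * y ^ 800 := by rw [Dat.mu0, hκ]; ring
  have hL3 : L ^ 3 = n ^ 3 * l ^ 3 := by rw [hLn, mul_pow]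
  have v1 : 1 ≤ l ^ 3 * y ^ 1212 := by
    have := one_le_pow₀ (n := 3) h1
    rwa [mul_pow, ← pow_mul] at this
  have v2 : l ^ 3 * y ^ 1212 ≤ 8 := by
    have := pow_le_pow_left₀ (by positivity) h2 3
    rw [mul_pow, ← pow_mul] at this
    exact this.trans_eq (by norm_num)
  have e1 : ρ * L ^ 3 + n ^ 3 * S = N * (1 + 2 * y ^ 402) := by
    rw [hρ, hN, hL3]
    field_simp
    ring
  have f1 := fluct_up0u (N := N) (ν := n ^ 3) hy hy1 (by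
      have := one_le_pow₀ (n := 3) hL
      rw [hN]
      calc _ ≤ _ := this
        _ = _ := by ring) (by
      rw [hN, hL3]
      calc _ ≤ (n : ℝ) ^ 3 * (l ^ 3 * y ^ 1212) := le_mul_of_one_le_right hν v1
        _ = _ := by ring)
  have f2 := box_up0u hy hy1 hκ0.le hC hs (by linarith) h1 h2 hS hS1 hρ
  rw [← hc] at hT ⊢
  rw [e1, ← hκ] at h
  rw [← hA] at f2
  obtain ⟨w, hw⟩ : ∃ w, w = √(2 * D.mu0 y) / π := ⟨_, rfl⟩
  have hw0 : 0 ≤ w := by rw [hw]; positivity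
  have hw1 : w ≤ √(4 * κ) / π := by
    rw [hw, hmu]
    refine div_le_div_of_nonneg_right (Real.sqrt_le_sqrt ?_) Real.pi_pos.le
    linarith [mul_le_of_le_one_right hκ0.le (pow_le_one₀ (n := 800) hy.le hy1)]
  rw [mul_div_assoc, ← hw] at hT
  have t1 : T ≤ l ^ 3 * (w ^ 3 * c) := by
    calc _ ≤ _ := hT
      _ ≤ (l * w) ^ 3 * c := by
          gcongr
          linarith
      _ = _ := by ring
  obtain ⟨X, hX⟩ : ∃ X, X = κ * y ^ 1600 * l ^ 3 + 2 * κ * y ^ 800 * (l ^ 3 * (w ^ 3 * c)) :=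
    ⟨_, rfl⟩
  have hX0 : 0 ≤ X := by rw [hX]; positivity
  have y0 : 0 < y ^ 789 := by positivity
  have t2 : A * y ^ 790 ≤ 1 / 2 * y ^ 789 := by
    rw [pow_succ' y 789, ← mul_assoc]
    exact mul_le_mul_of_nonneg_right hyA y0.le
  have t3 := mul_le_mul_of_nonneg_left t1 (by positivity : 0 ≤ 2 * κ * y ^ 800)
  have k1 : E₀ * (1 - y ^ 2000) ≤ n ^ 3 * (X + 3 / 2 * y ^ 789) := by
    refine (mul_le_mul_of_nonneg_left (by linarith) hE).trans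
      (h.trans (mul_le_mul_of_nonneg_left ?_ hν))
    rw [hmu, hX]
    linarith
  have k2 : y ^ 2000 ≤ 1 / 2 := (hp (show 1 ≤ 2000 by norm_num)).trans (by rwa [pow_one])
  have k3 : y ^ 2000 * (X + 3 / 2 * y ^ 789) ≤ B * y ^ 790 := by
    have g1 : y ^ 2000 * (κ * y ^ 1600 * l ^ 3) ≤ κ * 8 * y ^ 790 := by
      calc _ = κ * (l ^ 3 * y ^ 1212) * y ^ 2388 := by ring
        _ ≤ _ := mul_le_mul (mul_le_mul_of_nonneg_left v2 hκ0.le) (hp (by norm_num))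
          (by positivity) (by positivity)
    have g2 : y ^ 2000 * (2 * κ * y ^ 800 * (l ^ 3 * (w ^ 3 * c))) ≤
        2 * κ * 8 * ((√(4 * κ) / π) ^ 3 * c) * y ^ 790 := by
      calc _ = 2 * κ * (l ^ 3 * y ^ 1212) * (w ^ 3 * c) * y ^ 1588 := by ring
        _ ≤ _ := mul_le_mul (by gcongr) (hp (by norm_num)) (by positivity) (by positivity)
    have g3 : y ^ 2000 * y ^ 789 ≤ y ^ 790 := by
      rw [← pow_add]
      exact hp (by norm_num)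
    have g4 : 0 < y ^ 790 := by positivity
    rw [hX, hB]
    linarith
  have k4 : 2 * (B * y ^ 790) ≤ y ^ 789 := by
    rw [pow_succ' y 789, ← mul_assoc, ← mul_assoc]
    exact mul_le_of_le_one_left y0.le hyB
  have k5 : y ^ 789 ≤ y ^ 2001 * l ^ 3 := by
    calc _ ≤ y ^ 789 * (l ^ 3 * y ^ 1212) := le_mul_of_one_le_right y0.le v1
      _ = _ := by ring
  have k6 : E₀ ≤ n ^ 3 * (X + 3 / 2 * y ^ 789) * (1 + 2 * y ^ 2000) := by
    have g0 : 0 ≤ y ^ 2000 := by positivity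
    refine le_trans ?_ (mul_le_mul_of_nonneg_right k1 (by positivity))
    rw [mul_assoc]
    refine le_mul_of_one_le_right hE ?_
    generalize y ^ 2000 = η at *
    nlinarith
  calc E₀ ≤ _ := k6
    _ = n ^ 3 * (X + 3 / 2 * y ^ 789 + 2 * (y ^ 2000 * (X + 3 / 2 * y ^ 789))) := by ring
    _ ≤ n ^ 3 * (X + 3 * (y ^ 2001 * l ^ 3)) := mul_le_mul_of_nonneg_left (by linarith) hν
    _ = _ := by
        rw [mul_div_assoc, ← hw, mul_pow L, hmu, hN, hL3, hX, ← hκ]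
        ring

end Pool.Agent.BoseLHY
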