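import Pool.Agent.Lib.MP_dec75e_mp.U.TorU
import Pool.Agent.Lib.MP_dec75e_mp.U.UBox
import Pool.Agent.Lib.MP_dec75e_mp.U.RiemU
import Pool.Agent.Lib.MP_dec75e_mp.U.Up0

/-! The second order upper bound. -/

open MeasureTheory Finset Function
open scoped Real

noncomputable section

namespace Pool.Agent.BoseLHY

open Pool.Agent.BoseTail

theorem side_upu {y l b S s : ℝ} (hy : 0 < y) (hy1 : y ≤ 1 / 10) (hb : 1 ≤ b)
    (hby : 8 * b * y ≤ 1) (h1 : 1 ≤ l * y ^ 404) (hs : 1 ≤ s * y ^ 404) (hS0 : 0 ≤ S)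
    (hS : S * y ^ 13 ≤ 1) :
    b ≤ s / 8 ∧ b ≤ (y ^ 8)⁻¹ ∧
      |y ^ 800 * (1 + 2 * y ^ 402) - S / l ^ 3 - y ^ 800| ≤ y ^ 1198 ∧
      0 ≤ y ^ 800 * (1 + 2 * y ^ 402) - S / l ^ 3 := by
  have y1 : y ≤ 1 := by linarith
  have hp : ∀ {m n : ℕ}, m ≤ n → y ^ n ≤ y ^ m := fun h => pow_le_pow_of_le_one hy.le y1 h
  have hl : 0 < l := by
    by_contra hn
    have : l * y ^ 404 ≤ 0 := mul_nonpos_of_nonpos_of_nonneg (not_lt.1 hn) (by positivity)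
    linarith
  have hs0 : 0 < s := by
    by_contra hn
    have : s * y ^ 404 ≤ 0 := mul_nonpos_of_nonpos_of_nonneg (not_lt.1 hn) (by positivity)
    linarith
  have e1 : S / l ^ 3 ≤ y ^ 1199 := by
    rw [div_le_iff₀ (by positivity)]
    have h3 : 1 ≤ (l * y ^ 404) ^ 3 := one_le_pow₀ h1
    have h4 : S * y ^ 13 ≤ y ^ 1199 * l ^ 3 * y ^ 13 := by
      calc S * y ^ 13 ≤ (l * y ^ 404) ^ 3 := hS.trans h3
        _ = _ := by ring
    exact le_of_mul_le_mul_right h4 (by positivity)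
  have e0 : 0 ≤ S / l ^ 3 := by positivity
  have e2 : y ^ 1199 ≤ y ^ 1198 / 10 := by
    rw [pow_succ]; nlinarith [pow_pos hy 1198]
  have e3 : y ^ 800 * (2 * y ^ 402) ≤ y ^ 1198 / 5 := by
    calc y ^ 800 * (2 * y ^ 402) = 2 * y ^ 1202 := by ring
      _ ≤ 2 * y ^ 1199 := by linarith [hp (show 1199 ≤ 1202 by norm_num)]
      _ ≤ _ := by linarith
  have e4 : 0 ≤ y ^ 800 * (2 * y ^ 402) := by positivity
  have e5 : y ^ 1198 ≤ y ^ 800 := hp (by norm_num)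
  have e6 : 0 < y ^ 1198 := by positivity
  refine ⟨?_, ?_, abs_le.2 ⟨by linarith, by linarith⟩, by linarith⟩
  · have h5 : y ^ 404 ≤ y := by simpa using hp (show 1 ≤ 404 by norm_num)
    have h6 : 8 * b * y ≤ s * y := by nlinarith
    have := le_of_mul_le_mul_right h6 hy
    linarith
  · have h5 : y ^ 8 ≤ y := by simpa using hp (show 1 ≤ 8 by norm_num)
    rw [← one_div, le_div_iff₀ (by positivity)]
    nlinarith

/-- The Lee-Huang-Yang upper bound. -/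
theorem upper {v : E3 → ℝ} (hv : Continuous v) (h0 : ∀ x, 0 ≤ v x) (hc : HasCompactSupport v)
    (D : Dat) (hw : ∀ z, D.w.1 z = v (WithLp.toLp 2 z)) {C : ℝ} (hD : UD D C) :
    ∃ y₀ : ℝ, 0 < y₀ ∧ ∀ (y : ℝ) (N : ℕ) (L : ℝ) [Fact (0 < L)] (E₀ : ℝ), 0 < y → y ≤ y₀ →
      (N : ℝ) = y ^ 800 * L ^ 3 → 1 ≤ L * y ^ 1600 → LBd v N L E₀ →
      E₀ ≤ 2 * π * D.a * y ^ 800 * N +
        D.mu0 y * (L * √(2 * D.mu0 y) / π) ^ 3 * (2 * √2 * π / 15) + 3 * y ^ 1201 * N := by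
  have hC := D.hC
  obtain ⟨y₁, hy₁, H₁⟩ := sm_box (D := D) (C := C)
  obtain ⟨y₂, hy₂, H₂⟩ := up_num D
  obtain ⟨y₃, hy₃, H₃⟩ := exists_scale2 hC
  obtain ⟨y₄, hy₄, H₄⟩ := D.SL_le
  refine ⟨min (min (min y₁ y₂) (min y₃ y₄)) (min (1 / 10) (1 / (8 * D.C))), by positivity,
    fun y N L _ E₀ hy hle hN hL hE => ?_⟩
  simp only [le_min_iff] at hle
  obtain ⟨⟨⟨a1, a2⟩, a3, a4⟩, a5, a6⟩ := hle
  have hL0 : 0 < L := Fact.out
  have ha := D.ha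
  rcases le_or_gt 0 E₀ with hE0 | hE0
  swap
  · have : 0 ≤ D.mu0 y := by unfold Dat.mu0; positivity
    have : 0 ≤ 2 * π * D.a * y ^ 800 * N +
      D.mu0 y * (L * √(2 * D.mu0 y) / π) ^ 3 * (2 * √2 * π / 15) + 3 * y ^ 1201 * N := by
      positivity
    linarith
  obtain ⟨n, R, l, hn, hs, l1, l2, hsc⟩ := H₃ y L hy a3 hL
  obtain ⟨S0, S1⟩ := H₄ y _ R hsc a4
  have a7 : 8 * D.C * y ≤ 1 := by
    rw [le_div_iff₀ (by positivity)] at a6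
    linarith
  obtain ⟨b1, b2, b3, b4⟩ := side_upu hy a5 hC a7 l1 hsc.l1 S0 S1
  obtain ⟨ω, m, ω', t1⟩ := hD.2 _ b1
  obtain ⟨η, k, η', t2⟩ := hD.2 _ b2
  let U : USet D C := ⟨y, l - 2 * D.C, R, _, hs, ω, m, ω', η, k, η', hD.1, hsc, b3, t1, t2⟩
  obtain ⟨K, hB, hr, hS⟩ := H₁ U a1
  have hl : 0 < l := by linarith
  have hN' : (N : ℝ) < U.ρ * L ^ 3 + n ^ 3 * U.SL := by
    have e : U.ρ * L ^ 3 + n ^ 3 * U.SL = y ^ 800 * (1 + 2 * y ^ 402) * L ^ 3 := by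
      change (y ^ 800 * (1 + 2 * y ^ 402) - D.SL y (l - 2 * D.C) R / l ^ 3) * L ^ 3 +
        n ^ 3 * D.SL y (l - 2 * D.C) R = _
      rw [hn]
      field_simp
      ring
    rw [e, hN]
    have : 0 < y ^ 800 * (2 * y ^ 402) * L ^ 3 := by positivity
    linarith
  have h1 := torus_ub hv h0 hc D hw hs hn hB b4 hr hS (by positivity) hE hE0 hN'
  exact H₂ y L l U.ρ U.SL _ E₀ N n hy a2 hL hn hs l1 l2 hN S0 S1 rfl (sum_FF_le D hy hs R) hE0 h1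

end Pool.Agent.BoseLHY
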