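import Pool.Agent.Lib.MP_dec75e_mp.U.Moll
import Pool.Agent.Lib.MP_dec75e_mp.U.Up
import Pool.Agent.Lib.MP_dec75e_mp.U.DatU
import Pool.Agent.Lib.MP_dec75e_mp.L.Fin2

/-! The upper bound in physical units. -/

open MeasureTheory Finset Function
open scoped Real

noncomputable section

namespace Pool.Agent.BoseLHY

open Pool.Agent.BoseTail

/-- `upper`, `unit_eq`, `exists_y`, `lbd_of_adm`. -/
theorem upper_lhy {v f : E3 → ℝ} {a η : ℝ} (hs : Scat v f a) (hη : 0 < η) :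
    ∃ ρ₀ : ℝ, 0 < ρ₀ ∧ ρ₀ ≤ 1 ∧ ∀ (N : ℕ) (L : ℝ) [Fact (0 < L)] (E₀ : ℝ),
      N / L ^ 3 ≤ ρ₀ → L ^ 5 ≤ (N : ℝ) ^ 2 → (∀ φ : Cf N L → ℂ, Adm φ → E₀ ≤ energy v φ) →
      E₀ ≤ 2 * π * a * (N / L ^ 3) * N * (1 + (cL + η) * √(N / L ^ 3 * a ^ 3)) := by
  obtain ⟨D, C, hDa, hw, hD⟩ := exists_ud hs
  obtain ⟨y₁, hy₁, H⟩ := upper hs.cont hs.nonneg hs.cpt D hw hD
  have ha := hs.pos
  have hs3 : 0 < √(a ^ 3) := Real.sqrt_pos.2 (by positivity)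
  obtain ⟨y₀, hy₀⟩ : ∃ y₀ : ℝ, y₀ = min (min y₁ 1) (2 * π * a * η * √(a ^ 3) / 3) := ⟨_, rfl⟩
  have h0 : 0 < y₀ := by rw [hy₀]; positivity
  have h1 : y₀ ≤ 1 := by rw [hy₀]; exact (min_le_left _ _).trans (min_le_right _ _)
  have h2 : y₀ ≤ y₁ := by rw [hy₀]; exact (min_le_left _ _).trans (min_le_left _ _)
  have h3 : y₀ ≤ 2 * π * a * η * √(a ^ 3) / 3 := by rw [hy₀]; exact min_le_right _ _
  refine ⟨y₀ ^ 800, by positivity, pow_le_one₀ h0.le h1, fun N L _ E₀ a1 a2 a3 => ?_⟩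
  have hL : 0 < L := Fact.out
  have hL3 : 0 < L ^ 3 := by positivity
  have hN : (N : ℝ) ≤ L ^ 3 := by
    have := a1.trans (pow_le_one₀ h0.le h1)
    rwa [div_le_one hL3] at this
  have hL1 : 1 ≤ L := by
    have h6 : L ^ 5 * 1 ≤ L ^ 5 * L := by
      calc L ^ 5 * 1 = L ^ 5 := mul_one _
        _ ≤ (N : ℝ) ^ 2 := a2
        _ ≤ (L ^ 3) ^ 2 := pow_le_pow_left₀ (Nat.cast_nonneg N) hN 2
        _ = L ^ 5 * L := by ring
    exact le_of_mul_le_mul_left h6 (by positivity)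
  have a5 : L ^ 3 ≤ (N : ℝ) ^ 2 := (pow_le_pow_right₀ hL1 (by norm_num)).trans a2
  obtain ⟨y, hy, hyy, hNy, hρ, -⟩ := exists_y hL h0 h1 a1 a5
  have hL2 : 1 ≤ L * y ^ 1600 := by
    have h6 : L ^ 5 * 1 ≤ L ^ 5 * (L * y ^ 1600) := by
      calc L ^ 5 * 1 = L ^ 5 := mul_one _
        _ ≤ (N : ℝ) ^ 2 := a2
        _ = _ := by rw [hNy]; ring
    exact le_of_mul_le_mul_left h6 (by positivity)
  have h4 := H y N L E₀ hy (hyy.trans h2) hNy hL2 (lbd_of_adm hs.nonneg a3)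
  obtain ⟨u1, u2, u3⟩ := unit_eq D hy hL hNy
  rw [u1, mul_right_comm (32 * √2 / (π * √π)), u3, u2, hDa] at h4
  rw [hρ, ← hDa, u2, hDa]
  have h5 : 3 * y ^ 1201 * N ≤ 2 * π * a * η * √(a ^ 3) * (y ^ 1200 * N) := by
    have h6 : 3 * y ≤ 2 * π * a * η * √(a ^ 3) := by linarith
    calc 3 * y ^ 1201 * N = 3 * y * (y ^ 1200 * N) := by ring
      _ ≤ _ := mul_le_mul_of_nonneg_right h6 (mul_nonneg (pow_pos hy _).le (Nat.cast_nonneg N))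
  calc E₀ ≤ _ := h4
    _ ≤ 2 * π * a * y ^ 800 * N + cL * (2 * π * a * y ^ 800 * N * (y ^ 400 * √(a ^ 3))) +
      2 * π * a * η * √(a ^ 3) * (y ^ 1200 * N) := add_le_add le_rfl h5
    _ = _ := by ring

end Pool.Agent.BoseLHY
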