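import Pool.Agent.Lib.MP_dec75e_mp.U.Ms

/-! The space of Fock vectors with geometric decay. -/

open MeasureTheory Finset Function
open scoped Real

noncomputable section

namespace Pool.Agent.BoseLHY

open Pool.Agent.BoseTail

variable {α : Type} [MeasurableSpace α] {ν : ProbabilityMeasure α} {z : ℝ}
  {Ψ Φ Φ' : Multiset α → ℝ}

theorem fact_fkau (z : ℝ) (n : ℕ) :
    z ^ (n + 1) / (n + 1).factorial * ((n + 1 : ℕ) : ℝ) = z * (z ^ n / n.factorial) := by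
  rw [Nat.factorial_succ]
  have : (n.factorial : ℝ) ≠ 0 := by positivity
  push_cast
  field_simp
  ring

theorem cs_fkau {f g : α → ℝ} (hf : BM f) (hg : BM g) :
    (∫ x, f x * g x ∂(ν : Measure α)) ^ 2 ≤
      (∫ x, f x ^ 2 ∂(ν : Measure α)) * ∫ x, g x * g x ∂(ν : Measure α) := by
  have h := discrim_le_zero (a := ∫ x, f x ^ 2 ∂(ν : Measure α))
    (b := 2 * ∫ x, f x * g x ∂(ν : Measure α)) (c := ∫ x, g x * g x ∂(ν : Measure α)) fun t => by
      have i1 : Integrable (fun x => t * t * f x ^ 2) (ν : Measure α) :=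
        ((BM.const _).mul (hf.pow 2)).integrable
      have i2 : Integrable (fun x => 2 * t * (f x * g x)) (ν : Measure α) :=
        ((BM.const _).mul (hf.mul hg)).integrable
      have i3 : Integrable (fun x => g x * g x) (ν : Measure α) := (hg.mul hg).integrable
      have h0 : 0 ≤ ∫ x, t * t * f x ^ 2 + 2 * t * (f x * g x) + g x * g x ∂(ν : Measure α) :=
        integral_nonneg fun x => by
          simp only [Pi.zero_apply]
          nlinarith [sq_nonneg (t * f x + g x)]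
      rw [integral_add (i1.fun_add i2) i3, integral_add i1 i2, integral_const_mul,
        integral_const_mul] at h0
      linarith
  rw [discrim] at h
  linarith

theorem geo_fkau {q : ℝ} (q0 : 0 ≤ q) (q1 : q < 1) : ∃ K p : ℝ, 0 ≤ K ∧ 0 ≤ p ∧ p < 1 ∧
    ∀ n : ℕ, ((n : ℝ) + 1) * q ^ n ≤ K * p ^ (n + 1) := by
  have d0 : 0 < (1 - q) / 2 := by linarith
  refine ⟨((1 - q) / 2)⁻¹, q + (1 - q) / 2, by positivity, by positivity, by linarith, fun n => ?_⟩
  rw [← div_eq_inv_mul, le_div_iff₀ d0]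
  generalize (1 - q) / 2 = d at d0
  induction n with
  | zero => simpa using q0
  | succ n ih =>
    have a1 := mul_le_mul_of_nonneg_left ih q0
    have a2 : q ^ (n + 1) ≤ (q + d) ^ (n + 1) := pow_le_pow_left₀ q0 (by linarith) _
    have a3 := mul_le_mul_of_nonneg_left a2 d0.le
    rw [pow_succ (q + d) (n + 1)]
    push_cast
    rw [pow_succ q n] at a3 ⊢
    linarith

theorem wt2_comm (n : ℕ) : wt2 ν z Ψ Φ n = wt2 ν z Φ Ψ n := by
  simp only [wt2, mul_comm (sec Ψ n _)]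

theorem wt2_nonneg (hz : 0 < z) (n : ℕ) : 0 ≤ wt2 ν z Ψ Ψ n := by
  exact mul_nonneg (by positivity) (integral_nonneg fun X => mul_self_nonneg _)

theorem wt2_add (hΨ : ∀ n, BM (sec Ψ n)) (hΦ : ∀ n, BM (sec Φ n)) (hΦ' : ∀ n, BM (sec Φ' n))
    (n : ℕ) : wt2 ν z (Φ + Φ') Ψ n = wt2 ν z Φ Ψ n + wt2 ν z Φ' Ψ n := by
  unfold wt2
  rw [← mul_add, ← integral_add ((hΦ n).mul (hΨ n)).integrable ((hΦ' n).mul (hΨ n)).integrable]
  congr 1
  refine integral_congr_ae (Filter.Eventually.of_forall fun X => ?_)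
  simp only [sec, Pi.add_apply]
  ring

theorem wt2_smul (c : ℝ) (n : ℕ) : wt2 ν z (c • Φ) Ψ n = c * wt2 ν z Φ Ψ n := by
  unfold wt2
  rw [mul_left_comm, ← integral_const_mul c]
  congr 1
  refine integral_congr_ae (Filter.Eventually.of_forall fun X => ?_)
  simp only [sec, Pi.smul_apply, smul_eq_mul]
  ring

theorem wt2_zero : wt2 ν z Ψ Φ 0 = Ψ 0 * Φ 0 := by
  simp [wt2, sec, ms_zero]

/-- Removing one particle. -/
theorem wt2_er (hΨ : ∀ n, BM (sec Ψ n)) (hΦ : ∀ n, BM (sec Φ n)) {h : α → ℝ} (hh : BM h) (n : ℕ) :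
    z ^ (n + 1) / (n + 1).factorial * ∑ i, (∫ X : Fin (n + 1) → α,
        h (X i) * (Ψ (er X i) * Φ (er X i)) ∂(pm fun _ => ν)) =
      z * (∫ x, h x ∂(ν : Measure α)) * wt2 ν z Ψ Φ n := by
  have hb : BM (uncurry fun (x : α) (Y : Fin n → α) => h x * (Ψ (ms Y) * Φ (ms Y))) :=
    (hh.comp measurable_fst).mul (((hΨ n).mul (hΦ n)).comp measurable_snd)
  have e : ∀ i : Fin (n + 1), (∫ X : Fin (n + 1) → α,
      h (X i) * (Ψ (er X i) * Φ (er X i)) ∂(pm fun _ => ν)) =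
      (∫ x, h x ∂(ν : Measure α)) * ∫ X, sec Ψ n X * sec Φ n X ∂pm fun _ : Fin n => ν := by
    intro i
    simp only [er_succAbove]
    rw [integral_succAbove ν i hb, ← integral_mul_const]
    refine integral_congr_ae (Filter.Eventually.of_forall fun x => ?_)
    exact integral_const_mul _ _
  simp only [e, Finset.sum_const, Finset.card_univ, Fintype.card_fin, nsmul_eq_mul]
  rw [← mul_assoc, fact_fkau, wt2]
  ring

/-- Creation and annihilation are adjoint, sector by sector. -/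
theorem wt2_creF (hΨ : ∀ n, BM (sec Ψ n)) (hΦ : ∀ n, BM (sec Φ n)) {h : α → ℝ} (hh : BM h)
    (n : ℕ) : wt2 ν z (creF h Ψ) Φ (n + 1) = wt2 ν z Ψ (annF ν z h Φ) n := by
  have hb : BM (uncurry fun (x : α) (Y : Fin n → α) => h x * Ψ (ms Y) * Φ (x ::ₘ ms Y)) :=
    ((hh.comp measurable_fst).mul ((hΨ n).comp measurable_snd)).mul (bm_cons2 hΦ n)
  have e : ∀ i : Fin (n + 1), (∫ X : Fin (n + 1) → α,
      h (X i) * Ψ (er X i) * Φ (ms X) ∂(pm fun _ => ν)) =
      ∫ Y, Ψ (ms Y) * ∫ x, h x * Φ (x ::ₘ ms Y) ∂(ν : Measure α) ∂pm fun _ : Fin n => ν := by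
    intro i
    simp only [fun X : Fin (n + 1) → α => ms_eq_cons X i, er_succAbove]
    rw [integral_succAbove ν i hb, hb.swap]
    refine integral_congr_ae (Filter.Eventually.of_forall fun Y => ?_)
    simp only
    rw [← integral_const_mul]
    refine integral_congr_ae (Filter.Eventually.of_forall fun x => ?_)
    simp only
    ring
  have hi : ∀ i ∈ (univ : Finset (Fin (n + 1))), Integrable (fun X : Fin (n + 1) → α =>
      h (X i) * Ψ (er X i) * Φ (ms X)) (pm fun _ => ν) := fun i _ =>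
    (((hh.comp (measurable_pi_apply i)).mul (bm_er hΨ i)).mul (hΦ (n + 1))).integrable
  unfold wt2
  simp only [sec, creF_ms, Finset.sum_mul, annF]
  rw [integral_finsetSum _ hi]
  simp only [e, Finset.sum_const, Finset.card_univ, Fintype.card_fin, nsmul_eq_mul]
  rw [← mul_assoc, fact_fkau, mul_comm z, mul_assoc, ← integral_const_mul z]
  congr 1
  refine integral_congr_ae (Filter.Eventually.of_forall fun Y => ?_)
  simp only
  ring

theorem bm_creF (hΨ : ∀ n, BM (sec Ψ n)) {h : α → ℝ} (hh : BM h) (n : ℕ) :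
    BM (sec (creF h Ψ) n) := by
  have e : sec (creF h Ψ) n = fun X => ∑ i, h (X i) * Ψ (er X i) := funext fun X => creF_ms h Ψ X
  rw [e]
  exact BM.sum fun i _ => (hh.comp (measurable_pi_apply i)).mul (bm_er hΨ i)

theorem bm_annF (hΨ : ∀ n, BM (sec Ψ n)) {h : α → ℝ} (hh : BM h) (n : ℕ) :
    BM (sec (annF ν z h Ψ) n) := by
  have hb : BM (uncurry fun (Y : Fin n → α) (x : α) => h x * Ψ (x ::ₘ ms Y)) :=
    (hh.comp measurable_snd).mul ((bm_cons2 hΨ n).comp measurable_swap)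
  exact (BM.const z).mul hb.integral_right

theorem wt2_creF_le (hz : 0 < z) (hΨ : ∀ n, BM (sec Ψ n)) {h : α → ℝ} (hh : BM h) (n : ℕ) :
    wt2 ν z (creF h Ψ) (creF h Ψ) (n + 1) ≤
      (n + 1) * (z * ∫ x, h x ^ 2 ∂(ν : Measure α)) * wt2 ν z Ψ Ψ n := by
  have hi : ∀ i ∈ (univ : Finset (Fin (n + 1))), BM fun X : Fin (n + 1) → α =>
      h (X i) ^ 2 * (Ψ (er X i) * Ψ (er X i)) := fun i _ =>
    ((hh.pow 2).comp (measurable_pi_apply i)).mul ((bm_er hΨ i).mul (bm_er hΨ i))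
  rw [mul_assoc, ← wt2_er hΨ hΨ (hh.pow 2) n, ← integral_finsetSum _ fun i h => (hi i h).integrable,
    wt2, mul_left_comm, ← integral_const_mul ((n : ℝ) + 1)]
  refine mul_le_mul_of_nonneg_left (integral_mono
    ((bm_creF hΨ hh _).mul (bm_creF hΨ hh _)).integrable
    ((BM.const _).mul (BM.sum hi)).integrable fun X => ?_) (by positivity)
  have := sq_sum_le_card_mul_sum_sq (s := (univ : Finset (Fin (n + 1))))
    (f := fun i => h (X i) * Ψ (er X i))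
  simp only [Finset.card_univ, Fintype.card_fin, Nat.cast_add, Nat.cast_one] at this
  simp only [sec, creF_ms]
  rw [← sq]
  refine this.trans_eq ?_
  congr 1
  exact Finset.sum_congr rfl fun i _ => by ring

theorem wt2_annF_le (hz : 0 < z) (hΨ : ∀ n, BM (sec Ψ n)) {h : α → ℝ} (hh : BM h) (n : ℕ) :
    wt2 ν z (annF ν z h Ψ) (annF ν z h Ψ) n ≤
      (n + 1) * (z * ∫ x, h x ^ 2 ∂(ν : Measure α)) * wt2 ν z Ψ Ψ (n + 1) := by
  have hb : BM (uncurry fun (x : α) (Y : Fin n → α) => Ψ (x ::ₘ ms Y) * Ψ (x ::ₘ ms Y)) :=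
    (bm_cons2 hΨ n).mul (bm_cons2 hΨ n)
  have hb' : BM (uncurry fun (Y : Fin n → α) (x : α) => Ψ (x ::ₘ ms Y) * Ψ (x ::ₘ ms Y)) :=
    hb.comp measurable_swap
  have e : ∫ X, sec Ψ (n + 1) X * sec Ψ (n + 1) X ∂(pm fun _ : Fin (n + 1) => ν) =
      ∫ Y, ∫ x, Ψ (x ::ₘ ms Y) * Ψ (x ::ₘ ms Y) ∂(ν : Measure α) ∂pm fun _ : Fin n => ν := by
    simp only [sec, fun X : Fin (n + 1) → α => ms_eq_cons X 0, er_succAbove]
    rw [integral_succAbove ν 0 hb, hb.swap]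
  have key : ∫ X, sec (annF ν z h Ψ) n X * sec (annF ν z h Ψ) n X ∂(pm fun _ : Fin n => ν) ≤
      (z ^ 2 * ∫ x, h x ^ 2 ∂(ν : Measure α)) *
        ∫ X, sec Ψ (n + 1) X * sec Ψ (n + 1) X ∂(pm fun _ : Fin (n + 1) => ν) := by
    rw [e, ← integral_const_mul]
    refine integral_mono ((bm_annF hΨ hh _).mul (bm_annF hΨ hh _)).integrable
      ((BM.const _).mul hb'.integral_right).integrable fun Y => ?_
    have := mul_le_mul_of_nonneg_left (cs_fkau (ν := ν) hh (bm_cons hΨ (ms Y))) (sq_nonneg z)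
    simp only [sec, annF]
    linarith
  unfold wt2
  refine (mul_le_mul_of_nonneg_left key (by positivity)).trans_eq ?_
  have := fact_fkau z n
  push_cast at this ⊢
  linear_combination (-(z * (∫ x, h x ^ 2 ∂(ν : Measure α)) *
    ∫ X, sec Ψ (n + 1) X * sec Ψ (n + 1) X ∂(pm fun _ : Fin (n + 1) => ν))) * this

theorem exp_fkau (hΨ : ∀ n, BM (sec Ψ n)) (hΦ : ∀ n, BM (sec Φ n)) (c : ℝ) (n : ℕ) :
    wt2 ν z (Ψ + c • Φ) (Ψ + c • Φ) n =
      wt2 ν z Ψ Ψ n + 2 * c * wt2 ν z Ψ Φ n + c ^ 2 * wt2 ν z Φ Φ n := by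
  have h1 : ∀ n, BM (sec (c • Φ) n) := fun n => (BM.const c).mul (hΦ n)
  have h2 : ∀ n, BM (sec (Ψ + c • Φ) n) := fun n => (hΨ n).add (h1 n)
  rw [wt2_add h2 hΨ h1, wt2_smul, wt2_comm (Ψ := Ψ), wt2_comm (Ψ := Φ), wt2_add hΨ hΨ h1,
    wt2_add hΦ hΨ h1, wt2_smul, wt2_smul, wt2_comm (Ψ := Φ) (Φ := Ψ)]
  ring

theorem abs_fkau (hz : 0 < z) (hΨ : ∀ n, BM (sec Ψ n)) (hΦ : ∀ n, BM (sec Φ n)) (n : ℕ) :
    |wt2 ν z Ψ Φ n| ≤ (wt2 ν z Ψ Ψ n + wt2 ν z Φ Φ n) / 2 := by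
  have a1 := wt2_nonneg (ν := ν) (Ψ := Ψ + (1 : ℝ) • Φ) hz n
  have a2 := wt2_nonneg (ν := ν) (Ψ := Ψ + (-1 : ℝ) • Φ) hz n
  rw [exp_fkau hΨ hΦ] at a1 a2
  rw [abs_le]
  constructor <;> linarith

theorem Good.zero : Good ν z 0 := by
  refine ⟨fun n => BM.const (0 : ℝ), 0, 0, le_rfl, one_pos, fun n => ?_⟩
  simp [wt2, sec]

theorem Good.add (hz : 0 < z) (h : Good ν z Ψ) (h' : Good ν z Φ) : Good ν z (Ψ + Φ) := by
  obtain ⟨hb, C, q, q0, q1, hC⟩ := h
  obtain ⟨hb', C', q', q0', q1', hC'⟩ := h'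
  refine ⟨fun n => (hb n).add (hb' n), 2 * C + 2 * C', max q q', le_max_of_le_left q0,
    max_lt q1 q1', fun n => ?_⟩
  have c0 : 0 ≤ C := by simpa using (wt2_nonneg hz 0).trans (hC 0)
  have c0' : 0 ≤ C' := by simpa using (wt2_nonneg hz 0).trans (hC' 0)
  have a1 := mul_le_mul_of_nonneg_left (pow_le_pow_left₀ q0 (le_max_left q q') n) c0
  have a2 := mul_le_mul_of_nonneg_left (pow_le_pow_left₀ q0' (le_max_right q q') n) c0'
  have a3 := exp_fkau (ν := ν) (z := z) hb hb' 1 n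
  have a4 := (abs_le.1 (abs_fkau (ν := ν) hz hb hb' n)).2
  rw [one_smul] at a3
  linarith [hC n, hC' n]

theorem Good.smul (c : ℝ) (h : Good ν z Ψ) : Good ν z (c • Ψ) := by
  obtain ⟨hb, C, q, q0, q1, hC⟩ := h
  refine ⟨fun n => (BM.const c).mul (hb n), c ^ 2 * C, q, q0, q1, fun n => ?_⟩
  rw [wt2_smul, wt2_comm, wt2_smul, ← mul_assoc, ← sq, mul_assoc]
  exact mul_le_mul_of_nonneg_left (hC n) (sq_nonneg c)

theorem Good.creF (hz : 0 < z) (h : Good ν z Ψ) {u : α → ℝ} (hu : BM u) :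
    Good ν z (creF u Ψ) := by
  obtain ⟨hb, C, q, q0, q1, hC⟩ := h
  obtain ⟨K, p, K0, p0, p1, hK⟩ := geo_fkau q0 q1
  have c0 : 0 ≤ C := by simpa using (wt2_nonneg hz 0).trans (hC 0)
  have A0 : 0 ≤ z * ∫ x, u x ^ 2 ∂(ν : Measure α) :=
    mul_nonneg hz.le (integral_nonneg fun x => sq_nonneg _)
  refine ⟨bm_creF hb hu, (z * ∫ x, u x ^ 2 ∂(ν : Measure α)) * C * K, p, p0, p1, fun n => ?_⟩
  cases n with
  | zero =>
    rw [wt2_zero, creF_zero, mul_zero]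
    positivity
  | succ n =>
    refine (wt2_creF_le hz hb hu n).trans ?_
    have a1 := mul_le_mul_of_nonneg_left (hC n) (mul_nonneg (by positivity : (0 : ℝ) ≤ n + 1) A0)
    have a2 := mul_le_mul_of_nonneg_left (hK n) (mul_nonneg A0 c0)
    linarith

theorem Good.annF (hz : 0 < z) (h : Good ν z Ψ) {u : α → ℝ} (hu : BM u) :
    Good ν z (annF ν z u Ψ) := by
  obtain ⟨hb, C, q, q0, q1, hC⟩ := h
  obtain ⟨K, p, K0, p0, p1, hK⟩ := geo_fkau q0 q1
  have c0 : 0 ≤ C := by simpa using (wt2_nonneg hz 0).trans (hC 0)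
  have A0 : 0 ≤ z * ∫ x, u x ^ 2 ∂(ν : Measure α) :=
    mul_nonneg hz.le (integral_nonneg fun x => sq_nonneg _)
  refine ⟨bm_annF hb hu, (z * ∫ x, u x ^ 2 ∂(ν : Measure α)) * C * K, p, p0, p1, fun n => ?_⟩
  refine (wt2_annF_le hz hb hu n).trans ?_
  have a1 := mul_le_mul_of_nonneg_left (hC (n + 1))
    (mul_nonneg (by positivity : (0 : ℝ) ≤ n + 1) A0)
  have b1 : q ^ (n + 1) ≤ q ^ n := pow_le_pow_of_le_one q0 q1.le n.le_succ
  have b2 : p ^ (n + 1) ≤ p ^ n := pow_le_pow_of_le_one p0 p1.le n.le_succ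
  have b3 : ((n : ℝ) + 1) * q ^ (n + 1) ≤ K * p ^ n :=
    (mul_le_mul_of_nonneg_left b1 (by positivity)).trans
      ((hK n).trans (mul_le_mul_of_nonneg_left b2 K0))
  have a2 := mul_le_mul_of_nonneg_left b3 (mul_nonneg A0 c0)
  linarith

theorem Good.summable (hz : 0 < z) (h : Good ν z Ψ) (h' : Good ν z Φ) :
    Summable (wt2 ν z Ψ Φ) := by
  obtain ⟨hb, C, q, q0, q1, hC⟩ := h
  obtain ⟨hb', C', q', q0', q1', hC'⟩ := h'
  refine Summable.of_norm_bounded (((summable_geometric_of_lt_one q0 q1).mul_left C).add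
    ((summable_geometric_of_lt_one q0' q1').mul_left C')) fun n => ?_
  have a := abs_fkau (ν := ν) hz hb hb' n
  have := wt2_nonneg (ν := ν) (Ψ := Ψ) hz n
  have := wt2_nonneg (ν := ν) (Ψ := Φ) hz n
  rw [Real.norm_eq_abs]
  linarith [hC n, hC' n]

theorem annF_add (hΨ : ∀ n, BM (sec Ψ n)) (hΦ : ∀ n, BM (sec Φ n)) {h : α → ℝ} (hh : BM h) :
    annF ν z h (Ψ + Φ) = annF ν z h Ψ + annF ν z h Φ := by
  funext t
  simp only [annF, Pi.add_apply, mul_add]
  rw [integral_add (hh.mul (bm_cons hΨ t)).integrable (hh.mul (bm_cons hΦ t)).integrable, mul_add]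

theorem annF_smul (h : α → ℝ) (c : ℝ) : annF ν z h (c • Ψ) = c • annF ν z h Ψ := by
  funext t
  simp only [annF, Pi.smul_apply, smul_eq_mul, mul_left_comm _ c]
  rw [integral_const_mul, mul_left_comm]

end Pool.Agent.BoseLHY
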