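import Pool.Agent.Lib.MP_dec75e_mp.U.FkA
import Pool.Agent.Lib.MP_dec75e_mp.L.Abs

/-! Estimates for the quasi-free state. -/

open MeasureTheory Finset Function
open scoped Real

noncomputable section

namespace Pool.Agent.BoseLHY

open Pool.Agent.BoseTail

/-- A two step recursion with coefficients whose sum tends to `τ < 1`. -/
theorem geom_decay {a : ℕ → ℝ} {A τ S : ℝ} (h0 : ∀ n, 0 ≤ a n) (hA : 0 ≤ A) (hτ : 0 ≤ τ)
    (hτ1 : τ < 1) (hS : 0 ≤ S)
    (h : ∀ n : ℕ, a (n + 2) ≤ A / √(n + 2) * a (n + 1) + τ * √((n + S) / (n + 2)) * a n) :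
    ∃ C q : ℝ, 0 ≤ q ∧ q < 1 ∧ ∀ n, a n ^ 2 ≤ C * q ^ n := by
  set δ : ℝ := (1 - τ) / 4 with hδ
  have hδ0 : 0 < δ := by rw [hδ]; linarith
  set q : ℝ := (1 + τ) / 2 with hq
  have hq0 : 0 < q := by rw [hq]; linarith
  have hq1 : q < 1 := by rw [hq]; linarith
  set r : ℝ := √q with hr
  have hr0 : 0 < r := Real.sqrt_pos.2 hq0
  have hr2 : r ^ 2 = q := Real.sq_sqrt hq0.le
  have hr1 : r ≤ 1 := by nlinarith
  obtain ⟨N, hN⟩ := exists_nat_ge (max (S / δ) ((A / δ) ^ 2))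
  have hN1 : S / δ ≤ N := (le_max_left _ _).trans hN
  have hN2 : (A / δ) ^ 2 ≤ N := (le_max_right _ _).trans hN
  have hstep : ∀ n : ℕ, N ≤ n → a (n + 2) ≤ δ * a (n + 1) + (τ + δ) * a n := by
    intro n hn
    have hn' : (N : ℝ) ≤ n := by exact_mod_cast hn
    have hn0 : (0 : ℝ) ≤ n := Nat.cast_nonneg n
    have h2 : (0 : ℝ) < n + 2 := by linarith
    have e1 : A / √(n + 2) ≤ δ := by
      have h3 : A / δ ≤ √(n + 2) := Real.le_sqrt_of_sq_le (by linarith)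
      rw [div_le_iff₀ hδ0] at h3
      rw [div_le_iff₀ (Real.sqrt_pos.2 h2)]
      linarith
    have e2 : τ * √((n + S) / (n + 2)) ≤ τ + δ := by
      have h3 : S ≤ δ * (n + 2) := by
        rw [div_le_iff₀ hδ0] at hN1
        nlinarith
      have h4 : √((n + S) / (n + 2)) ≤ 1 + δ := by
        refine Real.sqrt_le_iff.2 ⟨by linarith, ?_⟩
        rw [div_le_iff₀ h2]
        nlinarith [mul_nonneg (mul_nonneg hδ0.le hδ0.le) h2.le, mul_nonneg hδ0.le h2.le]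
      have h5 := mul_le_mul_of_nonneg_left h4 hτ
      nlinarith
    exact (h n).trans (add_le_add (mul_le_mul_of_nonneg_right e1 (h0 _))
      (mul_le_mul_of_nonneg_right e2 (h0 _)))
  set M : ℝ := ∑ k ∈ range (N + 2), a k / r ^ k with hM
  have hM0 : 0 ≤ M := sum_nonneg fun k _ => div_nonneg (h0 k) (pow_pos hr0 k).le
  have hb : ∀ n, a n ≤ M * r ^ n := by
    intro n
    induction n using Nat.strong_induction_on with
    | _ n ih =>
      by_cases hn : n < N + 2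
      · have h3 : a n / r ^ n ≤ M :=
          single_le_sum (f := fun k => a k / r ^ k)
            (fun k _ => div_nonneg (h0 k) (pow_pos hr0 k).le) (mem_range.2 hn)
        rwa [div_le_iff₀ (pow_pos hr0 n)] at h3
      · obtain ⟨k, rfl⟩ : ∃ k, n = k + 2 := ⟨n - 2, by omega⟩
        have i1 := ih (k + 1) (by omega)
        have i0 := ih k (by omega)
        have hk := pow_pos hr0 k
        have h3 : M * r ^ (k + 1) ≤ M * r ^ k := by
          rw [pow_succ]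
          exact mul_le_mul_of_nonneg_left (mul_le_of_le_one_right hk.le hr1) hM0
        have h4 : M * r ^ (k + 2) = (δ + (τ + δ)) * (M * r ^ k) := by
          rw [pow_add, hr2, hq, hδ]
          ring
        refine (hstep k (by omega)).trans ?_
        rw [h4, add_mul δ (τ + δ)]
        exact add_le_add (mul_le_mul_of_nonneg_left (i1.trans h3) hδ0.le)
          (mul_le_mul_of_nonneg_left i0 (add_nonneg hτ hδ0.le))
  refine ⟨M ^ 2, q, hq0.le, hq1, fun n => ?_⟩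
  have h5 : M ^ 2 * q ^ n = (M * r ^ n) ^ 2 := by
    rw [mul_pow, ← pow_mul, mul_comm n 2, pow_mul, hr2]
  rw [h5]
  exact pow_le_pow_left₀ (h0 n) (hb n) 2

variable {α κ : Type} [MeasurableSpace α] [DecidableEq κ] {ν : ProbabilityMeasure α} {z : ℝ}
  {s : Finset κ} {e : κ → BF α} {Ψ : Multiset α → ℝ}

/-- Bessel's inequality. -/
theorem Orth.bessel (hz : 0 < z) (h : Orth ν z s e) {f : α → ℝ} (hf : BM f) :
    ∑ m ∈ s, (z * ∫ x, (e m).1 x * f x ∂(ν : Measure α)) ^ 2 ≤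
      z * ∫ x, f x ^ 2 ∂(ν : Measure α) := by
  set c : κ → ℝ := fun m => z * ∫ x, (e m).1 x * f x ∂(ν : Measure α) with hc
  have he : ∀ m, BM (e m).1 := fun m => (e m).2
  have h1 : ∀ x, (f x - ∑ m ∈ s, c m * (e m).1 x) ^ 2 =
      (f x ^ 2 - ∑ m ∈ s, 2 * c m * ((e m).1 x * f x)) +
        ∑ m ∈ s, ∑ m' ∈ s, c m * c m' * ((e m).1 x * (e m').1 x) := by
    intro x
    have h2 : (∑ m ∈ s, c m * (e m).1 x) ^ 2 =
        ∑ m ∈ s, ∑ m' ∈ s, c m * c m' * ((e m).1 x * (e m').1 x) := by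
      rw [sq, sum_mul_sum]
      exact sum_congr rfl fun m _ => sum_congr rfl fun m' _ => by ring
    have h3 : ∑ m ∈ s, 2 * c m * ((e m).1 x * f x) = 2 * f x * ∑ m ∈ s, c m * (e m).1 x := by
      rw [mul_sum]
      exact sum_congr rfl fun m _ => by ring
    rw [← h2, h3]
    ring
  have i1 : ∀ m, Integrable (fun x => 2 * c m * ((e m).1 x * f x)) (ν : Measure α) :=
    fun m => ((BM.const _).mul ((he m).mul hf)).integrable
  have i2 : ∀ m m', Integrable (fun x => c m * c m' * ((e m).1 x * (e m').1 x)) (ν : Measure α) :=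
    fun m m' => ((BM.const _).mul ((he m).mul (he m'))).integrable
  have i3 : Integrable (fun x => f x ^ 2) (ν : Measure α) := (hf.pow 2).integrable
  have i4 := integrable_finsetSum s fun m _ => i1 m
  have i5 : ∀ m, Integrable (fun x => ∑ m' ∈ s, c m * c m' * ((e m).1 x * (e m').1 x))
      (ν : Measure α) := fun m => integrable_finsetSum s fun m' _ => i2 m m'
  have i6 : Integrable (fun x => f x ^ 2 - ∑ m ∈ s, 2 * c m * ((e m).1 x * f x))
      (ν : Measure α) := i3.sub i4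
  have h4 : 0 ≤ ∫ x, (f x - ∑ m ∈ s, c m * (e m).1 x) ^ 2 ∂(ν : Measure α) :=
    integral_nonneg fun x => sq_nonneg _
  simp only [h1] at h4
  rw [integral_add i6 (integrable_finsetSum s fun m _ => i5 m), integral_sub i3 i4,
    integral_finsetSum s fun m _ => i1 m, integral_finsetSum s fun m _ => i5 m] at h4
  have h5 : z * ∑ m ∈ s, ∫ x, 2 * c m * ((e m).1 x * f x) ∂(ν : Measure α) =
      2 * ∑ m ∈ s, c m ^ 2 := by
    rw [mul_sum, mul_sum]
    refine sum_congr rfl fun m _ => ?_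
    rw [integral_const_mul]
    have : z * ∫ x, (e m).1 x * f x ∂(ν : Measure α) = c m := rfl
    linear_combination (2 * c m) * this
  have h6 : z * ∑ m ∈ s, ∫ x, ∑ m' ∈ s, c m * c m' * ((e m).1 x * (e m').1 x) ∂(ν : Measure α) =
      ∑ m ∈ s, c m ^ 2 := by
    rw [mul_sum]
    refine sum_congr rfl fun m hm => ?_
    rw [integral_finsetSum s fun m' _ => i2 m m', mul_sum]
    have h7 : ∀ m' ∈ s, z * ∫ x, c m * c m' * ((e m).1 x * (e m').1 x) ∂(ν : Measure α) =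
        if m = m' then c m * c m' else 0 := by
      intro m' hm'
      rw [integral_const_mul, mul_left_comm, h m hm m' hm']
      split_ifs <;> simp
    rw [sum_congr rfl h7, sum_ite_eq, if_pos hm, sq]
  have h8 := mul_nonneg hz.le h4
  rw [mul_add, mul_sub, h5, h6] at h8
  change ∑ m ∈ s, c m ^ 2 ≤ _
  linarith

/-- The number of particles in the modes of `s` is at most the particle number. -/
theorem Orth.sum_annF (hz : 0 < z) (h : Orth ν z s e) (hΨ : ∀ n, BM (sec Ψ n)) (n : ℕ) :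
    ∑ m ∈ s, wt2 ν z (annF ν z (e m).1 Ψ) (annF ν z (e m).1 Ψ) n ≤
      (n + 1) * wt2 ν z Ψ Ψ (n + 1) := by
  have he : ∀ m, BM (e m).1 := fun m => (e m).2
  have hG : BM (uncurry fun (x : α) (X : Fin n → α) => Ψ (x ::ₘ ms X) ^ 2) :=
    (bm_cons2 hΨ n).pow 2
  have hA : ∀ m, BM fun X : Fin n → α =>
      sec (annF ν z (e m).1 Ψ) n X * sec (annF ν z (e m).1 Ψ) n X :=
    fun m => (bm_annF hΨ (he m) n).mul (bm_annF hΨ (he m) n)
  have hG' : BM (uncurry fun (X : Fin n → α) (x : α) => Ψ (x ::ₘ ms X) ^ 2) :=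
    hG.comp measurable_swap
  have h1 : ∫ X, sec Ψ (n + 1) X * sec Ψ (n + 1) X ∂(pm fun _ : Fin (n + 1) => ν) =
      ∫ X, ∫ x, Ψ (x ::ₘ ms X) ^ 2 ∂(ν : Measure α) ∂(pm fun _ : Fin n => ν) := by
    rw [← hG.swap, ← integral_succAbove ν 0 hG]
    refine integral_congr_ae (Filter.Eventually.of_forall fun X => ?_)
    simp only [sec]
    rw [← er_succAbove, ← ms_eq_cons, sq]
  have h2 : ∑ m ∈ s, ∫ X, sec (annF ν z (e m).1 Ψ) n X * sec (annF ν z (e m).1 Ψ) n X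
      ∂(pm fun _ : Fin n => ν) ≤
      z * ∫ X, ∫ x, Ψ (x ::ₘ ms X) ^ 2 ∂(ν : Measure α) ∂(pm fun _ : Fin n => ν) := by
    rw [← integral_finsetSum s fun m _ => (hA m).integrable, ← integral_const_mul]
    refine integral_mono (BM.sum fun m _ => hA m).integrable
      ((BM.const z).mul hG'.integral_right).integrable fun X => ?_
    have h3 := h.bessel hz (bm_cons hΨ (ms X))
    simp only [sec, annF, ← sq]
    exact h3
  have h4 : (0 : ℝ) ≤ z ^ n / n.factorial := by positivity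
  have h5 := mul_le_mul_of_nonneg_left h2 h4
  simp only [wt2]
  rw [← mul_sum, h1]
  refine h5.trans (le_of_eq ?_)
  have h6 : ((n + 1).factorial : ℝ) = (n + 1) * n.factorial := by
    rw [Nat.factorial_succ]; push_cast; ring
  have h7 : (n.factorial : ℝ) ≠ 0 := by positivity
  rw [h6]
  field_simp
  ring

theorem wt2_expand_fkg0u {Φ : Multiset α → ℝ} (hΨ : ∀ n, BM (sec Ψ n))
    (hΦ : ∀ n, BM (sec Φ n)) (n : ℕ) :
    wt2 ν z (Ψ + Φ) (Ψ + Φ) n = wt2 ν z Ψ Ψ n + 2 * wt2 ν z Ψ Φ n + wt2 ν z Φ Φ n := by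
  have hs : ∀ k, BM (sec (Ψ + Φ) k) := fun k => (hΨ k).add (hΦ k)
  rw [wt2_add hs hΨ hΦ, wt2_comm (Ψ := Ψ) (Φ := Ψ + Φ), wt2_comm (Ψ := Φ) (Φ := Ψ + Φ),
    wt2_add hΨ hΨ hΦ, wt2_add hΦ hΨ hΦ, wt2_comm (Ψ := Φ) (Φ := Ψ)]
  ring

/-- Cauchy-Schwarz in one sector. -/
theorem wt2_cs (hz : 0 < z) {Φ : Multiset α → ℝ} (hΨ : ∀ n, BM (sec Ψ n))
    (hΦ : ∀ n, BM (sec Φ n)) (n : ℕ) :
    |wt2 ν z Ψ Φ n| ≤ √(wt2 ν z Ψ Ψ n) * √(wt2 ν z Φ Φ n) := by
  have h1 : ∀ t : ℝ, 0 ≤ wt2 ν z Φ Φ n * (t * t) + 2 * wt2 ν z Ψ Φ n * t + wt2 ν z Ψ Ψ n := by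
    intro t
    have ht : ∀ k, BM (sec (t • Φ) k) := fun k => (BM.const t).mul (hΦ k)
    have h2 := wt2_nonneg (ν := ν) (Ψ := Ψ + t • Φ) hz n
    rw [wt2_expand_fkg0u hΨ ht, wt2_smul, wt2_comm (Φ := t • Φ), wt2_smul,
      wt2_comm (Φ := t • Φ), wt2_smul, wt2_comm (Ψ := Φ) (Φ := Ψ)] at h2
    linarith
  have h3 := discrim_le_zero h1
  unfold discrim at h3
  rw [← Real.sqrt_mul (wt2_nonneg hz n)]
  exact Real.abs_le_sqrt (by linarith)

theorem wt2_tri (hz : 0 < z) {Φ : Multiset α → ℝ} (hΨ : ∀ n, BM (sec Ψ n))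
    (hΦ : ∀ n, BM (sec Φ n)) (n : ℕ) :
    √(wt2 ν z (Ψ + Φ) (Ψ + Φ) n) ≤ √(wt2 ν z Ψ Ψ n) + √(wt2 ν z Φ Φ n) := by
  have h1 := wt2_cs (ν := ν) hz hΨ hΦ n
  have h2 := Real.sq_sqrt (wt2_nonneg (ν := ν) (Ψ := Ψ) hz n)
  have h3 := Real.sq_sqrt (wt2_nonneg (ν := ν) (Ψ := Φ) hz n)
  refine Real.sqrt_le_iff.2 ⟨by positivity, ?_⟩
  rw [wt2_expand_fkg0u hΨ hΦ]
  have h4 := le_abs_self (wt2 ν z Ψ Φ n)
  nlinarith

end Pool.Agent.BoseLHY
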