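import Pool.Agent.Lib.MP_dec75e_mp.U.Ms

/-! The quasi-free state, algebraic part. -/

open MeasureTheory Finset Function
open scoped Real

noncomputable section

namespace Pool.Agent.BoseLHY

open Pool.Agent.BoseTail

variable {α κ : Type}

/-- The components of `exp (a†(φ) + ∑ t m a†(e m) ^ 2 / 2) Ω`. -/
def gse (φ : α → ℝ) (s : Finset κ) (t : κ → ℝ) (e : κ → α → ℝ) : ℕ → Multiset α → ℝ
  | 0 => fun _ => 1
  | 1 => creF φ fun _ => 1
  | n + 2 => ((n : ℝ) + 2)⁻¹ •
      (creF φ (gse φ s t e (n + 1)) + ∑ m ∈ s, t m • creF (e m) (creF (e m) (gse φ s t e n)))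

/-- The quasi-free state. -/
def gst (φ : α → ℝ) (s : Finset κ) (t : κ → ℝ) (e : κ → α → ℝ) : Multiset α → ℝ :=
  fun u => gse φ s t e u.card u

/-- The creation operator as a linear map. -/
def creL_fkg1u (h : α → ℝ) : Module.End ℝ (Multiset α → ℝ) where
  toFun := creF h
  map_add' := creF_add h
  map_smul' := creF_smul h

theorem comm_fkg1u (h h' : α → ℝ) : Commute (creL_fkg1u h) (creL_fkg1u h') :=
  LinearMap.ext fun Ψ => creF_comm h h' Ψ

theorem bm_cre_fkg1u [MeasurableSpace α] {Ψ : Multiset α → ℝ} (hΨ : ∀ n, BM (sec Ψ n))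
    {h : α → ℝ} (hh : BM h) (n : ℕ) : BM (sec (creF h Ψ) n) := by
  have e1 : sec (creF h Ψ) n = fun X => ∑ i, h (X i) * Ψ (er X i) := funext (creF_ms h Ψ)
  rw [e1]
  exact BM.sum fun i _ => (hh.comp (measurable_pi_apply i)).mul (bm_er hΨ i)

variable (φ : α → ℝ) (s : Finset κ) (t : κ → ℝ) (e : κ → α → ℝ)

theorem gst_zero : gst φ s t e 0 = 1 := by
  rfl

/-- The recursion, by `creF_congr`. -/
theorem gst_rec (u : Multiset α) : (u.card : ℝ) * gst φ s t e u =
    creF φ (gst φ s t e) u + ∑ m ∈ s, t m * creF (e m) (creF (e m) (gst φ s t e)) u := by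
  obtain h | h | ⟨n, h⟩ : u.card = 0 ∨ u.card = 1 ∨ ∃ n, u.card = n + 2 := by
    rcases hu : u.card with _ | _ | n
    · exact Or.inl rfl
    · exact Or.inr (Or.inl rfl)
    · exact Or.inr (Or.inr ⟨n, rfl⟩)
  · rw [Multiset.card_eq_zero.1 h]
    simp [creF_zero]
  · have h1 : creF φ (gst φ s t e) u = creF φ (fun _ => 1) u :=
      creF_congr φ fun v hv => by
        rw [Multiset.card_eq_zero.1 (show v.card = 0 by omega), gst_zero]
    have h2 : ∀ m, creF (e m) (creF (e m) (gst φ s t e)) u = 0 := fun m => by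
      rw [creF_congr (e m) (Φ := (0 : ℝ) • gst φ s t e) fun v hv => by
        rw [Multiset.card_eq_zero.1 (show v.card = 0 by omega), creF_zero]; simp, creF_smul]
      simp
    rw [h1]
    simp [h2, gst, h, gse]
  · have h1 : creF φ (gst φ s t e) u = creF φ (gse φ s t e (n + 1)) u :=
      creF_congr φ fun v hv => by rw [gst, show v.card = n + 1 by omega]
    have h2 : ∀ m, creF (e m) (creF (e m) (gst φ s t e)) u =
        creF (e m) (creF (e m) (gse φ s t e n)) u := fun m =>
      creF_congr _ fun v hv => creF_congr _ fun w hw => by rw [gst, show w.card = n by omega]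
    have h3 : (n : ℝ) + 2 ≠ 0 := by positivity
    rw [h1]
    simp only [h2]
    simp only [gst, h, gse, Pi.smul_apply, Pi.add_apply, Finset.sum_apply, smul_eq_mul]
    push_cast
    rw [mul_inv_cancel_left₀ h3]

/-- Removing a particle. Strong induction on the cardinality of `u`: with `Γ = gst`,
`A = creF φ`, `B = ∑ t creF e creF e`, `B x = ∑ t m * e m x • creF (e m)` and
`a x Ψ = Ψ (x ::ₘ ·)`, one has `a x A = φ x + A a x`, `a x B = 2 B x + B a x` (`creF_cons`), and
`(n + 1) Γ (x ::ₘ u) = (a x (A + B) Γ) u`; insert the induction hypothesis in `A a x Γ` and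
`B a x Γ` (`creF_congr`-like: only smaller multisets enter), commute the creation operators and
use `gst_rec` for `u` and, under `creF (e m)`, for multisets with one element less. -/
theorem gst_cons (x : α) (u : Multiset α) : gst φ s t e (x ::ₘ u) =
    φ x * gst φ s t e u + ∑ m ∈ s, t m * e m x * creF (e m) (gst φ s t e) u := by
  obtain ⟨Q, hQ⟩ : ∃ Q : Module.End ℝ (Multiset α → ℝ),
      Q = creL_fkg1u φ + ∑ m ∈ s, t m • (creL_fkg1u (e m) * creL_fkg1u (e m)) := ⟨_, rfl⟩
  obtain ⟨D, hD⟩ : ∃ D : Module.End ℝ (Multiset α → ℝ),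
      D = φ x • 1 + ∑ m ∈ s, (t m * e m x) • creL_fkg1u (e m) := ⟨_, rfl⟩
  have eQ : ∀ Ψ v, Q Ψ v = creF φ Ψ v + ∑ m ∈ s, t m * creF (e m) (creF (e m) Ψ) v := by
    intro Ψ v
    simp [hQ, creL_fkg1u, Finset.sum_apply]
  have eD : ∀ Ψ v, D Ψ v = φ x * Ψ v + ∑ m ∈ s, t m * e m x * creF (e m) Ψ v := by
    intro Ψ v
    simp [hD, creL_fkg1u, Finset.sum_apply]
  have c1 : ∀ h, Commute (creL_fkg1u h) D := fun h => by
    rw [hD]
    exact ((Commute.one_right _).smul_right _).add_right
      (Commute.sum_right _ _ _ fun m _ => (comm_fkg1u _ _).smul_right _)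
  have c2 : Commute Q D := by
    rw [hQ]
    exact (c1 φ).add_left (Commute.sum_left _ _ _ fun m _ => ((c1 _).mul_left (c1 _)).smul_left _)
  rw [← eD]
  induction hn : u.card using Nat.strong_induction_on generalizing u with
  | _ n ih =>
    have h0 : (n : ℝ) + 1 ≠ 0 := by positivity
    refine mul_left_cancel₀ h0 ?_
    have h1 := gst_rec φ s t e (x ::ₘ u)
    rw [Multiset.card_cons, hn, creF_cons, creF_congr φ (Φ := D (gst φ s t e))
      fun v hv => ih v.card (by omega) v rfl] at h1
    have h2 : ∀ m, creF (e m) (creF (e m) (gst φ s t e)) (x ::ₘ u) =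
        2 * e m x * creF (e m) (gst φ s t e) u +
          creF (e m) (creF (e m) (D (gst φ s t e))) u := fun m => by
      rw [creF_cons, creF_congr (e m) (Ψ := fun v => creF (e m) (gst φ s t e) (x ::ₘ v))
        (Φ := e m x • gst φ s t e + creF (e m) (D (gst φ s t e))) fun v hv => by
          rw [creF_cons, creF_congr (e m) (Φ := D (gst φ s t e))
            fun w hw => ih w.card (by omega) w rfl]
          rfl, creF_add, creF_smul]
      simp only [Pi.add_apply, Pi.smul_apply, smul_eq_mul]
      ring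
    have h3 : Q (D (gst φ s t e)) u = D (Q (gst φ s t e)) u :=
      congrFun (LinearMap.congr_fun c2.eq (gst φ s t e)) u
    have h4 : ∀ v, Q (gst φ s t e) v = v.card * gst φ s t e v := fun v => by
      rw [eQ, gst_rec]
    have h5 : ∀ m, creF (e m) (Q (gst φ s t e)) u =
        ((n : ℝ) - 1) * creF (e m) (gst φ s t e) u := fun m => by
      rw [creF_congr (e m) (Φ := ((n : ℝ) - 1) • gst φ s t e) fun v hv => by
        have : (n : ℝ) = v.card + 1 := by rw [← hn, ← hv]; push_cast; rfl
        rw [h4, this, add_sub_cancel_right]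
        rfl, creF_smul]
      rfl
    rw [eQ, eD (Q _), h4, hn] at h3
    simp only [h5] at h3
    simp only [h2, mul_add, Finset.sum_add_distrib] at h1
    have h6 : ∑ m ∈ s, t m * (2 * e m x * creF (e m) (gst φ s t e) u) =
        2 * ∑ m ∈ s, t m * e m x * creF (e m) (gst φ s t e) u := by
      rw [Finset.mul_sum]
      exact Finset.sum_congr rfl fun m _ => by ring
    have h7 : ∑ m ∈ s, t m * e m x * (((n : ℝ) - 1) * creF (e m) (gst φ s t e) u) =
        ((n : ℝ) - 1) * ∑ m ∈ s, t m * e m x * creF (e m) (gst φ s t e) u := by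
      rw [Finset.mul_sum]
      exact Finset.sum_congr rfl fun m _ => by ring
    rw [h6] at h1
    rw [h7] at h3
    rw [eD (gst φ s t e) u]
    push_cast at h1
    linarith

theorem bm_gst [MeasurableSpace α] (hφ : BM φ) (he : ∀ m, BM (e m)) (n : ℕ) :
    BM (sec (gst φ s t e) n) := by
  have key : ∀ k n, BM (sec (gse φ s t e k) n) := by
    intro k
    induction k using Nat.twoStepInduction with
    | zero => exact fun n => BM.const (1 : ℝ)
    | one => exact bm_cre_fkg1u (fun n => BM.const (1 : ℝ)) hφ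
    | more k h0 h1 =>
      intro n
      have e1 : sec (gse φ s t e (k + 2)) n = fun X => ((k : ℝ) + 2)⁻¹ *
          (sec (creF φ (gse φ s t e (k + 1))) n X +
            ∑ m ∈ s, t m * sec (creF (e m) (creF (e m) (gse φ s t e k))) n X) := by
        funext X
        simp [sec, gse, Finset.sum_apply]
      rw [e1]
      exact (BM.const _).mul ((bm_cre_fkg1u h1 hφ n).add (BM.sum fun m _ =>
        (BM.const _).mul (bm_cre_fkg1u (bm_cre_fkg1u h0 (he m)) (he m) n)))
  have e2 : sec (gst φ s t e) n = sec (gse φ s t e n) n := by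
    funext X
    simp [sec, gst, card_ms]
  rw [e2]
  exact key n n

end Pool.Agent.BoseLHY
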