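import Pool.Agent.Lib.MP_dec75e_mp.U.FkB
import Pool.Agent.Lib.MP_dec75e_mp.U.FkG0
import Pool.Agent.Lib.MP_dec75e_mp.U.FkG1

/-! Existence of the quasi-free state. -/

open MeasureTheory Finset Function
open scoped Real

noncomputable section

namespace Pool.Agent.BoseLHY

open Pool.Agent.BoseTail

variable {α κ : Type} [MeasurableSpace α] [DecidableEq κ]

section aux
variable {ν : ProbabilityMeasure α} {z : ℝ} {Ψ Φ : Multiset α → ℝ}

theorem bm_smul_fkgu (hΨ : ∀ n, BM (sec Ψ n)) (c : ℝ) (n : ℕ) : BM (sec (c • Ψ) n) :=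
  (BM.const c).mul (hΨ n)

omit [DecidableEq κ] in
theorem bm_sum_fkgu {s : Finset κ} {G : κ → Multiset α → ℝ} (hG : ∀ m ∈ s, ∀ n, BM (sec (G m) n))
    (n : ℕ) : BM (sec (∑ m ∈ s, G m) n) := by
  have : sec (∑ m ∈ s, G m) n = fun X => ∑ m ∈ s, sec (G m) n X := by
    funext X
    simp only [sec, Finset.sum_apply]
  rw [this]
  exact BM.sum fun m hm => hG m hm n

theorem wt2_sum_fkgu {s : Finset κ} {G : κ → Multiset α → ℝ} (hΨ : ∀ n, BM (sec Ψ n))
    (hG : ∀ m ∈ s, ∀ n, BM (sec (G m) n)) (n : ℕ) :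
    wt2 ν z (∑ m ∈ s, G m) Ψ n = ∑ m ∈ s, wt2 ν z (G m) Ψ n := by
  induction s using Finset.induction_on with
  | empty => simp [wt2, sec]
  | insert a s ha ih =>
    rw [sum_insert ha, sum_insert ha, wt2_add hΨ (hG a (mem_insert_self _ _))
      (bm_sum_fkgu fun m hm => hG m (mem_insert_of_mem hm)),
      ih fun m hm => hG m (mem_insert_of_mem hm)]

theorem annF_creF_fkgu (hΨ : ∀ n, BM (sec Ψ n)) {h h' : α → ℝ} (hh : BM h) (hh' : BM h') :
    annF ν z h (creF h' Ψ) =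
      creF h' (annF ν z h Ψ) + (z * ∫ x, h x * h' x ∂(ν : Measure α)) • Ψ := by
  funext t
  obtain ⟨X, hX⟩ := exists_ms t
  generalize t.card = n at X hX
  subst hX
  have e1 : ∀ x, h x * creF h' Ψ (x ::ₘ ms X) =
      h x * h' x * Ψ (ms X) + ∑ i, h' (X i) * (h x * Ψ (x ::ₘ er X i)) := by
    intro x
    rw [creF_cons, creF_ms, mul_add, Finset.mul_sum]
    congr 1
    · ring
    · exact sum_congr rfl fun i _ => by ring
  have i1 : Integrable (fun x => h x * h' x * Ψ (ms X)) (ν : Measure α) :=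
    ((hh.mul hh').mul (BM.const _)).integrable
  have i2 : ∀ i, Integrable (fun x => h' (X i) * (h x * Ψ (x ::ₘ er X i))) (ν : Measure α) :=
    fun i => ((BM.const _).mul (hh.mul (bm_cons hΨ _))).integrable
  simp only [Pi.add_apply, Pi.smul_apply, smul_eq_mul, creF_ms]
  unfold annF
  simp only [e1]
  rw [integral_add i1 (integrable_finsetSum _ fun i _ => i2 i),
    integral_finsetSum _ fun i _ => i2 i, integral_mul_const, mul_add, Finset.mul_sum, add_comm]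
  congr 1
  · refine sum_congr rfl fun i _ => ?_
    rw [integral_const_mul]
    ring
  · ring

theorem sum_creF_fkgu {s : Finset κ} {e : κ → BF α} (hz : 0 < z) (h : Orth ν z s e)
    (hΨ : ∀ n, BM (sec Ψ n)) (n : ℕ) :
    ∑ m ∈ s, wt2 ν z (creF (e m).1 Ψ) (creF (e m).1 Ψ) (n + 1) ≤
      (n + s.card) * wt2 ν z Ψ Ψ n := by
  have e1 : ∀ m ∈ s, wt2 ν z (creF (e m).1 Ψ) (creF (e m).1 Ψ) (n + 1) =
      wt2 ν z (creF (e m).1 (annF ν z (e m).1 Ψ)) Ψ n + wt2 ν z Ψ Ψ n := by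
    intro m hm
    have hb := bmOf (e m)
    rw [wt2_creF hΨ (bm_creF hΨ hb) hb, annF_creF_fkgu hΨ hb hb, h m hm m hm, if_pos rfl, one_smul,
      wt2_comm, wt2_add hΨ (bm_creF (bm_annF hΨ hb) hb) hΨ]
  rw [sum_congr rfl e1, sum_add_distrib, sum_const, nsmul_eq_mul, add_mul]
  refine add_le_add ?_ le_rfl
  cases n with
  | zero => simp [wt2_zero, creF_zero]
  | succ k =>
    have := h.sum_annF hz hΨ k
    push_cast
    refine le_trans (le_of_eq (sum_congr rfl fun m _ => ?_)) this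
    exact wt2_creF (bm_annF hΨ (bmOf (e m))) hΨ (bmOf (e m)) k

theorem wt2_congr_fkgu {Ψ' : Multiset α → ℝ} {n : ℕ} (h : ∀ u : Multiset α, u.card = n → Ψ u = Ψ' u) :
    wt2 ν z Ψ Ψ n = wt2 ν z Ψ' Ψ' n := by
  have : sec Ψ n = sec Ψ' n := funext fun X => h _ (card_ms X)
  unfold wt2
  rw [this]

theorem exists_tau_fkgu {s : Finset κ} {t : κ → ℝ} (ht : ∀ m ∈ s, |t m| < 1) :
    ∃ τ : ℝ, 0 ≤ τ ∧ τ < 1 ∧ ∀ m ∈ s, |t m| ≤ τ := by
  induction s using Finset.induction_on with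
  | empty => exact ⟨0, le_rfl, one_pos, by simp⟩
  | insert a s ha ih =>
    obtain ⟨τ, h0, h1, h2⟩ := ih fun m hm => ht m (mem_insert_of_mem hm)
    refine ⟨max τ |t a|, le_max_of_le_left h0, max_lt h1 (ht a (mem_insert_self _ _)),
      fun m hm => ?_⟩
    rcases mem_insert.1 hm with rfl | hm
    · exact le_max_right _ _
    · exact le_max_of_le_left (h2 m hm)

end aux

/-- Pair `B Ψ = ∑ t m a†(e m) a†(e m) Ψ` with itself in the sector `n + 2`: by `wt2_creF`,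
`⟨B Ψ, B Ψ⟩ = ∑ t m ⟨a†(e m) Ψ, a(e m) B Ψ⟩`, and use Cauchy-Schwarz, `Orth.sum_annF` for `B Ψ` and
`|a†(e m) Ψ|² = |Ψ|² + |a(e m) Ψ|²` (sector by sector: repeat the proof of `ann_cre`, or cut `Ψ`
to the sector `n` to get an element of `FK`). -/
theorem Orth.pair_le {ν : ProbabilityMeasure α} {z : ℝ} {s : Finset κ} {e : κ → BF α}
    (hz : 0 < z) (h : Orth ν z s e) {Ψ : Multiset α → ℝ} (hΨ : ∀ n, BM (sec Ψ n)) {t : κ → ℝ}
    {τ : ℝ} (hτ : 0 ≤ τ) (ht : ∀ m ∈ s, |t m| ≤ τ) (n : ℕ) :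
    √(wt2 ν z (∑ m ∈ s, t m • creF (e m).1 (creF (e m).1 Ψ))
        (∑ m ∈ s, t m • creF (e m).1 (creF (e m).1 Ψ)) (n + 2)) ≤
      τ * √((n + 2) * (n + s.card)) * √(wt2 ν z Ψ Ψ n) := by
  set B := ∑ m ∈ s, t m • creF (e m).1 (creF (e m).1 Ψ) with hB
  have hc : ∀ m n, BM (sec (creF (e m).1 Ψ) n) := fun m => bm_creF hΨ (bmOf (e m))
  have hG : ∀ m ∈ s, ∀ n, BM (sec (t m • creF (e m).1 (creF (e m).1 Ψ)) n) :=
    fun m _ => bm_smul_fkgu (bm_creF (hc m) (bmOf (e m))) _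
  have hBm : ∀ n, BM (sec B n) := bm_sum_fkgu hG
  set Q := wt2 ν z B B (n + 2) with hQ
  set P := wt2 ν z Ψ Ψ n with hP
  have hQ0 : 0 ≤ Q := wt2_nonneg hz _
  have hP0 : 0 ≤ P := wt2_nonneg hz _
  set a : κ → ℝ := fun m => wt2 ν z (creF (e m).1 Ψ) (creF (e m).1 Ψ) (n + 1) with ha
  set b : κ → ℝ := fun m => wt2 ν z (annF ν z (e m).1 B) (annF ν z (e m).1 B) (n + 1) with hb
  have ha0 : ∀ m, 0 ≤ a m := fun m => wt2_nonneg hz _
  have hb0 : ∀ m, 0 ≤ b m := fun m => wt2_nonneg hz _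
  have h1 : Q ≤ τ * ∑ m ∈ s, √(a m) * √(b m) := by
    have e1 : Q = ∑ m ∈ s, wt2 ν z (t m • creF (e m).1 (creF (e m).1 Ψ)) B (n + 2) :=
      wt2_sum_fkgu hBm hG (n + 2)
    rw [e1, Finset.mul_sum]
    refine sum_le_sum fun m hm => ?_
    rw [wt2_smul, wt2_creF (hc m) hBm (bmOf (e m))]
    refine (le_abs_self _).trans ?_
    rw [abs_mul]
    exact mul_le_mul (ht m hm) (wt2_cs hz (hc m) (bm_annF hBm (bmOf (e m))) (n + 1))
      (abs_nonneg _) hτ
  have h2 : ∑ m ∈ s, √(a m) * √(b m) ≤ √(∑ m ∈ s, a m) * √(∑ m ∈ s, b m) :=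
    Real.sum_sqrt_mul_sqrt_le s ha0 hb0
  have h3 : ∑ m ∈ s, a m ≤ (n + s.card) * P := sum_creF_fkgu hz h hΨ n
  have h4 : ∑ m ∈ s, b m ≤ (n + 2) * Q := by
    have := h.sum_annF hz hBm (n + 1)
    push_cast at this
    refine this.trans (le_of_eq ?_)
    ring
  have h5 : √Q * √Q ≤ τ * √((n + 2) * (n + s.card)) * √P * √Q := by
    rw [Real.mul_self_sqrt hQ0]
    refine h1.trans ?_
    have e2 : τ * √((n + 2) * (n + s.card)) * √P * √Q =
        τ * (√((n + s.card) * P) * √((n + 2) * Q)) := by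
      rw [Real.sqrt_mul (by positivity), Real.sqrt_mul (by positivity),
        Real.sqrt_mul (by positivity)]
      ring
    rw [e2]
    refine mul_le_mul_of_nonneg_left (h2.trans ?_) hτ
    exact mul_le_mul (Real.sqrt_le_sqrt h3) (Real.sqrt_le_sqrt h4) (Real.sqrt_nonneg _)
      (Real.sqrt_nonneg _)
  rcases (Real.sqrt_nonneg Q).eq_or_lt with h0 | h0
  · rw [← h0]
    positivity
  · exact le_of_mul_le_mul_right h5 h0

theorem good_gst {ν : ProbabilityMeasure α} {z : ℝ} {s : Finset κ} {e : κ → BF α}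
    (hz : 0 < z) (h : Orth ν z s e) (φ : BF α) {t : κ → ℝ} (ht : ∀ m ∈ s, |t m| < 1) :
    Good ν z (gst φ.1 s t fun m => (e m).1) := by
  obtain ⟨τ, hτ, hτ1, hτt⟩ := exists_tau_fkgu ht
  set Γ := gst φ.1 s t fun m => (e m).1 with hΓ
  have hb : ∀ n, BM (sec Γ n) := bm_gst φ.1 s t _ (bmOf φ) fun m => bmOf (e m)
  refine ⟨hb, ?_⟩
  have hA0 : 0 ≤ z * ∫ x, φ.1 x ^ 2 ∂(ν : Measure α) :=
    mul_nonneg hz.le (integral_nonneg fun x => sq_nonneg _)
  obtain ⟨C, q, hq0, hq1, hC⟩ := geom_decay (a := fun n => √(wt2 ν z Γ Γ n))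
    (A := √(z * ∫ x, φ.1 x ^ 2 ∂(ν : Measure α))) (τ := τ) (S := s.card)
    (fun n => Real.sqrt_nonneg _) (Real.sqrt_nonneg _) hτ hτ1 (Nat.cast_nonneg _) fun n => by
      set B := ∑ m ∈ s, t m • creF (e m).1 (creF (e m).1 Γ) with hB
      have hBm : ∀ n, BM (sec B n) := bm_sum_fkgu fun m _ =>
        bm_smul_fkgu (bm_creF (bm_creF hb (bmOf (e m))) (bmOf (e m))) _
      have hn : (0 : ℝ) < n + 2 := by positivity
      have e1 : wt2 ν z (((n : ℝ) + 2) • Γ) (((n : ℝ) + 2) • Γ) (n + 2) =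
          wt2 ν z (creF φ.1 Γ + B) (creF φ.1 Γ + B) (n + 2) := by
        refine wt2_congr_fkgu fun u hu => ?_
        have := gst_rec φ.1 s t (fun m => (e m).1) u
        rw [hu] at this
        push_cast at this
        simp only [hB, Pi.smul_apply, Pi.add_apply, Finset.sum_apply, smul_eq_mul]
        exact this
      have e2 : √(wt2 ν z (((n : ℝ) + 2) • Γ) (((n : ℝ) + 2) • Γ) (n + 2)) =
          (n + 2) * √(wt2 ν z Γ Γ (n + 2)) := by
        rw [wt2_smul, wt2_comm, wt2_smul, ← mul_assoc, Real.sqrt_mul (by positivity),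
          Real.sqrt_mul_self hn.le]
      have h1 := wt2_tri (ν := ν) hz (bm_creF hb (bmOf φ)) hBm (n + 2)
      have h2 := h.pair_le hz hb hτ hτt n
      have h3 : √(wt2 ν z (creF φ.1 Γ) (creF φ.1 Γ) (n + 2)) ≤
          √(n + 2) * √(z * ∫ x, φ.1 x ^ 2 ∂(ν : Measure α)) * √(wt2 ν z Γ Γ (n + 1)) := by
        rw [← Real.sqrt_mul hn.le, ← Real.sqrt_mul (by positivity)]
        refine Real.sqrt_le_sqrt ?_
        have := wt2_creF_le (ν := ν) hz hb (bmOf φ) (n + 1)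
        push_cast at this
        refine this.trans (le_of_eq ?_)
        ring
      rw [← e1, e2] at h1
      have hs : 0 < √((n : ℝ) + 2) := Real.sqrt_pos.2 hn
      have hss : √((n : ℝ) + 2) * √((n : ℝ) + 2) = n + 2 := Real.mul_self_sqrt hn.le
      refine le_of_mul_le_mul_left (h1.trans ((add_le_add h3 h2).trans (le_of_eq ?_))) hn
      rw [Real.sqrt_mul hn.le, Real.sqrt_div' _ hn.le]
      generalize √((n : ℝ) + 2) = w at hs hss
      rw [← hss]
      field_simp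
  refine ⟨C, q, hq0, hq1, fun n => ?_⟩
  have := hC n
  rwa [Real.sq_sqrt (wt2_nonneg hz n)] at this

/-- Take `t m = σ m / γ m` and `φ = r - ∑ t m * ov m * e m`. From `gst_cons` and orthonormality,
`dA m Γ = t m • dC m Γ` for `m ∈ s`. -/
theorem Fs.exists_vac (F : Fs α κ) : ∃ Γ ∈ F.Str, Vac F.cO F.s Γ ∧ 1 ≤ nq F.β Γ := by
  set t : κ → ℝ := fun m => F.σ m / F.γ m with ht
  have hγ : ∀ m, 0 < F.γ m := fun m => one_pos.trans_le (F.g1 m)
  have ht1 : ∀ m ∈ F.s, |t m| < 1 := by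
    intro m _
    simp only [ht]
    rw [abs_div, abs_of_pos (hγ m), div_lt_one (hγ m)]
    exact abs_lt_of_sq_lt_sq (by rw [F.hyp m]; linarith) (hγ m).le
  let φ : BF α := ⟨fun x => F.r - ∑ m ∈ F.s, t m * F.ov m * (F.e m).1 x,
    (BM.const _).sub (BM.sum fun m _ => (BM.const _).mul (bmOf (F.e m)))⟩
  let Γ : F.V := ⟨gst φ.1 F.s t fun m => (F.e m).1, good_gst F.hz F.orth φ ht1⟩
  have hC : ∀ m u, (F.dC m Γ).1 u = creF (F.e m).1 Γ.1 u - F.ov m * Γ.1 u := fun m u => rfl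
  have hA : ∀ m u, (F.dA m Γ).1 u = annF F.ν F.z (F.e m).1 Γ.1 u - F.ov m * Γ.1 u :=
    fun m u => rfl
  have h1 : ∀ x u, Γ.1 (x ::ₘ u) =
      F.r * Γ.1 u + ∑ m ∈ F.s, (F.e m).1 x * (t m * (F.dC m Γ).1 u) := by
    intro x u
    have := gst_cons φ.1 F.s t (fun m => (F.e m).1) x u
    refine this.trans ?_
    simp only [hC]
    change (F.r - ∑ m ∈ F.s, t m * F.ov m * (F.e m).1 x) * Γ.1 u +
      ∑ m ∈ F.s, t m * (F.e m).1 x * creF (F.e m).1 Γ.1 u = _
    rw [sub_mul, Finset.sum_mul, sub_add_eq_add_sub, add_sub_assoc, ← sum_sub_distrib]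
    congr 1
    exact sum_congr rfl fun m _ => by ring
  have h2 : ∀ k ∈ F.s, ∀ u, (F.dA k Γ).1 u = t k * (F.dC k Γ).1 u := by
    intro k hk u
    have e1 : ∀ x, (F.e k).1 x * Γ.1 (x ::ₘ u) = (F.e k).1 x * (F.r * Γ.1 u) +
        ∑ m ∈ F.s, (F.e k).1 x * (F.e m).1 x * (t m * (F.dC m Γ).1 u) := by
      intro x
      rw [h1, mul_add, Finset.mul_sum]
      congr 1
      exact sum_congr rfl fun m _ => by ring
    have i1 : Integrable (fun x => (F.e k).1 x * (F.r * Γ.1 u)) (F.ν : Measure α) :=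
      ((bmOf (F.e k)).mul (BM.const _)).integrable
    have i2 : ∀ m, Integrable (fun x => (F.e k).1 x * (F.e m).1 x * (t m * (F.dC m Γ).1 u))
        (F.ν : Measure α) :=
      fun m => (((bmOf (F.e k)).mul (bmOf (F.e m))).mul (BM.const _)).integrable
    have e2 : ∀ m ∈ F.s, F.z * ∫ x, (F.e k).1 x * (F.e m).1 x * (t m * (F.dC m Γ).1 u)
        ∂(F.ν : Measure α) = if k = m then t m * (F.dC m Γ).1 u else 0 := by
      intro m hm
      rw [integral_mul_const, ← mul_assoc, F.orth k hk m hm]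
      split_ifs <;> simp
    rw [hA]
    unfold annF
    simp only [e1]
    rw [integral_add i1 (integrable_finsetSum _ fun m _ => i2 m),
      integral_finsetSum _ fun m _ => i2 m, mul_add, Finset.mul_sum, sum_congr rfl e2,
      Finset.sum_ite_eq, if_pos hk, integral_mul_const]
    unfold Fs.ov
    ring
  refine ⟨Γ, fun x u => ?_, fun m hm => ?_, ?_⟩
  · rw [F.fl_apply, h1]
    congr 1
    exact sum_congr rfl fun m hm => by rw [h2 m hm]
  · refine Subtype.ext (funext fun u => ?_)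
    change F.γ m * (F.dA m Γ).1 u - F.σ m * (F.dC m Γ).1 u = 0
    rw [h2 m hm, ht]
    have := (hγ m).ne'
    field_simp
    ring
  · have := le_hasSum (hasSum_fip Γ Γ) 0 fun n _ => wt2_nonneg F.hz n
    rw [wt2_zero] at this
    have h0 : Γ.1 0 = 1 := gst_zero φ.1 F.s t fun m => (F.e m).1
    rw [h0, one_mul] at this
    exact this

end Pool.Agent.BoseLHY
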