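import Pool.Agent.Lib.MP_dec75e_mp.U.FkB

/-! One-body and two-body expectations in the Fock space. -/

open MeasureTheory Finset Function
open scoped Real

noncomputable section

namespace Pool.Agent.BoseLHY

open Pool.Agent.BoseTail

variable {α κ : Type} [MeasurableSpace α] [DecidableEq κ]

section
variable {ν : ProbabilityMeasure α} {z : ℝ} {hz : 0 < z}

theorem sum_erase_fkhu {n : ℕ} (i : Fin (n + 1)) (f : Fin (n + 1) → ℝ) :
    ∑ j ∈ univ.erase i, f j = ∑ j : Fin n, f (i.succAbove j) := by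
  have h1 := Finset.add_sum_erase univ f (Finset.mem_univ i)
  have h2 := Fin.sum_univ_succAbove f i
  linarith

theorem sq_sum_fkhu {ι : Type} (T : Finset ι) (a b : ι → ℝ) (w : ℝ) :
    w * (∑ k ∈ T, a k * b k) ^ 2 = ∑ k ∈ T, ∑ k' ∈ T, w * (a k * a k') * (b k * b k') := by
  rw [sq, Finset.sum_mul_sum, Finset.mul_sum]
  refine Finset.sum_congr rfl fun k _ => ?_
  rw [Finset.mul_sum]
  exact Finset.sum_congr rfl fun k' _ => by ring

theorem nq_sum_fkhu {ι : Type} (T : Finset ι) (a : ι → ℝ) (Φ : ι → FK ν z hz) (w : ℝ) :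
    w * nq (fip ν z hz) (∑ k ∈ T, a k • Φ k) =
      ∑ k ∈ T, ∑ k' ∈ T, w * (a k * a k') * fip ν z hz (Φ k) (Φ k') := by
  unfold nq
  rw [map_sum (fip ν z hz), LinearMap.sum_apply, Finset.mul_sum]
  refine Finset.sum_congr rfl fun k _ => ?_
  rw [map_sum, Finset.mul_sum]
  refine Finset.sum_congr rfl fun k' _ => ?_
  simp only [map_smul, LinearMap.smul_apply, smul_eq_mul]
  ring

/-- Removing two particles. -/
theorem wt2_er2 {Ψ Φ : Multiset α → ℝ} (hΨ : ∀ n, BM (sec Ψ n)) (hΦ : ∀ n, BM (sec Φ n))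
    (H : BF (α × α)) (n : ℕ) :
    z ^ (n + 2) / (n + 2).factorial * ∑ i, ∑ j ∈ univ.erase i, (∫ X : Fin (n + 2) → α,
        H.1 (X i, X j) * (Ψ (er2 X i j) * Φ (er2 X i j)) ∂(pm fun _ => ν)) =
      z ^ 2 * (∫ x, ∫ y, H.1 (x, y) ∂(ν : Measure α) ∂(ν : Measure α)) * wt2 ν z Ψ Φ n := by
  have hG : ∀ j : Fin (n + 1), BM (uncurry fun (x : α) (Y : Fin (n + 1) → α) =>
      H.1 (x, Y j) * (Ψ (er Y j) * Φ (er Y j))) := fun j =>
    ((bmOf H).comp (T := fun p : α × (Fin (n + 1) → α) => (p.1, p.2 j))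
      (measurable_fst.prodMk ((measurable_pi_apply j).comp measurable_snd))).mul
      (((bm_er hΨ j).comp measurable_snd).mul ((bm_er hΦ j).comp measurable_snd))
  have key : ∀ i : Fin (n + 2), ∑ j ∈ univ.erase i, (∫ X : Fin (n + 2) → α,
        H.1 (X i, X j) * (Ψ (er2 X i j) * Φ (er2 X i j)) ∂(pm fun _ => ν)) =
      ∫ x, ∑ j : Fin (n + 1), (∫ Y : Fin (n + 1) → α,
        H.1 (x, Y j) * (Ψ (er Y j) * Φ (er Y j)) ∂(pm fun _ => ν)) ∂(ν : Measure α) := by
    intro i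
    rw [sum_erase_fkhu, integral_finsetSum _ fun j _ => (hG j).integral_right.integrable]
    refine Finset.sum_congr rfl fun j _ => ?_
    rw [← integral_succAbove ν i (hG j)]
    simp only [er2_succAbove]
  have h2 : ∀ x : α, z ^ (n + 1) / (n + 1).factorial * ∑ j : Fin (n + 1),
      (∫ Y : Fin (n + 1) → α, H.1 (x, Y j) * (Ψ (er Y j) * Φ (er Y j)) ∂(pm fun _ => ν)) =
      (z * wt2 ν z Ψ Φ n) * ∫ y, H.1 (x, y) ∂(ν : Measure α) := by
    intro x
    have := wt2_er (ν := ν) (z := z) hΨ hΦ (h := fun y => H.1 (x, y))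
      ((bmOf H).comp (T := fun y => (x, y)) (measurable_const.prodMk measurable_id)) n
    rw [this]
    ring
  have h3 := congrArg (fun F : α → ℝ => ∫ x, F x ∂(ν : Measure α)) (funext h2)
  simp only [integral_const_mul] at h3
  rw [Finset.sum_congr rfl fun i _ => key i, Finset.sum_const, Finset.card_univ, Fintype.card_fin,
    nsmul_eq_mul]
  have hf : (((n + 2).factorial : ℕ) : ℝ) = ((n + 2 : ℕ) : ℝ) * ((n + 1).factorial : ℕ) := by
    rw [← Nat.cast_mul]
    rfl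
  have hp : (((n + 1).factorial : ℕ) : ℝ) ≠ 0 := by positivity
  have hp2 : ((n + 2 : ℕ) : ℝ) ≠ 0 := by positivity
  rw [hf]
  calc _ = z * (z ^ (n + 1) / (n + 1).factorial * ∫ x, ∑ j : Fin (n + 1),
        (∫ Y : Fin (n + 1) → α, H.1 (x, Y j) * (Ψ (er Y j) * Φ (er Y j)) ∂(pm fun _ => ν))
          ∂(ν : Measure α)) := by
        field_simp
        ring
    _ = _ := by
        rw [h3]
        ring

/-- One-body formula for a field of finite rank. -/
theorem hasSum_one {ι : Type} (T : Finset ι) (h : ι → BF α) (Φ : ι → FK ν z hz) :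
    HasSum (fun n : ℕ => z ^ n / n.factorial * ∑ i, (∫ X : Fin n → α,
        (∑ k ∈ T, (h k).1 (X i) * (Φ k).1 (er X i)) ^ 2 ∂(pm fun _ => ν)))
      (z * ∫ x, nq (fip ν z hz) (∑ k ∈ T, (h k).1 x • Φ k) ∂(ν : Measure α)) := by
  rw [← hasSum_nat_add_iff' 1]
  simp only [Finset.sum_range_one, Finset.univ_eq_empty, Finset.sum_empty, mul_zero, sub_zero]
  have hb : ∀ k k', BM fun x => (h k).1 x * (h k').1 x := fun k k' => (bmOf (h k)).mul (bmOf (h k'))
  have e1 : z * ∫ x, nq (fip ν z hz) (∑ k ∈ T, (h k).1 x • Φ k) ∂(ν : Measure α) =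
      ∑ k ∈ T, ∑ k' ∈ T, z * (∫ x, (h k).1 x * (h k').1 x ∂(ν : Measure α)) *
        fip ν z hz (Φ k) (Φ k') := by
    have : ∀ x, nq (fip ν z hz) (∑ k ∈ T, (h k).1 x • Φ k) =
        ∑ k ∈ T, ∑ k' ∈ T, (h k).1 x * (h k').1 x * fip ν z hz (Φ k) (Φ k') := by
      intro x
      simpa only [one_mul] using nq_sum_fkhu T (fun k => (h k).1 x) Φ 1
    simp only [this]
    rw [integral_finsetSum _ fun k _ =>
      (BM.sum fun k' _ => (hb k k').mul (BM.const _)).integrable, Finset.mul_sum]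
    refine Finset.sum_congr rfl fun k _ => ?_
    rw [integral_finsetSum _ fun k' _ => ((hb k k').mul (BM.const _)).integrable, Finset.mul_sum]
    refine Finset.sum_congr rfl fun k' _ => ?_
    rw [integral_mul_const, mul_assoc]
  rw [e1]
  have e2 : ∀ n : ℕ, z ^ (n + 1) / (n + 1).factorial * ∑ i, (∫ X : Fin (n + 1) → α,
        (∑ k ∈ T, (h k).1 (X i) * (Φ k).1 (er X i)) ^ 2 ∂(pm fun _ => ν)) =
      ∑ k ∈ T, ∑ k' ∈ T, z * (∫ x, (h k).1 x * (h k').1 x ∂(ν : Measure α)) *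
        wt2 ν z (Φ k).1 (Φ k').1 n := by
    intro n
    have hI : ∀ (i : Fin (n + 1)) k k', BM fun X : Fin (n + 1) → α =>
        (h k).1 (X i) * (h k').1 (X i) * ((Φ k).1 (er X i) * (Φ k').1 (er X i)) := fun i k k' =>
      ((hb k k').comp (measurable_pi_apply i)).mul
        ((bm_er (goodOf (Φ k)).1 i).mul (bm_er (goodOf (Φ k')).1 i))
    have : ∀ i : Fin (n + 1), (∫ X : Fin (n + 1) → α,
        (∑ k ∈ T, (h k).1 (X i) * (Φ k).1 (er X i)) ^ 2 ∂(pm fun _ => ν)) =
        ∑ k ∈ T, ∑ k' ∈ T, ∫ X : Fin (n + 1) → α, (h k).1 (X i) * (h k').1 (X i) *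
          ((Φ k).1 (er X i) * (Φ k').1 (er X i)) ∂(pm fun _ => ν) := by
      intro i
      have h1 : ∀ X : Fin (n + 1) → α, (∑ k ∈ T, (h k).1 (X i) * (Φ k).1 (er X i)) ^ 2 =
          ∑ k ∈ T, ∑ k' ∈ T, (h k).1 (X i) * (h k').1 (X i) *
            ((Φ k).1 (er X i) * (Φ k').1 (er X i)) := by
        intro X
        simpa only [one_mul] using
          sq_sum_fkhu T (fun k => (h k).1 (X i)) (fun k => (Φ k).1 (er X i)) 1
      simp only [h1]
      rw [integral_finsetSum _ fun k _ => (BM.sum fun k' _ => hI i k k').integrable]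
      refine Finset.sum_congr rfl fun k _ => ?_
      rw [integral_finsetSum _ fun k' _ => (hI i k k').integrable]
    simp only [this]
    rw [Finset.sum_comm, Finset.mul_sum]
    refine Finset.sum_congr rfl fun k _ => ?_
    rw [Finset.sum_comm, Finset.mul_sum]
    refine Finset.sum_congr rfl fun k' _ => ?_
    exact wt2_er (goodOf (Φ k)).1 (goodOf (Φ k')).1 (hb k k') n
  rw [funext e2]
  exact hasSum_sum fun k _ => hasSum_sum fun k' _ => (hasSum_fip (Φ k) (Φ k')).mul_left _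

/-- Two-body formula for a field of finite rank. -/
theorem hasSum_two {ι : Type} (T : Finset ι) (h : ι → BF (α × α)) (Φ : ι → FK ν z hz)
    (W : BF (α × α)) :
    HasSum (fun n : ℕ => z ^ n / n.factorial * ∑ i, ∑ j ∈ univ.erase i, (∫ X : Fin n → α,
        W.1 (X i, X j) * (∑ k ∈ T, (h k).1 (X i, X j) * (Φ k).1 (er2 X i j)) ^ 2 ∂(pm fun _ => ν)))
      (z ^ 2 * ∫ x, ∫ y, W.1 (x, y) * nq (fip ν z hz) (∑ k ∈ T, (h k).1 (x, y) • Φ k)
        ∂(ν : Measure α) ∂(ν : Measure α)) := by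
  rw [← hasSum_nat_add_iff' 2]
  have z1 : ∀ i : Fin 1, (univ : Finset (Fin 1)).erase i = ∅ := by decide
  simp only [Finset.sum_range_succ, Finset.range_zero, Finset.univ_eq_empty, Finset.sum_empty,
    mul_zero, z1, Finset.sum_const_zero, add_zero, sub_zero]
  have hb : ∀ k k', BM fun p : α × α => W.1 p * ((h k).1 p * (h k').1 p) := fun k k' =>
    (bmOf W).mul ((bmOf (h k)).mul (bmOf (h k')))
  have hb1 : ∀ k k' x, BM fun y : α => W.1 (x, y) * ((h k).1 (x, y) * (h k').1 (x, y)) :=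
    fun k k' x => (hb k k').comp (T := fun y => (x, y)) (measurable_const.prodMk measurable_id)
  have hb2 : ∀ k k', BM fun x : α => ∫ y, W.1 (x, y) * ((h k).1 (x, y) * (h k').1 (x, y))
      ∂(ν : Measure α) := fun k k' =>
    BM.integral_right (Φ := fun x y => W.1 (x, y) * ((h k).1 (x, y) * (h k').1 (x, y))) (hb k k')
  have e1 : z ^ 2 * ∫ x, ∫ y, W.1 (x, y) * nq (fip ν z hz) (∑ k ∈ T, (h k).1 (x, y) • Φ k)
        ∂(ν : Measure α) ∂(ν : Measure α) =
      ∑ k ∈ T, ∑ k' ∈ T, z ^ 2 * (∫ x, ∫ y, W.1 (x, y) * ((h k).1 (x, y) * (h k').1 (x, y))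
        ∂(ν : Measure α) ∂(ν : Measure α)) * fip ν z hz (Φ k) (Φ k') := by
    have : ∀ x, ∫ y, W.1 (x, y) * nq (fip ν z hz) (∑ k ∈ T, (h k).1 (x, y) • Φ k)
        ∂(ν : Measure α) = ∑ k ∈ T, ∑ k' ∈ T,
          (∫ y, W.1 (x, y) * ((h k).1 (x, y) * (h k').1 (x, y)) ∂(ν : Measure α)) *
            fip ν z hz (Φ k) (Φ k') := by
      intro x
      simp only [nq_sum_fkhu]
      rw [integral_finsetSum _ fun k _ =>
        (BM.sum fun k' _ => (hb1 k k' x).mul (BM.const _)).integrable]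
      refine Finset.sum_congr rfl fun k _ => ?_
      rw [integral_finsetSum _ fun k' _ => ((hb1 k k' x).mul (BM.const _)).integrable]
      refine Finset.sum_congr rfl fun k' _ => ?_
      rw [integral_mul_const]
    simp only [this]
    rw [integral_finsetSum _ fun k _ =>
      (BM.sum fun k' _ => (hb2 k k').mul (BM.const _)).integrable, Finset.mul_sum]
    refine Finset.sum_congr rfl fun k _ => ?_
    rw [integral_finsetSum _ fun k' _ => ((hb2 k k').mul (BM.const _)).integrable, Finset.mul_sum]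
    refine Finset.sum_congr rfl fun k' _ => ?_
    rw [integral_mul_const, mul_assoc]
  rw [e1]
  have e2 : ∀ n : ℕ, z ^ (n + 2) / (n + 2).factorial * ∑ i, ∑ j ∈ univ.erase i,
      (∫ X : Fin (n + 2) → α, W.1 (X i, X j) *
        (∑ k ∈ T, (h k).1 (X i, X j) * (Φ k).1 (er2 X i j)) ^ 2 ∂(pm fun _ => ν)) =
      ∑ k ∈ T, ∑ k' ∈ T, z ^ 2 * (∫ x, ∫ y, W.1 (x, y) * ((h k).1 (x, y) * (h k').1 (x, y))
        ∂(ν : Measure α) ∂(ν : Measure α)) * wt2 ν z (Φ k).1 (Φ k').1 n := by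
    intro n
    have hI : ∀ (i j : Fin (n + 2)), j ≠ i → ∀ k k', BM fun X : Fin (n + 2) → α =>
        W.1 (X i, X j) * ((h k).1 (X i, X j) * (h k').1 (X i, X j)) *
          ((Φ k).1 (er2 X i j) * (Φ k').1 (er2 X i j)) := fun i j hij k k' =>
      ((hb k k').comp (T := fun X : Fin (n + 2) → α => (X i, X j))
        ((measurable_pi_apply i).prodMk (measurable_pi_apply j))).mul
        ((bm_er2 (goodOf (Φ k)).1 hij).mul (bm_er2 (goodOf (Φ k')).1 hij))
    have : ∀ i : Fin (n + 2), ∑ j ∈ univ.erase i, (∫ X : Fin (n + 2) → α, W.1 (X i, X j) *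
        (∑ k ∈ T, (h k).1 (X i, X j) * (Φ k).1 (er2 X i j)) ^ 2 ∂(pm fun _ => ν)) =
        ∑ k ∈ T, ∑ k' ∈ T, ∑ j ∈ univ.erase i, ∫ X : Fin (n + 2) → α,
          W.1 (X i, X j) * ((h k).1 (X i, X j) * (h k').1 (X i, X j)) *
          ((Φ k).1 (er2 X i j) * (Φ k').1 (er2 X i j)) ∂(pm fun _ => ν) := by
      intro i
      rw [Finset.sum_congr rfl fun k _ => Finset.sum_comm, Finset.sum_comm]
      refine Finset.sum_congr rfl fun j hj => ?_
      have hij : j ≠ i := Finset.ne_of_mem_erase hj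
      simp only [sq_sum_fkhu]
      rw [integral_finsetSum _ fun k _ => (BM.sum fun k' _ => hI i j hij k k').integrable]
      refine Finset.sum_congr rfl fun k _ => ?_
      rw [integral_finsetSum _ fun k' _ => (hI i j hij k k').integrable]
    simp only [this]
    rw [Finset.sum_comm, Finset.mul_sum]
    refine Finset.sum_congr rfl fun k _ => ?_
    rw [Finset.sum_comm, Finset.mul_sum]
    refine Finset.sum_congr rfl fun k' _ => ?_
    exact wt2_er2 (goodOf (Φ k)).1 (goodOf (Φ k')).1 (W * (h k * h k')) n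
  rw [funext e2]
  exact hasSum_sum fun k _ => hasSum_sum fun k' _ => (hasSum_fip (Φ k) (Φ k')).mul_left _

end

end Pool.Agent.BoseLHY
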