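import Pool.Agent.Lib.MP_dec75e_mp.U.FkH

/-! Moments of the particle number, interaction and kinetic energy. -/

open MeasureTheory Finset Function
open scoped Real

noncomputable section

namespace Pool.Agent.BoseLHY

open Pool.Agent.BoseTail

variable {α κ : Type} [MeasurableSpace α] [DecidableEq κ] {F : Fs α κ} {Ψ : F.V}

theorem sum_smul_apply_fkiu {ι : Type} (T : Finset ι) (a : ι → ℝ) (Φ : ι → F.V) (t : Multiset α) :
    (∑ k ∈ T, a k • Φ k).1 t = ∑ k ∈ T, a k * (Φ k).1 t := by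
  rw [AddSubmonoidClass.coe_finsetSum, Finset.sum_apply]
  rfl

theorem congr_fkiu {f g : ℕ → ℝ} {a : ℝ} (H : HasSum f a) (h : ∀ n, g n = f n) : HasSum g a := by
  rwa [funext h]

/-- The functions in the expansion of the field operator. -/
def Fs.hhFkiu (F : Fs α κ) : Option κ → BF α
  | none => ⟨fun _ => F.r, BM.const _⟩
  | some m => F.e m

/-- The operators in the expansion of the field operator. -/
def Fs.opFkiu (F : Fs α κ) : Option κ → Module.End ℝ F.V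
  | none => 1
  | some m => F.dA m

theorem Fs.fl_eq_fkiu (x : α) (Ψ : F.V) :
    F.fl x Ψ = ∑ k ∈ insertNone F.s, (F.hhFkiu k).1 x • F.opFkiu k Ψ := by
  rw [Finset.sum_insertNone]
  simp only [Fs.fl, fld, lin, val, LinearMap.add_apply, LinearMap.sum_apply, LinearMap.smul_apply]
  rfl

theorem Fs.fl_fl_fkiu (x y : α) (Ψ : F.V) :
    F.fl y (F.fl x Ψ) = ∑ k ∈ insertNone F.s ×ˢ insertNone F.s,
      ((F.hhFkiu k.1).1 x * (F.hhFkiu k.2).1 y) • F.opFkiu k.2 (F.opFkiu k.1 Ψ) := by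
  rw [Finset.sum_product, Fs.fl_eq_fkiu x, map_sum]
  refine Finset.sum_congr rfl fun k _ => ?_
  rw [map_smul, Fs.fl_eq_fkiu y, Finset.smul_sum]
  exact Finset.sum_congr rfl fun l _ => smul_smul _ _ _

theorem Fs.gr_eq_fkiu (e' : κ → BF α) (Ψ : F.V) {n : ℕ} (X : Fin n → α) (i : Fin n) :
    F.gr e' Ψ X i = ∑ m ∈ F.s, (e' m).1 (X i) * (F.dA m Ψ).1 (er X i) := by
  rw [← sum_smul_apply_fkiu]
  simp only [Fs.gr, lin, val, LinearMap.sum_apply, LinearMap.smul_apply]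

theorem Fs.bm_gr (e' : κ → BF α) (Ψ : F.V) {n : ℕ} (i : Fin n) :
    BM fun X : Fin n → α => F.gr e' Ψ X i := by
  simp only [Fs.gr_eq_fkiu]
  exact BM.sum fun m _ => BM.mul (BM.comp (bmOf (e' m)) (measurable_pi_apply i))
    (bm_er (goodOf (F.dA m Ψ)).1 i)

/-- `hasSum_one` with the index set `Finset.insertNone F.s` (or `F.s.disjSum univ`). -/
theorem Fs.hasSum_num (h : Ψ ∈ F.Str) :
    HasSum (fun n : ℕ => (n : ℝ) * wt2 F.ν F.z Ψ.1 Ψ.1 n)
      (F.z * ∫ x, nq F.β (F.fl x Ψ) ∂(F.ν : Measure α)) := by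
  have H := hasSum_one (insertNone F.s) F.hhFkiu fun k => F.opFkiu k Ψ
  simp only [← sum_smul_apply_fkiu, ← Fs.fl_eq_fkiu] at H
  refine congr_fkiu H fun n => ?_
  have e : ∀ (X : Fin n → α) (i : Fin n), (F.fl (X i) Ψ).1 (er X i) = sec Ψ.1 n X := by
    intro X i
    rw [← h, ← ms_eq_cons]
    rfl
  simp only [e, Finset.sum_const, card_univ, Fintype.card_fin, nsmul_eq_mul, wt2, sq]
  ring

/-- `Ψ (ms X) = (fl (X j) (fl (X i) Ψ)) (er2 X i j)` and `hasSum_two`. -/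
theorem Fs.hasSum_pair (h : Ψ ∈ F.Str) (W : BF (α × α)) :
    HasSum (fun n : ℕ => F.z ^ n / n.factorial * ∫ X : Fin n → α,
        (∑ i, ∑ j ∈ univ.erase i, W.1 (X i, X j)) * sec Ψ.1 n X ^ 2 ∂(pm fun _ => F.ν))
      (F.z ^ 2 * ∫ x, ∫ y, W.1 (x, y) * nq F.β (F.fl y (F.fl x Ψ))
        ∂(F.ν : Measure α) ∂(F.ν : Measure α)) := by
  have H := hasSum_two (insertNone F.s ×ˢ insertNone F.s)
    (fun k => ⟨fun p => (F.hhFkiu k.1).1 p.1 * (F.hhFkiu k.2).1 p.2,
      BM.mul (BM.comp (bmOf _) measurable_fst) (BM.comp (bmOf _) measurable_snd)⟩)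
    (fun k => F.opFkiu k.2 (F.opFkiu k.1 Ψ)) W
  simp only [← sum_smul_apply_fkiu, ← Fs.fl_fl_fkiu] at H
  refine congr_fkiu H fun n => ?_
  have e : ∀ (X : Fin n → α) (i j : Fin n), j ≠ i →
      (F.fl (X j) (F.fl (X i) Ψ)).1 (er2 X i j) = sec Ψ.1 n X := by
    intro X i j hj
    rw [← Fs.str_fl h, ← er_eq_cons X hj, ← h, ← ms_eq_cons]
    rfl
  have hb : ∀ i j : Fin n, BM fun X : Fin n → α => W.1 (X i, X j) * sec Ψ.1 n X ^ 2 := fun i j =>
    BM.mul (BM.comp (bmOf W) ((measurable_pi_apply i).prodMk (measurable_pi_apply j)))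
      (BM.pow ((goodOf Ψ).1 n) 2)
  congr 1
  simp only [Finset.sum_mul]
  rw [integral_finsetSum _ fun i _ => (BM.sum fun j _ => hb i j).integrable]
  refine Finset.sum_congr rfl fun i _ => ?_
  rw [integral_finsetSum _ fun j _ => (hb i j).integrable]
  refine Finset.sum_congr rfl fun j hj => ?_
  simp only [e _ i j (Finset.ne_of_mem_erase hj)]

theorem Fs.hasSum_num2 (h : Ψ ∈ F.Str) :
    HasSum (fun n : ℕ => (n : ℝ) * (n - 1) * wt2 F.ν F.z Ψ.1 Ψ.1 n)
      (F.z ^ 2 * ∫ x, ∫ y, nq F.β (F.fl y (F.fl x Ψ)) ∂(F.ν : Measure α) ∂(F.ν : Measure α)) := by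
  have H := Fs.hasSum_pair h ⟨fun _ => 1, BM.const _⟩
  simp only [one_mul] at H
  convert H using 2 with n
  have e : ∀ i : Fin n, ((univ.erase i).card : ℝ) = n - 1 := fun i => by
    rw [card_erase_of_mem (mem_univ i), card_univ, Fintype.card_fin, Nat.cast_pred i.pos]
  simp only [Finset.sum_const, nsmul_eq_mul, mul_one, e, card_univ, Fintype.card_fin,
    integral_const_mul, wt2, sq]
  ring

/-- The kinetic energy for an orthogonal family of derivatives. -/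
theorem Fs.hasSum_grad (Ψ : F.V) {e' : κ → BF α} {P : κ → ℝ}
    (h : ∀ m ∈ F.s, ∀ m' ∈ F.s, F.z * ∫ x, (e' m).1 x * (e' m').1 x ∂(F.ν : Measure α) =
      if m = m' then P m else 0) :
    HasSum (fun n : ℕ => F.z ^ n / n.factorial * ∑ i, (∫ X : Fin n → α,
        F.gr e' Ψ X i ^ 2 ∂(pm fun _ => F.ν))) (∑ m ∈ F.s, P m * nq F.β (F.dA m Ψ)) := by
  have H := hasSum_one F.s e' fun m => F.dA m Ψ
  simp only [← Fs.gr_eq_fkiu] at H
  convert H using 1
  have e : ∀ x, nq (fip F.ν F.z F.hz) (∑ k ∈ F.s, (e' k).1 x • F.dA k Ψ) =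
      ∑ m ∈ F.s, ∑ m' ∈ F.s, (e' m).1 x * (e' m').1 x * F.β (F.dA m Ψ) (F.dA m' Ψ) := by
    intro x
    simp only [nq, map_sum, LinearMap.sum_apply, map_smul, LinearMap.smul_apply, smul_eq_mul, Fs.β]
    rw [Finset.sum_comm]
    refine Finset.sum_congr rfl fun m _ => ?_
    rw [Finset.mul_sum]
    exact Finset.sum_congr rfl fun m' _ => by ring
  have hb : ∀ m m', BM fun x => (e' m).1 x * (e' m').1 x * F.β (F.dA m Ψ) (F.dA m' Ψ) :=
    fun m m' => BM.mul (BM.mul (bmOf _) (bmOf _)) (BM.const _)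
  simp only [e]
  rw [integral_finsetSum _ fun m _ => (BM.sum fun m' _ => hb m m').integrable, Finset.mul_sum]
  refine Finset.sum_congr rfl fun m hm => ?_
  rw [integral_finsetSum _ fun m' _ => (hb m m').integrable, Finset.mul_sum,
    Finset.sum_eq_single_of_mem m hm]
  · rw [integral_mul_const, ← mul_assoc, h m hm m hm, if_pos rfl]
    rfl
  · intro m' hm' hne
    rw [integral_mul_const, ← mul_assoc, h m hm m' hm', if_neg hne.symm, zero_mul]

end Pool.Agent.BoseLHY
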