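import Pool.Agent.Lib.MP_dec75e_mp.U.Prod
import Pool.Agent.Lib.MP_dec75e_mp.U.CcrC
import Pool.Agent.Lib.MP_dec75e_mp.U.OrthG

/-! The densities of the product state. -/

open MeasureTheory Finset Function
open scoped Real

noncomputable section

namespace Pool.Agent.BoseLHY

open Pool.Agent.BoseTail

variable {V : Type} [AddCommGroup V] [Module ℝ V] {C : Type} [Fintype C] [DecidableEq C]
  {β : V →ₗ[ℝ] V →ₗ[ℝ] ℝ} {c cd : C × M3 → Module.End ℝ V} {K : Co M3} {Q : C → Box}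

theorem bm_lin_fldgu {α γ κ : Type} [MeasurableSpace α] [MeasurableSpace γ] (r : ℝ)
    (d : κ → Module.End ℝ V) (s : Finset κ) (e : κ → BF α) {T : γ → α} (hT : Measurable T)
    {G : γ → V →ₗ[ℝ] ℝ} (hG : ∀ v, BM fun p => G p v) (Ψ : V) :
    BM fun p => G p (fld r d s (val e (T p)) Ψ) := by
  have e1 : (fun p => G p (fld r d s (val e (T p)) Ψ)) =
      fun p => r * G p Ψ + ∑ m ∈ s, (e m).1 (T p) * G p (d m Ψ) := by
    funext p
    simp only [fld, lin, val, LinearMap.add_apply, LinearMap.smul_apply, Module.End.one_apply,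
      LinearMap.sum_apply, map_add, map_smul, map_sum, smul_eq_mul]
  rw [e1]
  exact ((BM.const r).mul (hG Ψ)).add (BM.sum fun m _ => ((bmOf (e m)).comp hT).mul (hG _))

theorem bm_nq_fld {α κ : Type} [MeasurableSpace α] (r : ℝ) (d : κ → Module.End ℝ V) (s : Finset κ)
    (e : κ → BF α) (Ψ : V) : (BM fun x => nq β (fld r d s (val e x) Ψ)) ∧
      BM fun p : α × α => nq β (fld r d s (val e p.2) (fld r d s (val e p.1) Ψ)) := by
  constructor
  · have h1 : ∀ v, BM fun x => β v (fld r d s (val e x) Ψ) := fun v =>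
      bm_lin_fldgu r d s e measurable_id (G := fun _ => β v) (fun w => BM.const _) Ψ
    exact bm_lin_fldgu r d s e measurable_id
      (G := fun x => β.flip (fld r d s (val e x) Ψ)) h1 Ψ
  · have h1 : ∀ v w, BM fun p : α × α => β v (fld r d s (val e p.2) w) := fun v w =>
      bm_lin_fldgu r d s e measurable_snd (G := fun _ => β v) (fun w => BM.const _) w
    have h2 : ∀ v, BM fun p : α × α => β v (fld r d s (val e p.2) (fld r d s (val e p.1) Ψ)) :=
      fun v => bm_lin_fldgu r d s e measurable_fst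
        (G := fun p : α × α => (β v).comp (fld r d s (val e p.2))) (h1 v) Ψ
    have h3 : ∀ v, BM fun p : α × α =>
        β (fld r d s (val e p.2) v) (fld r d s (val e p.2) (fld r d s (val e p.1) Ψ)) :=
      fun v => bm_lin_fldgu r d s e measurable_snd
        (G := fun p : α × α => β.flip (fld r d s (val e p.2) (fld r d s (val e p.1) Ψ))) h2 v
    exact bm_lin_fldgu r d s e measurable_fst
      (G := fun p : α × α => (β.flip (fld r d s (val e p.2) (fld r d s (val e p.1) Ψ))).comp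
        (fld r d s (val e p.2))) h3 Ψ

theorem fld_box {L r : ℝ} (h : Ins L Q) {k : C} (hr : K.r = r * √(Q k).vol) {x : R3}
    (hx : x ∈ (Q k).set) : fld r (dG K c cd) (univ ×ˢ K.s) (val (eG Q) x) =
      (√(Q k).vol)⁻¹ • K.F (bx c k) (bx cd k) (val (Q k).es x) := by
  have hv : √(Q k).vol ≠ 0 := (Real.sqrt_pos.2 (Q k).vol_pos).ne'
  unfold Co.F fld lin
  rw [smul_add, smul_smul, hr, mul_comm r, inv_mul_cancel_left₀ hv, sum_product,
    sum_eq_single k, smul_sum]
  · congr 1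
    refine sum_congr rfl fun m _ => ?_
    rw [smul_smul]
    exact congrArg (· • dG K c cd (k, m)) (ext0_of_mem (Q k) ((Q k).es m) hx)
  · intro k' _ hk
    refine sum_eq_zero fun m _ => ?_
    have h0 : val (eG Q) x (k', m) = 0 :=
      ext0_of_notMem (Q k') ((Q k').es m) fun hx' => hk (h.disj k' k x hx' hx)
    rw [h0, zero_smul]
  · exact fun hk => absurd (mem_univ k) hk

theorem fld_out (r : ℝ) {x : R3} (hx : ∀ k, x ∉ (Q k).set) :
    fld r (dG K c cd) (univ ×ˢ K.s) (val (eG Q) x) = r • 1 := by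
  unfold fld lin
  rw [sum_eq_zero, add_zero]
  intro km _
  have h0 : val (eG Q) x km = 0 := ext0_of_notMem (Q km.1) ((Q km.1).es km.2) (hx km.1)
  rw [h0, zero_smul]

/-- The densities of the product state: `PS.dens`, `PS.cross`, `Co.nq_FF` and `Co.nq_X`. -/
theorem exists_den {L r ε sb gb : ℝ} (h : Ins L Q) (hK : K.Ok) (hc : CCR β c cd (univ ×ˢ K.s))
    (hr : ∀ k, K.r = r * √(Q k).vol) (hε : 0 < ε)
    (hs : ∀ k x, n2 K.s (K.su (val (Q k).es x)) ≤ sb)
    (hg : ∀ k x, n2 K.L (K.gu (val (Q k).es x)) ≤ gb) {Ψ : V} (hΨ : PS K c cd Ψ)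
    (hpos : 0 < nq β Ψ) : ∃ D1 D2, Den Q K ε sb gb (r ^ 2) D1 D2 ∧
      (∀ x, nq β (fld r (dG K c cd) (univ ×ˢ K.s) (val (eG Q) x) Ψ) = D1.1 x * nq β Ψ) ∧
      ∀ x y, nq β (fld r (dG K c cd) (univ ×ˢ K.s) (val (eG Q) y)
        (fld r (dG K c cd) (univ ×ˢ K.s) (val (eG Q) x) Ψ)) = D2.1 (x, y) * nq β Ψ := by
  obtain ⟨b1, b2⟩ := bm_nq_fld (β := β) r (dG K c cd) (univ ×ˢ K.s) (eG Q) Ψ
  have hN : 0 < 1 + K.N := by linarith [Co.N_nonneg (K := K)]
  have hv : ∀ k, ((√(Q k).vol)⁻¹) ^ 2 = ((Q k).vol)⁻¹ := fun k => by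
    rw [inv_pow, Real.sq_sqrt (Q k).vol_pos.le]
  have hbox : ∀ k, ∀ x ∈ (Q k).set,
      nq β (fld r (dG K c cd) (univ ×ˢ K.s) (val (eG Q) x) Ψ) * (nq β Ψ)⁻¹ =
        K.Dn (val (Q k).es x) / ((Q k).vol * (1 + K.N)) := fun k x hx => by
    have h1 := hΨ.dens hc k (val (Q k).es x)
    have h2 := (Q k).vol_pos
    rw [fld_box h (hr k) hx, LinearMap.smul_apply, nq_smul, hv, eq_div_of_mul_eq hN.ne' h1]
    field_simp
  have hout : ∀ x, (∀ k, x ∉ (Q k).set) → ∀ f,
      fld r (dG K c cd) (univ ×ˢ K.s) (val (eG Q) x) f = r • f := fun x hx f => by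
    rw [fld_out r hx, LinearMap.smul_apply, Module.End.one_apply]
  refine ⟨⟨_, b1.mul (BM.const (nq β Ψ)⁻¹)⟩, ⟨_, b2.mul (BM.const (nq β Ψ)⁻¹)⟩,
    ⟨fun x => mul_nonneg (hc.psd.nq_nonneg _) (inv_nonneg.2 hpos.le),
      fun z => mul_nonneg (hc.psd.nq_nonneg _) (inv_nonneg.2 hpos.le), hbox, fun x hx => ?_,
      fun k x hx y hy => ?_, fun x y hxy => ?_⟩,
    fun x => (inv_mul_cancel_right₀ hpos.ne' _).symm,
    fun x y => (inv_mul_cancel_right₀ hpos.ne' _).symm⟩
  · dsimp only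
    rw [hout x hx, nq_smul, mul_inv_cancel_right₀ hpos.ne']
  · obtain ⟨Ξ, hΞ, e⟩ := hΨ.one k
    have h1 := Co.nq_FF hK (hc.bx k) hΞ hε (hs k x) (hs k y) (hg k x) (hg k y)
    have h2 := Co.nq_X (hc.bx k) hΞ
    rw [← e] at h1 h2
    have h3 := Co.pb_nonneg (K := K) hε ((n2_nonneg _).trans (hs k x))
      ((n2_nonneg _).trans (hg k x)) (val (Q k).es x) (val (Q k).es y)
    have h4 : nq β Ξ ≤ nq β Ψ := by
      rw [h2]
      exact le_mul_of_one_le_left (hc.psd.nq_nonneg _) (by linarith [Co.N_nonneg (K := K)])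
    have h5 := h1.trans (mul_le_mul_of_nonneg_left h4 h3)
    have h6 := (Q k).vol_pos
    dsimp only
    rw [fld_box h (hr k) hx, fld_box h (hr k) hy, LinearMap.smul_apply, LinearMap.smul_apply,
      map_smul, nq_smul, nq_smul, hv, ← div_eq_mul_inv, div_le_iff₀ hpos]
    calc _ = _ / (Q k).vol ^ 2 := by field_simp
      _ ≤ _ / (Q k).vol ^ 2 := div_le_div_of_nonneg_right h5 (by positivity)
      _ = _ := by ring
  · dsimp only
    by_cases hx : ∀ k, x ∉ (Q k).set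
    · rw [hout x hx, map_smul, nq_smul, nq_smul, mul_inv_cancel_right₀ hpos.ne', mul_assoc]
    by_cases hy : ∀ k, y ∉ (Q k).set
    · rw [hout y hy, hout y hy, nq_smul, nq_smul, mul_inv_cancel_right₀ hpos.ne']
      ring
    push Not at hx hy
    obtain ⟨k, hx⟩ := hx
    obtain ⟨k', hy⟩ := hy
    have hk : k' ≠ k := fun e => hxy k ⟨hx, e ▸ hy⟩
    have h1 := hΨ.cross hc hk (val (Q k').es y) (val (Q k).es x)
    have h2 := (Q k).vol_pos
    have h3 := (Q k').vol_pos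
    rw [hbox k x hx, hbox k' y hy, fld_box h (hr k) hx, fld_box h (hr k') hy,
      LinearMap.smul_apply, LinearMap.smul_apply, map_smul, nq_smul, nq_smul, hv, hv,
      eq_div_of_mul_eq (pow_pos hN 2).ne' h1]
    field_simp

end Pool.Agent.BoseLHY
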