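import Pool.Agent.Lib.MP_dec75e_mp.U.OrthG
import Pool.Agent.Lib.MP_dec75e_mp.U.CoInt
import Pool.Agent.Lib.MP_dec75e_mp.U.Bes

/-! Particle number, variance and energy of the trial state. -/

open MeasureTheory Finset Function
open scoped Real

noncomputable section

namespace Pool.Agent.BoseLHY

open Pool.Agent.BoseTail

variable {L : ℝ} [Fact (0 < L)] {C : Type} [Fintype C] [DecidableEq C] {Q : C → Box}
  {K : Co M3} {w : BF R3} {s ρ ε sb gb E V b : ℝ} {D1 : BF R3} {D2 W : BF (R3 × R3)}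

theorem bm_ind_globu {α : Type} [MeasurableSpace α] {S : Set α} (hS : MeasurableSet S)
    {f : α → ℝ} (hf : BM f) : BM (S.indicator f) := by
  obtain ⟨hm, c, hc⟩ := hf
  exact ⟨hm.indicator hS, c, fun x => (norm_indicator_le_norm_self _ _).trans (hc x)⟩

theorem bm_div_globu {α : Type} [MeasurableSpace α] {f : α → ℝ} (hf : BM f) (c : ℝ) :
    BM fun x => f x / c := by
  simpa only [div_eq_mul_inv] using hf.mul (BM.const c⁻¹)

omit [DecidableEq C] in
theorem meas_out_globu (Q : C → Box) : MeasurableSet (⋃ k, (Q k).set)ᶜ :=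
  (MeasurableSet.iUnion fun k => (Q k).measurableSet_set).compl

omit [DecidableEq C] in
theorem int_split_globu (h : Ins L Q) {f : C → R3 → ℝ} (hf : ∀ k, BM (f k)) (c : ℝ) :
    L ^ 3 * ∫ x, (∑ k, (Q k).set.indicator (f k) x +
        c * (⋃ k, (Q k).set)ᶜ.indicator (fun _ => (1 : ℝ)) x) ∂((big L).μ : Measure R3) =
      ∑ k, (Q k).vol * ∫ x, f k x ∂((Q k).μ : Measure R3) + c * (L ^ 3 - ∑ k, (Q k).vol) := by
  have h1 : ∀ k, BM ((Q k).set.indicator (f k)) := fun k =>
    bm_ind_globu (Q k).measurableSet_set (hf k)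
  have h2 : BM ((⋃ k, (Q k).set)ᶜ.indicator fun _ => (1 : ℝ)) :=
    bm_ind_globu (meas_out_globu Q) (BM.const 1)
  rw [integral_add (BM.sum fun k _ => h1 k).integrable ((BM.const c).mul h2).integrable,
    integral_finsetSum _ fun k _ => (h1 k).integrable, integral_const_mul, mul_add,
    Finset.mul_sum, ← h.integral_out]
  congr 1
  · exact Finset.sum_congr rfl fun k _ => h.integral_ind k (f k)
  · ring

theorem sum_ind_globu (h : Ins L Q) (f : C → R3 → ℝ) {k : C} {x : R3} (hx : x ∈ (Q k).set) :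
    ∑ j, (Q j).set.indicator (f j) x = f k x := by
  rw [Finset.sum_eq_single k, Set.indicator_of_mem hx]
  · exact fun j _ hj => Set.indicator_of_notMem (fun hj' => hj (h.disj _ _ _ hj' hx)) _
  · exact fun hk => absurd (Finset.mem_univ k) hk

omit [DecidableEq C] in
theorem sum_out_globu (f : C → R3 → ℝ) {x : R3} (hx : ∀ k, x ∉ (Q k).set) :
    ∑ j, (Q j).set.indicator (f j) x = 0 :=
  Finset.sum_eq_zero fun j _ => Set.indicator_of_notMem (hx j) _

omit [DecidableEq C] [Fintype C] in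
theorem out_in_globu {k : C} {x : R3} (hx : x ∈ (Q k).set) :
    (⋃ k, (Q k).set)ᶜ.indicator (fun _ => (1 : ℝ)) x = 0 :=
  Set.indicator_of_notMem (Set.notMem_compl_iff.2 (Set.mem_iUnion.2 ⟨k, hx⟩)) _

omit [DecidableEq C] [Fintype C] in
theorem out_out_globu {x : R3} (hx : ∀ k, x ∉ (Q k).set) :
    (⋃ k, (Q k).set)ᶜ.indicator (fun _ => (1 : ℝ)) x = 1 :=
  Set.indicator_of_mem (fun h => by
    obtain ⟨k, hk⟩ := Set.mem_iUnion.1 h
    exact hx k hk) _

omit [DecidableEq C] in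
theorem ii_sum_globu (h : Ins L Q) {f : C → R3 → R3 → ℝ} (hf : ∀ k, BM (uncurry (f k))) :
    (L ^ 3) ^ 2 * (big L).ii (fun x y =>
        ∑ k, ((Q k).set ×ˢ (Q k).set).indicator (uncurry (f k)) (x, y)) =
      ∑ k, (Q k).vol ^ 2 * (Q k).ii (f k) := by
  rw [(big L).ii_sum univ
    (G := fun k x y => ((Q k).set ×ˢ (Q k).set).indicator (uncurry (f k)) (x, y)) fun k _ =>
      bm_ind_globu ((Q k).measurableSet_set.prod (Q k).measurableSet_set) (hf k), Finset.mul_sum]
  exact Finset.sum_congr rfl fun k _ => h.integral_ind2 k (f k)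

omit [DecidableEq C] in
theorem bm_sum_globu {f : C → R3 → R3 → ℝ} (hf : ∀ k, BM (uncurry (f k))) :
    BM (uncurry fun x y => ∑ k, ((Q k).set ×ˢ (Q k).set).indicator (uncurry (f k)) (x, y)) :=
  BM.sum (s := univ) (F := fun k => ((Q k).set ×ˢ (Q k).set).indicator (uncurry (f k)))
    fun k _ => bm_ind_globu ((Q k).measurableSet_set.prod (Q k).measurableSet_set) (hf k)

theorem pb_nonneg_globu {B : Box} (hB : BoxOk K B w ε sb gb E V) (u u' : M3 → ℝ) :
    0 ≤ K.pb ε sb gb u u' :=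
  Co.pb_nonneg hB.e0 ((n2_nonneg _).trans (hB.hs 0)) ((n2_nonneg _).trans (hB.hg 0)) u u'

theorem ii_div_globu (B : Box) (G : R3 → R3 → ℝ) :
    B.vol ^ 2 * B.ii (fun x y => G x y / B.vol ^ 2) = B.ii G := by
  have h := B.vol_pos
  rw [← B.ii_const_mul]
  congr 1
  funext x y
  field_simp

/-- `D1 = ∑_k indicator (Q k) Dn / (vol (1 + N)) + ρ indicator (outside)`; `Co.integral_Dn`,
`Co.le_n1`. -/
theorem Den.num (hD : Den Q K ε sb gb ρ D1 D2) (h : Ins L Q) (hQ : ∀ k, (Q k).Cube s)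
    (hb : ∀ m ∈ K.s, Bulk 0 m) (hr : K.r ^ 2 = ρ * s ^ 3) :
    ρ * L ^ 3 + Fintype.card C * n2 K.s K.σ ≤ L ^ 3 * ∫ x, D1.1 x ∂((big L).μ : Measure R3) := by
  have hN : 0 < 1 + K.N := by linarith [Co.N_nonneg (K := K)]
  have h1 : ∀ x, D1.1 x = ∑ k, (Q k).set.indicator
      (fun x => K.Dn (val (Q k).es x) / ((Q k).vol * (1 + K.N))) x +
      ρ * (⋃ k, (Q k).set)ᶜ.indicator (fun _ => (1 : ℝ)) x := fun x => by
    by_cases hx : ∃ k, x ∈ (Q k).set
    · obtain ⟨k, hk⟩ := hx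
      rw [sum_ind_globu h _ hk, out_in_globu hk, hD.box k x hk, mul_zero, add_zero]
    · push Not at hx
      rw [sum_out_globu _ hx, out_out_globu hx, hD.out x hx, mul_one, zero_add]
  simp only [h1]
  rw [int_split_globu h (fun k => bm_div_globu Co.bm_Dn _)]
  have h2 : ∀ k, K.r ^ 2 + n2 K.s K.σ ≤ (Q k).vol *
      ∫ x, K.Dn (val (Q k).es x) / ((Q k).vol * (1 + K.N)) ∂((Q k).μ : Measure R3) := fun k => by
    have hv := (Q k).vol_pos
    rw [integral_div, Co.integral_Dn ((Q k).orth_es hb), mul_div_assoc', mul_div_mul_left _ _ hv.ne',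
      le_div_iff₀ hN]
    exact Co.le_n1
  have h3 := Finset.sum_le_sum fun k (_ : k ∈ (univ : Finset C)) => h2 k
  have h4 : ∑ k, (Q k).vol = Fintype.card C * s ^ 3 := by
    simp [fun k => (hQ k).vol]
  rw [Finset.sum_const, Finset.card_univ, nsmul_eq_mul, hr] at h3
  rw [h4]
  linarith

/-- `D2 (x, y) ≤ D1 x * D1 y + ∑_k indicator (Q k ×ˢ Q k) pb / vol ^ 2`. -/
theorem Den.two (hD : Den Q K ε sb gb ρ D1 D2) (h : Ins L Q)
    (hB : ∀ k, BoxOk K (Q k) w ε sb gb E V) :
    (L ^ 3) ^ 2 * ((big L).ii fun x y => D2.1 (x, y)) ≤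
      (L ^ 3 * ∫ x, D1.1 x ∂((big L).μ : Measure R3)) ^ 2 + Fintype.card C * V := by
  have hf : ∀ k, BM (uncurry fun x y =>
      K.pb ε sb gb (val (Q k).es x) (val (Q k).es y) / (Q k).vol ^ 2) := fun k =>
    bm_div_globu (Co.bm_pb ε sb gb) _
  have h11 : BM (uncurry fun x y => D1.1 x * D1.1 y) :=
    ((bmOf D1).comp measurable_fst).mul ((bmOf D1).comp measurable_snd)
  have h1 : ((big L).ii fun x y => D2.1 (x, y)) ≤ (big L).ii fun x y => D1.1 x * D1.1 y +
      ∑ k, ((Q k).set ×ˢ (Q k).set).indicator (uncurry fun x y =>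
        K.pb ε sb gb (val (Q k).es x) (val (Q k).es y) / (Q k).vol ^ 2) (x, y) := by
    refine (big L).ii_mono (bmOf D2) (h11.add (bm_sum_globu hf)) fun x _ y _ => ?_
    have h0 : ∀ k ∈ (univ : Finset C), 0 ≤ ((Q k).set ×ˢ (Q k).set).indicator (uncurry fun x y =>
        K.pb ε sb gb (val (Q k).es x) (val (Q k).es y) / (Q k).vol ^ 2) (x, y) := fun k _ =>
      Set.indicator_nonneg (fun p _ => div_nonneg (pb_nonneg_globu (hB k) _ _) (sq_nonneg _)) _
    by_cases hx : ∃ k, x ∈ (Q k).set ∧ y ∈ (Q k).set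
    · obtain ⟨k, hk, hk'⟩ := hx
      have h2 := Finset.single_le_sum h0 (Finset.mem_univ k)
      rw [Set.indicator_of_mem (Set.mk_mem_prod hk hk')] at h2
      have h3 := hD.same k x hk y hk'
      have h4 := mul_nonneg (hD.pos1 x) (hD.pos1 y)
      simp only [uncurry_apply_pair] at h2
      linarith
    · rw [hD.diff x y fun k hk => hx ⟨k, hk⟩]
      linarith [Finset.sum_nonneg h0]
  rw [(big L).ii_add h11 (bm_sum_globu hf)] at h1
  have h2 : ((big L).ii fun x y => D1.1 x * D1.1 y) =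
      (∫ x, D1.1 x ∂((big L).μ : Measure R3)) ^ 2 := by
    simp only [Box.ii, integral_const_mul, integral_mul_const, sq]
  have h3 := ii_sum_globu h hf
  have h4 : ∑ k, (Q k).vol ^ 2 * (Q k).ii (fun x y =>
      K.pb ε sb gb (val (Q k).es x) (val (Q k).es y) / (Q k).vol ^ 2) ≤ Fintype.card C * V := by
    refine (Finset.sum_le_sum (g := fun _ => V) fun k _ => ?_).trans (by simp)
    rw [ii_div_globu]
    exact (hB k).two
  have h5 := mul_le_mul_of_nonneg_left h1 (sq_nonneg (L ^ 3))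
  rw [mul_add, h3, h2] at h5
  rw [mul_pow]
  linarith

/-- With `G y = 2 ρ + ∑_k indicator (Q k) kk / vol ≥ D1 y` (`BoxOk.dn`) and `O` the indicator of
the outside, `W D2 ≤ ∑_k indicator (Q k ×ˢ Q k) w pb / vol ^ 2 + ρ W (O x * G y + G x * O y)`. -/
theorem Den.pot (hD : Den Q K ε sb gb ρ D1 D2) (h : Ins L Q) (hQ : ∀ k, (Q k).Cube s)
    {v : E3 → ℝ} (hW : Wper v L Q w b W) (hB : ∀ k, BoxOk K (Q k) w ε sb gb E V) (hρ : 0 ≤ ρ)
    (hr : K.r ^ 2 = ρ * s ^ 3) :
    Fintype.card C * K.kn (fun m => sq3 (pk s m)) / 2 +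
        (L ^ 3) ^ 2 * ((big L).ii fun x y => W.1 (x, y) * D2.1 (x, y)) / 2 ≤
      Fintype.card C * E +
        b * (2 * ρ ^ 2 * (L ^ 3 - Fintype.card C * s ^ 3) + ρ * Fintype.card C) := by
  have hL : 0 < L := Fact.out
  have hL3 : 0 < L ^ 3 := pow_pos hL 3
  have hb : 0 ≤ b :=
    (mul_nonneg hL3.le (integral_nonneg fun y => hW.nonneg _)).trans (hW.marg 0)
  have hN : 1 ≤ 1 + K.N := by linarith [Co.N_nonneg (K := K)]
  have hf : ∀ k, BM (uncurry fun x y => W.1 (x, y) *
      K.pb ε sb gb (val (Q k).es x) (val (Q k).es y) / (Q k).vol ^ 2) := fun k =>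
    bm_div_globu ((bmOf W).mul (Co.bm_pb ε sb gb)) _
  have hk : ∀ k, BM fun x => K.kk (val (Q k).es x) / (Q k).vol := fun k =>
    bm_div_globu Co.bm_kk _
  obtain ⟨H, hH⟩ : ∃ H : R3 → ℝ, H = fun x =>
    ∑ k, (Q k).set.indicator (fun x => K.kk (val (Q k).es x) / (Q k).vol) x := ⟨_, rfl⟩
  obtain ⟨O, hO⟩ : ∃ O : R3 → ℝ, O = (⋃ k, (Q k).set)ᶜ.indicator fun _ => (1 : ℝ) := ⟨_, rfl⟩
  have hH0 : ∀ x, 0 ≤ H x := fun x => by
    rw [hH]
    exact Finset.sum_nonneg fun k _ => Set.indicator_nonneg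
      (fun x _ => div_nonneg (Co.kk_nonneg _) (Q k).vol_pos.le) _
  have hO0 : ∀ x, 0 ≤ O x := fun x => by
    rw [hO]
    exact Set.indicator_nonneg (fun _ _ => zero_le_one) _
  have hA : BM fun x => H x + 2 * ρ * O x := by
    rw [hH, hO]
    exact (BM.sum fun k _ => bm_ind_globu (Q k).measurableSet_set (hk k)).add
      ((BM.const _).mul (bm_ind_globu (meas_out_globu Q) (BM.const 1)))
  have hA0 : ∀ x, 0 ≤ H x + 2 * ρ * O x := fun x =>
    add_nonneg (hH0 x) (mul_nonneg (by linarith) (hO0 x))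
  have hAi : L ^ 3 * ∫ x, (H x + 2 * ρ * O x) ∂((big L).μ : Measure R3) ≤
      Fintype.card C + 2 * ρ * (L ^ 3 - Fintype.card C * s ^ 3) := by
    rw [hH, hO, int_split_globu h hk]
    have h4 : ∑ k, (Q k).vol = Fintype.card C * s ^ 3 := by
      simp [fun k => (hQ k).vol]
    rw [h4]
    refine add_le_add ?_ le_rfl
    refine (Finset.sum_le_sum (g := fun _ => (1 : ℝ)) fun k _ => ?_).trans (by simp)
    rw [integral_div, mul_div_cancel₀ _ (Q k).vol_pos.ne']
    exact (hB k).kk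
  have hG : ∀ y, D1.1 y ≤ 2 * ρ + H y := fun y => by
    by_cases hy : ∃ k, y ∈ (Q k).set
    · obtain ⟨k, hy⟩ := hy
      have hv := (Q k).vol_pos
      have h1 : H y = K.kk (val (Q k).es y) / (Q k).vol := by
        rw [hH]
        exact sum_ind_globu h _ hy
      have h2 := (hB k).dn y
      have h3 : K.Dn (val (Q k).es y) / ((Q k).vol * (1 + K.N)) ≤
          K.Dn (val (Q k).es y) / (Q k).vol :=
        div_le_div_of_nonneg_left (Co.Dn_nonneg _) hv (le_mul_of_one_le_right hv.le hN)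
      have h4 : K.Dn (val (Q k).es y) / (Q k).vol ≤ 2 * ρ + K.kk (val (Q k).es y) / (Q k).vol := by
        rw [div_le_iff₀ hv, add_mul, div_mul_cancel₀ _ hv.ne', (hQ k).vol]
        linarith
      rw [hD.box k y hy, h1]
      linarith
    · push Not at hy
      rw [hD.out y hy]
      linarith [hH0 y]
  have hA1 : BM (uncurry fun x y => W.1 (x, y) * (H x + 2 * ρ * O x)) :=
    (bmOf W).mul (hA.comp measurable_fst)
  have hA2 : BM (uncurry fun x y => W.1 (x, y) * (H y + 2 * ρ * O y)) :=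
    (bmOf W).mul (hA.comp measurable_snd)
  have hA3 : BM (uncurry fun x y => ρ * (W.1 (x, y) * (H x + 2 * ρ * O x) +
      W.1 (x, y) * (H y + 2 * ρ * O y))) := (BM.const ρ).mul (hA1.add hA2)
  have h1 : ((big L).ii fun x y => W.1 (x, y) * D2.1 (x, y)) ≤ (big L).ii fun x y =>
      ∑ k, ((Q k).set ×ˢ (Q k).set).indicator (uncurry fun x y => W.1 (x, y) *
        K.pb ε sb gb (val (Q k).es x) (val (Q k).es y) / (Q k).vol ^ 2) (x, y) +
      ρ * (W.1 (x, y) * (H x + 2 * ρ * O x) + W.1 (x, y) * (H y + 2 * ρ * O y)) := by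
    refine (big L).ii_mono ((bmOf W).mul (bmOf D2)) ((bm_sum_globu hf).add hA3)
      fun x _ y _ => ?_
    have hw := hW.nonneg (x, y)
    have h0 : ∀ k ∈ (univ : Finset C), 0 ≤ ((Q k).set ×ˢ (Q k).set).indicator
        (uncurry fun x y => W.1 (x, y) *
          K.pb ε sb gb (val (Q k).es x) (val (Q k).es y) / (Q k).vol ^ 2) (x, y) := fun k _ =>
      Set.indicator_nonneg (fun p _ => div_nonneg
        (mul_nonneg (hW.nonneg _) (pb_nonneg_globu (hB k) _ _)) (sq_nonneg _)) _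
    have h5 := mul_nonneg hρ (mul_nonneg hw (hA0 x))
    have h6 := mul_nonneg hρ (mul_nonneg hw (hA0 y))
    have h7 := Finset.sum_nonneg h0
    by_cases hx : ∃ k, x ∈ (Q k).set ∧ y ∈ (Q k).set
    · obtain ⟨k, hk, hk'⟩ := hx
      have h2 := Finset.single_le_sum h0 (Finset.mem_univ k)
      rw [Set.indicator_of_mem (Set.mk_mem_prod hk hk')] at h2
      have h3 := mul_le_mul_of_nonneg_left (hD.same k x hk y hk') hw
      simp only [uncurry_apply_pair] at h2
      rw [← mul_div_assoc] at h3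
      linarith
    · rw [hD.diff x y fun k hk => hx ⟨k, hk⟩]
      have h8 := mul_nonneg hρ (mul_nonneg hw (hH0 x))
      have h9 := mul_nonneg hρ (mul_nonneg hw (hH0 y))
      have h10 := mul_nonneg hρ (mul_nonneg hw (mul_nonneg hρ (hO0 x)))
      have h11 := mul_nonneg hρ (mul_nonneg hw (mul_nonneg hρ (hO0 y)))
      by_cases hx' : ∃ k, x ∈ (Q k).set
      · obtain ⟨k, hk⟩ := hx'
        by_cases hy' : ∃ k, y ∈ (Q k).set
        · obtain ⟨k', hk'⟩ := hy'
          have hne : k ≠ k' := fun e => hx ⟨k, hk, e ▸ hk'⟩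
          have h12 := hW.diff k k' hne x hk y hk'
          rw [h12] at h5 h6 ⊢
          linarith
        · push Not at hy'
          have h12 : O y = 1 := by
            rw [hO]
            exact out_out_globu hy'
          have h13 := mul_le_mul_of_nonneg_left (hG x) (mul_nonneg hρ hw)
          rw [hD.out y hy', h12]
          linarith
      · push Not at hx'
        have h12 : O x = 1 := by
          rw [hO]
          exact out_out_globu hx'
        have h13 := mul_le_mul_of_nonneg_left (hG y) (mul_nonneg hρ hw)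
        rw [hD.out x hx', h12]
        linarith
  have h2 : ((big L).ii fun x y => W.1 (x, y) * (H y + 2 * ρ * O y)) =
      (big L).ii fun x y => W.1 (x, y) * (H x + 2 * ρ * O x) := by
    unfold Box.ii
    rw [BM.swap hA2]
    simp only [fun x y => hW.symm x y]
  have h3 : L ^ 3 * ((big L).ii fun x y => W.1 (x, y) * (H x + 2 * ρ * O x)) ≤
      b * ∫ x, (H x + 2 * ρ * O x) ∂((big L).μ : Measure R3) := by
    unfold Box.ii
    rw [← integral_const_mul, ← integral_const_mul]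
    refine integral_mono ((BM.const _).mul (BM.integral_right hA1)).integrable
      ((BM.const b).mul hA).integrable fun x => ?_
    simp only [integral_mul_const]
    rw [← mul_assoc]
    exact mul_le_mul_of_nonneg_right (hW.marg x) (hA0 x)
  rw [(big L).ii_add (bm_sum_globu hf) hA3, (big L).ii_const_mul, (big L).ii_add hA1 hA2, h2] at h1
  have h4 := ii_sum_globu h hf
  have h5 : ∑ k, (K.kn (fun m => sq3 (pk s m)) / 2 + (Q k).vol ^ 2 * (Q k).ii (fun x y =>
      W.1 (x, y) * K.pb ε sb gb (val (Q k).es x) (val (Q k).es y) / (Q k).vol ^ 2) / 2) ≤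
      Fintype.card C * E := by
    refine (Finset.sum_le_sum (g := fun _ => E) fun k _ => ?_).trans (by simp)
    rw [ii_div_globu]
    have h6 := (hB k).en
    simp only [(hQ k).p_eq] at h6
    have h7 : (Q k).ii (fun x y => W.1 (x, y) * K.pb ε sb gb (val (Q k).es x) (val (Q k).es y)) ≤
        (Q k).ii fun x y => w.1 (x - y) * K.pb ε sb gb (val (Q k).es x) (val (Q k).es y) :=
      (Q k).ii_mono ((bmOf W).mul (Co.bm_pb ε sb gb)) ((bmOf (dif w)).mul (Co.bm_pb ε sb gb))
        fun x hx y hy => by rw [hW.same k x hx y hy]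
    linarith
  rw [Finset.sum_add_distrib, ← Finset.sum_div, ← Finset.sum_div, ← h4, Finset.sum_const,
    Finset.card_univ, nsmul_eq_mul] at h5
  have h6 := mul_le_mul_of_nonneg_left h1 (sq_nonneg (L ^ 3))
  have h7 := mul_le_mul_of_nonneg_left h3 (mul_nonneg hρ hL3.le)
  have h8 := mul_le_mul_of_nonneg_left hAi (mul_nonneg hρ hb)
  nlinarith

end Pool.Agent.BoseLHY
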