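import Pool.Agent.Lib.MP_dec75e_mp.U.Df
import Pool.Agent.Lib.MP_dec75e_mp.L.Lift2
import Pool.Agent.Lib.MP_dec75e_mp.Meas
import Pool.Agent.Lib.MP_dec75e_mp.Calc

/-! Monotonicity in the particle number and the Chebyshev argument. -/

open MeasureTheory Finset Function
open scoped Real

noncomputable section

namespace Pool.Agent.BoseLHY

open Pool.Agent.BoseTail

variable {N : ℕ} {L : ℝ} [Fact (0 < L)] {v : E3 → ℝ}

theorem cons_dir_lbdu (y : T3 L) (x : Cf N L) (i : Fin N) (c : Fin 3) (s : ℝ) :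
    (Fin.cons y (x + dir i c s) : Cf (N + 1) L) = Fin.cons y x + dir i.succ c s := by
  funext j
  refine Fin.cases ?_ (fun k => ?_) j
  · simp [dir]
  · simp [dir, Pi.single_apply]

theorem continuous_cons_lbdu (y : T3 L) :
    Continuous fun x : Cf N L => (Fin.cons y x : Cf (N + 1) L) := by
  refine continuous_pi fun j => Fin.cases ?_ (fun k => ?_) j
  · simpa using continuous_const
  · simpa using continuous_apply k

theorem measurable_cons_lbdu :
    Measurable fun p : T3 L × Cf N L => (Fin.cons p.1 p.2 : Cf (N + 1) L) := by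
  refine measurable_pi_lambda _ fun j => Fin.cases ?_ (fun k => ?_) j
  · simpa using measurable_fst
  · simp only [Fin.cons_succ]
    exact (measurable_pi_apply k).comp measurable_snd

theorem dd_cons_lbdu (φ : Cf (N + 1) L → ℂ) (y : T3 L) (x : Cf N L) (i : Fin N) (c : Fin 3) :
    dd (dir i c) (fun x : Cf N L => φ (Fin.cons y x)) x = dd (dir i.succ c) φ (Fin.cons y x) := by
  simp only [dd, cons_dir_lbdu]

theorem isC1_cons_lbdu {φ : Cf (N + 1) L → ℂ} (h : IsC1 φ) (y : T3 L) :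
    IsC1 fun x : Cf N L => φ (Fin.cons y x) := by
  refine ⟨h.1.comp (continuous_cons_lbdu y), fun i c => ⟨h.1.comp (continuous_cons_lbdu y),
    fun x => ?_, ?_⟩⟩
  · simp only [cons_dir_lbdu]
    exact (h.2 i.succ c).diff _
  · have : dd (dir i c) (fun x : Cf N L => φ (Fin.cons y x)) =
        fun x => dd (dir i.succ c) φ (Fin.cons y x) := funext fun x => dd_cons_lbdu φ y x i c
    rw [this]
    exact (h.2 i.succ c).cdd.comp (continuous_cons_lbdu y)

theorem integral_cons_lbdu {G : Cf (N + 1) L → ℝ} (hG : BM G) :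
    ∫ X, G X = ∫ y : T3 L, ∫ x : Cf N L, G (Fin.cons y x) := by
  have h1 := (volume_preserving_piFinSuccAbove (fun _ : Fin (N + 1) => T3 L) 0).symm
  rw [← h1.integral_comp' G]
  have h2 : ∀ p : T3 L × Cf N L,
      (MeasurableEquiv.piFinSuccAbove (fun _ : Fin (N + 1) => T3 L) 0).symm p =
        (Fin.cons p.1 p.2 : Cf (N + 1) L) := by
    intro p
    simp [MeasurableEquiv.piFinSuccAbove, Fin.insertNthEquiv]
  simp only [h2]
  exact integral_prod _ (hG.comp measurable_cons_lbdu).integrable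

/-- The energy density. -/
def enLbdu (v : E3 → ℝ) (φ : Cf N L → ℂ) (x : Cf N L) : ℝ :=
  (1 / 2) * (∑ i, ∑ c, ‖dd (dir i c) φ x‖ ^ 2) +
    (∑ i, ∑ j, if i < j then vper v (x i - x j) else 0) * ‖φ x‖ ^ 2

theorem bm_kin_lbdu {φ : Cf N L → ℂ} (h : IsC1 φ) (i : Fin N) (c : Fin 3) :
    BM fun x => ‖dd (dir i c) φ x‖ ^ 2 :=
  BM.of_cont ((h.2 i c).cdd.norm.pow 2)

theorem bm_pot_lbdu (hv : Continuous v) (hc : HasCompactSupport v) {φ : Cf N L → ℂ}
    (h : IsC1 φ) :
    BM fun x : Cf N L => (∑ i, ∑ j, if i < j then vper v (x i - x j) else 0) * ‖φ x‖ ^ 2 :=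
  (bm_ite_lift2 fun i j => (bm_vper hv hc).comp (sub_meas i j)).mul (BM.of_cont (h.1.norm.pow 2))

theorem bm_en_lbdu (hv : Continuous v) (hc : HasCompactSupport v) {φ : Cf N L → ℂ}
    (h : IsC1 φ) : BM (enLbdu v φ) :=
  ((BM.const (1 / 2 : ℝ)).mul (BM.sum fun i _ => BM.sum fun c _ => bm_kin_lbdu h i c)).add
    (bm_pot_lbdu hv hc h)

theorem energy_eq_lbdu (hv : Continuous v) (hc : HasCompactSupport v) {φ : Cf N L → ℂ}
    (h : IsC1 φ) : energy v φ = ∫ x, enLbdu v φ x := by
  unfold energy enLbdu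
  rw [integral_add ((BM.const (1 / 2 : ℝ)).mul
      (BM.sum fun i _ => BM.sum fun c _ => bm_kin_lbdu h i c)).integrable
    (bm_pot_lbdu hv hc h).integrable, integral_const_mul,
    integral_finset_sum _ fun i _ => (BM.sum fun c _ => bm_kin_lbdu h i c).integrable]
  congr 2
  exact Finset.sum_congr rfl fun i _ =>
    (integral_finset_sum _ fun c _ => (bm_kin_lbdu h i c).integrable).symm

theorem en_cons_lbdu (h0 : ∀ x, 0 ≤ v x) (φ : Cf (N + 1) L → ℂ) (y : T3 L) (x : Cf N L) :
    enLbdu v (fun x : Cf N L => φ (Fin.cons y x)) x ≤ enLbdu v φ (Fin.cons y x) := by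
  have hp : ∀ z : T3 L, 0 ≤ vper v z := fun z => tsum_nonneg fun _ => h0 _
  have hi : ∀ (p : Prop) [Decidable p] (z : T3 L), 0 ≤ if p then vper v z else 0 := by
    intro p _ z
    split_ifs
    · exact hp z
    · exact le_rfl
  unfold enLbdu
  refine add_le_add (mul_le_mul_of_nonneg_left ?_ (by norm_num))
    (mul_le_mul_of_nonneg_right ?_ (by positivity))
  · rw [Fin.sum_univ_succ (n := N)]
    simp only [dd_cons_lbdu]
    exact le_add_of_nonneg_left (by positivity)
  · rw [Fin.sum_univ_succ (n := N)]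
    refine le_add_of_nonneg_of_le (Finset.sum_nonneg fun j _ => hi _ _)
      (Finset.sum_le_sum fun i _ => ?_)
    rw [Fin.sum_univ_succ (n := N)]
    refine le_add_of_nonneg_of_le (hi _ _) (le_of_eq ?_)
    simp only [Fin.succ_lt_succ_iff, Fin.cons_succ]

/-- Freeze one particle, apply the bound to the others, drop the nonnegative terms which involve
the frozen particle and integrate over its position. -/
theorem LBd.succ (hv : Continuous v) (h0 : ∀ x, 0 ≤ v x) (hc : HasCompactSupport v) {E : ℝ}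
    (h : LBd v N L E) : LBd v (N + 1) L E := by
  intro φ h1 hs
  have hn : BM fun X => ‖φ X‖ ^ 2 := BM.of_cont (h1.1.norm.pow 2)
  have he := bm_en_lbdu hv hc h1
  rw [energy_eq_lbdu hv hc h1, integral_cons_lbdu hn, integral_cons_lbdu he, ← integral_const_mul]
  refine integral_mono ((BM.const E).mul
    (BM.integral_right (Φ := fun (y : T3 L) (x : Cf N L) => ‖φ (Fin.cons y x)‖ ^ 2)
      (hn.comp measurable_cons_lbdu))).integrable
    (BM.integral_right (Φ := fun (y : T3 L) (x : Cf N L) => enLbdu v φ (Fin.cons y x))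
      (he.comp measurable_cons_lbdu)).integrable fun y => ?_
  have hy := isC1_cons_lbdu h1 y
  have := h _ hy fun σ x => by
    have e : (Fin.cons y (x ∘ σ) : Cf (N + 1) L) =
        (Fin.cons y x : Cf (N + 1) L) ∘ Equiv.Perm.decomposeFin.symm (0, σ) := by
      funext j
      refine Fin.cases ?_ (fun k => ?_) j
      · simp
      · simp
    rw [e, hs]
  rw [energy_eq_lbdu hv hc hy] at this
  exact this.trans (integral_mono (bm_en_lbdu hv hc hy).integrable
    (he.comp (continuous_cons_lbdu y).measurable).integrable fun x => en_cons_lbdu h0 φ y x)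

theorem LBd.mono (hv : Continuous v) (h0 : ∀ x, 0 ≤ v x) (hc : HasCompactSupport v) {E : ℝ}
    (h : LBd v N L E) {n : ℕ} (hn : N ≤ n) : LBd v n L E := by
  induction n, hn using Nat.le_induction with
  | base => exact h
  | succ k _ ih => exact ih.succ hv h0 hc

/-- Chebyshev: `∑_{n < N} a n ≤ (n2 + n1 - n1 ^ 2) / (n1 - N) ^ 2`, and
`x ↦ (V + x) / (x - N) ^ 2` decreases on `x > N`. -/
theorem Trial.cheb (hv : Continuous v) (h0 : ∀ x, 0 ≤ v x) (hc : HasCompactSupport v)
    {n1 n2 En E V Ns : ℝ} (h : Trial v L n1 n2 En) (hE : LBd v N L E) (hE0 : 0 ≤ E) (hV : 0 ≤ V)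
    (hN : (N : ℝ) < Ns) (h1 : Ns ≤ n1) (h2 : n2 ≤ n1 ^ 2 + V) :
    E * (1 - (V + Ns) / (Ns - N) ^ 2) ≤ En := by
  obtain ⟨a, e, ha, he, s0, s1, s2, se, hb⟩ := h
  have ht : 0 < n1 - N := by linarith
  have hs : 0 < Ns - N := by linarith
  have hD : 0 < (n1 - N) ^ 2 := by positivity
  have hsum := ((s0.sub (((s2.add (s1.mul_left (1 - 2 * n1))).add
    (s0.mul_left (n1 ^ 2))).div_const ((n1 - N) ^ 2))).mul_left E)
  have hle := hasSum_le (fun n => ?_) hsum se
  · refine le_trans (mul_le_mul_of_nonneg_left ?_ hE0) hle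
    have e1 : (n2 + (1 - 2 * n1) * n1 + n1 ^ 2 * 1) / (n1 - N) ^ 2 ≤ (V + n1) / (n1 - N) ^ 2 :=
      div_le_div_of_nonneg_right (by nlinarith) hD.le
    have e2 : (V + n1) / (n1 - N) ^ 2 ≤ (V + Ns) / (Ns - N) ^ 2 := by
      rw [div_le_div_iff₀ hD (by positivity)]
      have hA : 0 ≤ V + N := by positivity
      have b1 : 0 ≤ (V + N) * ((n1 - N) ^ 2 - (Ns - N) ^ 2) :=
        mul_nonneg hA (by nlinarith)
      have b2 : 0 ≤ (Ns - N) * (n1 - N) * (n1 - Ns) :=
        mul_nonneg (mul_nonneg hs.le ht.le) (by linarith)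
      nlinarith
    linarith
  · have e0 : a n - ((n : ℝ) * (n - 1) * a n + (1 - 2 * n1) * (n * a n) + n1 ^ 2 * a n) /
        (n1 - N) ^ 2 = a n * (1 - (n1 - n) ^ 2 / (n1 - N) ^ 2) := by ring
    rw [e0]
    rcases le_or_gt N n with hn | hn
    · refine le_trans (mul_le_mul_of_nonneg_left ?_ hE0) (hb n E (hE.mono hv h0 hc hn))
      have : 0 ≤ (n1 - n) ^ 2 / (n1 - N) ^ 2 := by positivity
      nlinarith [ha n]
    · have hn' : (n : ℝ) < N := by exact_mod_cast hn
      have : 1 ≤ (n1 - n) ^ 2 / (n1 - N) ^ 2 := by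
        rw [le_div_iff₀ hD]
        nlinarith
      exact le_trans (mul_nonpos_of_nonneg_of_nonpos hE0
        (mul_nonpos_of_nonneg_of_nonpos (ha n) (by linarith))) (he n)

end Pool.Agent.BoseLHY
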