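import Pool.Agent.Lib.MP_dec75e_mp.U.Bd1

/-! The quadratic part: the low modes. -/

open MeasureTheory Finset Function
open scoped Real

noncomputable section

namespace Pool.Agent.BoseLHY

open Pool.Agent.BoseTail

variable {D : Dat} {C : ℝ}

theorem sq_lowsu {ρ P oh gh : ℝ} (hP : 0 < P) :
    -(ρ ^ 2 * P * oh ^ 2) / 2 + ρ ^ 2 * gh * oh ≤ ρ ^ 2 * gh ^ 2 / (2 * P) := by
  rw [le_div_iff₀ (by positivity)]
  nlinarith [mul_nonneg (sq_nonneg ρ) (sq_nonneg (P * oh - gh))]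

theorem born_lowsu {u e A ρ gh t : ℝ} (hu : 0 < u) (he0 : 0 ≤ e) (he : e ≤ 1) (hA : 0 < A)
    (ht : 0 < t) (hρ0 : 0 ≤ ρ) (hρ : ρ ≤ u + u * e) (hg : |gh| ≤ A) :
    ρ ^ 2 * gh ^ 2 / (2 * (2 * (A * u) * t)) ≤ A * u * (1 / (4 * t)) + A * (u * e) / t := by
  have h1 : gh ^ 2 ≤ A ^ 2 := by
    rw [← sq_abs gh]; exact pow_le_pow_left₀ (abs_nonneg _) hg 2
  have h2 : ρ ^ 2 ≤ u ^ 2 * (1 + 4 * e) := by
    have := pow_le_pow_left₀ hρ0 hρ 2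
    have h3 : (u + u * e) ^ 2 = u ^ 2 * (1 + 2 * e + e ^ 2) := by ring
    have h4 : 1 + 2 * e + e ^ 2 ≤ 1 + 4 * e := by nlinarith
    exact this.trans (h3 ▸ mul_le_mul_of_nonneg_left h4 (sq_nonneg u))
  have h5 : ρ ^ 2 * gh ^ 2 ≤ u ^ 2 * (1 + 4 * e) * A ^ 2 :=
    mul_le_mul h2 h1 (sq_nonneg _) (by positivity)
  calc ρ ^ 2 * gh ^ 2 / (2 * (2 * (A * u) * t))
      ≤ u ^ 2 * (1 + 4 * e) * A ^ 2 / (2 * (2 * (A * u) * t)) :=
        div_le_div_of_nonneg_right h5 (by positivity)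
    _ = A * u * (1 / (4 * t)) + A * (u * e) / t := by field_simp; ring

theorem lin_lowsu {u δ A ρ gh a ε : ℝ} (hA : 0 < A) (hρ0 : 0 ≤ ρ) (hρ : |ρ - u| ≤ δ)
    (hρ2 : ρ ≤ 2 * u) (hg : |gh - A| ≤ ε) :
    ρ * gh * a ≤ A * u * a + |a| * (A * δ + 2 * u * ε) := by
  have h1 : |ρ * gh - A * u| ≤ A * δ + 2 * u * ε := by
    have h2 : ρ * gh - A * u = A * (ρ - u) + ρ * (gh - A) := by ring
    rw [h2]
    refine (abs_add_le _ _).trans (add_le_add ?_ ?_)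
    · rw [abs_mul, abs_of_pos hA]; exact mul_le_mul_of_nonneg_left hρ hA.le
    · rw [abs_mul, abs_of_nonneg hρ0]
      exact mul_le_mul hρ2 hg (abs_nonneg _) (hρ0.trans hρ2)
  have h3 : (ρ * gh - A * u) * a ≤ |a| * (A * δ + 2 * u * ε) := by
    refine (le_abs_self _).trans ?_
    rw [abs_mul, mul_comm]
    exact mul_le_mul_of_nonneg_left h1 (abs_nonneg _)
  linarith

theorem err_lowsu {y A c t a P : ℝ} (y0 : 0 < y) (y1 : y ≤ 1) (hA : 0 < A) (hAy : A * y ≤ 1)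
    (hc0 : 0 ≤ c) (hc : 2 * c * y ≤ 1) (ht : y ^ 9 ≤ t) (hP0 : 0 ≤ P) (hP : P ≤ y ^ 783)
    (ha : |a| * y ^ 5 ≤ 1) :
    A * (y ^ 800 * y ^ 398) / t + |a| * (A * y ^ 1198 + 2 * y ^ 800 * (c * P)) ≤ 3 * y ^ 837 := by
  have hp : ∀ k : ℕ, 0 < y ^ k := fun k => pow_pos y0 k
  have hm : ∀ {k l : ℕ}, k ≤ l → y ^ l ≤ y ^ k := fun h => pow_le_pow_of_le_one y0.le y1 h
  have h1 : A * (y ^ 800 * y ^ 398) / t ≤ y ^ 837 := by
    rw [div_le_iff₀ ((hp 9).trans_le ht)]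
    calc A * (y ^ 800 * y ^ 398) = A * y * y ^ 1197 := by ring
      _ ≤ 1 * y ^ 846 := mul_le_mul hAy (hm (by norm_num)) (hp _).le zero_le_one
      _ = y ^ 837 * y ^ 9 := by ring
      _ ≤ y ^ 837 * t := mul_le_mul_of_nonneg_left ht (hp _).le
  have h2 : |a| * (A * y ^ 1198) ≤ y ^ 837 := by
    calc |a| * (A * y ^ 1198) = |a| * y ^ 5 * (A * y * y ^ 1192) := by ring
      _ ≤ 1 * (1 * y ^ 837) :=
        mul_le_mul ha (mul_le_mul hAy (hm (by norm_num)) (hp _).le zero_le_one)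
          (by have := hp 1192; positivity) zero_le_one
      _ = y ^ 837 := by ring
  have h3 : |a| * (2 * y ^ 800 * (c * P)) ≤ y ^ 837 := by
    have h4 : y ^ 794 * P ≤ y ^ 837 :=
      calc y ^ 794 * P ≤ y ^ 794 * y ^ 783 := mul_le_mul_of_nonneg_left hP (hp _).le
        _ = y ^ 1577 := by ring
        _ ≤ y ^ 837 := hm (by norm_num)
    calc |a| * (2 * y ^ 800 * (c * P)) = |a| * y ^ 5 * (2 * c * y * (y ^ 794 * P)) := by ring
      _ ≤ 1 * (1 * y ^ 837) :=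
        mul_le_mul ha (mul_le_mul hc h4 (mul_nonneg (hp _).le hP0) zero_le_one)
          (mul_nonneg (mul_nonneg (mul_nonneg zero_le_two hc0) y0.le) (mul_nonneg (hp _).le hP0))
          zero_le_one
      _ = y ^ 837 := by ring
  rw [mul_add]
  linarith

theorem mode_lowsu (U : USet D C) (hb : U.Bd) (hA : 4 * π * D.a * U.y ≤ 1)
    (hc : 2 * (4 * D.C ^ 6) * U.y ≤ 1) {m : M3} (hm : m ∈ Lplus U.R) :
    (U.p2 m * U.σ m ^ 2 - U.ρ ^ 2 * U.p2 m * U.oh m ^ 2) / 2 +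
        U.ρ * U.gh m * (U.a m + U.ρ * U.oh m) ≤
      -(D.mu0 U.y * U.σ m ^ 2) + D.mu0 U.y * FF (U.t m) (U.t m) + 3 * U.y ^ 837 := by
  have y0 := hb.y0
  have y1 : U.y ≤ 1 := hb.y1.trans (by norm_num)
  have hA0 : 0 < 4 * π * D.a := by have := D.ha; have := Real.pi_pos; positivity
  have hu : 0 < U.y ^ 800 := pow_pos y0 _
  have ht9 := hb.tlow m hm
  have ht : 0 < U.t m := (pow_pos y0 9).trans_le ht9
  have hρ0 : 0 ≤ U.ρ := le_trans (by positivity) hb.rho.1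
  have hP : U.p2 m = 2 * (4 * π * D.a * U.y ^ 800) * U.t m := U.p2_eq m
  have hP0 : 0 < U.p2 m := by rw [hP]; positivity
  have hg := D.ct_g (pk U.s m)
  have hρ : U.ρ ≤ U.y ^ 800 + U.y ^ 800 * U.y ^ 398 := by
    have h := (abs_le.1 U.hρ).2
    have h' : U.y ^ 800 * U.y ^ 398 = U.y ^ 1198 := by ring
    rw [h']
    exact sub_le_iff_le_add'.1 h
  have h1 := sq_lowsu (ρ := U.ρ) (oh := U.oh m) (gh := U.gh m) hP0
  have h2 := born_lowsu (gh := U.gh m) hu (pow_pos y0 398).le (pow_le_one₀ y0.le y1) hA0 ht hρ0 hρ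
    hg.1
  rw [← hP] at h2
  have h3 := lin_lowsu (gh := U.gh m) (a := U.a m) (ε := 4 * D.C ^ 6 * U.p2 m) hA0 hρ0 U.hρ
    hb.rho.2 hg.2
  have h4 := err_lowsu (c := 4 * D.C ^ 6) y0 y1 hA0 hA (by positivity) hc ht9 hP0.le
    (hb.plow m hm) (hb.alow m hm)
  have h5 : (U.t m + 1) * U.σ m ^ 2 + U.a m = bog (U.t m) 1 :=
    (gam_low ht (a := U.a m) (by unfold USet.a; rw [if_pos hm])).2
  have h6 : D.mu0 U.y = 4 * π * D.a * U.y ^ 800 := rfl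
  have h7 : U.p2 m * U.σ m ^ 2 = 2 * (4 * π * D.a * U.y ^ 800) * U.t m * U.σ m ^ 2 := by rw [hP]
  unfold FF
  rw [← h5, h6]
  generalize U.y ^ 800 = u at *
  generalize 4 * π * D.a = A at *
  linarith

/-- Mode by mode: `p2 σ ^ 2 / 2 = mu0 t σ ^ 2`; completing the square,
`-ρ ^ 2 p2 oh ^ 2 / 2 + ρ ^ 2 gh oh ≤ ρ ^ 2 gh ^ 2 / (2 p2) ≤ (ρ / y ^ 800) ^ 2 mu0 / (4 t)`;
`ρ gh a ≤ mu0 a + |a| |mu0 - ρ gh|`; and `t σ ^ 2 + a + 1 / (4 t) = FF t t - σ ^ 2` by `gam_low`.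
The errors are at most `y ^ 1100`. -/
theorem sm_lows : Sm D C fun U =>
    (∑ m ∈ Lplus U.R, (U.p2 m * U.σ m ^ 2 - U.ρ ^ 2 * U.p2 m * U.oh m ^ 2)) / 2 +
        ∑ m ∈ Lplus U.R, U.ρ * U.gh m * (U.a m + U.ρ * U.oh m) ≤
      -(D.mu0 U.y * U.SL) + D.mu0 U.y * ∑ m ∈ Lplus U.R, FF (U.t m) (U.t m) + U.y ^ 800 := by
  refine ((sm_bd.and (sm_small (4 * π * D.a))).and (sm_small (2 * (4 * D.C ^ 6)))).mono ?_
  rintro U ⟨⟨hb, hA⟩, hc⟩
  have h := sum_le_sum fun m hm => mode_lowsu U hb hA hc (m := m) hm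
  rw [sum_add_distrib, ← sum_div, sum_add_distrib, sum_add_distrib, sum_neg_distrib, ← mul_sum,
    ← mul_sum, hb.slσ, sum_const, nsmul_eq_mul] at h
  have hu : 0 < U.y ^ 800 := pow_pos hb.y0 _
  have h1 : ((Lplus U.R).card : ℝ) * (3 * U.y ^ 837) ≤ U.y ^ 800 :=
    calc ((Lplus U.R).card : ℝ) * (3 * U.y ^ 837)
        = (Lplus U.R).card * U.y ^ 36 * (3 * U.y * U.y ^ 800) := by ring
      _ ≤ 8 * (3 * (1 / 1000) * U.y ^ 800) :=
        mul_le_mul hb.card (mul_le_mul_of_nonneg_right (by linarith [hb.y1]) hu.le)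
          (by have := hb.y0; positivity) (by norm_num)
      _ ≤ U.y ^ 800 := by linarith
  linarith

end Pool.Agent.BoseLHY
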