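import Pool.Agent.Lib.MP_dec75e_mp.U.Moll0
import Pool.Agent.Lib.MP_dec75e_mp.L.Lift2

/-! The variational principle. -/

open MeasureTheory Finset Function
open scoped Real

noncomputable section

namespace Pool.Agent.BoseLHY

open Pool.Agent.BoseTail

variable {N : ℕ} {L : ℝ} [Fact (0 < L)]
variable {v : E3 → ℝ}

theorem bm_pot_mollu (hv : Continuous v) (hc : HasCompactSupport v) :
    BM fun x : Cf N L => ∑ i, ∑ j, if i < j then vper v (x i - x j) else 0 :=
  bm_ite_lift2 (g := fun i j (x : Cf N L) => vper v (x i - x j)) fun i j =>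
    (bm_vper hv hc).comp ((measurable_pi_apply i).sub (measurable_pi_apply j))

theorem close_mollu {W u φ : Cf N L → ℝ} (hW : BM W) (hu : Continuous u) (hφ : Continuous φ)
    {A U δ : ℝ} (hA : ∀ x, |W x| ≤ A) (hU : ∀ x, |u x| ≤ U) (hδ1 : δ ≤ 1)
    (h : ∀ x, |φ x - u x| ≤ δ) :
    ∫ x, W x * u x ^ 2 ≤ (∫ x, W x * φ x ^ 2) +
      (volume : Measure (Cf N L)).real Set.univ * (A * (2 * U + 1)) * δ := by
  have h1 : Integrable fun x => W x * u x ^ 2 := (hW.mul ((BM.of_cont hu).pow 2)).integrable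
  have h2 : Integrable fun x => W x * φ x ^ 2 := (hW.mul ((BM.of_cont hφ).pow 2)).integrable
  have h3 : ∫ x, W x * u x ^ 2 ≤ ∫ x, (W x * φ x ^ 2 + A * (2 * U + 1) * δ) := by
    refine integral_mono h1 (h2.add (integrable_const _)) fun x => ?_
    have e : W x * u x ^ 2 - W x * φ x ^ 2 = W x * ((u x - φ x) * (u x + φ x)) := by ring
    have a1 : |u x - φ x| ≤ δ := by rw [abs_sub_comm]; exact h x
    have a2 : |u x + φ x| ≤ 2 * U + 1 := by
      have b1 := abs_le.1 (hU x)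
      have b2 := abs_le.1 (h x)
      rw [abs_le]
      constructor <;> linarith [b1.1, b1.2, b2.1, b2.2]
    have a3 : |W x * ((u x - φ x) * (u x + φ x))| ≤ A * (δ * (2 * U + 1)) := by
      rw [abs_mul, abs_mul]
      exact mul_le_mul (hA x) (mul_le_mul a1 a2 (abs_nonneg _) ((abs_nonneg _).trans a1))
        (by positivity) ((abs_nonneg _).trans (hA x))
    have a4 := (le_abs_self _).trans a3
    show W x * u x ^ 2 ≤ W x * φ x ^ 2 + A * (2 * U + 1) * δ
    nlinarith
  rw [integral_add h2 (integrable_const _), integral_const, smul_eq_mul] at h3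
  linarith

/-- The variational principle for piecewise differentiable functions. -/
theorem LBd.weak (hv : Continuous v) (hc : HasCompactSupport v) {E : ℝ} (h : LBd v N L E)
    {u : Cf N L → ℝ} {g : Fin N → Fin 3 → Cf N L → ℝ} (hu : Continuous u)
    (hs : ∀ (σ : Equiv.Perm (Fin N)) (x : Cf N L), u (x ∘ σ) = u x) (hg : ∀ i c, BM (g i c))
    (hd : ∀ i c, WD (dir i c) u (g i c)) :
    E * (∫ x, u x ^ 2) ≤ (1 / 2) * (∑ i, ∑ c, ∫ x, g i c x ^ 2) +
      ∫ x, (∑ i, ∑ j, if i < j then vper v (x i - x j) else 0) * u x ^ 2 := by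
  set V : Cf N L → ℝ := fun x => ∑ i, ∑ j, if i < j then vper v (x i - x j) else 0 with hV
  have hVb : BM V := bm_pot_mollu hv hc
  have hW : BM fun x => E - V x := (BM.const E).sub hVb
  obtain ⟨A, hA⟩ := hW.2
  obtain ⟨U, hU⟩ := (BM.of_cont hu).2
  have split : ∀ {f : Cf N L → ℝ}, Continuous f →
      ∫ x, (E - V x) * f x ^ 2 = E * (∫ x, f x ^ 2) - ∫ x, V x * f x ^ 2 := by
    intro f hf
    have h1 : Integrable fun x => E * f x ^ 2 :=
      ((BM.const E).mul ((BM.of_cont hf).pow 2)).integrable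
    have h2 : Integrable fun x => V x * f x ^ 2 := (hVb.mul ((BM.of_cont hf).pow 2)).integrable
    rw [← integral_const_mul, ← integral_sub h1 h2]
    congr 1
    funext x
    ring
  set M : ℝ := (volume : Measure (Cf N L)).real Set.univ * (A * (2 * U + 1)) with hM
  have hM0 : 0 ≤ M := by
    have h1 : 0 ≤ A := (norm_nonneg _).trans (hA 0)
    have h2 : 0 ≤ U := (norm_nonneg _).trans (hU 0)
    positivity
  have key : ∀ δ : ℝ, 0 < δ → δ ≤ 1 → E * (∫ x, u x ^ 2) - ∫ x, V x * u x ^ 2 ≤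
      (1 / 2) * (∑ i, ∑ c, ∫ x, g i c x ^ 2) + M * δ := by
    intro δ hδ hδ1
    obtain ⟨φ, hφ, hφs, hφu, hφd⟩ := exists_moll hu hs hg hd hδ
    have h1 := h (fun x => (φ x : ℂ)) ⟨Complex.continuous_ofReal.comp hφ.1,
      fun i c => (hφ.2 i c).ofReal⟩ fun σ x => by simp only [hφs]
    unfold energy at h1
    simp only [dd_ofReal (hφ.2 _ _), Complex.norm_real, Real.norm_eq_abs, sq_abs] at h1
    have h2 : ∑ i, ∑ c, ∫ x, dd (dir i c) φ x ^ 2 ≤ ∑ i, ∑ c, ∫ x, g i c x ^ 2 :=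
      Finset.sum_le_sum fun i _ => Finset.sum_le_sum fun c _ => hφd i c
    have h3 := close_mollu hW hu hφ.1 hA hU hδ1 hφu
    rw [split hu, split hφ.1] at h3
    change E * (∫ x, φ x ^ 2) ≤ _ + ∫ x, V x * φ x ^ 2 at h1
    linarith
  have fin : E * (∫ x, u x ^ 2) - ∫ x, V x * u x ^ 2 ≤
      (1 / 2) * (∑ i, ∑ c, ∫ x, g i c x ^ 2) := by
    refine le_of_forall_pos_le_add fun ε hε => ?_
    have h1 := key (min 1 (ε / (M + 1))) (lt_min one_pos (by positivity)) (min_le_left _ _)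
    have h2 : M * min 1 (ε / (M + 1)) ≤ ε :=
      calc M * min 1 (ε / (M + 1)) ≤ (M + 1) * (ε / (M + 1)) :=
            mul_le_mul (by linarith) (min_le_right _ _)
              (le_min zero_le_one (by positivity)) (by positivity)
        _ = ε := by field_simp
    linarith
  change E * (∫ x, u x ^ 2) ≤ _ + ∫ x, V x * u x ^ 2
  linarith

theorem energy_nonneg (h0 : ∀ x, 0 ≤ v x) (φ : Cf N L → ℂ) : 0 ≤ energy v φ := by
  unfold energy
  refine add_nonneg (mul_nonneg (by norm_num) (Finset.sum_nonneg fun i _ =>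
    Finset.sum_nonneg fun c _ => integral_nonneg fun x => sq_nonneg _))
    (integral_nonneg fun x => mul_nonneg (Finset.sum_nonneg fun i _ =>
      Finset.sum_nonneg fun j _ => ?_) (sq_nonneg _))
  split_ifs
  · exact tsum_nonneg fun n => h0 _
  · exact le_rfl

theorem energy_mul_mollu {φ : Cf N L → ℂ} (hφ : IsC1 φ) (t : ℝ) :
    energy v (fun x => (t : ℂ) * φ x) = t ^ 2 * energy v φ := by
  unfold energy
  simp only [dd_const_mul (t : ℂ) (hφ.2 _ _), norm_mul, Complex.norm_real, Real.norm_eq_abs,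
    mul_pow, sq_abs, integral_const_mul, ← Finset.mul_sum]
  have e : ∀ x : Cf N L, (∑ i, ∑ j, if i < j then vper v (x i - x j) else 0) * (t ^ 2 * ‖φ x‖ ^ 2) =
      t ^ 2 * ((∑ i, ∑ j, if i < j then vper v (x i - x j) else 0) * ‖φ x‖ ^ 2) := fun x => by
    ring
  simp only [e, integral_const_mul]
  ring

/-- Normalise `φ`. -/
theorem lbd_of_adm (h0 : ∀ x, 0 ≤ v x) {E : ℝ}
    (h : ∀ φ : Cf N L → ℂ, Adm φ → E ≤ energy v φ) : LBd v N L E := by
  intro φ hφ hs
  have hm : 0 ≤ ∫ x, ‖φ x‖ ^ 2 := integral_nonneg fun x => sq_nonneg _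
  rcases hm.eq_or_lt with hm | hm
  · rw [← hm, mul_zero]
    exact energy_nonneg h0 φ
  · set m : ℝ := ∫ x, ‖φ x‖ ^ 2 with hmd
    have ht : (√m)⁻¹ ^ 2 = m⁻¹ := by rw [inv_pow, Real.sq_sqrt hm.le]
    have h1 := h (fun x => (((√m)⁻¹ : ℝ) : ℂ) * φ x)
      ⟨⟨continuous_const.mul hφ.1, fun i c => (hφ.2 i c).const_mul _⟩,
        fun σ x => by simp only [hs], by
          simp only [norm_mul, Complex.norm_real, Real.norm_eq_abs, mul_pow, sq_abs,
            integral_const_mul]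
          rw [ht, ← hmd, inv_mul_cancel₀ hm.ne']⟩
    rw [energy_mul_mollu hφ, ht, ← div_eq_inv_mul, le_div_iff₀ hm] at h1
    exact h1

end Pool.Agent.BoseLHY
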