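import Pool.Agent.Lib.MP_dec75e_mp.U.Df
import Pool.Agent.Lib.MP_dec75e_mp.Meas
import Pool.Agent.Lib.MP_dec75e_mp.Calc
import Pool.Agent.Lib.MP_dec75e_mp.Base
import Pool.Agent.Lib.MP_dec75e_mp.Tor

/-! Mollification on the torus. -/

open MeasureTheory Finset Function
open scoped Real

noncomputable section

namespace Pool.Agent.BoseLHY

open Pool.Agent.BoseTail

variable {N : ℕ} {L : ℝ} [Fact (0 < L)]

theorem ii_moll0u {f : ℝ → ℝ} (hf : BM f) (a b : ℝ) : IntervalIntegrable f volume a b := by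
  have : IsFiniteMeasure (volume.restrict (Set.uIoc a b)) :=
    isFiniteMeasure_restrict.2 (by rw [Real.volume_uIoc]; exact ENNReal.ofReal_ne_top)
  exact intervalIntegrable_iff.2 hf.integrable

instance negInvCf_moll0u : (volume : Measure (Cf N L)).IsNegInvariant :=
  Measure.pi.isNegInvariant _

instance haarCf_moll0u : (volume : Measure (Cf N L)).IsAddHaarMeasure :=
  Measure.pi.isAddHaarMeasure _

omit [Fact (0 < L)] in
theorem norm_perm_moll0u (σ : Equiv.Perm (Fin N)) (y : Cf N L) : ‖y ∘ σ‖ = ‖y‖ :=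
  σ.surjective.pi_norm_comp y

/-- Fundamental theorem of calculus (`integral_eq_of_hasDerivAt_off_countable`). -/
theorem WD.ftc {u g : Cf N L → ℝ} {i : Fin N} {c : Fin 3} (hu : Continuous u) (hg : BM g)
    (h : WD (dir i c) u g) (x : Cf N L) (s : ℝ) :
    u (x + dir i c s) - u x = ∫ t in (0 : ℝ)..s, g (x + dir i c t) := by
  obtain ⟨T, hT, hd⟩ := h x
  have he := dir_dir (L := L) i c
  have hc : Continuous fun t : ℝ => x + dir i c t := continuous_const.add he.cont
  have h1 := integral_eq_of_hasDerivAt_off_countable (fun t : ℝ => u (x + dir i c t))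
    (fun t => g (x + dir i c t)) (a := 0) (b := s) hT (hu.comp hc).continuousOn
    (fun t ht => hd t ht.2) (ii_moll0u (hg.comp hc.measurable) 0 s)
  rw [h1, he.zero, add_zero]

/-- A continuous symmetric approximate identity, for example `max (δ - ‖y‖) 0` normalised. -/
theorem exists_kernel {δ : ℝ} (hδ : 0 < δ) : ∃ ρ : Cf N L → ℝ, Continuous ρ ∧ (∀ y, 0 ≤ ρ y) ∧
    (∫ y, ρ y = 1) ∧ (∀ y, δ ≤ ‖y‖ → ρ y = 0) ∧
    ∀ (σ : Equiv.Perm (Fin N)) (y : Cf N L), ρ (y ∘ σ) = ρ y := by
  have hc : Continuous fun y : Cf N L => max (δ - ‖y‖) 0 := by fun_prop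
  have hp : 0 < ∫ y : Cf N L, max (δ - ‖y‖) 0 :=
    hc.integral_pos_of_hasCompactSupport_nonneg_nonzero (x := 0)
      (HasCompactSupport.of_compactSpace _) (fun y => le_max_right _ _)
      (by rw [norm_zero, sub_zero, max_eq_left hδ.le]; exact hδ.ne')
  refine ⟨fun y => (∫ y : Cf N L, max (δ - ‖y‖) 0)⁻¹ * max (δ - ‖y‖) 0, continuous_const.mul hc,
    fun y => mul_nonneg (inv_nonneg.2 hp.le) (le_max_right _ _), ?_, fun y hy => ?_,
    fun σ y => ?_⟩
  · rw [integral_const_mul, inv_mul_cancel₀ hp.ne']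
  · simp only [max_eq_right (sub_nonpos.2 hy), mul_zero]
  · simp only [norm_perm_moll0u]

/-- The convolution of a bounded measurable function with a continuous kernel is continuous:
write it as `∫ y, g y * ρ (x - y)`. -/
theorem continuous_conv {g ρ : Cf N L → ℝ} (hg : BM g) (hρ : Continuous ρ) :
    Continuous fun x => ∫ y, g (x - y) * ρ y := by
  have e : (fun x => ∫ y, g (x - y) * ρ y) = fun x => ∫ y, g y * ρ (x - y) := by
    funext x
    rw [← integral_sub_left_eq_self (fun y => g y * ρ (x - y)) volume x]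
    simp only [sub_sub_cancel]
  obtain ⟨C, hC⟩ := hg.2
  obtain ⟨D, hD⟩ := (BM.of_cont hρ).2
  rw [e]
  refine continuous_of_dominated (bound := fun _ => C * D) (fun x => ?_)
    (fun x => .of_forall fun y => ?_) (integrable_const _) (.of_forall fun y => by fun_prop)
  · exact (hg.1.mul (by fun_prop : Continuous fun y => ρ (x - y)).measurable).aestronglyMeasurable
  · rw [norm_mul]
    exact mul_le_mul (hC y) (hD _) (norm_nonneg _) ((norm_nonneg _).trans (hC y))

/-- Jensen (Cauchy-Schwarz), Fubini and translation invariance. -/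
theorem conv_sq_le {g ρ : Cf N L → ℝ} (hg : BM g) (hρ : Continuous ρ) (h0 : ∀ y, 0 ≤ ρ y)
    (h1 : ∫ y, ρ y = 1) : ∫ x, (∫ y, g (x - y) * ρ y) ^ 2 ≤ ∫ x, g x ^ 2 := by
  have bρ := BM.of_cont hρ
  have b1 : ∀ x, BM fun y => g (x - y) := fun x => hg.comp (measurable_const.sub measurable_id)
  have b2 : BM (uncurry fun x y : Cf N L => g (x - y) ^ 2 * ρ y) :=
    ((hg.comp (measurable_fst.sub measurable_snd)).pow 2).mul (bρ.comp measurable_snd)
  have key : ∀ x, (∫ y, g (x - y) * ρ y) ^ 2 ≤ ∫ y, g (x - y) ^ 2 * ρ y := by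
    intro x
    obtain ⟨m, hm⟩ : ∃ m, m = ∫ y, g (x - y) * ρ y := ⟨_, rfl⟩
    have i1 : Integrable fun y => g (x - y) ^ 2 * ρ y := (((b1 x).pow 2).mul bρ).integrable
    have i2 : Integrable fun y => 2 * m * (g (x - y) * ρ y) :=
      ((b1 x).mul bρ).integrable.const_mul _
    have i3 : Integrable fun y => m ^ 2 * ρ y := bρ.integrable.const_mul _
    have i4 : Integrable fun y => 2 * m * (g (x - y) * ρ y) - m ^ 2 * ρ y := i2.sub i3
    have h2 := integral_mono i4 i1 fun y => by
      have := mul_nonneg (sq_nonneg (g (x - y) - m)) (h0 y)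
      linarith
    rw [integral_sub i2 i3, integral_const_mul, integral_const_mul, h1, ← hm] at h2
    rw [← hm]
    linarith
  refine (integral_mono ((BM.of_cont (continuous_conv hg hρ)).pow 2).integrable
    b2.integral_right.integrable key).trans (le_of_eq ?_)
  rw [b2.swap]
  simp only [integral_mul_const, integral_sub_right_eq_self (fun x => g x ^ 2)]
  rw [integral_const_mul, h1, mul_one]

/-- Mollification: `φ = u * ρ` has the continuous derivatives `g i c * ρ` by `WD.ftc` and Fubini,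
and is uniformly close to `u` by uniform continuity. -/
theorem exists_moll {u : Cf N L → ℝ} {g : Fin N → Fin 3 → Cf N L → ℝ} (hu : Continuous u)
    (hs : ∀ (σ : Equiv.Perm (Fin N)) (x : Cf N L), u (x ∘ σ) = u x) (hg : ∀ i c, BM (g i c))
    (hd : ∀ i c, WD (dir i c) u (g i c)) {δ : ℝ} (hδ : 0 < δ) :
    ∃ φ : Cf N L → ℝ, IsC1 φ ∧ (∀ (σ : Equiv.Perm (Fin N)) (x : Cf N L), φ (x ∘ σ) = φ x) ∧
      (∀ x, |φ x - u x| ≤ δ) ∧ ∀ i c, ∫ x, dd (dir i c) φ x ^ 2 ≤ ∫ x, g i c x ^ 2 := by
  obtain ⟨ε, hε, hue⟩ := Metric.uniformContinuous_iff.1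
    (CompactSpace.uniformContinuous_of_continuous hu) δ hδ
  obtain ⟨ρ, hρ, h0, h1, hz, hsym⟩ := exists_kernel (N := N) (L := L) hε
  have bρ := BM.of_cont hρ
  have bu := BM.of_cont hu
  have b1 : ∀ x, BM fun y => u (x - y) * ρ y := fun x =>
    (bu.comp (measurable_const.sub measurable_id)).mul bρ
  have hD : ∀ i c x, HasDerivAt (fun s : ℝ => ∫ y, u (x + dir i c s - y) * ρ y)
      (∫ y, g i c (x - y) * ρ y) 0 := by
    intro i c x
    have he := dir_dir (L := L) i c
    have hc : Continuous fun t : ℝ => ∫ y, g i c (x + dir i c t - y) * ρ y :=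
      (continuous_conv (hg i c) hρ).comp (continuous_const.add he.cont)
    have b3 : BM (uncurry fun (t : ℝ) (y : Cf N L) => g i c (x + dir i c t - y) * ρ y) :=
      ((hg i c).comp ((measurable_const.add (he.cont.measurable.comp measurable_fst)).sub
        measurable_snd)).mul (bρ.comp measurable_snd)
    have e : (fun s : ℝ => ∫ y, u (x + dir i c s - y) * ρ y) = fun s =>
        (∫ y, u (x - y) * ρ y) + ∫ t in (0 : ℝ)..s, ∫ y, g i c (x + dir i c t - y) * ρ y := by
      funext s
      have : IsFiniteMeasure (volume.restrict (Set.uIoc (0 : ℝ) s)) :=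
        isFiniteMeasure_restrict.2 (by rw [Real.volume_uIoc]; exact ENNReal.ofReal_ne_top)
      rw [intervalIntegral_integral_swap b3.integrable, ← sub_eq_iff_eq_add',
        ← integral_sub (b1 _).integrable (b1 _).integrable]
      congr 1
      funext y
      rw [intervalIntegral.integral_mul_const, ← sub_mul]
      simp only [add_sub_right_comm]
      rw [WD.ftc hu (hg i c) (hd i c)]
    rw [e]
    have h2 := (hc.integral_hasStrictDerivAt 0 0).hasDerivAt.const_add (∫ y, u (x - y) * ρ y)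
    rwa [he.zero, add_zero] at h2
  refine ⟨fun x => ∫ y, u (x - y) * ρ y, ⟨continuous_conv bu hρ, fun i c =>
    D1.of_hd (continuous_conv bu hρ) (continuous_conv (hg i c) hρ) (hD i c)⟩, fun σ x => ?_,
    fun x => ?_, fun i c => ?_⟩
  · refine (integral_perm (fun y => u (x ∘ σ - y) * ρ y) σ).symm.trans ?_
    congr 1
    funext y
    rw [hsym, ← hs σ (x - y)]
    rfl
  · have e : (∫ y, u (x - y) * ρ y) - u x = ∫ y, (u (x - y) * ρ y - u x * ρ y) := by
      rw [integral_sub (b1 x).integrable (bρ.integrable.const_mul _), integral_const_mul, h1,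
        mul_one]
    rw [e, ← mul_one δ, ← h1, ← integral_const_mul, ← Real.norm_eq_abs]
    refine norm_integral_le_of_norm_le (bρ.integrable.const_mul _) (.of_forall fun y => ?_)
    rw [← sub_mul, norm_mul, Real.norm_of_nonneg (h0 y)]
    rcases le_or_gt ε ‖y‖ with hy | hy
    · rw [hz y hy, mul_zero, mul_zero]
    · refine mul_le_mul_of_nonneg_right ?_ (h0 y)
      rw [← dist_eq_norm]
      exact (hue (by rwa [dist_eq_norm, sub_sub_cancel_left, norm_neg])).le
  · have e : dd (dir i c) (fun x => ∫ y, u (x - y) * ρ y) = fun x => ∫ y, g i c (x - y) * ρ y :=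
      funext fun x => dd_eq (hD i c x)
    rw [e]
    exact conv_sq_le (hg i c) hρ h0 h1

end Pool.Agent.BoseLHY
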