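import Pool.Agent.Lib.MP_dec75e_mp.U.Df

/-! Multisets of positions. -/

open MeasureTheory Finset Function
open scoped Real

noncomputable section

namespace Pool.Agent.BoseLHY

open Pool.Agent.BoseTail

variable {α : Type} {n : ℕ}

theorem ms_eq_cons (X : Fin n → α) (i : Fin n) : ms X = X i ::ₘ er X i := by
  unfold ms er
  rw [← Multiset.map_cons, erase_val, Multiset.cons_erase (mem_univ_val i)]

theorem er_eq_cons (X : Fin n → α) {i j : Fin n} (h : j ≠ i) : er X i = X j ::ₘ er2 X i j := by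
  unfold er er2
  rw [← Multiset.map_cons, erase_val (univ.erase i) j,
    Multiset.cons_erase (mem_def.1 (mem_erase.2 ⟨h, mem_univ j⟩))]

theorem er_succAbove (X : Fin (n + 1) → α) (i : Fin (n + 1)) :
    er X i = ms fun j => X (i.succAbove j) := by
  rw [← Multiset.cons_inj_right (X i), ← ms_eq_cons]
  unfold ms
  rw [Fin.univ_succAbove n i, cons_val, Multiset.map_cons, map_val, Multiset.map_map]
  rfl

theorem er2_succAbove (X : Fin (n + 1) → α) (i : Fin (n + 1)) (j : Fin n) :
    er2 X i (i.succAbove j) = er (fun k => X (i.succAbove k)) j := by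
  rw [← Multiset.cons_inj_right (X (i.succAbove j)), ← er_eq_cons X (Fin.succAbove_ne i j),
    er_succAbove]
  exact ms_eq_cons (fun k => X (i.succAbove k)) j

theorem er_update (X : Fin n → α) (i : Fin n) (y : α) : er (update X i y) i = er X i :=
  Multiset.map_congr rfl fun _ hj => update_of_ne (mem_erase.1 (mem_def.2 hj)).1 _ _

theorem ms_cons (x : α) (X : Fin n → α) : ms (Fin.cons x X : Fin (n + 1) → α) = x ::ₘ ms X := by
  rw [ms_eq_cons _ 0, er_succAbove]
  simp

theorem card_ms (X : Fin n → α) : (ms X).card = n := by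
  simp [ms]

theorem ms_zero (X : Fin 0 → α) : ms X = 0 := by
  simp [ms]

theorem exists_ms (t : Multiset α) : ∃ X : Fin t.card → α, ms X = t := by
  induction t using Quotient.inductionOn with
  | h l =>
    refine ⟨l.get, ?_⟩
    have h := Fin.univ_val_map l.get
    rw [List.ofFn_get] at h
    exact h

theorem ms_perm (X : Fin n → α) (σ : Equiv.Perm (Fin n)) : ms (X ∘ σ) = ms X := by
  unfold ms
  rw [← Multiset.map_map, Multiset.map_univ_val_equiv]

theorem creF_zero (h : α → ℝ) (Ψ : Multiset α → ℝ) : creF h Ψ 0 = 0 := by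
  simp [creF]

theorem creF_cons (h : α → ℝ) (Ψ : Multiset α → ℝ) (x : α) (t : Multiset α) :
    creF h Ψ (x ::ₘ t) = h x * Ψ t + creF h (fun u => Ψ (x ::ₘ u)) t := by
  classical
  unfold creF
  rw [Multiset.map_cons, Multiset.sum_cons, Multiset.erase_cons_head]
  congr 2
  refine Multiset.map_congr rfl fun y hy => ?_
  congr 2
  by_cases e : x = y
  · subst e
    rw [Multiset.erase_cons_head, Multiset.cons_erase hy]
  · exact Multiset.erase_cons_tail _ e

theorem creF_ms (h : α → ℝ) (Ψ : Multiset α → ℝ) (X : Fin n → α) :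
    creF h Ψ (ms X) = ∑ i, h (X i) * Ψ (er X i) := by
  classical
  have e : ∀ F : α → ℝ, ((ms X).map F).sum = ∑ i, F (X i) := fun F => by
    unfold ms
    rw [Multiset.map_map]
    rfl
  unfold creF
  rw [e]
  refine sum_congr rfl fun i _ => ?_
  rw [ms_eq_cons X i, Multiset.erase_cons_head]

theorem creF_add (h : α → ℝ) (Ψ Φ : Multiset α → ℝ) : creF h (Ψ + Φ) = creF h Ψ + creF h Φ := by
  funext t
  simp only [creF, Pi.add_apply, mul_add, Multiset.sum_map_add]

theorem creF_smul (h : α → ℝ) (c : ℝ) (Ψ : Multiset α → ℝ) : creF h (c • Ψ) = c • creF h Ψ := by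
  funext t
  simp only [creF, Pi.smul_apply, smul_eq_mul, mul_left_comm _ c, Multiset.sum_map_mul_left]

theorem creF_sum {κ : Type} (s : Finset κ) (h : α → ℝ) (Ψ : κ → Multiset α → ℝ) :
    creF h (∑ k ∈ s, Ψ k) = ∑ k ∈ s, creF h (Ψ k) := by
  classical
  induction s using Finset.induction_on with
  | empty =>
    funext t
    simp [creF]
  | insert k s hk ih => rw [sum_insert hk, sum_insert hk, creF_add, ih]

theorem creF_cons_msu (h : α → ℝ) (Ψ : Multiset α → ℝ) (x : α) :
    (fun u => creF h Ψ (x ::ₘ u)) = h x • Ψ + creF h fun u => Ψ (x ::ₘ u) :=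
  funext fun u => creF_cons h Ψ x u

/-- Induction on the multiset, for all `Ψ`, with `creF_cons`. -/
theorem creF_comm (h h' : α → ℝ) (Ψ : Multiset α → ℝ) :
    creF h (creF h' Ψ) = creF h' (creF h Ψ) := by
  funext t
  induction t using Multiset.induction_on generalizing Ψ with
  | empty => rw [creF_zero, creF_zero]
  | cons x t ih =>
    rw [creF_cons, creF_cons, creF_cons_msu, creF_cons_msu, creF_add, creF_add, creF_smul,
      creF_smul]
    simp only [Pi.add_apply, Pi.smul_apply, smul_eq_mul, ih]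
    ring

/-- Only the values on multisets with one element less matter. -/
theorem creF_congr (h : α → ℝ) {Ψ Φ : Multiset α → ℝ} {t : Multiset α}
    (H : ∀ u, u.card + 1 = t.card → Ψ u = Φ u) : creF h Ψ t = creF h Φ t := by
  classical
  unfold creF
  congr 1
  refine Multiset.map_congr rfl fun x hx => ?_
  rw [H _ (Multiset.card_erase_add_one hx)]

variable [MeasurableSpace α] {Ψ : Multiset α → ℝ}

theorem bm_er (hΨ : ∀ n, BM (sec Ψ n)) (i : Fin n) : BM fun X : Fin n → α => Ψ (er X i) := by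
  obtain ⟨k, rfl⟩ : ∃ k, n = k + 1 := ⟨n - 1, by have := i.pos; omega⟩
  simp only [er_succAbove]
  exact (hΨ k).comp (T := fun X : Fin (k + 1) → α => fun j => X (i.succAbove j)) (by fun_prop)

theorem bm_er2 (hΨ : ∀ n, BM (sec Ψ n)) {i j : Fin n} (h : j ≠ i) :
    BM fun X : Fin n → α => Ψ (er2 X i j) := by
  obtain ⟨k, rfl⟩ : ∃ k, n = k + 1 := ⟨n - 1, by have := i.pos; omega⟩
  obtain ⟨j, rfl⟩ := Fin.exists_succAbove_eq h
  simp only [er2_succAbove]
  exact (bm_er hΨ j).comp (T := fun X : Fin (k + 1) → α => fun j => X (i.succAbove j))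
    (by fun_prop)

theorem meas_cons_msu (n : ℕ) :
    Measurable fun p : α × (Fin n → α) => (Fin.cons p.1 p.2 : Fin (n + 1) → α) := by
  refine measurable_pi_iff.2 fun i => ?_
  refine Fin.cases ?_ (fun j => ?_) i
  · simpa using measurable_fst
  · simp only [Fin.cons_succ]
    fun_prop

theorem bm_cons2 (hΨ : ∀ n, BM (sec Ψ n)) (n : ℕ) :
    BM fun p : α × (Fin n → α) => Ψ (p.1 ::ₘ ms p.2) := by
  simp only [← ms_cons]
  exact (hΨ (n + 1)).comp (meas_cons_msu n)

theorem bm_cons (hΨ : ∀ n, BM (sec Ψ n)) (t : Multiset α) : BM fun x : α => Ψ (x ::ₘ t) := by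
  obtain ⟨X, hX⟩ := exists_ms t
  rw [← hX]
  exact (bm_cons2 hΨ _).comp (T := fun x : α => (x, X)) (by fun_prop)

theorem bm_cons_cons (hΨ : ∀ n, BM (sec Ψ n)) (t : Multiset α) :
    BM fun p : α × α => Ψ (p.1 ::ₘ p.2 ::ₘ t) := by
  obtain ⟨X, hX⟩ := exists_ms t
  rw [← hX]
  simp only [← ms_cons _ X]
  exact (bm_cons2 hΨ _).comp (T := fun p : α × α => (p.1, Fin.cons p.2 X))
    (measurable_fst.prodMk ((meas_cons_msu _).comp (measurable_snd.prodMk measurable_const)))

/-- `measurePreserving_piFinSuccAbove` and Fubini. -/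
theorem integral_succAbove (ν : ProbabilityMeasure α) (i : Fin (n + 1))
    {G : α → (Fin n → α) → ℝ} (hG : BM (uncurry G)) :
    ∫ X : Fin (n + 1) → α, G (X i) (fun j => X (i.succAbove j)) ∂(pm fun _ => ν) =
      ∫ x, ∫ X, G x X ∂(pm fun _ : Fin n => ν) ∂(ν : Measure α) := by
  rw [integral_integral hG.integrable]
  exact (measurePreserving_piFinSuccAbove (fun _ : Fin (n + 1) => (ν : Measure α)) i).integral_comp'
    (uncurry G)

end Pool.Agent.BoseLHY
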