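import Pool.Agent.Lib.MP_dec75e_mp.U.Bd1
import Pool.Agent.Lib.MP_dec75e_mp.U.Asym

/-! The quadratic part: pieces of the interaction energy. -/

open MeasureTheory Finset Function
open scoped Real

noncomputable section

namespace Pool.Agent.BoseLHY

open Pool.Agent.BoseTail

variable {D : Dat} {C : ℝ}

theorem bm_dif_pot1u {h : R3 → ℝ} (hh : BM h) : BM (uncurry fun x z : R3 => h (x - z)) :=
  hh.comp (T := fun p : R3 × R3 => p.1 - p.2) (measurable_fst.sub measurable_snd)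

theorem bm_img_pot1u (B : Box) (h : BF R3) :
    BM (uncurry fun x z : R3 => |(B.asymk h).1 (x, z) - h.1 (x - z)|) :=
  ((bmOf (B.asymk h)).sub (bm_dif_pot1u (bmOf h))).abs

theorem bm_wimg_pot1u (B : Box) (w h : BF R3) :
    BM (uncurry fun x z : R3 => w.1 (x - z) * |(B.asymk h).1 (x, z) - h.1 (x - z)|) :=
  (bm_dif_pot1u (bmOf w)).mul (bm_img_pot1u B h)

theorem inv_s_pot1u (U : USet D C) (k : ℕ) : 1 / U.s ^ k ≤ U.y ^ (404 * k) := by
  rw [div_le_iff₀ (pow_pos U.hs k), mul_comm]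
  exact (U.s_pow k).1

theorem ii_const_pot1u (B : Box) {h : R3 → ℝ} (hh : BM h) (hi : Integrable h) (h0 : ∀ z, 0 ≤ h z) :
    B.ii (fun x z => h (x - z)) ≤ (∫ z, h z) / B.vol := by
  have := (B.ii_sub_mul_le hh hi h0 (BM.const (1 : ℝ)) fun _ => zero_le_one).1
  simpa using this

theorem int_w_pot1u (U : USet D C) : ∫ z, D.w.1 z ≤ 8 * C ^ 4 :=
  D.int_w.2.trans (by have := D.hC; have := U.hC; gcongr)

/-- On the support of `w (x - z)` one has `ω (x - z) = 1 - f`, so `1 - asymk ω = f - img` with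
`|img| ≤ min 26 (26 C iota x)` (`asym_img`); use `ii_sub_mul_le`, `integral_iota`, `sm_log`. -/
theorem sm_img : Sm D C fun U =>
    (U.B.ii fun x z => D.w.1 (x - z) * |(U.B.asymk U.ω).1 (x, z) - U.ω.1 (x - z)|) * 28 ≤
      U.y ^ 1615 := by
  refine (sm_log (34944 * C ^ 5)).mono fun U ⟨h1, h2⟩ => ?_
  have hC : 1 ≤ C := D.hC.trans U.hC
  have hy := U.sc.y0
  have hs := U.hs
  have hl : 0 ≤ Real.log U.s := Real.log_nonneg h1
  have hb : BM fun x => 26 * C * U.B.iota x := (BM.const _).mul U.B.bm_iota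
  have a1 := U.B.ii_mono (bm_wimg_pot1u U.B D.w U.ω)
    (G' := fun x z => D.w.1 (x - z) * (26 * C * U.B.iota x))
    ((bm_dif_pot1u (bmOf D.w)).mul (hb.comp measurable_fst)) fun x hx z hz =>
      mul_le_mul_of_nonneg_left (U.B.asym_img hC U.tr1.w0 U.tr1.w1 U.tr1.dec hx hz).2 (D.w0 _)
  have a2 := (U.B.ii_sub_mul_le (bmOf D.w) D.int_w.1 D.w0 hb
    fun x => mul_nonneg (by positivity) (U.B.iota_nonneg x)).1
  rw [integral_const_mul, U.vol] at a2
  have a3 := U.B.integral_iota U.cube h1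
  have a4 := int_w_pot1u U
  have a5 : 0 ≤ ∫ x, U.B.iota x ∂(U.B.μ : Measure R3) := integral_nonneg U.B.iota_nonneg
  calc _ ≤ 8 * C ^ 4 / U.s ^ 3 * (26 * C * (6 * (1 + Real.log U.s) / U.s)) * 28 := by
        refine mul_le_mul_of_nonneg_right (a1.trans (a2.trans ?_)) (by norm_num)
        gcongr
    _ = 34944 * C ^ 5 * (1 + Real.log U.s) * (1 / U.s ^ 4) := by field_simp; ring
    _ ≤ 34944 * C ^ 5 * (1 + Real.log U.s) * U.y ^ (404 * 4) :=
        mul_le_mul_of_nonneg_left (inv_s_pot1u U 4) (by positivity)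
    _ = 34944 * C ^ 5 * (1 + Real.log U.s) * U.y * U.y ^ 1615 := by ring
    _ ≤ 1 * U.y ^ 1615 := mul_le_mul_of_nonneg_right h2 (by positivity)
    _ = _ := one_mul _

theorem sm_pot1 : Sm D C fun U =>
    (U.B.ii fun x z => D.w.1 (x - z) * (1 - (U.B.asymk U.ω).1 (x, z)) ^ 2) ≤
      (4 * π * D.a - D.G1) / U.s ^ 3 + U.y ^ 1615 := by
  refine sm_img.mono fun U h => ?_
  have hC : 1 ≤ C := D.hC.trans U.hC
  have hb : BM fun z => D.w.1 z * D.f.1 z ^ 2 := (bmOf D.w).mul ((bmOf D.f).pow 2)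
  have a1 := ii_const_pot1u U.B hb
    (Supp.integrable hb (r := D.C) fun z hz => by rw [D.supp z hz, zero_mul])
    fun z => mul_nonneg (D.w0 z) (sq_nonneg _)
  rw [D.int_wff, U.vol] at a1
  have b2 : BM (uncurry fun x z : R3 =>
      28 * (D.w.1 (x - z) * |(U.B.asymk U.ω).1 (x, z) - U.ω.1 (x - z)|)) :=
    (BM.const _).mul (bm_wimg_pot1u U.B D.w U.ω)
  have a2 := U.B.ii_mono (G := fun x z => D.w.1 (x - z) * (1 - (U.B.asymk U.ω).1 (x, z)) ^ 2)
    (G' := fun x z => D.w.1 (x - z) * D.f.1 (x - z) ^ 2 +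
      28 * (D.w.1 (x - z) * |(U.B.asymk U.ω).1 (x, z) - U.ω.1 (x - z)|))
    ((bm_dif_pot1u (bmOf D.w)).mul (((BM.const 1).sub (bmOf (U.B.asymk U.ω))).pow 2))
    ((bm_dif_pot1u hb).add b2) fun x hx z hz => by
      by_cases hw : D.w.1 (x - z) = 0
      · simp [hw]
      · have c1 := (U.B.asym_img hC U.tr1.w0 U.tr1.w1 U.tr1.dec hx hz).1
        rw [U.tr1.eqf _ hw] at c1 ⊢
        have c2 := D.f0 (x - z)
        have c3 := D.f1 (x - z)
        rw [mul_left_comm, ← mul_add]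
        refine mul_le_mul_of_nonneg_left ?_ (D.w0 _)
        generalize (U.B.asymk U.ω).1 (x, z) = A at c1 ⊢
        generalize D.f.1 (x - z) = f at c1 c2 c3 ⊢
        have c4 := sq_abs (A - (1 - f))
        have c5 := neg_abs_le (A - (1 - f))
        have c6 := abs_nonneg (A - (1 - f))
        nlinarith
  rw [U.B.ii_add (bm_dif_pot1u hb) b2, U.B.ii_const_mul] at a2
  linarith

theorem USet.bm_dd0 (U : USet D C) : BM (uncurry U.dd0) := by
  exact BM.sum (F := fun m (p : R3 × R3) => (U.a m + U.ρ * U.oh m) *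
    ((U.B.es m).1 p.1 * (U.B.es m).1 p.2)) fun m _ => (BM.const _).mul
      (((bmOf (U.B.es m)).comp measurable_fst).mul ((bmOf (U.B.es m)).comp measurable_snd))

theorem USet.Bd.dd0 {U : USet D C} (h : U.Bd) (x z : R3) : |U.dd0 x z| * U.y ^ 45 ≤ 8 := by
  have h1 : |U.dd0 x z| ≤ (∑ m ∈ Lplus U.R, |U.a m + U.ρ * U.oh m|) * 8 := by
    rw [Finset.sum_mul]
    refine (Finset.abs_sum_le_sum_abs _ _).trans (Finset.sum_le_sum fun m _ => ?_)
    rw [abs_mul]
    refine mul_le_mul_of_nonneg_left (abs_le.2 ⟨?_, ?_⟩) (abs_nonneg _)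
    · nlinarith [U.B.es_sq_le m x, U.B.es_sq_le m z, sq_nonneg ((U.B.es m).1 x + (U.B.es m).1 z)]
    · nlinarith [U.B.es_sq_le m x, U.B.es_sq_le m z, sq_nonneg ((U.B.es m).1 x - (U.B.es m).1 z)]
  have h2 := mul_le_mul_of_nonneg_right h1 (pow_pos h.y0 45).le
  linarith [h.dsum]

/-- Replace `w (1 - asymk ω)` by `g (x - z)` (`sm_img`) and then by `asymk g` (`asym_lay`), which
is diagonal (`cf_asymk`). -/
theorem sm_pot2 : Sm D C fun U =>
    (U.B.ii fun x z => D.w.1 (x - z) * (1 - (U.B.asymk U.ω).1 (x, z)) * U.dd0 x z) ≤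
      (∑ m ∈ Lplus U.R, U.gh m * (U.a m + U.ρ * U.oh m)) / U.s ^ 3 + U.y ^ 1500 := by
  refine ((sm_bd.and sm_img).and ((sm_small C).and (sm_small (24 * π * D.a * C)))).mono
    fun U ⟨⟨hB, h⟩, k1, k2⟩ => ?_
  have hC : 1 ≤ C := D.hC.trans U.hC
  have hy := hB.y0
  have hy1 : U.y ≤ 1 := by linarith [hB.y1]
  have hs := U.hs
  have hCs : D.C ≤ U.s := by
    refine U.hC.trans (le_of_mul_le_mul_right (k1.trans (U.sc.l1.trans ?_)) hy)
    exact mul_le_mul_of_nonneg_left (pow_le_of_le_one hy.le hy1 (by norm_num)) hs.le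
  have gs : Supp D.g.1 D.C := fun z hz => by
    change D.w.1 z * D.f.1 z = 0
    rw [D.supp z hz, zero_mul]
  have ge : Ev D.g.1 := fun z z' hz => by
    change D.w.1 z * D.f.1 z = D.w.1 z' * D.f.1 z'
    rw [D.ev z z' hz, D.fev z z' hz]
  have hr : ∀ c, D.C ≤ U.B.s c := fun c => hCs.trans_eq (U.cube c).symm
  have a1 := U.B.asym_lay (by linarith [D.hC]) gs hr
  have e1 : ∫ z, |D.g.1 z| = 4 * π * D.a := by
    rw [← D.int_g]
    exact integral_congr_ae (Filter.Eventually.of_forall fun z =>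
      abs_of_nonneg (mul_nonneg (D.w0 z) (D.f0 z)))
  have e2 : ∑ c, 2 * D.C / U.B.s c = 6 * D.C / U.s := by
    rw [Fin.sum_univ_three, U.cube 0, U.cube 1, U.cube 2]; ring
  rw [e1, e2, U.vol] at a1
  have ha := D.ha
  have a2 : 6 * D.C / U.s * (4 * π * D.a / U.s ^ 3) ≤ U.y ^ 1615 :=
    calc _ = 24 * π * D.a * D.C * (1 / U.s ^ 4) := by field_simp; ring
      _ ≤ 24 * π * D.a * C * U.y ^ (404 * 4) :=
        mul_le_mul (mul_le_mul_of_nonneg_left U.hC (by positivity)) (inv_s_pot1u U 4)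
          (by positivity) (by positivity)
      _ = 24 * π * D.a * C * U.y * U.y ^ 1615 := by ring
      _ ≤ 1 * U.y ^ 1615 := mul_le_mul_of_nonneg_right k2 (by positivity)
      _ = _ := one_mul _
  have bm : ∀ m, BM (uncurry fun x z : R3 => (U.a m + U.ρ * U.oh m) *
      ((U.B.es m).1 x * (U.B.es m).1 z * (U.B.asymk D.g).1 (x, z))) := fun m =>
    (BM.const _).mul ((((bmOf (U.B.es m)).comp measurable_fst).mul
      ((bmOf (U.B.es m)).comp measurable_snd)).mul (bmOf (U.B.asymk D.g)))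
  have b1 : BM (uncurry fun x z : R3 => ∑ m ∈ Lplus U.R, (U.a m + U.ρ * U.oh m) *
      ((U.B.es m).1 x * (U.B.es m).1 z * (U.B.asymk D.g).1 (x, z))) :=
    BM.sum (F := fun m => uncurry fun x z : R3 => (U.a m + U.ρ * U.oh m) *
      ((U.B.es m).1 x * (U.B.es m).1 z * (U.B.asymk D.g).1 (x, z))) fun m _ => bm m
  have b2 : BM (uncurry fun x z : R3 => |(U.B.asymk D.g).1 (x, z) - D.g.1 (x - z)| +
      D.w.1 (x - z) * |(U.B.asymk U.ω).1 (x, z) - U.ω.1 (x - z)|) :=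
    (bm_img_pot1u U.B D.g).add (bm_wimg_pot1u U.B D.w U.ω)
  have b3 : BM (uncurry fun x z : R3 => 8 / U.y ^ 45 * (|(U.B.asymk D.g).1 (x, z) - D.g.1 (x - z)| +
      D.w.1 (x - z) * |(U.B.asymk U.ω).1 (x, z) - U.ω.1 (x - z)|)) := (BM.const _).mul b2
  have a3 := U.B.ii_mono
    (G := fun x z => D.w.1 (x - z) * (1 - (U.B.asymk U.ω).1 (x, z)) * U.dd0 x z)
    (G' := fun x z => (∑ m ∈ Lplus U.R, (U.a m + U.ρ * U.oh m) *
      ((U.B.es m).1 x * (U.B.es m).1 z * (U.B.asymk D.g).1 (x, z))) +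
      8 / U.y ^ 45 * (|(U.B.asymk D.g).1 (x, z) - D.g.1 (x - z)| +
      D.w.1 (x - z) * |(U.B.asymk U.ω).1 (x, z) - U.ω.1 (x - z)|))
    (((bm_dif_pot1u (bmOf D.w)).mul ((BM.const 1).sub (bmOf (U.B.asymk U.ω)))).mul U.bm_dd0)
    (b1.add b3) fun x _ z _ => by
      have c1 : ∑ m ∈ Lplus U.R, (U.a m + U.ρ * U.oh m) *
          ((U.B.es m).1 x * (U.B.es m).1 z * (U.B.asymk D.g).1 (x, z)) =
          U.dd0 x z * (U.B.asymk D.g).1 (x, z) := by
        rw [USet.dd0, Finset.sum_mul]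
        exact Finset.sum_congr rfl fun m _ => by ring
      have c2 : D.w.1 (x - z) * (1 - (U.B.asymk U.ω).1 (x, z)) =
          D.g.1 (x - z) - D.w.1 (x - z) * ((U.B.asymk U.ω).1 (x, z) - U.ω.1 (x - z)) := by
        change _ = D.w.1 (x - z) * D.f.1 (x - z) - _
        by_cases hw : D.w.1 (x - z) = 0
        · simp [hw]
        · rw [U.tr1.eqf _ hw]; ring
      have c3 : |U.dd0 x z| ≤ 8 / U.y ^ 45 := (le_div_iff₀ (pow_pos hy 45)).2 (hB.dd0 x z)
      have c4 : |-((U.B.asymk D.g).1 (x, z) - D.g.1 (x - z)) -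
          D.w.1 (x - z) * ((U.B.asymk U.ω).1 (x, z) - U.ω.1 (x - z))| ≤
          |(U.B.asymk D.g).1 (x, z) - D.g.1 (x - z)| +
          D.w.1 (x - z) * |(U.B.asymk U.ω).1 (x, z) - U.ω.1 (x - z)| := by
        refine (abs_sub _ _).trans_eq ?_
        rw [abs_neg, abs_mul, abs_of_nonneg (D.w0 _)]
      have c5 := (le_abs_self _).trans ((abs_mul _ _).trans_le
        (mul_le_mul c3 c4 (abs_nonneg _) (by positivity)))
      rw [c1, c2]
      linarith
  rw [U.B.ii_add b1 b3, U.B.ii_const_mul,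
    U.B.ii_add (bm_img_pot1u U.B D.g) (bm_wimg_pot1u U.B D.w U.ω), U.B.ii_sum _ fun m _ => bm m] at a3
  refine a3.trans (add_le_add (le_of_eq ?_) ?_)
  · rw [Finset.sum_div]
    refine Finset.sum_congr rfl fun m hm => ?_
    have c1 := U.B.cf_asymk ge gs hr (mem_Lplus.1 hm).1 m
    rw [if_pos rfl, U.vol, U.p_eq] at c1
    rw [U.B.ii_const_mul]
    change _ * U.B.cf (U.B.asymk D.g) m m = _
    rw [c1, USet.gh]
    ring
  · have c1 : 0 < U.y ^ 1615 := pow_pos hy _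
    have c2 : 16 * U.y ^ 70 ≤ 1 := by
      linarith [pow_le_of_le_one hy.le hy1 (show 70 ≠ 0 by norm_num), hB.y1]
    calc _ ≤ 8 / U.y ^ 45 * (2 * U.y ^ 1615) :=
          mul_le_mul_of_nonneg_left (by linarith) (by positivity)
      _ = 16 * U.y ^ 70 * U.y ^ 1500 := by field_simp; norm_num
      _ ≤ 1 * U.y ^ 1500 := mul_le_mul_of_nonneg_right c2 (by positivity)
      _ = _ := one_mul _

theorem sm_pot3 : Sm D C fun U =>
    (U.B.ii fun x z => D.w.1 (x - z) * U.dd0 x z ^ 2) ≤ U.y ^ 1100 := by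
  refine (sm_bd.and (sm_small (512 * C ^ 4))).mono fun U ⟨hB, k⟩ => ?_
  have hC : 1 ≤ C := hB.c1
  have hy := hB.y0
  have hy1 : U.y ≤ 1 := by linarith [hB.y1]
  have hs := U.hs
  have a1 := U.B.ii_mono (G := fun x z => D.w.1 (x - z) * U.dd0 x z ^ 2)
    (G' := fun x z => (8 / U.y ^ 45) ^ 2 * D.w.1 (x - z))
    ((bm_dif_pot1u (bmOf D.w)).mul (U.bm_dd0.pow 2)) ((BM.const _).mul (bm_dif_pot1u (bmOf D.w)))
    fun x _ z _ => by
      rw [mul_comm, ← sq_abs]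
      exact mul_le_mul_of_nonneg_right (pow_le_pow_left₀ (abs_nonneg _)
        ((le_div_iff₀ (pow_pos hy 45)).2 (hB.dd0 x z)) 2) (D.w0 _)
  rw [U.B.ii_const_mul] at a1
  have a2 := ii_const_pot1u U.B (bmOf D.w) D.int_w.1 D.w0
  rw [U.vol] at a2
  have a3 := int_w_pot1u U
  have a4 : U.y ^ 21 ≤ 1 := pow_le_one₀ hy.le hy1
  calc _ ≤ (8 / U.y ^ 45) ^ 2 * (8 * C ^ 4 * (1 / U.s ^ 3)) :=
        a1.trans (mul_le_mul_of_nonneg_left (a2.trans (by rw [mul_one_div]; gcongr)) (by positivity))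
    _ ≤ (8 / U.y ^ 45) ^ 2 * (8 * C ^ 4 * U.y ^ (404 * 3)) :=
        mul_le_mul_of_nonneg_left (mul_le_mul_of_nonneg_left (inv_s_pot1u U 3) (by positivity))
          (by positivity)
    _ = 512 * C ^ 4 * U.y * U.y ^ 21 * U.y ^ 1100 := by field_simp; ring
    _ ≤ 1 * 1 * U.y ^ 1100 :=
        mul_le_mul_of_nonneg_right (mul_le_mul k a4 (by positivity) zero_le_one) (by positivity)
    _ = _ := by ring

end Pool.Agent.BoseLHY
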