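import Pool.Agent.Lib.MP_dec75e_mp.U.CcrB

/-! Product of the trial states of the boxes. -/

open MeasureTheory Finset Function
open scoped Real

noncomputable section

namespace Pool.Agent.BoseLHY

open Pool.Agent.BoseTail

variable {V : Type} [AddCommGroup V] [Module ℝ V] {C κ : Type} [Fintype C] [DecidableEq C]
  [DecidableEq κ] {β : V →ₗ[ℝ] V →ₗ[ℝ] ℝ} {c cd : C × κ → Module.End ℝ V} {K : Co κ}

omit [DecidableEq C] [DecidableEq κ] in
theorem mem_produ (k : C) {m : κ} (hm : m ∈ K.s) : (k, m) ∈ (univ : Finset C) ×ˢ K.s :=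
  mem_product.2 ⟨mem_univ k, hm⟩

theorem CCR.bx (h : CCR β c cd (univ ×ˢ K.s)) (k : C) : CCR β (bx c k) (bx cd k) K.s := by
  refine ⟨h.psd, fun m hm f g => h.adj (k, m) (mem_produ k hm) f g, fun m hm m' hm' f => ?_,
    fun m hm m' hm' f => h.cc (k, m) (mem_produ k hm) (k, m') (mem_produ k hm') f,
    fun m hm m' hm' f => h.dd (k, m) (mem_produ k hm) (k, m') (mem_produ k hm') f⟩
  have h1 := h.ccr (k, m) (mem_produ k hm) (k, m') (mem_produ k hm') f
  simp only [Prod.mk.injEq, true_and] at h1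
  exact h1

theorem comm_ccd_produ (h : CCR β c cd (univ ×ˢ K.s)) {k k' : C} (hk : k ≠ k') {m m' : κ}
    (hm : m ∈ K.s) (hm' : m' ∈ K.s) : Commute (c (k, m)) (cd (k', m')) := by
  refine LinearMap.ext fun f => ?_
  have h1 := h.ccr (k, m) (mem_produ k hm) (k', m') (mem_produ k' hm') f
  rw [if_neg (fun e => hk (congrArg Prod.fst e)), add_zero] at h1
  exact h1

theorem comm_cc_produ (h : CCR β c cd (univ ×ˢ K.s)) (k k' : C) {m m' : κ}
    (hm : m ∈ K.s) (hm' : m' ∈ K.s) : Commute (c (k, m)) (c (k', m')) :=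
  LinearMap.ext fun f => h.cc (k, m) (mem_produ k hm) (k', m') (mem_produ k' hm') f

theorem comm_dd_produ (h : CCR β c cd (univ ×ˢ K.s)) (k k' : C) {m m' : κ}
    (hm : m ∈ K.s) (hm' : m' ∈ K.s) : Commute (cd (k, m)) (cd (k', m')) :=
  LinearMap.ext fun f => h.dd (k, m) (mem_produ k hm) (k', m') (mem_produ k' hm') f

omit [DecidableEq κ] in
theorem comm_X_produ {A : Module.End ℝ V} {d : κ → Module.End ℝ V}
    (hA : ∀ m ∈ K.s, Commute A (d m)) : Commute A (K.X d) := by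
  unfold Co.X cre3
  refine (Commute.one_right A).add_right ?_
  refine Commute.sum_right _ _ _ fun a ha => Commute.sum_right _ _ _ fun b hb =>
    Commute.sum_right _ _ _ fun e he => ?_
  exact (((hA a ha).mul_right (hA b hb)).mul_right (hA e he)).smul_right _

omit [DecidableEq κ] in
theorem comm_F_produ {A : Module.End ℝ V} {d d' : κ → Module.End ℝ V}
    (hA : ∀ m ∈ K.s, Commute A (d m)) (hA' : ∀ m ∈ K.s, Commute A (d' m)) (u : κ → ℝ) :
    Commute A (K.F d d' u) := by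
  unfold Co.F fld lin dop
  refine ((Commute.one_right A).smul_right _).add_right ?_
  refine Commute.sum_right _ _ _ fun a ha => ?_
  exact (((hA a ha).smul_right _).add_right ((hA' a ha).smul_right _)).smul_right _

theorem comm_cX_produ (h : CCR β c cd (univ ×ˢ K.s)) {k k' : C} (hk : k ≠ k') {m : κ}
    (hm : m ∈ K.s) : Commute (c (k, m)) (K.X (bx cd k')) :=
  comm_X_produ fun _ hm' => comm_ccd_produ h hk hm hm'

theorem comm_dX_produ (h : CCR β c cd (univ ×ˢ K.s)) (k k' : C) {m : κ}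
    (hm : m ∈ K.s) : Commute (cd (k, m)) (K.X (bx cd k')) :=
  comm_X_produ fun _ hm' => comm_dd_produ h k k' hm hm'

theorem comm_XX_produ (h : CCR β c cd (univ ×ˢ K.s)) (k k' : C) :
    Commute (K.X (bx cd k)) (K.X (bx cd k')) :=
  comm_X_produ fun _ hm => (comm_dX_produ h k' k hm).symm

theorem comm_XF_produ (h : CCR β c cd (univ ×ˢ K.s)) {k k' : C} (hk : k ≠ k') (u : κ → ℝ) :
    Commute (K.X (bx cd k)) (K.F (bx c k') (bx cd k') u) :=
  comm_F_produ (fun _ hm => (comm_cX_produ h hk.symm hm).symm)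
    (fun _ hm => (comm_dX_produ h k' k hm).symm) u

theorem comm_cF_produ (h : CCR β c cd (univ ×ˢ K.s)) {k k' : C} (hk : k ≠ k') {m : κ}
    (hm : m ∈ K.s) (u : κ → ℝ) : Commute (c (k, m)) (K.F (bx c k') (bx cd k') u) :=
  comm_F_produ (fun _ hm' => comm_cc_produ h k k' hm hm')
    (fun _ hm' => comm_ccd_produ h hk hm hm') u

omit [DecidableEq κ] in
theorem vac_map_produ {d : κ → Module.End ℝ V} {Ξ : V} (hΞ : Vac d K.s Ξ) {A : Module.End ℝ V}
    (hA : ∀ m ∈ K.s, Commute (d m) A) : Vac d K.s (A Ξ) := by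
  intro m hm
  have h1 : d m (A Ξ) = A (d m Ξ) := LinearMap.congr_fun (hA m hm).eq Ξ
  rw [h1, hΞ m hm, map_zero]

omit [DecidableEq κ] in
theorem X_mem_produ {d : κ → Module.End ℝ V} (p : Submodule ℝ V)
    (hd : ∀ m ∈ K.s, ∀ f ∈ p, d m f ∈ p) : ∀ f ∈ p, K.X d f ∈ p := by
  intro f hf
  unfold Co.X cre3
  simp only [LinearMap.add_apply, LinearMap.sum_apply, LinearMap.smul_apply, Module.End.mul_apply,
    Module.End.one_apply]
  refine p.add_mem hf (p.sum_mem fun a ha => p.sum_mem fun b hb => p.sum_mem fun e he => ?_)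
  exact p.smul_mem _ (hd a ha _ (hd b hb _ (hd e he f hf)))

/-- The product of the creation operators of the boxes in `S`. -/
def PX_produ (h : CCR β c cd (univ ×ˢ K.s)) (S : Finset C) : Module.End ℝ V :=
  S.noncommProd (fun k => K.X (bx cd k)) fun k _ k' _ _ => comm_XX_produ h k k'

theorem PX_erase_produ (h : CCR β c cd (univ ×ˢ K.s)) {S : Finset C} {k : C} (hk : k ∈ S)
    (f : V) : PX_produ h S f = K.X (bx cd k) (PX_produ h (S.erase k) f) := by
  have h1 := Finset.mul_noncommProd_erase S hk (fun k => K.X (bx cd k))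
    fun k _ k' _ _ => comm_XX_produ h k k'
  exact (LinearMap.congr_fun h1 f).symm

theorem PX_vac_produ (h : CCR β c cd (univ ×ˢ K.s)) {Γ : V} (hΓ : Vac c (univ ×ˢ K.s) Γ)
    {S : Finset C} {k : C} (hk : k ∉ S) : Vac (bx c k) K.s (PX_produ h S Γ) := by
  refine vac_map_produ (fun m hm => hΓ (k, m) (mem_produ k hm)) fun m hm => ?_
  refine Finset.noncommProd_commute _ _ _ _ fun k' hk' => ?_
  exact comm_cX_produ h (fun e : k = k' => hk (e ▸ hk')) hm

theorem PX_le_produ (h : CCR β c cd (univ ×ˢ K.s)) {Γ : V} (hΓ : Vac c (univ ×ˢ K.s) Γ)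
    (p : Submodule ℝ V) (hp : Γ ∈ p) (hcd : ∀ km ∈ univ ×ˢ K.s, ∀ f ∈ p, cd km f ∈ p)
    (S : Finset C) : PX_produ h S Γ ∈ p ∧ nq β Γ ≤ nq β (PX_produ h S Γ) := by
  induction S using Finset.induction_on with
  | empty =>
    have h0 : PX_produ h ∅ Γ = Γ := by
      unfold PX_produ
      rw [Finset.noncommProd_empty]
      rfl
    rw [h0]
    exact ⟨hp, le_rfl⟩
  | insert k S hk ih =>
    rw [PX_erase_produ h (mem_insert_self k S), erase_insert hk]
    refine ⟨X_mem_produ p (fun m hm => hcd (k, m) (mem_produ k hm)) _ ih.1, ?_⟩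
    rw [Co.nq_X (h.bx k) (PX_vac_produ h hΓ hk)]
    have h1 := h.psd.nq_nonneg (PX_produ h S Γ)
    have h2 : 0 ≤ K.N := Co.N_nonneg
    nlinarith [ih.2, mul_nonneg h2 h1]

/-- Apply the commuting operators `K.X (bx cd k)` for all `k`: by induction on a finite set `S`
of boxes, the state `Ψ S` is a vacuum for the boxes outside `S`, `Ψ S = X k (Ψ (S.erase k))` for
`k ∈ S` (for example `Finset.noncommProd`), and `nq (Ψ S) = (1 + N) ^ S.card * nq Γ`. -/
theorem exists_ps (h : CCR β c cd (univ ×ˢ K.s)) {Γ : V} (hΓ : Vac c (univ ×ˢ K.s) Γ)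
    (p : Submodule ℝ V) (hp : Γ ∈ p) (hcd : ∀ km ∈ univ ×ˢ K.s, ∀ f ∈ p, cd km f ∈ p) :
    ∃ Ψ ∈ p, PS K c cd Ψ ∧ nq β Γ ≤ nq β Ψ := by
  have h1 := PX_le_produ h hΓ p hp hcd univ
  refine ⟨PX_produ h univ Γ, h1.1, ⟨fun k => ?_, fun k k' hk => ?_⟩, h1.2⟩
  · exact ⟨PX_produ h (univ.erase k) Γ, PX_vac_produ h hΓ (notMem_erase k _),
      PX_erase_produ h (mem_univ k) Γ⟩
  · refine ⟨PX_produ h ((univ.erase k).erase k') Γ, PX_vac_produ h hΓ ?_,
      PX_vac_produ h hΓ (notMem_erase k' _), ?_⟩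
    · exact fun e => notMem_erase k _ (mem_of_mem_erase e)
    · rw [PX_erase_produ h (mem_univ k) Γ,
        PX_erase_produ h (mem_erase.2 ⟨hk.symm, mem_univ k'⟩) Γ]

/-- `F k'` commutes with `X k`, and `F k' u' (X k' Ξ)` is a vacuum for the box `k`. -/
theorem PS.cross (h : CCR β c cd (univ ×ˢ K.s)) {Ψ : V} (hΨ : PS K c cd Ψ) {k k' : C}
    (hk : k ≠ k') (u u' : κ → ℝ) :
    nq β (K.F (bx c k) (bx cd k) u (K.F (bx c k') (bx cd k') u' Ψ)) * (1 + K.N) ^ 2 =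
      K.Dn u * K.Dn u' * nq β Ψ := by
  obtain ⟨Ξ, h1, h2, rfl⟩ := hΨ.two k k' hk
  have h3 : Vac (bx c k) K.s (K.X (bx cd k') Ξ) :=
    vac_map_produ h1 fun m hm => comm_cX_produ h hk hm
  have h4 : Vac (bx c k) K.s (K.F (bx c k') (bx cd k') u' (K.X (bx cd k') Ξ)) :=
    vac_map_produ h3 fun m hm => comm_cF_produ h hk hm u'
  have h5 : K.F (bx c k') (bx cd k') u' (K.X (bx cd k) (K.X (bx cd k') Ξ)) =
      K.X (bx cd k) (K.F (bx c k') (bx cd k') u' (K.X (bx cd k') Ξ)) :=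
    (LinearMap.congr_fun (comm_XF_produ h hk u').eq _).symm
  rw [h5, Co.nq_F (h.bx k) h4, Co.nq_F (h.bx k') h2, Co.nq_X (h.bx k) h3, Co.nq_X (h.bx k') h2]
  ring

theorem PS.dens (h : CCR β c cd (univ ×ˢ K.s)) {Ψ : V} (hΨ : PS K c cd Ψ) (k : C) (u : κ → ℝ) :
    nq β (K.F (bx c k) (bx cd k) u Ψ) * (1 + K.N) = K.Dn u * nq β Ψ := by
  obtain ⟨Ξ, h1, rfl⟩ := hΨ.one k
  rw [Co.nq_F (h.bx k) h1, Co.nq_X (h.bx k) h1]
  ring

/-- The kinetic energy. -/
theorem PS.kin (h : CCR β c cd (univ ×ˢ K.s)) {Ψ : V} (hΨ : PS K c cd Ψ) {P : κ → ℝ}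
    (hP : ∀ m ∈ K.s, 0 ≤ P m) :
    ∑ km ∈ univ ×ˢ K.s, P km.2 * nq β (dG K c cd km Ψ) ≤ Fintype.card C * K.kn P * nq β Ψ := by
  have key : ∀ k : C, ∑ m ∈ K.s, P m * nq β (dG K c cd (k, m) Ψ) ≤ K.kn P * nq β Ψ := by
    intro k
    obtain ⟨Ξ, h1, rfl⟩ := hΨ.one k
    have h2 : ∑ m ∈ K.s, P m * nq β (dG K c cd (k, m) (K.X (bx cd k) Ξ)) = K.kn P * nq β Ξ := by
      unfold Co.kn
      rw [sum_mul]
      refine sum_congr rfl fun m hm => ?_
      have h3 : dG K c cd (k, m) = dop (bx c k) (bx cd k) K.γ K.σ m := rfl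
      rw [h3, Co.nq_dop (h.bx k) h1 hm]
      ring
    rw [h2, Co.nq_X (h.bx k) h1]
    have h4 := h.psd.nq_nonneg Ξ
    have h5 : 0 ≤ K.N := Co.N_nonneg
    refine mul_le_mul_of_nonneg_left ?_ (Co.kn_nonneg hP)
    nlinarith [mul_nonneg h5 h4]
  rw [sum_product]
  refine (sum_le_sum fun k _ => key k).trans (le_of_eq ?_)
  rw [sum_const, card_univ, nsmul_eq_mul, mul_assoc]

end Pool.Agent.BoseLHY
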