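import Pool.Agent.Lib.MP_dec75e_mp.U.Df
import Pool.Agent.Lib.MP_dec75e_mp.L.Cos2
import Pool.Agent.Lib.MP_dec75e_mp.L.Bog

/-! Sines on an interval, index sets and hyperbolic functions. -/

open MeasureTheory Finset Function
open scoped Real

noncomputable section

namespace Pool.Agent.BoseLHY

open Pool.Agent.BoseTail

variable {o s : ℝ}

theorem sn_zero (θ : ℝ) : sn 0 θ = 0 := by
  simp [sn]

theorem orth_sn (hs : 0 < s) {m : ℕ} (hm : 0 < m) (m' : ℕ) :
    ∫ t, sn m (π * (t - o) / s) * sn m' (π * (t - o) / s) ∂unif o s =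
      if m = m' then 1 else 0 := by
  have e : ∀ θ : ℝ, sn m θ * sn m' θ =
      Real.cos (((m : ℤ) - m' : ℤ) * θ) - Real.cos (((m : ℤ) + m' : ℤ) * θ) := fun θ => by
    have h2 : √2 * √2 = (2 : ℝ) := Real.mul_self_sqrt (by norm_num)
    unfold sn
    push_cast
    rw [sub_mul, add_mul, Real.cos_sub, Real.cos_add]
    linear_combination (Real.sin (m * θ) * Real.sin (m' * θ)) * h2
  simp only [e]
  rw [integral_sub (integrable_cos_cos1 hs _) (integrable_cos_cos1 hs _),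
    int_cos_cos1 hs, int_cos_cos1 hs]
  have h2 : (m : ℤ) + m' ≠ 0 := by omega
  by_cases h : m = m'
  · subst h
    simp [h2]
  · have h1 : (m : ℤ) - m' ≠ 0 := by omega
    simp [h, h1, h2]

theorem hasDerivAt_sn (m : ℕ) (t : ℝ) : HasDerivAt (fun t : ℝ => sn m (π * (t - o) / s))
    (π * m / s * cs m (π * (t - o) / s)) t := by
  have h1 := ((hd_ang_cos1 (o := o) (s := s) m t).sin).const_mul √2
  unfold sn
  refine h1.congr_deriv ?_
  unfold cs
  split_ifs with h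
  · simp [h]
  · ring

theorem hasDerivAt_cs_sin1u (m : ℕ) (t : ℝ) : HasDerivAt (fun t : ℝ => cs m (π * (t - o) / s))
    (-(π * m / s) * sn m (π * (t - o) / s)) t := by
  have h1 := ((hd_ang_cos1 (o := o) (s := s) m t).cos).const_mul √2
  unfold cs
  split_ifs with h
  · simpa [h] using hasDerivAt_const t (1 : ℝ)
  · refine h1.congr_deriv ?_
    unfold sn
    ring

/-- Integration by parts for functions vanishing at both ends (compare `ibp_sn`). -/
theorem ibp_cs (hs : 0 < s) {f f' : ℝ → ℝ} (hf : ∀ t, HasDerivAt f (f' t) t) (hf' : BM f')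
    (h0 : f o = 0) (h1 : f (o + s) = 0) (m : ℕ) :
    ∫ t, cs m (π * (t - o) / s) * f' t ∂unif o s =
      π * m / s * ∫ t, sn m (π * (t - o) / s) * f t ∂unif o s := by
  have hi : IntervalIntegrable f' volume o (o + s) := by
    rw [intervalIntegrable_iff]
    have : IsFiniteMeasure (volume.restrict (Set.uIoc o (o + s))) :=
      ⟨by simp [Set.uIoc]⟩
    exact hf'.integrable
  have hc : Continuous fun t : ℝ => -(π * m / s) * sn m (π * (t - o) / s) := by
    unfold sn; fun_prop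
  rw [integral_unif hs, integral_unif hs,
    intervalIntegral.integral_mul_deriv_eq_deriv_mul (fun t _ => hasDerivAt_cs_sin1u m t)
      (fun t _ => hf t) (hc.intervalIntegrable _ _) hi, h0, h1]
  simp only [mul_zero, mul_assoc, intervalIntegral.integral_const_mul]
  ring

theorem mem_Lplus {R : ℕ} {m : M3} : m ∈ Lplus R ↔ Bulk 0 m ∧ ∀ c, m c ≤ R := by
  unfold Lplus Bulk
  rw [Fintype.mem_piFinset]
  simp only [mem_Icc]
  exact ⟨fun h => ⟨fun c => (h c).1, fun c => (h c).2⟩, fun h c => ⟨h.1 c, h.2 c⟩⟩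

theorem Lplus_mono {R P : ℕ} (h : R ≤ P) : Lplus R ⊆ Lplus P := fun _ hm =>
  mem_Lplus.2 ⟨(mem_Lplus.1 hm).1, fun c => ((mem_Lplus.1 hm).2 c).trans h⟩

theorem Lplus_subset (R : ℕ) : Lplus R ⊆ Lset R := by
  intro m hm
  obtain ⟨h1, h2⟩ := mem_Lplus.1 hm
  unfold Lset
  rw [mem_erase, Fintype.mem_piFinset]
  refine ⟨fun h => ?_, fun c => mem_range.2 (Nat.lt_succ_of_le (h2 c))⟩
  have := h1 0
  rw [h] at this
  simp at this

theorem card_Lplus (R : ℕ) : (Lplus R).card = R ^ 3 := by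
  simp [Lplus, Fintype.card_piFinset]

theorem Bulk.high_of_notMem {R : ℕ} {m : M3} (h : Bulk 0 m) (hm : m ∉ Lplus R) : High R m := by
  by_contra hc
  refine hm (mem_Lplus.2 ⟨h, fun c => ?_⟩)
  by_contra h2
  exact hc ⟨c, not_le.1 h2⟩

theorem Bulk.three_le {m : M3} (h : Bulk 0 m) : 3 ≤ nm m := by
  have h1 : ∀ c, (1 : ℝ) ≤ (m c : ℝ) ^ 2 := fun c =>
    one_le_pow₀ (by exact_mod_cast h c)
  unfold nm
  rw [Fin.sum_univ_three]
  linarith [h1 0, h1 1, h1 2]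

theorem one_le_w_sin1u (a : ℝ) : 1 ≤ √(1 + 4 * a ^ 2) :=
  Real.le_sqrt_of_sq_le (by nlinarith [sq_nonneg a])

theorem gam_sq_sin1u (a : ℝ) : gam a ^ 2 = (√(1 + 4 * a ^ 2) + 1) / 2 :=
  Real.sq_sqrt (by positivity)

theorem one_le_gam (a : ℝ) : 1 ≤ gam a :=
  Real.le_sqrt_of_sq_le (by linarith [one_le_w_sin1u a])

theorem sig_sq_sin1u (a : ℝ) : (a / gam a) ^ 2 = (√(1 + 4 * a ^ 2) - 1) / 2 := by
  have h1 := one_le_w_sin1u a
  have h2 : √(1 + 4 * a ^ 2) ^ 2 = 1 + 4 * a ^ 2 := Real.sq_sqrt (by positivity)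
  rw [div_pow, gam_sq_sin1u, div_eq_iff (by positivity)]
  linear_combination (-1 / 4 : ℝ) * h2

theorem gam_hyp (a : ℝ) : gam a ^ 2 = 1 + (a / gam a) ^ 2 := by
  rw [sig_sq_sin1u, gam_sq_sin1u]
  ring

theorem gam_mul (a : ℝ) : gam a * (a / gam a) = a := by
  have := one_le_gam a
  field_simp

theorem gam_sq_le (a : ℝ) : gam a ^ 2 ≤ 1 + |a| := by
  have h : √(1 + 4 * a ^ 2) ≤ 1 + 2 * |a| :=
    Real.sqrt_le_iff.2 ⟨by positivity, by nlinarith [abs_nonneg a, sq_abs a]⟩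
  rw [gam_sq_sin1u]
  linarith

theorem sig_sq_le (a : ℝ) : (a / gam a) ^ 2 ≤ a ^ 2 := by
  rw [div_pow]
  exact div_le_self (sq_nonneg a) (one_le_pow₀ (one_le_gam a))

/-- The Bogolyubov coefficients: `√(1 + 4 a ^ 2) = (t + 1) / √(t ^ 2 + 2 t)`. -/
theorem gam_low {t a : ℝ} (ht : 0 < t) (ha : a = -1 / (2 * √(t ^ 2 + 2 * t))) :
    (a / gam a) ^ 2 = gB √t / 2 ∧ (t + 1) * (a / gam a) ^ 2 + a = bog t 1 := by
  have hS : 0 < √(t ^ 2 + 2 * t) := Real.sqrt_pos.2 (by positivity)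
  have hS2 : √(t ^ 2 + 2 * t) ^ 2 = t ^ 2 + 2 * t := Real.sq_sqrt (by positivity)
  rw [sig_sq_sin1u, gB_eq_bog ht]
  unfold bog
  rw [mul_one]
  set S := √(t ^ 2 + 2 * t)
  have hW : √(1 + 4 * a ^ 2) = (1 + t) / S := by
    rw [Real.sqrt_eq_iff_mul_self_eq (by positivity) (by positivity), ha]
    field_simp
    nlinarith [hS2]
  rw [hW]
  refine ⟨rfl, ?_⟩
  rw [ha]
  field_simp
  linear_combination (-1 : ℝ) * hS2

end Pool.Agent.BoseLHY
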