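import Pool.Agent.Lib.MP_dec75e_mp.U.Sin1
import Pool.Agent.Lib.MP_dec75e_mp.L.Par3
import Pool.Agent.Lib.MP_dec75e_mp.L.Grad3
import Pool.Agent.Lib.MP_dec75e_mp.L.Bx

/-! The Dirichlet modes of a box. -/

open MeasureTheory Finset Function
open scoped Real

noncomputable section

namespace Pool.Agent.BoseLHY

open Pool.Agent.BoseTail

namespace Box
variable (B : Box)

theorem es_apply (m : M3) (x : R3) : (B.es m).1 x = ∏ c, sn (m c) (B.ang x c) := rfl

theorem mx_apply (j : Fin 3) (m : M3) (x : R3) :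
    (B.mx j m).1 x = ∏ c, if c = j then cs (m c) (B.ang x c) else sn (m c) (B.ang x c) := rfl

theorem sq_le_two_sin3u {a : ℝ} (h : |a| ≤ √2) : a ^ 2 ≤ 2 := by
  rw [← sq_abs, ← Real.sq_sqrt (by norm_num : (0 : ℝ) ≤ 2)]
  exact pow_le_pow_left₀ (abs_nonneg _) h 2

theorem es_upd_sin3u (j : Fin 3) (m : M3) (x : R3) (t : ℝ) : (B.es m).1 (update x j t) =
    (∏ i ∈ univ.erase j, sn (m i) (π * (x i - B.o i) / B.s i)) *
      sn (m j) (π * (t - B.o j) / B.s j) := by
  rw [mul_comm]
  exact prod_upd_grad3 (fun i u => sn (m i) (π * (u - B.o i) / B.s i)) x j t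

theorem mx_upd_sin3u (j : Fin 3) (m : M3) (x : R3) (t : ℝ) : (B.mx j m).1 (update x j t) =
    (∏ i ∈ univ.erase j, sn (m i) (π * (x i - B.o i) / B.s i)) *
      cs (m j) (π * (t - B.o j) / B.s j) := by
  have h := prod_upd_grad3 (fun i u => if i = j then cs (m i) (π * (u - B.o i) / B.s i)
    else sn (m i) (π * (u - B.o i) / B.s i)) x j t
  rw [if_pos rfl, Finset.prod_congr rfl fun i hi => if_neg (Finset.ne_of_mem_erase hi),
    mul_comm] at h
  exact h

theorem es_sq_le (m : M3) (x : R3) : (B.es m).1 x ^ 2 ≤ 8 := by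
  rw [B.es_apply, ← Finset.prod_pow]
  calc ∏ c, sn (m c) (B.ang x c) ^ 2 ≤ ∏ _c : Fin 3, (2 : ℝ) :=
        Finset.prod_le_prod (fun c _ => sq_nonneg _) fun c _ => sq_le_two_sin3u (abs_sn_le _ _)
    _ = 8 := by norm_num

theorem mx_sq_le (j : Fin 3) (m : M3) (x : R3) : (B.mx j m).1 x ^ 2 ≤ 8 := by
  rw [B.mx_apply, ← Finset.prod_pow]
  calc ∏ c, (if c = j then cs (m c) (B.ang x c) else sn (m c) (B.ang x c)) ^ 2
        ≤ ∏ _c : Fin 3, (2 : ℝ) := by
        refine Finset.prod_le_prod (fun c _ => sq_nonneg _) fun c _ => ?_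
        split_ifs
        · exact sq_le_two_sin3u (abs_cs_le _ _)
        · exact sq_le_two_sin3u (abs_sn_le _ _)
    _ = 8 := by norm_num

theorem es_eq_zero {m : M3} (h : ¬Bulk 0 m) (x : R3) : (B.es m).1 x = 0 := by
  obtain ⟨c, hc⟩ := not_forall.1 h
  have h0 : m c = 0 := by omega
  rw [B.es_apply]
  exact Finset.prod_eq_zero (Finset.mem_univ c) (by rw [h0, sn_zero])

theorem es_orth {m : M3} (h : Bulk 0 m) (m' : M3) :
    ∫ x, (B.es m).1 x * (B.es m').1 x ∂(B.μ : Measure R3) = if m = m' then 1 else 0 := by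
  simp only [B.es_apply, ← Finset.prod_mul_distrib, Box.ang]
  rw [B.integral_prod fun c t => sn (m c) (π * (t - B.o c) / B.s c) *
    sn (m' c) (π * (t - B.o c) / B.s c)]
  rw [Finset.prod_congr rfl fun c _ => orth_sn (B.pos c) (h c) (m' c)]
  exact prod_ite_par3 m m'

theorem orth_es {s : Finset M3} (h : ∀ m ∈ s, Bulk 0 m) : Orth B.μ 1 s B.es := by
  intro m hm m' _
  rw [one_mul]
  exact B.es_orth (h m hm) m'

theorem integral_es_sq (m : M3) : ∫ x, (B.es m).1 x ^ 2 ∂(B.μ : Measure R3) ≤ 1 := by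
  by_cases h : Bulk 0 m
  · have h1 := B.es_orth h m
    rw [if_pos rfl] at h1
    simp only [sq]
    exact h1.le
  · simp only [B.es_eq_zero h]
    simp

theorem mx_orth (j : Fin 3) {m : M3} (h : Bulk 0 m) (m' : M3) :
    ∫ x, (B.mx j m).1 x * (B.mx j m').1 x ∂(B.μ : Measure R3) = if m = m' then 1 else 0 := by
  simp only [B.mx_apply, ← Finset.prod_mul_distrib, Box.ang]
  rw [B.integral_prod fun c t =>
    (if c = j then cs (m c) (π * (t - B.o c) / B.s c) else sn (m c) (π * (t - B.o c) / B.s c)) *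
    (if c = j then cs (m' c) (π * (t - B.o c) / B.s c) else sn (m' c) (π * (t - B.o c) / B.s c))]
  rw [← prod_ite_par3 m m']
  refine Finset.prod_congr rfl fun c _ => ?_
  by_cases hc : c = j
  · simp only [hc, if_true]
    exact orth_cs (B.pos j) (m j) (m' j)
  · simp only [hc, if_false]
    exact orth_sn (B.pos c) (h c) (m' c)

theorem pars_es : Pars (B.μ : Measure R3) fun m => (B.es m).1 := by
  have := fun c => unif_prob (B.o c) (B.pos c)
  exact Pars.pi3 (fun c => unif (B.o c) (B.s c))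
    (e := fun c (m : ℕ) t => sn m (π * (t - B.o c) / B.s c)) fun c => pars_sn (B.pos c)

theorem pars_mx (j : Fin 3) : Pars (B.μ : Measure R3) fun m => (B.mx j m).1 := by
  have := fun c => unif_prob (B.o c) (B.pos c)
  refine Pars.pi3 (fun c => unif (B.o c) (B.s c))
    (e := fun c (m : ℕ) t => if c = j then cs m (π * (t - B.o c) / B.s c)
      else sn m (π * (t - B.o c) / B.s c)) fun c => ?_
  by_cases hc : c = j
  · simp only [hc, if_true]
    exact pars_cs (B.pos j)
  · simp only [hc, if_false]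
    exact pars_sn (B.pos c)

theorem es_deriv (j : Fin 3) (m : M3) (x : R3) :
    HasDerivAt (fun t : ℝ => (B.es m).1 (x + Pi.single j t)) (B.p m j * (B.mx j m).1 x) 0 := by
  have h1 : (fun t : ℝ => (B.es m).1 (x + Pi.single j t)) = fun t =>
      (∏ i ∈ univ.erase j, sn (m i) (π * (x i - B.o i) / B.s i)) *
        sn (m j) (π * (x j + t - B.o j) / B.s j) := by
    funext t
    have h2 : x + Pi.single j t = update x j (x j + t) := by
      rw [← upd_add_grad3, update_eq_self]
    rw [h2, B.es_upd_sin3u]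
  have h2 : (B.mx j m).1 x = (∏ i ∈ univ.erase j, sn (m i) (π * (x i - B.o i) / B.s i)) *
      cs (m j) (π * (x j - B.o j) / B.s j) := by
    rw [← B.mx_upd_sin3u, update_eq_self]
  rw [h1, h2]
  have h3 := (hasDerivAt_sn (o := B.o j) (s := B.s j) (m j) (x j + 0)).comp_const_add (x j) 0
  rw [add_zero] at h3
  refine (h3.const_mul _).congr_deriv ?_
  simp only [Box.p]
  ring

/-- Integration by parts in the direction `j` (compare the proof of `Box.grad_pars`). -/
theorem ibp_mx (j : Fin 3) {f f' : R3 → ℝ} (hf : BM f) (hf' : BM f')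
    (hd : ∀ x, HasDerivAt (fun t : ℝ => f (x + Pi.single j t)) (f' x) 0) (h0 : B.Face j f)
    (m : M3) : ∫ x, (B.mx j m).1 x * f' x ∂(B.μ : Measure R3) =
      B.p m j * ∫ x, (B.es m).1 x * f x ∂(B.μ : Measure R3) := by
  have := fun i => unif_prob (B.o i) (B.pos i)
  rw [mu_coe_bx, integral_update_grad3 _ j ((bmOf (B.mx j m)).mul hf'),
    integral_update_grad3 _ j ((bmOf (B.es m)).mul hf), ← integral_const_mul]
  refine integral_congr_ae (Filter.Eventually.of_forall fun x => ?_)
  have hder : ∀ t, HasDerivAt (fun u => f (update x j u)) (f' (update x j t)) t := by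
    intro t
    have h := hd (update x j t)
    simp only [upd_add_grad3] at h
    have h2 : HasDerivAt (fun u : ℝ => u - t) 1 t := (hasDerivAt_id t).sub_const t
    have h3 : HasDerivAt (fun u : ℝ => f (update x j (t + u))) (f' (update x j t)) (t - t) := by
      rw [sub_self]; exact h
    have h4 := HasDerivAt.comp (h := fun u : ℝ => u - t) t h3 h2
    simp only [mul_one] at h4
    have h5 : ((fun u => f (update x j (t + u))) ∘ fun u => u - t) = fun u => f (update x j u) := by
      funext u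
      simp
    rw [h5] at h4
    exact h4
  have hib := ibp_cs (o := B.o j) (B.pos j) hder (hf'.comp (measurable_update x))
    (h0 _ (Or.inl (update_self ..))) (h0 _ (Or.inr (update_self ..))) (m j)
  simp only [B.es_upd_sin3u, B.mx_upd_sin3u, mul_assoc, integral_const_mul]
  rw [hib]
  simp only [Box.p]
  ring

theorem es_refl (m : M3) (σ : Fin 3 → Fin 3) (x : R3) : (B.es m).1 (B.refl σ x) =
    (∏ c, if σ c = 0 then (1 : ℝ) else -1) * (B.es m).1 x := by
  rw [B.es_apply, B.es_apply, ← Finset.prod_mul_distrib]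
  refine Finset.prod_congr rfl fun c _ => ?_
  have hs := (B.pos c).ne'
  unfold Box.ang Box.refl sn
  split_ifs with h1 h2
  · rw [one_mul]
  · have e : (m c : ℝ) * (π * (2 * B.o c - x c - B.o c) / B.s c) =
        -(m c * (π * (x c - B.o c) / B.s c)) := by ring
    rw [e, Real.sin_neg]
    ring
  · have e : (m c : ℝ) * (π * (2 * (B.o c + B.s c) - x c - B.o c) / B.s c) =
        -(m c * (π * (x c - B.o c) / B.s c)) + (m c : ℕ) * (2 * π) := by
      field_simp
      ring
    rw [e, Real.sin_add_nat_mul_two_pi, Real.sin_neg]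
    ring

end Box

end Pool.Agent.BoseLHY
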