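import Pool.Agent.Lib.MP_dec75e_mp.U.Sin3
import Pool.Agent.Lib.MP_dec75e_mp.U.CoInt

/-! Translation of the box. -/

open MeasureTheory Finset Function
open scoped Real

noncomputable section

namespace Pool.Agent.BoseLHY

open Pool.Agent.BoseTail

theorem mp_translu {B B' : Box} (hs : B'.s = B.s) :
    MeasurePreserving (fun x : R3 => x + (B.o - B'.o)) (B'.μ : Measure R3) (B.μ : Measure R3) := by
  have hv : B'.vol = B.vol := by simp only [Box.vol, hs]
  rw [B.mu_eq, B'.mu_eq, hv]
  refine MeasurePreserving.smul_measure ?_ _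
  have h := (measurePreserving_add_right (volume : Measure R3) (B.o - B'.o)).restrict_preimage
    B.measurableSet_set
  have e : (fun x : R3 => x + (B.o - B'.o)) ⁻¹' B.set = B'.set := by
    ext x
    simp only [Box.set, Set.mem_preimage, Set.mem_pi, Set.mem_univ, true_imp_iff, Set.mem_Ico,
      Pi.add_apply, Pi.sub_apply, hs]
    refine forall_congr' fun c => ?_
    constructor <;> rintro ⟨h1, h2⟩ <;> constructor <;> linarith
  rwa [e] at h

theorem val_translu {B B' : Box} (hs : B'.s = B.s) (x : R3) :
    val B'.es x = val B.es (x + (B.o - B'.o)) := by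
  funext m
  simp only [val, Box.es_apply, Box.ang, hs, Pi.add_apply, Pi.sub_apply]
  refine Finset.prod_congr rfl fun c _ => ?_
  congr 2
  ring

theorem int_translu {B B' : Box} (hs : B'.s = B.s) (f : R3 → ℝ) :
    ∫ x, f (x + (B.o - B'.o)) ∂(B'.μ : Measure R3) = ∫ x, f x ∂(B.μ : Measure R3) :=
  (mp_translu hs).integral_comp (MeasurableEquiv.addRight (B.o - B'.o)).measurableEmbedding f

theorem ii_translu {B B' : Box} (hs : B'.s = B.s) (G : R3 → R3 → ℝ) :
    B'.ii (fun x z => G (x + (B.o - B'.o)) (z + (B.o - B'.o))) = B.ii G := by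
  unfold Box.ii
  rw [← int_translu hs fun x => ∫ z, G x z ∂(B.μ : Measure R3)]
  exact integral_congr_ae (ae_of_all _ fun x => int_translu hs (G (x + (B.o - B'.o))))

/-- The translation `x ↦ x - B.o + B'.o` maps `B.μ` to `B'.μ` and intertwines the modes. -/
theorem BoxOk.transl {K : Co M3} {B B' : Box} {w : BF R3} {ε sb gb E Q : ℝ}
    (h : BoxOk K B w ε sb gb E Q) (hs : B'.s = B.s) : BoxOk K B' w ε sb gb E Q := by
  have hp : B'.p = B.p := by
    funext m c
    simp only [Box.p, hs]
  refine ⟨h.ok, h.bulk, h.r0, h.e0, fun x => ?_, fun x => ?_, ?_, ?_, fun x => ?_, ?_⟩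
  · rw [val_translu hs]; exact h.hs _
  · rw [val_translu hs]; exact h.hg _
  · have := h.en
    rw [← ii_translu hs] at this
    simp only [val_translu hs, hp]
    simpa only [add_sub_add_right_eq_sub] using this
  · have := h.two
    rw [← ii_translu hs] at this
    simpa only [val_translu hs] using this
  · rw [val_translu hs]; exact h.dn _
  · have := h.kk
    rw [← int_translu hs] at this
    simpa only [val_translu hs] using this

end Pool.Agent.BoseLHY
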