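import Pool.Agent.Lib.MP_dec75e_mp.U.TwN
import Pool.Agent.Lib.MP_dec75e_mp.U.FldG
import Pool.Agent.Lib.MP_dec75e_mp.U.FkG

/-! The trial state on the torus. -/

open MeasureTheory Finset Function
open scoped Real

noncomputable section

namespace Pool.Agent.BoseLHY

open Pool.Agent.BoseTail

variable {L : ℝ} [Fact (0 < L)] {C : Type} [Fintype C] [DecidableEq C] {Q : C → Box}

/-- Assemble: `F : Fs R3 (C × M3)` with `ν = (big L).μ`, `z = L ^ 3`, `s = univ ×ˢ K.s`, `e = eG Q`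
(`Ins.orth`), `r = √ρ`; `Fs.exists_vac`, `exists_ps` (with `p = F.Str`), `exists_den`
(`dG K F.cO F.cD = F.dA` by `Fs.dop_eq`), `Fs.trial` with `Ins.reg`, `Ins.orth'`, and `PS.kin`. -/
theorem exists_trial {v : E3 → ℝ} (hv : Continuous v) (hc : HasCompactSupport v) (h : Ins L Q)
    {s ρ ε sb gb E V b : ℝ} (hQ : ∀ k, (Q k).Cube s) {w : BF R3} {W : BF (R3 × R3)}
    (hW : Wper v L Q w b W) {K : Co M3} (hK : K.Ok) (hb : ∀ m ∈ K.s, Bulk 0 m)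
    (hB : ∀ k, BoxOk K (Q k) w ε sb gb E V) (hε : 0 < ε) (hρ : 0 ≤ ρ)
    (hr : K.r ^ 2 = ρ * s ^ 3) :
    ∃ D1 D2 Kin, Den Q K ε sb gb ρ D1 D2 ∧
      Kin ≤ Fintype.card C * K.kn (fun m => sq3 (pk s m)) ∧
      Trial v L (L ^ 3 * ∫ x, D1.1 x ∂((big L).μ : Measure R3))
        ((L ^ 3) ^ 2 * (big L).ii fun x y => D2.1 (x, y))
        (Kin / 2 + (L ^ 3) ^ 2 * ((big L).ii fun x y => W.1 (x, y) * D2.1 (x, y)) / 2) := by
  have hL : 0 < L := Fact.out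
  let F : Fs R3 (C × M3) := ⟨(big L).μ, L ^ 3, by positivity, univ ×ˢ K.s, eG Q, h.orth hb, √ρ,
    fun km => K.γ km.2, fun km => K.σ km.2, fun km => hK.g1 km.2, fun km => hK.hyp km.2⟩
  obtain ⟨Γ, hΓ, hvac, hΓ1⟩ := F.exists_vac
  obtain ⟨Ψ, hΨ, hps, hle⟩ := exists_ps (K := K) F.ccrO hvac F.Str hΓ
    fun km hkm f hf => Fs.str_cD hf hkm
  have hpos : 0 < nq F.β Ψ := by linarith
  have hd : dG K F.cO F.cD = F.dA := F.dop_eq
  have hr' : ∀ k, K.r = √ρ * √(Q k).vol := fun k => by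
    rw [← Real.sqrt_mul hρ, (hQ k).vol, ← hr, Real.sqrt_sq (hB k).r0]
  obtain ⟨D1, D2, hden, h1, h2⟩ := exists_den h hK F.ccrO hr' hε (fun k => (hB k).hs)
    (fun k => (hB k).hg) hps hpos
  rw [hd] at h1 h2
  rw [Real.sq_sqrt hρ] at hden
  have ht := F.trial (e' := eG' Q) (P := fun j km => (Q km.1).p km.2 j ^ 2) hv hc rfl rfl
    (fun km _ => (h.reg km).1) (fun km _ => (h.reg km).2) hW.eq hW.symm hW.nonneg
    (fun j => h.orth' hb j) hΨ hpos h1 h2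
  refine ⟨D1, D2, _, hden, ?_, ht⟩
  have hk := hps.kin F.ccrO (P := fun m => sq3 (pk s m)) fun m _ => Finset.sum_nonneg fun _ _ => sq_nonneg _
  rw [hd] at hk
  rw [div_le_iff₀ hpos]
  refine le_of_eq_of_le (Finset.sum_congr rfl fun km _ => ?_) hk
  rw [(hQ km.1).p_eq]
  rfl

end Pool.Agent.BoseLHY
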