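import Pool.Agent.Lib.MP_dec75e_mp.U.Df
import Pool.Agent.Lib.MP_dec75e_mp.L.Lift2
import Pool.Agent.Lib.MP_dec75e_mp.L.Bx
import Pool.Agent.Lib.MP_dec75e_mp.Per

/-! The periodised potential. -/

open MeasureTheory Finset Function
open scoped Real

noncomputable section

namespace Pool.Agent.BoseLHY

open Pool.Agent.BoseTail

variable {L : ℝ} [Fact (0 < L)]

omit [Fact (0 < L)] in
theorem mem_sbox_wpu {K : ℕ} {l b : ℝ} (h : 0 < l - 2 * b) {k : Fin 3 → Fin K} {x : R3}
    (hx : x ∈ (sbox l b h k).set) (c : Fin 3) :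
    ((k c : ℕ) : ℝ) * l + b ≤ x c ∧ x c < ((k c : ℕ) : ℝ) * l + b + (l - 2 * b) :=
  hx c (Set.mem_univ c)

theorem ins_sbox {K : ℕ} {l b : ℝ} (hb : 0 < b) (h : 0 < l - 2 * b) (hL : L = K * l) :
    Ins L (sbox (K := K) l b h) := by
  have hl : 0 < l := by linarith
  refine ⟨fun k c => ?_, fun k c => ?_, fun k k' x hx hx' => ?_⟩
  · show 0 < ((k c : ℕ) : ℝ) * l + b
    positivity
  · show ((k c : ℕ) : ℝ) * l + b + (l - 2 * b) < L
    have h1 : ((k c : ℕ) : ℝ) + 1 ≤ K := by exact_mod_cast (k c).2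
    nlinarith
  · funext c
    obtain ⟨a1, a2⟩ := mem_sbox_wpu h hx c
    obtain ⟨a3, a4⟩ := mem_sbox_wpu h hx' c
    refine Fin.ext (le_antisymm ?_ ?_)
    · have : ((k c : ℕ) : ℝ) < (k' c : ℕ) + 1 := by nlinarith
      exact Nat.lt_succ_iff.1 (by exact_mod_cast this)
    · have : ((k' c : ℕ) : ℝ) < (k c : ℕ) + 1 := by nlinarith
      exact Nat.lt_succ_iff.1 (by exact_mod_cast this)

theorem vper_wpu {v : E3 → ℝ} (D : Dat) (hw : ∀ z, D.w.1 z = v (WithLp.toLp 2 z))
    (hL : 2 * D.C < L) (z : T3 L) : vper v z = D.w.1 (rep z).ofLp := by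
  have hL0 : 0 < L := Fact.out
  rw [vper, tsum_eq_single 0]
  · rw [hw]
    congr 1
    ext c
    simp
  · intro n hn
    obtain ⟨c, hc⟩ : ∃ c, n c ≠ 0 := Function.ne_iff.mp hn
    have h1 := hw (rep z + (WithLp.toLp 2 fun c => L * (n c : ℝ) : E3)).ofLp
    rw [WithLp.toLp_ofLp] at h1
    rw [← h1]
    refine D.supp _ ?_
    have h5 := norm_le_pi_norm (rep z + (WithLp.toLp 2 fun c => L * (n c : ℝ) : E3)).ofLp c
    have h7 : ‖(rep z + (WithLp.toLp 2 fun c => L * (n c : ℝ) : E3)).ofLp c‖ =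
        |rep z c + L * (n c : ℝ)| := Real.norm_eq_abs _
    obtain ⟨h8, h9⟩ := rep_mem z c
    have h6 : L / 2 ≤ |rep z c + L * (n c : ℝ)| := by
      rcases lt_or_gt_of_ne hc with hc | hc
      · have : (n c : ℝ) ≤ -1 := by exact_mod_cast Int.le_sub_one_of_lt hc
        exact le_abs.mpr (Or.inr (by nlinarith))
      · have : (1 : ℝ) ≤ n c := by exact_mod_cast hc
        exact le_abs.mpr (Or.inl (by nlinarith))
    linarith

theorem vper_norm_wpu {v : E3 → ℝ} (D : Dat) (hw : ∀ z, D.w.1 z = v (WithLp.toLp 2 z))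
    (hL : 2 * D.C < L) (z : T3 L) : vper v z = D.w.1 fun c => ‖z c‖ := by
  rw [vper_wpu D hw hL]
  exact D.ev _ _ fun c => by rw [abs_rep, abs_norm]

omit [Fact (0 < L)] in
theorem norm_coe_wpu (t : ℝ) : ∃ n : ℤ, ‖(t : AddCircle L)‖ = |t - n * L| :=
  ⟨round (L⁻¹ * t), AddCircle.norm_eq L⟩

theorem supp_wpu (D : Dat) {z : R3} {c : Fin 3} (h : D.C < |z c|) : D.w.1 z = 0 :=
  D.supp z (h.trans_le (norm_le_pi_norm z c))

theorem int_rep_wpu (D : Dat) : ∫ z : T3 L, D.w.1 (rep z).ofLp ≤ 8 * D.C ^ 4 := by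
  have h1 : MeasurePreserving
      (fun (z : T3 L) (c : Fin 3) => (AddCircle.equivIco L (-(L / 2)) (z c) : ℝ)) volume
      ((volume : Measure (Fin 3 → ℝ)).restrict
        (Set.univ.pi fun _ => Set.Ico (-(L / 2)) (-(L / 2) + L))) := by
    rw [volume_pi, volume_pi, Measure.restrict_pi_pi]
    exact measurePreserving_pi _ _ fun _ => mp_ico_per (-(L / 2))
  have h2 : MeasurableEmbedding
      (fun (z : T3 L) (c : Fin 3) => (AddCircle.equivIco L (-(L / 2)) (z c) : ℝ)) := by
    refine h1.measurable.measurableEmbedding fun z z' hz => ?_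
    funext c
    exact (AddCircle.equivIco L (-(L / 2))).injective (Subtype.ext (congrFun hz c))
  have h3 := h1.integral_comp h2 D.w.1
  have h4 := setIntegral_le_integral (μ := (volume : Measure R3))
    (s := Set.univ.pi fun _ => Set.Ico (-(L / 2)) (-(L / 2) + L))
    (D.supp.integrable (bmOf D.w)) (Filter.Eventually.of_forall D.w0)
  have h5 := D.supp.integral_abs_le (M := D.C) (by linarith [D.hC]) fun z => by
    rw [abs_of_nonneg (D.w0 z)]; exact D.wC z
  simp only [abs_of_nonneg (D.w0 _)] at h5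
  exact (h3.le.trans h4).trans (h5.trans_eq (by ring))

/-- Since `L ≥ l > 2 C`, only the image in the fundamental cube contributes to the periodised
potential: `vper v z = w (rep z)` (as in `vper_eq`, with the sup norm). Two points of the same box
differ by less than `l - 2 C` in each coordinate; points of different boxes have a coordinate whose
difference is at distance more than `C` from `L ℤ`. -/
theorem exists_wper {v : E3 → ℝ} (hv : Continuous v) (h0 : ∀ x, 0 ≤ v x)
    (hc : HasCompactSupport v) (D : Dat) (hw : ∀ z, D.w.1 z = v (WithLp.toLp 2 z)) {K : ℕ} {l : ℝ}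
    (h : 0 < l - 2 * D.C) (hL : L = K * l) :
    ∃ W, Wper v L (sbox (K := K) l D.C h) D.w (8 * D.C ^ 4) W := by
  have hL0 : 0 < L := Fact.out
  have hC : 0 < D.C := by linarith [D.hC]
  have hl : 0 < l := by linarith
  have hK : (1 : ℝ) ≤ K := by
    rcases Nat.eq_zero_or_pos K with hK | hK
    · rw [hL, hK] at hL0
      simp at hL0
    · exact_mod_cast hK
  have hlL : l ≤ L := by nlinarith
  have hL2 : 2 * D.C < L := by linarith
  have hb := bm_vper (L := L) hv hc
  have hp := (continuous_proj L).measurable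
  have e : ∀ x y : R3, vper v (proj L x - proj L y) =
      D.w.1 fun c => ‖((x c - y c : ℝ) : AddCircle L)‖ := fun x y => by
    rw [vper_norm_wpu D hw hL2]
    rfl
  refine ⟨⟨fun z => vper v (proj L z.1 - proj L z.2),
    BM.comp hb ((hp.comp measurable_fst).sub (hp.comp measurable_snd))⟩, fun x y => rfl,
    fun x y => ?_, fun z => ?_, fun k x hx y hy => ?_, fun k k' hk x hx y hy => ?_, fun x => ?_⟩
  · show vper v (proj L x - proj L y) = vper v (proj L y - proj L x)
    simp only [vper_norm_wpu D hw hL2, Pi.sub_apply, norm_sub_rev (proj L x _)]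
  · show 0 ≤ vper v (proj L z.1 - proj L z.2)
    rw [e]
    exact D.w0 _
  · show vper v (proj L x - proj L y) = _
    rw [e]
    by_cases h1 : ∀ c, ‖((x c - y c : ℝ) : AddCircle L)‖ = |x c - y c|
    · exact D.ev _ _ fun c => by rw [abs_norm, h1, Pi.sub_apply]
    · obtain ⟨c, h2⟩ := not_forall.1 h1
      obtain ⟨a1, a2⟩ := mem_sbox_wpu h hx c
      obtain ⟨a3, a4⟩ := mem_sbox_wpu h hy c
      have h3 : L / 2 < |x c - y c| := by
        by_contra h3
        refine h2 ((AddCircle.norm_coe_eq_abs_iff L hL0.ne').2 ?_)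
        rw [abs_of_pos hL0]
        exact not_lt.1 h3
      obtain ⟨n, hn⟩ := norm_coe_wpu (L := L) (x c - y c)
      have h4 : n ≠ 0 := by
        rintro rfl
        exact h2 (by simpa using hn)
      have h5 : D.C < |x c - y c - n * L| := by
        rcases lt_or_gt_of_ne h4 with h4 | h4
        · have : (n : ℝ) ≤ -1 := by exact_mod_cast Int.le_sub_one_of_lt h4
          exact lt_abs.mpr (Or.inl (by nlinarith))
        · have : (1 : ℝ) ≤ n := by exact_mod_cast h4
          exact lt_abs.mpr (Or.inr (by nlinarith))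
      rw [supp_wpu D (c := c) (by rw [abs_norm, hn]; exact h5),
        supp_wpu D (c := c) (by rw [Pi.sub_apply]; linarith)]
  · show vper v (proj L x - proj L y) = _
    rw [e]
    obtain ⟨c, h2⟩ := Function.ne_iff.1 hk
    obtain ⟨a1, a2⟩ := mem_sbox_wpu h hx c
    obtain ⟨a3, a4⟩ := mem_sbox_wpu h hy c
    obtain ⟨n, hn⟩ := norm_coe_wpu (L := L) (x c - y c)
    refine supp_wpu D (c := c) ?_
    rw [abs_norm, hn, hL]
    have h4 : ((k c : ℕ) : ℤ) - (k' c : ℕ) - n * K ≠ 0 := by
      intro h4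
      have b1 : ((k c : ℕ) : ℤ) < K := by exact_mod_cast (k c).2
      have b2 : ((k' c : ℕ) : ℤ) < K := by exact_mod_cast (k' c).2
      have b3 : ((k c : ℕ) : ℤ) ≠ (k' c : ℕ) := fun b3 => h2 (Fin.ext (by exact_mod_cast b3))
      have b4 : (0 : ℤ) ≤ (k c : ℕ) := Int.natCast_nonneg _
      have b5 : (0 : ℤ) ≤ (k' c : ℕ) := Int.natCast_nonneg _
      rcases lt_trichotomy n 0 with b | b | b
      · nlinarith
      · rw [b] at h4
        omega
      · nlinarith
    rcases lt_or_gt_of_ne h4 with h4 | h4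
    · have : ((k c : ℕ) : ℝ) - (k' c : ℕ) - n * K ≤ -1 := by
        exact_mod_cast Int.le_sub_one_of_lt h4
      exact lt_abs.mpr (Or.inr (by nlinarith))
    · have : (1 : ℝ) ≤ ((k c : ℕ) : ℝ) - (k' c : ℕ) - n * K := by exact_mod_cast h4
      exact lt_abs.mpr (Or.inl (by nlinarith))
  · show L ^ 3 * ∫ y, vper v (proj L x - proj L y) ∂((big L).μ : Measure R3) ≤ _
    have h1 : ∫ y, vper v (proj L x - proj L y) ∂((big L).μ : Measure R3) =
        ∫ z, vper v (proj L x - z) ∂((ENNReal.ofReal L)⁻¹ ^ 3 • volume) := by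
      have hm : Measurable fun z : T3 L => vper v (proj L x - z) :=
        hb.1.comp (measurable_id.const_sub (proj L x))
      rw [← (mp3_lift (L := L)).map_eq, integral_map hp.aemeasurable hm.aestronglyMeasurable]
    rw [h1, integral_smul_measure, smul_eq_mul, ← mul_assoc, ENNReal.toReal_pow,
      ENNReal.toReal_inv, ENNReal.toReal_ofReal hL0.le, ← mul_pow, mul_inv_cancel₀ hL0.ne',
      one_pow, one_mul, integral_sub_left_eq_self (vper v) volume (proj L x)]
    simp only [vper_wpu D hw hL2]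
    exact int_rep_wpu D

end Pool.Agent.BoseLHY
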