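import Pool.Agent.Lib.MP_dec75e_mp.U.Lbd
import Pool.Agent.Lib.MP_dec75e_mp.U.Tri
import Pool.Agent.Lib.MP_dec75e_mp.U.Glob
import Pool.Agent.Lib.MP_dec75e_mp.U.Wp
import Pool.Agent.Lib.MP_dec75e_mp.U.Transl

/-! The upper bound on the torus. -/

open MeasureTheory Finset Function
open scoped Real

noncomputable section

namespace Pool.Agent.BoseLHY

open Pool.Agent.BoseTail

variable {N : ℕ} {L : ℝ} [Fact (0 < L)]

/-- The upper bound on the torus in terms of the bound in one box. The corridors have volume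
`K ^ 3 (l ^ 3 - (l - 2 C) ^ 3) ≤ 6 C l ^ 2 K ^ 3`. -/
theorem torus_ub {v : E3 → ℝ} (hv : Continuous v) (h0 : ∀ x, 0 ≤ v x) (hc : HasCompactSupport v)
    (D : Dat) (hw : ∀ z, D.w.1 z = v (WithLp.toLp 2 z)) {n : ℕ} {l : ℝ} (h : 0 < l - 2 * D.C)
    (hL : L = n * l) {K : Co M3} {ρ ε sb gb E V S E₀ : ℝ}
    (hB : BoxOk K (cube0 (l - 2 * D.C) h) D.w ε sb gb E V) (hρ : 0 ≤ ρ)
    (hr : K.r ^ 2 = ρ * (l - 2 * D.C) ^ 3) (hS : S ≤ n2 K.s K.σ) (hV : 0 ≤ V)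
    (hE : LBd v N L E₀) (hE0 : 0 ≤ E₀) (hN : (N : ℝ) < ρ * L ^ 3 + n ^ 3 * S) :
    E₀ * (1 - (n ^ 3 * V + (ρ * L ^ 3 + n ^ 3 * S)) / (ρ * L ^ 3 + n ^ 3 * S - N) ^ 2) ≤
      n ^ 3 * (E + 8 * D.C ^ 4 * (12 * D.C * ρ ^ 2 * l ^ 2 + ρ)) := by
  have hl : 0 < L := Fact.out
  have hC := D.hC
  obtain ⟨W, hW⟩ := exists_wper (K := n) hv h0 hc D hw h hL
  have hI : Ins L (sbox (K := n) l D.C h) := ins_sbox (by linarith) h hL
  have hQ : ∀ k, (sbox (K := n) l D.C h k).Cube (l - 2 * D.C) := fun _ _ => rfl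
  have hB' : ∀ k, BoxOk K (sbox (K := n) l D.C h k) D.w ε sb gb E V := fun k => hB.transl rfl
  obtain ⟨D1, D2, Kin, hD, hk, ht⟩ := exists_trial hv hc hI hQ hW hB.ok hB.bulk hB' hB.e0 hρ hr
  have hcard : (Fintype.card (Fin 3 → Fin n) : ℝ) = n ^ 3 := by simp
  have e1 := hD.num hI hQ hB.bulk hr
  have e2 := hD.two hI hB'
  have e3 := hD.pot hI hQ hW hB' hρ hr
  rw [hcard] at hk e1 e2 e3
  have hn : (0 : ℝ) ≤ n ^ 3 := by positivity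
  have e4 := ht.cheb hv h0 hc hE hE0 (mul_nonneg hn hV) hN
    (by nlinarith [mul_le_mul_of_nonneg_left hS hn]) e2
  have e5 : L ^ 3 - n ^ 3 * (l - 2 * D.C) ^ 3 ≤ n ^ 3 * (6 * D.C * l ^ 2) := by
    rw [hL, mul_pow, ← mul_sub]
    refine mul_le_mul_of_nonneg_left ?_ hn
    have : 0 ≤ D.C ^ 2 * (12 * l - 8 * D.C) := mul_nonneg (sq_nonneg _) (by linarith)
    nlinarith
  have e6 : 8 * D.C ^ 4 * (2 * ρ ^ 2 * (L ^ 3 - n ^ 3 * (l - 2 * D.C) ^ 3) + ρ * n ^ 3) ≤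
      8 * D.C ^ 4 * (2 * ρ ^ 2 * (n ^ 3 * (6 * D.C * l ^ 2)) + ρ * n ^ 3) := by
    gcongr
  nlinarith

end Pool.Agent.BoseLHY
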