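import Pool.Agent.Lib.MP_dec75e_mp.U.Sin3
import Pool.Agent.Lib.MP_dec75e_mp.L.Lift
import Pool.Agent.Lib.MP_dec75e_mp.Per

/-! The modes as functions on the torus. -/

open MeasureTheory Finset Function
open scoped Real

noncomputable section

namespace Pool.Agent.BoseLHY

open Pool.Agent.BoseTail

variable {L : ℝ} [Fact (0 < L)]

theorem measurable_secT : Measurable (secT (L := L)) := by
  exact measurable_pi_lambda _ fun c => (measurable_ico_per 0).comp (measurable_pi_apply c)

theorem proj_secT (x : T3 L) : proj L (secT x) = x := by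
  funext c
  exact AddCircle.coe_equivIco

theorem secT_proj {x : R3} (hx : x ∈ (big L).set) : secT (proj L x) = x := by
  funext c
  exact AddCircle.equivIco_coe_of_mem (hx c (Set.mem_univ c))

/-- `integral_lift`, and `secT (proj L x) = x` almost everywhere. -/
theorem integral_secT {n : ℕ} {F : (Fin n → R3) → ℝ} (hF : BM F) :
    ∫ X : Cf n L, F (fun i => secT (X i)) =
      (L ^ 3) ^ n * ∫ X, F X ∂(pm fun _ : Fin n => (big L).μ) := by
  have hm : Measurable fun (X : Cf n L) (i : Fin n) => secT (X i) :=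
    measurable_pi_lambda _ fun i => measurable_secT.comp (measurable_pi_apply i)
  have h1 := integral_lift (N := n) (L := L) (hF.comp hm)
  rw [← h1]
  congr 1
  have h2 : ∀ᵐ X ∂pm (bigM n L), ∀ i, X i ∈ (big L).set :=
    ae_all_iff.mpr fun i =>
      (Measure.tendsto_eval_ae_ae (μ := fun i => (bigM n L i : Measure R3)) (i := i)).eventually
        (big L).ae_mem
  refine integral_congr_ae (h2.mono fun X hX => ?_)
  simp only [secT_proj (hX _)]

omit [Fact (0 < L)] in
theorem fib_tw1u (x y : AddCircle L) : {t : ℝ | x + (t : AddCircle L) = y}.Countable := by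
  induction x using QuotientAddGroup.induction_on with
  | H b =>
  induction y using QuotientAddGroup.induction_on with
  | H c =>
  refine (Set.countable_range fun n : ℤ => n • L - b + c).mono fun t ht => ?_
  have h1 : ((b + t - c : ℝ) : AddCircle L) = 0 := by
    rw [AddCircle.coe_sub, AddCircle.coe_add, sub_eq_zero]
    exact ht
  obtain ⟨n, hn⟩ := (AddCircle.coe_eq_zero_iff L).mp h1
  exact ⟨n, by simp only [hn]; ring⟩

/-- One dimension: a continuous function which vanishes outside `[o, o + s] ⊆ (0, L)` and is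
differentiable except at `o` and `o + s`, viewed on the circle (`AddCircle.liftIco_continuous`). -/
theorem circ_reg {φ φ' : ℝ → ℝ} {o s : ℝ} (h0 : 0 < o) (h1 : o + s < L) (hφ : Continuous φ)
    (hz : ∀ t, t < o ∨ o + s < t → φ t = 0) (hd : ∀ t, t ≠ o → t ≠ o + s → HasDerivAt φ (φ' t) t) :
    (Continuous fun x : AddCircle L => φ (AddCircle.equivIco L 0 x)) ∧
      WD (fun t : ℝ => (t : AddCircle L)) (fun x => φ (AddCircle.equivIco L 0 x))
        fun x => φ' (AddCircle.equivIco L 0 x) := by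
  have hL : 0 < L := Fact.out
  refine ⟨AddCircle.liftIco_zero_continuous (f := φ)
    (by rw [hz 0 (Or.inl h0), hz L (Or.inr h1)]) hφ.continuousOn, fun x => ?_⟩
  refine ⟨({t : ℝ | x + (t : AddCircle L) = ((0 : ℝ) : AddCircle L)} ∪
      {t : ℝ | x + (t : AddCircle L) = (o : AddCircle L)}) ∪
      {t : ℝ | x + (t : AddCircle L) = ((o + s : ℝ) : AddCircle L)},
    ((fib_tw1u x _).union (fib_tw1u x _)).union (fib_tw1u x _), fun t ht => ?_⟩
  simp only [Set.mem_union, Set.mem_ofPred_eq, not_or] at ht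
  obtain ⟨⟨ht0, ht1⟩, ht2⟩ := ht
  set y : ℝ := (AddCircle.equivIco L 0 (x + (t : AddCircle L)) : ℝ) with hy
  have hyc : (y : AddCircle L) = x + (t : AddCircle L) := AddCircle.coe_equivIco
  have hym : y ∈ Set.Ico 0 (0 + L) := (AddCircle.equivIco L 0 (x + (t : AddCircle L))).2
  have hy0 : y ≠ 0 := fun h => ht0 (by rw [← hyc, h])
  have hy1 : y ≠ o := fun h => ht1 (by rw [← hyc, h])
  have hy2 : y ≠ o + s := fun h => ht2 (by rw [← hyc, h])
  have hlin : HasDerivAt (fun r : ℝ => y + (r - t)) 1 t :=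
    ((hasDerivAt_id t).sub_const t).const_add y
  have hφy : HasDerivAt φ (φ' y) (y + (t - t)) := by
    rw [sub_self, add_zero]; exact hd y hy1 hy2
  have hc := hφy.comp t hlin
  rw [mul_one] at hc
  refine hc.congr_of_eventuallyEq ?_
  have hop : ∀ᶠ r in nhds t, y + (r - t) ∈ Set.Ioo 0 (0 + L) := by
    refine hlin.continuousAt.eventually (isOpen_Ioo.mem_nhds ?_)
    simp only [sub_self, add_zero]
    exact ⟨lt_of_le_of_ne hym.1 hy0.symm, hym.2⟩
  filter_upwards [hop] with r hr
  have h3 : x + (r : AddCircle L) = ((y + (r - t) : ℝ) : AddCircle L) := by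
    rw [AddCircle.coe_add, AddCircle.coe_sub, hyc]
    abel
  simp only [Function.comp_apply]
  rw [h3, AddCircle.equivIco_coe_of_mem (Set.Ioo_subset_Ico_self hr)]

/-- The truncated sine. -/
def ph_tw1u (o s : ℝ) (m : ℕ) (t : ℝ) : ℝ :=
  (Set.Ico o (o + s)).indicator (fun t => sn m (π * (t - o) / s)) t

/-- The derivative of the truncated sine. -/
def ph1_tw1u (o s : ℝ) (m : ℕ) (t : ℝ) : ℝ :=
  (Set.Ico o (o + s)).indicator (fun t => π * m / s * cs m (π * (t - o) / s)) t

theorem ph_cont_tw1u {o s : ℝ} (hs : 0 < s) (m : ℕ) : Continuous (ph_tw1u o s m) := by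
  have h : ph_tw1u o s m = fun t => sn m (π * (max o (min t (o + s)) - o) / s) := by
    funext t
    unfold ph_tw1u
    by_cases ht : t ∈ Set.Ico o (o + s)
    · rw [Set.indicator_of_mem ht, min_eq_left ht.2.le, max_eq_right ht.1]
    · rw [Set.indicator_of_notMem ht]
      rw [Set.mem_Ico, not_and_or, not_le, not_lt] at ht
      rcases ht with ht | ht
      · rw [min_eq_left (by linarith), max_eq_left ht.le]
        simp [sn]
      · rw [min_eq_right ht, max_eq_right (by linarith)]
        have : π * (o + s - o) / s = π := by field_simp; ring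
        rw [this]
        simp [sn]
  rw [h]
  have := continuous_sn m
  fun_prop

theorem ph_zero_tw1u {o s : ℝ} (m : ℕ) (t : ℝ) (ht : t < o ∨ o + s < t) : ph_tw1u o s m t = 0 := by
  refine Set.indicator_of_notMem (fun h => ?_) _
  rcases ht with ht | ht
  · exact absurd h.1 (not_le.mpr ht)
  · exact absurd h.2 (not_lt.mpr ht.le)

theorem ph_der_tw1u {o s : ℝ} (m : ℕ) (t : ℝ) (h1 : t ≠ o) (h2 : t ≠ o + s) :
    HasDerivAt (ph_tw1u o s m) (ph1_tw1u o s m t) t := by
  by_cases ht : t ∈ Set.Ico o (o + s)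
  · have h3 : ph1_tw1u o s m t = π * m / s * cs m (π * (t - o) / s) := Set.indicator_of_mem ht _
    rw [h3]
    refine (hasDerivAt_sn (o := o) (s := s) m t).congr_of_eventuallyEq ?_
    filter_upwards [Ioo_mem_nhds (lt_of_le_of_ne ht.1 h1.symm) ht.2] with r hr
    exact Set.indicator_of_mem (Set.Ioo_subset_Ico_self hr) _
  · have h3 : ph1_tw1u o s m t = 0 := Set.indicator_of_notMem ht _
    rw [h3]
    refine (hasDerivAt_const t (0 : ℝ)).congr_of_eventuallyEq ?_
    rw [Set.mem_Ico, not_and_or, not_le, not_lt] at ht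
    rcases ht with ht | ht
    · filter_upwards [Iio_mem_nhds ht] with r hr
      exact ph_zero_tw1u m r (Or.inl hr)
    · filter_upwards [Ioi_mem_nhds (lt_of_le_of_ne ht h2.symm)] with r hr
      exact ph_zero_tw1u m r (Or.inr hr)

theorem ph_mem_tw1u {o s t : ℝ} (m : ℕ) (ht : t ∈ Set.Ico o (o + s)) :
    ph_tw1u o s m t = sn m (π * (t - o) / s) := Set.indicator_of_mem ht _

theorem ph1_mem_tw1u {o s t : ℝ} (m : ℕ) (ht : t ∈ Set.Ico o (o + s)) :
    ph1_tw1u o s m t = π * m / s * cs m (π * (t - o) / s) := Set.indicator_of_mem ht _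

theorem ph_not_tw1u {o s t : ℝ} (m : ℕ) (ht : t ∉ Set.Ico o (o + s)) :
    ph_tw1u o s m t = 0 := Set.indicator_of_notMem ht _

theorem es_eq_tw1u (B : Box) (m : M3) (y : R3) : (ext0 B (B.es m)).1 y =
    (√B.vol)⁻¹ * ∏ c, ph_tw1u (B.o c) (B.s c) (m c) (y c) := by
  change (√B.vol)⁻¹ * (B.set.indicator (fun _ => (1 : ℝ)) y * ∏ c, sn (m c) (B.ang y c)) = _
  congr 1
  by_cases hy : y ∈ B.set
  · rw [Set.indicator_of_mem hy, one_mul]
    exact Finset.prod_congr rfl fun c _ => (ph_mem_tw1u (m c) (hy c (Set.mem_univ c))).symm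
  · rw [Set.indicator_of_notMem hy, zero_mul]
    obtain ⟨c, hc⟩ : ∃ c, y c ∉ Set.Ico (B.o c) (B.o c + B.s c) := by
      by_contra hcon
      exact hy fun c _ => by_contra fun hc => hcon ⟨c, hc⟩
    exact (Finset.prod_eq_zero (Finset.mem_univ c) (ph_not_tw1u (m c) hc)).symm

theorem mx_eq_tw1u (B : Box) (j : Fin 3) (m : M3) (y : R3) : (ext0 B (B.p m j • B.mx j m)).1 y =
    (√B.vol)⁻¹ * (ph1_tw1u (B.o j) (B.s j) (m j) (y j) *
      ∏ c ∈ univ.erase j, ph_tw1u (B.o c) (B.s c) (m c) (y c)) := by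
  change (√B.vol)⁻¹ * (B.set.indicator (fun _ => (1 : ℝ)) y * (B.p m j *
    ∏ c, if c = j then cs (m c) (B.ang y c) else sn (m c) (B.ang y c))) = _
  congr 1
  by_cases hy : y ∈ B.set
  · rw [Set.indicator_of_mem hy, one_mul, ← Finset.mul_prod_erase _ _ (Finset.mem_univ j),
      if_pos rfl, ← mul_assoc]
    congr 1
    · exact (ph1_mem_tw1u (m j) (hy j (Set.mem_univ j))).symm
    · refine Finset.prod_congr rfl fun c hc => ?_
      rw [if_neg (Finset.ne_of_mem_erase hc)]
      exact (ph_mem_tw1u (m c) (hy c (Set.mem_univ c))).symm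
  · rw [Set.indicator_of_notMem hy, zero_mul]
    obtain ⟨c, hc⟩ : ∃ c, y c ∉ Set.Ico (B.o c) (B.o c + B.s c) := by
      by_contra hcon
      exact hy fun c _ => by_contra fun hc => hcon ⟨c, hc⟩
    by_cases hcj : c = j
    · subst hcj
      have : ph1_tw1u (B.o c) (B.s c) (m c) (y c) = 0 := Set.indicator_of_notMem hc _
      rw [this, zero_mul]
    · have : ph_tw1u (B.o c) (B.s c) (m c) (y c) = 0 := Set.indicator_of_notMem hc _
      rw [Finset.prod_eq_zero (Finset.mem_erase.mpr ⟨hcj, Finset.mem_univ c⟩) this, mul_zero]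

/-- The modes are products of the functions `indicator [o, o + s) * sn m`. -/
theorem Ins.reg {C : Type} {Q : C → Box} (h : Ins L Q) (km : C × M3) :
    (Continuous fun x : T3 L => (eG Q km).1 (secT x)) ∧ ∀ j,
      WD (d1 j) (fun x : T3 L => (eG Q km).1 (secT x)) fun x => (eG' Q j km).1 (secT x) := by
  obtain ⟨k, m⟩ := km
  have hr := fun c => circ_reg (L := L) (h.lo k c) (h.hi k c) (ph_cont_tw1u ((Q k).pos c) (m c))
    (ph_zero_tw1u (m c)) (ph_der_tw1u (m c))
  simp only [eG, eG', es_eq_tw1u, mx_eq_tw1u]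
  refine ⟨continuous_const.mul (continuous_finsetProd _ fun c _ =>
    (hr c).1.comp (continuous_apply c)), fun j x => ?_⟩
  obtain ⟨T, hT, hd⟩ := (hr j).2 (x j)
  refine ⟨T, hT, fun t ht => ?_⟩
  have hj : ∀ r : ℝ, secT (x + d1 j r) j =
      (AddCircle.equivIco L 0 (x j + (r : AddCircle L)) : ℝ) := fun r => by
    simp [secT, d1]
  have hc : ∀ r : ℝ, ∏ c ∈ univ.erase j,
      ph_tw1u ((Q k).o c) ((Q k).s c) (m c) (secT (x + d1 j r) c) =
      ∏ c ∈ univ.erase j, ph_tw1u ((Q k).o c) ((Q k).s c) (m c) (secT x c) := fun r =>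
    Finset.prod_congr rfl fun c hc => by
      simp [secT, d1, Finset.ne_of_mem_erase hc]
  simp only [← Finset.mul_prod_erase _ _ (Finset.mem_univ j), hc, hj]
  exact ((hd t ht).mul_const _).const_mul _

end Pool.Agent.BoseLHY
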