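import Pool.Agent.Lib.MP_dec75e_mp.U.FkI
import Pool.Agent.Lib.MP_dec75e_mp.U.Moll
import Pool.Agent.Lib.MP_dec75e_mp.U.Tw1

/-! From the Fock space to wave functions on the torus. -/

open MeasureTheory Finset Function
open scoped Real

noncomputable section

namespace Pool.Agent.BoseLHY

open Pool.Agent.BoseTail

variable {L : ℝ} [Fact (0 < L)] {κ : Type} [DecidableEq κ] {F : Fs R3 κ}
  {e' : Fin 3 → κ → BF R3}

/-- Induction on `n`, for all `Ψ ∈ F.Str`: `Ψ (ms X) = r Ψ (ms (tail X)) + ∑ e m (X 0) *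
(dA m Ψ) (ms (tail X))`. -/
theorem Fs.cont_sec (he : ∀ m ∈ F.s, Continuous fun x : T3 L => (F.e m).1 (secT x)) (n : ℕ) :
    ∀ Ψ ∈ F.Str, Continuous fun X : Cf n L => sec Ψ.1 n fun i => secT (X i) := by
  induction n with
  | zero =>
    intro Ψ _
    simp only [sec, ms_zero]
    exact continuous_const
  | succ n ih =>
    intro Ψ h
    have key : ∀ X : Cf (n + 1) L, (sec Ψ.1 (n + 1) fun i => secT (X i)) =
        F.r * (sec Ψ.1 n fun i => secT (X ((0 : Fin (n + 1)).succAbove i))) +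
          ∑ m ∈ F.s, (F.e m).1 (secT (X 0)) *
            (sec (F.dA m Ψ).1 n fun i => secT (X ((0 : Fin (n + 1)).succAbove i))) := by
      intro X
      unfold sec
      rw [ms_eq_cons _ 0, er_succAbove, h, F.fl_apply]
    have hT : Continuous fun (X : Cf (n + 1) L) (i : Fin n) => X ((0 : Fin (n + 1)).succAbove i) :=
      continuous_pi fun i => continuous_apply _
    simp only [key]
    exact (continuous_const.mul ((ih Ψ h).comp hT)).add (continuous_finsetSum _ fun m hm =>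
      ((he m hm).comp (continuous_apply 0)).mul ((ih _ (Fs.str_dA h m)).comp hT))

omit [Fact (0 < L)] in
theorem Fs.gr_eq_twnu (e : κ → BF R3) (Ψ : F.V) {n : ℕ} (X : Fin n → R3) (i : Fin n) :
    F.gr e Ψ X i = ∑ m ∈ F.s, (e m).1 (X i) * (F.dA m Ψ).1 (er X i) := by
  simp only [Fs.gr, lin, val, LinearMap.sum_apply, LinearMap.smul_apply,
    AddSubmonoidClass.coe_finsetSum, Finset.sum_apply, SetLike.val_smul, Pi.smul_apply,
    smul_eq_mul]

theorem secT_dir_twnu {n : ℕ} (X : Cf n L) (i : Fin n) (j : Fin 3) (t : ℝ) :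
    (fun k => secT ((X + dir i j t : Cf n L) k)) =
      update (fun k => secT (X k)) i (secT (X i + d1 j t)) := by
  funext k
  rcases eq_or_ne k i with rfl | hk
  · simp [dir]
  · simp [dir, hk]

/-- `ms_eq_cons`, `er_update`; the exceptional set is the union of those of the modes. -/
theorem Fs.wd_sec (he : ∀ m ∈ F.s, ∀ j, WD (d1 j) (fun x : T3 L => (F.e m).1 (secT x))
    fun x => (e' j m).1 (secT x)) {Ψ : F.V} (h : Ψ ∈ F.Str) {n : ℕ} (i : Fin n) (j : Fin 3) :
    WD (dir i j) (fun X : Cf n L => sec Ψ.1 n fun i => secT (X i))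
      fun X => F.gr (e' j) Ψ (fun i => secT (X i)) i := by
  intro X
  choose! T hT hD using fun m hm => he m hm j (X i)
  refine ⟨⋃ m ∈ F.s, T m, Set.Countable.biUnion F.s.countable_toSet hT, fun t ht => ?_⟩
  simp only [Set.mem_iUnion, not_exists] at ht
  have key : ∀ s : ℝ, (sec Ψ.1 n fun k => secT ((X + dir i j s : Cf n L) k)) =
      F.r * Ψ.1 (er (fun k => secT (X k)) i) + ∑ m ∈ F.s, (F.e m).1 (secT (X i + d1 j s)) *
        (F.dA m Ψ).1 (er (fun k => secT (X k)) i) := by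
    intro s
    unfold sec
    rw [secT_dir_twnu, ms_eq_cons _ i, er_update, update_self, h, F.fl_apply]
  simp only [key]
  rw [secT_dir_twnu, Fs.gr_eq_twnu, er_update, update_self]
  exact (HasDerivAt.fun_sum fun m hm => (hD m hm t (ht m hm)).mul_const _).const_add _

/-- The variational principle in the sector `n`: `LBd.weak`, `integral_secT`, `sum_lt_per`. -/
theorem Fs.sector {v : E3 → ℝ} (hv : Continuous v) (hc : HasCompactSupport v)
    (hν : F.ν = (big L).μ) (hz : F.z = L ^ 3)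
    (he : ∀ m ∈ F.s, Continuous fun x : T3 L => (F.e m).1 (secT x))
    (hd : ∀ m ∈ F.s, ∀ j, WD (d1 j) (fun x : T3 L => (F.e m).1 (secT x))
      fun x => (e' j m).1 (secT x)) {W : BF (R3 × R3)}
    (hW : ∀ x y, W.1 (x, y) = vper v (proj L x - proj L y)) (hs : ∀ x y, W.1 (x, y) = W.1 (y, x))
    {Ψ : F.V} (h : Ψ ∈ F.Str) {n : ℕ} {E : ℝ} (hE : LBd v n L E) :
    E * wt2 F.ν F.z Ψ.1 Ψ.1 n ≤
      (∑ j, F.z ^ n / n.factorial * ∑ i, (∫ X : Fin n → R3,
        F.gr (e' j) Ψ X i ^ 2 ∂(pm fun _ => F.ν))) / 2 +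
      (F.z ^ n / n.factorial * ∫ X : Fin n → R3,
        (∑ i, ∑ j ∈ univ.erase i, W.1 (X i, X j)) * sec Ψ.1 n X ^ 2 ∂(pm fun _ => F.ν)) / 2 := by
  have hm : Measurable fun (X : Cf n L) (i : Fin n) => secT (X i) :=
    measurable_pi_lambda _ fun i => measurable_secT.comp (measurable_pi_apply i)
  have h1 := hE.weak hv hc (u := fun X : Cf n L => sec Ψ.1 n fun i => secT (X i))
    (g := fun i j X => F.gr (e' j) Ψ (fun i => secT (X i)) i) (Fs.cont_sec he n Ψ h)
    (fun σ X => congrArg Ψ.1 (ms_perm (fun i => secT (X i)) σ))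
    (fun i j => (Fs.bm_gr (e' j) Ψ i).comp hm) fun i j => Fs.wd_sec hd h i j
  have b0 : BM (sec Ψ.1 n) := (goodOf Ψ).1 n
  have bW : BM fun X : Fin n → R3 => ∑ i, ∑ j ∈ univ.erase i, W.1 (X i, X j) :=
    BM.sum fun i _ => BM.sum fun j _ =>
      (bmOf W).comp ((measurable_pi_apply i).prodMk (measurable_pi_apply j))
  have e1 := integral_secT (L := L) (b0.pow 2)
  have e2 := fun i j => integral_secT (L := L) ((Fs.bm_gr (F := F) (e' j) Ψ (n := n) i).pow 2)
  have e3 := integral_secT (L := L) (bW.mul (b0.pow 2))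
  have e4 : ∀ X : Cf n L, (∑ i, ∑ j, if i < j then vper v (X i - X j) else 0) *
      (sec Ψ.1 n fun i => secT (X i)) ^ 2 = 1 / 2 *
      ((∑ i, ∑ j ∈ univ.erase i, W.1 (secT (X i), secT (X j))) *
        (sec Ψ.1 n fun i => secT (X i)) ^ 2) := by
    intro X
    rw [← mul_assoc, ← sum_lt_per (g := fun i j => W.1 (secT (X i), secT (X j))) fun i j => hs _ _]
    simp only [hW, proj_secT]
  simp only [e4] at h1
  rw [integral_const_mul, e1, e3] at h1
  simp only [e2] at h1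
  rw [← hν, ← hz, Finset.sum_comm] at h1
  simp only [← Finset.mul_sum] at h1 ⊢
  have hp : (0 : ℝ) < n.factorial := by positivity
  have h2 := mul_le_mul_of_nonneg_left h1 (inv_pos.2 hp).le
  simp only [wt2, ← sq]
  refine le_of_eq_of_le ?_ (h2.trans (le_of_eq ?_))
  · ring
  · ring

/-- A state of the class `Str` is a trial state. -/
theorem Fs.trial {v : E3 → ℝ} (hv : Continuous v) (hc : HasCompactSupport v)
    (hν : F.ν = (big L).μ) (hz : F.z = L ^ 3)
    (he : ∀ m ∈ F.s, Continuous fun x : T3 L => (F.e m).1 (secT x))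
    (hd : ∀ m ∈ F.s, ∀ j, WD (d1 j) (fun x : T3 L => (F.e m).1 (secT x))
      fun x => (e' j m).1 (secT x)) {W : BF (R3 × R3)}
    (hW : ∀ x y, W.1 (x, y) = vper v (proj L x - proj L y)) (hs : ∀ x y, W.1 (x, y) = W.1 (y, x))
    (hW0 : ∀ z, 0 ≤ W.1 z) {P : Fin 3 → κ → ℝ}
    (ho : ∀ j, ∀ m ∈ F.s, ∀ m' ∈ F.s,
      F.z * ∫ x, (e' j m).1 x * (e' j m').1 x ∂(F.ν : Measure R3) = if m = m' then P j m else 0)
    {Ψ : F.V} (h : Ψ ∈ F.Str) (hpos : 0 < nq F.β Ψ) {D1 : BF R3} {D2 : BF (R3 × R3)}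
    (h1 : ∀ x, nq F.β (F.fl x Ψ) = D1.1 x * nq F.β Ψ)
    (h2 : ∀ x y, nq F.β (F.fl y (F.fl x Ψ)) = D2.1 (x, y) * nq F.β Ψ) :
    Trial v L (L ^ 3 * ∫ x, D1.1 x ∂((big L).μ : Measure R3))
      ((L ^ 3) ^ 2 * (big L).ii fun x y => D2.1 (x, y))
      ((∑ m ∈ F.s, (∑ j, P j m) * nq F.β (F.dA m Ψ)) / nq F.β Ψ / 2 +
        (L ^ 3) ^ 2 * ((big L).ii fun x y => W.1 (x, y) * D2.1 (x, y)) / 2) := by
  have hz0 := F.hz
  refine ⟨fun n => wt2 F.ν F.z Ψ.1 Ψ.1 n / nq F.β Ψ, fun n =>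
    ((∑ j, F.z ^ n / n.factorial * ∑ i, (∫ X : Fin n → R3,
        F.gr (e' j) Ψ X i ^ 2 ∂(pm fun _ => F.ν))) / 2 +
      (F.z ^ n / n.factorial * ∫ X : Fin n → R3,
        (∑ i, ∑ j ∈ univ.erase i, W.1 (X i, X j)) * sec Ψ.1 n X ^ 2 ∂(pm fun _ => F.ν)) / 2) /
      nq F.β Ψ, fun n => div_nonneg (wt2_nonneg hz0 n) hpos.le, fun n => ?_, ?_, ?_, ?_, ?_,
    fun n E hE => ?_⟩
  · refine div_nonneg (add_nonneg (div_nonneg (sum_nonneg fun j _ => mul_nonneg (by positivity)
      (sum_nonneg fun i _ => integral_nonneg fun X => sq_nonneg _)) zero_le_two)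
      (div_nonneg (mul_nonneg (by positivity) (integral_nonneg fun X => mul_nonneg
        (sum_nonneg fun i _ => sum_nonneg fun j _ => hW0 _) (sq_nonneg _))) zero_le_two)) hpos.le
  · have := (hasSum_fip Ψ Ψ).div_const (nq F.β Ψ)
    rwa [show fip F.ν F.z F.hz Ψ Ψ / nq F.β Ψ = 1 from div_self hpos.ne'] at this
  · have := (Fs.hasSum_num h).div_const (nq F.β Ψ)
    simp only [h1, integral_mul_const, mul_div_assoc, div_self hpos.ne', mul_one] at this
    rw [← hν, ← hz]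
    exact this
  · have := (Fs.hasSum_num2 h).div_const (nq F.β Ψ)
    simp only [h2, integral_mul_const, mul_div_assoc, div_self hpos.ne', mul_one] at this
    unfold Box.ii
    rw [← hν, ← hz]
    exact this
  · have a1 := hasSum_sum (s := univ) fun j _ => Fs.hasSum_grad Ψ (ho j)
    have a2 := Fs.hasSum_pair h W
    have a3 := ((a1.div_const 2).add (a2.div_const 2)).div_const (nq F.β Ψ)
    simp only [h2, ← mul_assoc (W.1 _), integral_mul_const] at a3
    unfold Box.ii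
    rw [← hν, ← hz]
    refine (congrArg (HasSum _) ?_).mp a3
    rw [Finset.sum_comm]
    simp only [Finset.sum_mul]
    field_simp
  · rw [← mul_div_assoc]
    exact div_le_div_of_nonneg_right (Fs.sector hv hc hν hz he hd hW hs h hE) hpos.le

end Pool.Agent.BoseLHY
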